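import Pool.Agent.H77.TS.Base
import Pool.Agent.H77.TI.Top7

/-!
Primitive soluble permutation groups are affine (coordinates).
-/

namespace Pool.Agent.H77.TS

open Equiv

theorem aff {Ω : Type} [Fintype Ω] [DecidableEq Ω] (K : Subgroup (Perm Ω))
    (hK : Group.IsSolvable K) (h2 : 2 ≤ Fintype.card Ω) (hp : MulAction.IsPreprimitive K Ω) :
    ∃ (q r : ℕ) (_ : Fact q.Prime) (e : Ω ≃ (Fin r → ZMod q)), 1 ≤ r ∧
      Fintype.card Ω = q ^ r ∧ ∀ g ∈ K,
        ∃ (φ : (Fin r → ZMod q) ≃ₗ[ZMod q] (Fin r → ZMod q)) (v : Fin r → ZMod q),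
          ∀ ω, e (g ω) = φ (e ω) + v := by
  classical
  have hnt : Nontrivial Ω := Fintype.one_lt_card_iff_nontrivial.1 (by omega)
  obtain ⟨ω₀⟩ : Nonempty Ω := inferInstance
  have hco : IsCoatom (MulAction.stabilizer K ω₀) :=
    MulAction.IsPreprimitive.isCoatom_stabilizer_of_isPreprimitive K ω₀
  obtain ⟨q, hq, V, iV, iM, iF, e, he⟩ := Pool.Agent.H77.TI.top7 _ hco
  have hbij : Function.Bijective (MulAction.ofQuotientStabilizer K ω₀) := by
    refine ⟨MulAction.injective_ofQuotientStabilizer K ω₀, fun ω => ?_⟩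
    obtain ⟨g, hg⟩ := MulAction.exists_smul_eq K ω₀ ω
    exact ⟨(g : K ⧸ MulAction.stabilizer K ω₀), by
      rw [MulAction.ofQuotientStabilizer_mk, hg]⟩
  let f : (K ⧸ MulAction.stabilizer K ω₀) ≃ Ω := Equiv.ofBijective _ hbij
  have hf : ∀ (g : K) (y), f (g • y) = (g : Perm Ω) (f y) := by
    intro g y
    exact MulAction.ofQuotientStabilizer_smul K ω₀ g y
  have hfs : ∀ (g : K) (ω : Ω), f.symm ((g : Perm Ω) ω) = g • f.symm ω := by
    intro g ω
    rw [Equiv.symm_apply_eq, hf, Equiv.apply_symm_apply]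
  let r := Module.finrank (ZMod q) V
  have hfr : Module.finrank (ZMod q) V = Module.finrank (ZMod q) (Fin r → ZMod q) := by
    rw [Module.finrank_fintype_fun_eq_card, Fintype.card_fin]
  let c : V ≃ₗ[ZMod q] (Fin r → ZMod q) := LinearEquiv.ofFinrankEq V _ hfr
  let E : Ω ≃ (Fin r → ZMod q) := (f.symm.trans e).trans c.toEquiv
  have hcard : Fintype.card Ω = q ^ r := by
    rw [Fintype.card_congr E, Fintype.card_fun, ZMod.card, Fintype.card_fin]
  refine ⟨q, r, hq, E, ?_, hcard, ?_⟩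
  · by_contra h0
    have : r = 0 := by omega
    rw [this, pow_zero] at hcard
    omega
  · intro g hg
    obtain ⟨φ, v, hφ⟩ := he ⟨g, hg⟩
    have hlin : ∀ (a : ZMod q) (x : V), φ (a • x) = a • φ x := by
      intro a x
      exact (AddMonoidHom.toZModLinearMap q (φ : V →+ V)).map_smul a x
    let φ' : V ≃ₗ[ZMod q] V := { φ with map_smul' := hlin }
    refine ⟨(c.symm.trans φ').trans c, c v, fun ω => ?_⟩
    have h1 : e (f.symm (g ω)) = φ (e (f.symm ω)) + v := by
      rw [← hφ, ← hfs ⟨g, hg⟩ ω]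
    change c (e (f.symm (g ω))) = c (φ' (c.symm (c (e (f.symm ω))))) + c v
    rw [h1, map_add, LinearEquiv.symm_apply_apply]
    rfl

/-- the affine representation with a homomorphism -/
theorem aff2 {Ω : Type} [Fintype Ω] [DecidableEq Ω] (K : Subgroup (Perm Ω))
    (hK : Group.IsSolvable K) (h2 : 2 ≤ Fintype.card Ω) (hp : MulAction.IsPreprimitive K Ω) :
    ∃ (q r : ℕ) (_ : Fact q.Prime) (e : Ω ≃ (Fin r → ZMod q))
      (ψ : K →* ((Fin r → ZMod q) ≃ₗ[ZMod q] (Fin r → ZMod q))) (v : K → (Fin r → ZMod q)),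
      1 ≤ r ∧ Fintype.card Ω = q ^ r ∧
        ∀ (g : K) (ω : Ω), e ((g : Perm Ω) ω) = ψ g (e ω) + v g := by
  classical
  obtain ⟨q, r, hq, e, hr, hc, hg⟩ := aff K hK h2 hp
  have hg' : ∀ g : K, ∃ (φ : (Fin r → ZMod q) ≃ₗ[ZMod q] (Fin r → ZMod q))
      (v : Fin r → ZMod q), ∀ ω, e ((g : Perm Ω) ω) = φ (e ω) + v := fun g => hg g.1 g.2
  choose φ v hφ using hg'
  have key : ∀ (g g' : K) (x : Fin r → ZMod q),
      φ (g * g') x + v (g * g') = φ g (φ g' x + v g') + v g := by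
    intro g g' x
    have h1 := hφ (g * g') (e.symm x)
    have h2 := hφ g ((g' : Perm Ω) (e.symm x))
    rw [hφ g' (e.symm x), Equiv.apply_symm_apply] at h2
    rw [Equiv.apply_symm_apply] at h1
    rw [← h1, ← h2]
    rfl
  refine ⟨q, r, hq, e, MonoidHom.mk' φ ?_, v, hr, hc, hφ⟩
  intro g g'
  have h0 := key g g' 0
  rw [map_zero, map_zero, zero_add, zero_add] at h0
  ext1 x
  have h1 := key g g' x
  rw [h0, map_add] at h1
  have h2 : φ (g * g') x + (φ g (v g') + v g) = φ g (φ g' x) + (φ g (v g') + v g) := by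
    rw [h1]; abel
  exact add_right_cancel h2

/-- invariant subspaces are trivial -/
theorem aff_irr {Ω : Type} [Fintype Ω] [DecidableEq Ω] (K : Subgroup (Perm Ω))
    (hp : MulAction.IsPreprimitive K Ω) {q r : ℕ} [Fact q.Prime] (e : Ω ≃ (Fin r → ZMod q))
    (ψ : K →* ((Fin r → ZMod q) ≃ₗ[ZMod q] (Fin r → ZMod q))) (v : K → (Fin r → ZMod q))
    (h : ∀ (g : K) (ω : Ω), e ((g : Perm Ω) ω) = ψ g (e ω) + v g)
    (W : Submodule (ZMod q) (Fin r → ZMod q)) (hW : ∀ g : K, ∀ w ∈ W, ψ g w ∈ W) :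
    W = ⊥ ∨ W = ⊤ := by
  classical
  have hB : MulAction.IsBlock K {ω : Ω | e ω ∈ W} := by
    rw [MulAction.isBlock_iff_smul_eq_or_disjoint]
    intro g
    by_cases hv : v g ∈ W
    · left
      apply Set.Subset.antisymm
      · rintro _ ⟨ω, hω, rfl⟩
        change e ((g : Perm Ω) ω) ∈ W
        rw [h]
        exact W.add_mem (hW g _ hω) hv
      · intro ω hω
        refine ⟨g⁻¹ • ω, ?_, smul_inv_smul g ω⟩
        change e ((g⁻¹ : K) • ω) ∈ W
        have h1 := h g (g⁻¹ • ω)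
        have h2 : (g : Perm Ω) (g⁻¹ • ω) = ω := smul_inv_smul g ω
        rw [h2] at h1
        have h3 : ψ g (e (g⁻¹ • ω)) ∈ W := by
          have : ψ g (e (g⁻¹ • ω)) = e ω - v g := by rw [h1]; abel
          rw [this]
          exact W.sub_mem hω hv
        have h4 := hW g⁻¹ _ h3
        rw [← LinearEquiv.mul_apply, ← map_mul, inv_mul_cancel, map_one] at h4
        exact h4
    · right
      rw [Set.disjoint_left]
      rintro _ ⟨ω, hω, rfl⟩ hω'
      change e ((g : Perm Ω) ω) ∈ W at hω'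
      rw [h] at hω'
      apply hv
      have h5 : v g = (ψ g (e ω) + v g) - ψ g (e ω) := by abel
      rw [h5]
      exact W.sub_mem hω' (hW g _ hω)
  rcases hp.isTrivialBlock_of_isBlock hB with h1 | h1
  · left
    rw [Submodule.eq_bot_iff]
    intro w hw
    have h2 := h1 (show e.symm w ∈ {ω : Ω | e ω ∈ W} by simpa using hw)
      (show e.symm 0 ∈ {ω : Ω | e ω ∈ W} by simp)
    exact e.symm.injective h2
  · right
    rw [Submodule.eq_top_iff']
    intro w
    have h2 : e.symm w ∈ {ω : Ω | e ω ∈ W} := by rw [h1]; trivial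
    simpa using h2

end Pool.Agent.H77.TS
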