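import Mathlib

/-!
Definitions for the alternating case of MP_e29fc4_al: counting elements of prime order in
soluble permutation groups.
-/

namespace Pool.Agent.H77.TS

open Equiv Polynomial

/-- The number of elements `g` of `K` with `g ^ p = 1` which move exactly `p * k` points. -/
noncomputable def nn {Ω : Type} [Fintype Ω] [DecidableEq Ω] (K : Subgroup (Perm Ω))
    (p k : ℕ) : ℕ :=
  Nat.card {g : Perm Ω // g ∈ K ∧ g ^ p = 1 ∧ g.support.card = p * k}

/-- The generating polynomial of the numbers `nn K p k`. -/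
noncomputable def gg {Ω : Type} [Fintype Ω] [DecidableEq Ω] (K : Subgroup (Perm Ω))
    (p : ℕ) : ℕ[X] :=
  ∑ k ∈ Finset.range (Fintype.card Ω + 1), C (nn K p k) * X ^ k

/-- Coefficientwise comparison of polynomials with natural coefficients. -/
def Le (f g : ℕ[X]) : Prop := ∀ k, f.coeff k ≤ g.coeff k

/-- The permutations of `Bl × De` which are in the wreath product of `A` and `B`. -/
def wr {Bl De : Type} (A : Subgroup (Perm De)) (B : Subgroup (Perm Bl)) :
    Set (Perm (Bl × De)) :=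
  {π | ∃ σ ∈ B, ∃ f : Bl → Perm De, (∀ i, f i ∈ A) ∧ ∀ i δ, π (i, δ) = (σ i, f i δ)}

/-- The wreath product polynomial. -/
noncomputable def wp {Bl De : Type} [Fintype Bl] [DecidableEq Bl] [Fintype De] [DecidableEq De]
    (A : Subgroup (Perm De)) (B : Subgroup (Perm Bl)) (p : ℕ) : ℕ[X] :=
  ∑ j ∈ Finset.range (Fintype.card Bl / p + 1), C (nn B p j) *
    ((gg A p) ^ (Fintype.card Bl - p * j) *
      (C (Nat.card A ^ (p - 1)) * X ^ (Fintype.card De)) ^ j)

/-- The three possibilities for a soluble permutation group of degree at least 2. -/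
def Tri {Ω : Type} [Fintype Ω] [DecidableEq Ω] (K : Subgroup (Perm Ω)) : Prop :=
  (∃ (a b : ℕ) (Ω₁ Ω₂ : Type) (_ : Fintype Ω₁) (_ : DecidableEq Ω₁) (_ : Fintype Ω₂)
      (_ : DecidableEq Ω₂) (K₁ : Subgroup (Perm Ω₁)) (K₂ : Subgroup (Perm Ω₂)),
      1 ≤ a ∧ 1 ≤ b ∧ a + b = Fintype.card Ω ∧ Fintype.card Ω₁ = a ∧ Fintype.card Ω₂ = b ∧
      Group.IsSolvable K₁ ∧ Group.IsSolvable K₂ ∧ Nat.card K ≤ Nat.card K₁ * Nat.card K₂ ∧
      ∀ p : ℕ, p.Prime → Le (gg K p) (gg K₁ p * gg K₂ p)) ∨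
  (∃ (a b : ℕ) (De Bl : Type) (_ : Fintype De) (_ : DecidableEq De) (_ : Fintype Bl)
      (_ : DecidableEq Bl) (A : Subgroup (Perm De)) (B : Subgroup (Perm Bl)),
      2 ≤ a ∧ 2 ≤ b ∧ a * b = Fintype.card Ω ∧ Fintype.card De = a ∧ Fintype.card Bl = b ∧
      Group.IsSolvable A ∧ Group.IsSolvable B ∧ Nat.card K ≤ Nat.card A ^ b * Nat.card B ∧
      ∀ p : ℕ, p.Prime → Le (gg K p) (wp A B p)) ∨
  MulAction.IsPreprimitive K Ω

/-- The constant in the bound for the number of elements of order `p`. -/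
def al (p : ℕ) : ℕ := (3 ^ (p - 1) + p - 1) / p

/-- The number of permutations of `m` points with exactly `k` cycles of length `p` and
`m - p * k` fixed points. -/
def cc (m p k : ℕ) : ℕ := m.factorial / ((m - p * k).factorial * p ^ k * k.factorial)

theorem nn_eq_zero {Ω : Type} [Fintype Ω] [DecidableEq Ω] (K : Subgroup (Perm Ω))
    {p k : ℕ} (h : Fintype.card Ω < p * k) : nn K p k = 0 := by
  unfold nn
  rw [Nat.card_eq_zero]
  left
  constructor
  rintro ⟨g, -, -, hg⟩
  have := Finset.card_le_univ g.support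
  omega

theorem coeff_gg {Ω : Type} [Fintype Ω] [DecidableEq Ω] (K : Subgroup (Perm Ω))
    {p : ℕ} (hp : 1 ≤ p) (k : ℕ) : (gg K p).coeff k = nn K p k := by
  unfold gg
  simp only [finset_sum_coeff, coeff_C_mul, coeff_X_pow]
  by_cases hk : k < Fintype.card Ω + 1
  · simp [Finset.mem_range.2 hk]
  · have : nn K p k = 0 := nn_eq_zero K (by nlinarith)
    rw [this]
    apply Finset.sum_eq_zero
    intro i hi
    rw [Finset.mem_range] at hi
    simp
    intro h
    omega

theorem Le.refl (f : ℕ[X]) : Le f f := fun _ => le_rfl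

theorem Le.trans {f g h : ℕ[X]} (h1 : Le f g) (h2 : Le g h) : Le f h :=
  fun k => (h1 k).trans (h2 k)

theorem Le.add {f g f' g' : ℕ[X]} (h1 : Le f f') (h2 : Le g g') : Le (f + g) (f' + g') := by
  intro k
  simp only [coeff_add]
  exact Nat.add_le_add (h1 k) (h2 k)

theorem Le.mul {f g f' g' : ℕ[X]} (h1 : Le f f') (h2 : Le g g') : Le (f * g) (f' * g') := by
  intro k
  simp only [coeff_mul]
  exact Finset.sum_le_sum fun x _ => Nat.mul_le_mul (h1 _) (h2 _)

theorem Le.pow {f f' : ℕ[X]} (h : Le f f') (n : ℕ) : Le (f ^ n) (f' ^ n) := by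
  induction n with
  | zero => simpa using Le.refl _
  | succ n ih => rw [pow_succ, pow_succ]; exact ih.mul h

theorem Le.sum {ι : Type} (s : Finset ι) {f g : ι → ℕ[X]} (h : ∀ i ∈ s, Le (f i) (g i)) :
    Le (∑ i ∈ s, f i) (∑ i ∈ s, g i) := by
  intro k
  simp only [finset_sum_coeff]
  exact Finset.sum_le_sum fun i hi => h i hi k

end Pool.Agent.H77.TS
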