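import Pool.Agent.H77.TS.Base

/-!
[H77 TS CC1] The number of permutations of type p^k (40-60 min).

PROOF. For p prime and k ≥ 1: g^p = 1 and |supp g| = p k iff the cycle type of g is
Multiset.replicate k p (g ≠ 1, all cycle lengths divide p and are ≥ 2, the sum of the cycle type is
|supp g|). Mathlib: Equiv.Perm.card_of_cycleType (or the version with card * prod = factorial):
the number is m! / ((m - p k)! * p^k * k!). cc3: the same theorem in the form with the product
(Equiv.Perm.card_of_cycleType_mul_eq). The count of k = 0 is 1.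
-/

namespace Pool.Agent.H77.TS

open Equiv

private theorem char_iff (m p k : ℕ) (hp : p.Prime) (g : Perm (Fin m)) :
    (g ^ p = 1 ∧ g.support.card = p * k) ↔ g.cycleType = Multiset.replicate k p := by
  haveI : Fact p.Prime := ⟨hp⟩
  constructor
  · rintro ⟨h1, h2⟩
    have h3 := Equiv.Perm.pow_prime_eq_one_iff.1 h1
    have h4 : g.cycleType = Multiset.replicate (Multiset.card g.cycleType) p :=
      Multiset.eq_replicate.2 ⟨rfl, h3⟩
    have h5 := Equiv.Perm.sum_cycleType g
    rw [h4, Multiset.sum_replicate, smul_eq_mul, h2, mul_comm] at h5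
    have h6 := Nat.eq_of_mul_eq_mul_left hp.pos h5
    rw [h4, h6]
  · intro h
    constructor
    · rw [Equiv.Perm.pow_prime_eq_one_iff, h]
      intro c hc
      exact Multiset.eq_of_mem_replicate hc
    · rw [← Equiv.Perm.sum_cycleType, h, Multiset.sum_replicate, smul_eq_mul, mul_comm]

private theorem card_set (m p k : ℕ) (hp : p.Prime) :
    Nat.card {g : Perm (Fin m) // g ^ p = 1 ∧ g.support.card = p * k} =
      (Finset.univ.filter (fun g : Perm (Fin m) =>
        g.cycleType = Multiset.replicate k p)).card := by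
  rw [Nat.card_eq_fintype_card, Fintype.card_subtype]
  congr 1
  ext g
  simp only [Finset.mem_filter, Finset.mem_univ, true_and]
  exact char_iff m p k hp g

private theorem card_mul (m p k : ℕ) (hp : p.Prime) (hk : 1 ≤ k) (h : p * k ≤ m) :
    (Finset.univ.filter (fun g : Perm (Fin m) =>
        g.cycleType = Multiset.replicate k p)).card *
      ((m - p * k).factorial * p ^ k * k.factorial) = m.factorial := by
  have h1 := Equiv.Perm.card_of_cycleType_mul_eq (Fin m) (Multiset.replicate k p)
  have h2 : (Multiset.replicate k p).toFinset = {p} := by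
    rw [Multiset.toFinset_replicate, if_neg (by omega)]
  rw [h2, Finset.prod_singleton, Multiset.count_replicate_self, Multiset.sum_replicate,
    Multiset.prod_replicate, smul_eq_mul, Fintype.card_fin, mul_comm k p] at h1
  rw [h1, if_pos]
  refine ⟨h, ?_⟩
  intro a ha
  rw [Multiset.eq_of_mem_replicate ha]
  exact hp.two_le

private theorem card_eq (m p k : ℕ) (hp : p.Prime) (hk : 1 ≤ k) (h : p * k ≤ m) :
    (Finset.univ.filter (fun g : Perm (Fin m) =>
        g.cycleType = Multiset.replicate k p)).card = cc m p k := by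
  have h1 := card_mul m p k hp hk h
  unfold cc
  have h2 : 0 < (m - p * k).factorial * p ^ k * k.factorial := by
    have := hp.pos
    positivity
  rw [← h1, Nat.mul_div_cancel _ h2]

private theorem cc3aux (m p k : ℕ) (hp : p.Prime) (hk : 1 ≤ k) (h : p * k ≤ m) :
    cc m p k * ((m - p * k).factorial * p ^ k * k.factorial) = m.factorial := by
  rw [← card_eq m p k hp hk h]
  exact card_mul m p k hp hk h

theorem cc1 (m p k : ℕ) (hp : p.Prime) (hk : 1 ≤ k) (h : p * k ≤ m) :
    Nat.card {g : Perm (Fin m) // g ^ p = 1 ∧ g.support.card = p * k} = cc m p k ∧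
      0 < cc m p k := by
  refine ⟨?_, ?_⟩
  · rw [card_set m p k hp, card_eq m p k hp hk h]
  · have h1 := cc3aux m p k hp hk h
    rcases Nat.eq_zero_or_pos (cc m p k) with h2 | h2
    · rw [h2, zero_mul] at h1
      exact absurd h1.symm (Nat.factorial_ne_zero m)
    · exact h2

theorem cc3 (m p k : ℕ) (hp : p.Prime) (hk : 1 ≤ k) (h : p * k ≤ m) :
    cc m p k * ((m - p * k).factorial * p ^ k * k.factorial) = m.factorial :=
  cc3aux m p k hp hk h

/-- all these permutations are conjugate -/
theorem cc2 (m p k : ℕ) (hp : p.Prime) (g g' : Perm (Fin m)) (hg : g ^ p = 1)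
    (hg' : g' ^ p = 1) (h : g.support.card = p * k) (h' : g'.support.card = p * k) :
    ∃ y : Perm (Fin m), y * g * y⁻¹ = g' := by
  have h1 := (char_iff m p k hp g).1 ⟨hg, h⟩
  have h2 := (char_iff m p k hp g').1 ⟨hg', h'⟩
  have h3 : IsConj g g' := Equiv.Perm.isConj_iff_cycleType_eq.2 (h1.trans h2.symm)
  exact isConj_iff.1 h3

end Pool.Agent.H77.TS
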