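import Pool.Agent.H77.TS.Base

/-!
[H77 TS NI1] Two inequalities for the orders of affine groups (40-60 min).

PROOF. Let d = q^r ≥ 5, o = q^r ∏_{i<r} (q^r - q^i). For r = 1: o = d (d - 1), and d (d-1) ≤ 3^(d-1)
for d ≥ 5 (induction), (d (d-1))^3 ≤ 10^(d-1) for d ≥ 5 (20^3 = 8000 ≤ 10^4; induction). For r ≥ 2
use o ≤ d^(r+1) and r ≤ log_2 d, or the exact value for small d: d = 8: 1344 ≤ 3^7 = 2187; d = 9:
432, 432^3 = 80621568 ≤ 10^8; d = 16: 322560 ≤ 3^15; d = 25: 25^3; 27: 27^4, 32: 32^6 = 2^30 ≤ 3^31,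
(2^30)^3 ≤ 10^31; 49, 64 (64^7 = 2^42 ≤ 3^63), ... In general d^(r+1) ≤ 3^(d-1): with 2^r ≤ d it is
enough that r (r+1) log_2 q ≤ (q^r - 1) log_2 3; e.g. for d ≥ 16 use d ≤ 2^s with 2^(s-1) < d,
r + 1 ≤ s + 1, s (s+1) ≤ 3/2 (2^(s-1)) - ... for s ≥ 6, and the finitely many d < 64 by
computation. (Any proof.)
-/

namespace Pool.Agent.H77.TS

/-- The order of the affine group is at most `q ^ (r (r + 1))`. -/
theorem ni1_ord_le (q r : ℕ) :
    q ^ r * ∏ i ∈ Finset.range r, (q ^ r - q ^ i) ≤ q ^ (r * (r + 1)) := by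
  have h : ∏ i ∈ Finset.range r, (q ^ r - q ^ i) ≤ ∏ _i ∈ Finset.range r, q ^ r :=
    Finset.prod_le_prod' fun i _ => Nat.sub_le _ _
  rw [Finset.prod_const, Finset.card_range] at h
  calc q ^ r * ∏ i ∈ Finset.range r, (q ^ r - q ^ i) ≤ q ^ r * (q ^ r) ^ r :=
        Nat.mul_le_mul_left _ h
    _ = q ^ (r * (r + 1)) := by
        rw [← pow_mul, ← pow_add]
        congr 1
        ring

/-- The case `r = 1`. -/
theorem ni1_one (n : ℕ) (hn : 5 ≤ n) : (n * (n - 1)) ^ 3 ≤ 10 ^ (n - 1) := by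
  induction n, hn using Nat.le_induction with
  | base => norm_num
  | succ n hn ih =>
    obtain ⟨m, rfl⟩ : ∃ m, n = m + 5 := ⟨n - 5, by omega⟩
    have e1 : m + 5 - 1 = m + 4 := by omega
    have e2 : m + 5 + 1 - 1 = m + 5 := by omega
    rw [e1] at ih
    rw [e2]
    have h1 : ((m + 5 + 1) * (m + 5)) ^ 3 ≤ 10 * ((m + 5) * (m + 4)) ^ 3 := by
      rw [mul_pow, mul_pow]
      have : (m + 5 + 1) ^ 3 ≤ 10 * (m + 4) ^ 3 := by
        nlinarith [sq_nonneg m, Nat.zero_le m, Nat.zero_le (m ^ 3), Nat.zero_le (m ^ 2)]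
      calc (m + 5 + 1) ^ 3 * (m + 5) ^ 3 ≤ (10 * (m + 4) ^ 3) * (m + 5) ^ 3 :=
            Nat.mul_le_mul_right _ this
        _ = 10 * ((m + 5) ^ 3 * (m + 4) ^ 3) := by ring
    calc ((m + 5 + 1) * (m + 5)) ^ 3 ≤ 10 * ((m + 5) * (m + 4)) ^ 3 := h1
      _ ≤ 10 * 10 ^ (m + 4) := Nat.mul_le_mul_left _ ih
      _ = 10 ^ (m + 5) := by rw [pow_succ' 10 (m + 4)]

theorem ni1_two (r : ℕ) (hr : 5 ≤ r) : r * (r + 1) + 1 ≤ 2 ^ r := by
  induction r, hr using Nat.le_induction with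
  | base => norm_num
  | succ n hn ih =>
    rw [pow_succ]
    nlinarith

theorem ni1_three (r : ℕ) (hr : 3 ≤ r) : 3 * (r * (r + 1)) + 2 ≤ 2 * 3 ^ r := by
  induction r, hr using Nat.le_induction with
  | base => norm_num
  | succ n hn ih =>
    rw [pow_succ]
    nlinarith

theorem ni1_five (s r : ℕ) (hs : 4 ≤ s) (hr : 2 ≤ r) :
    3 * (r * (r + 1)) * s + 5 ≤ 5 * (s + 1) ^ r := by
  induction r, hr using Nat.le_induction with
  | base => nlinarith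
  | succ n hn ih =>
    have h2 : (s + 1) * (3 * (n * (n + 1)) * s + 5) ≤ (s + 1) * (5 * (s + 1) ^ n) :=
      Nat.mul_le_mul_left _ ih
    have h3 : 3 * ((n + 1) * (n + 1 + 1)) * s + 5 ≤ (s + 1) * (3 * (n * (n + 1)) * s + 5) := by
      have h4 : 6 * (n + 1) ≤ 3 * (n * (n + 1)) * s := by
        have : 6 ≤ 3 * n * s := by nlinarith
        calc 6 * (n + 1) ≤ (3 * n * s) * (n + 1) := Nat.mul_le_mul_right _ this
          _ = 3 * (n * (n + 1)) * s := by ring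
      have h5 := Nat.mul_le_mul_left s h4
      nlinarith
    calc 3 * ((n + 1) * (n + 1 + 1)) * s + 5 ≤ (s + 1) * (3 * (n * (n + 1)) * s + 5) := h3
      _ ≤ (s + 1) * (5 * (s + 1) ^ n) := h2
      _ = 5 * (s + 1) ^ (n + 1) := by ring

theorem ni1_pow5 (s : ℕ) (hs : 4 ≤ s) : (s + 1) ^ 5 ≤ 10 ^ s := by
  induction s, hs using Nat.le_induction with
  | base => norm_num
  | succ n hn ih =>
    have h1 : (n + 1 + 1) ^ 5 ≤ 10 * (n + 1) ^ 5 := by
      obtain ⟨m, rfl⟩ : ∃ m, n = m + 4 := ⟨n - 4, by omega⟩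
      have e : 10 * (m + 4 + 1) ^ 5 = (m + 4 + 1 + 1) ^ 5 + (9 * m ^ 5 + 220 * m ^ 4 + 2140 * m ^ 3
          + 10340 * m ^ 2 + 24770 * m + 23474) := by ring
      rw [e]
      exact Nat.le_add_right _ _
    calc (n + 1 + 1) ^ 5 ≤ 10 * (n + 1) ^ 5 := h1
      _ ≤ 10 * 10 ^ n := Nat.mul_le_mul_left _ ih
      _ = 10 ^ (n + 1) := by rw [pow_succ' 10 n]

/-- The order is recovered from the bound on its cube, unless `d = 8` or `16`. -/
theorem ni1_pp (q r a : ℕ) (hq : q.Prime) (h : q ^ r = 2 ^ a) (ha : 1 ≤ a) : q = 2 ∧ r = a := by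
  have h2 : 2 ∣ q ^ r := by
    rw [h]
    exact dvd_pow_self 2 (by omega)
  have h3 : 2 ∣ q := Nat.prime_two.dvd_of_dvd_pow h2
  have h4 : q = 2 := ((Nat.prime_dvd_prime_iff_eq Nat.prime_two hq).mp h3).symm
  subst h4
  exact ⟨rfl, Nat.pow_right_injective le_rfl h⟩

theorem ni1_cube (q r : ℕ) (hq : q.Prime) (hr : 1 ≤ r) (h5 : 5 ≤ q ^ r) (h8 : q ^ r ≠ 8)
    (h16 : q ^ r ≠ 16) :
    (q ^ r * ∏ i ∈ Finset.range r, (q ^ r - q ^ i)) ^ 3 ≤ 10 ^ (q ^ r - 1) := by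
  rcases Nat.lt_or_ge r 2 with h1 | h2
  · obtain rfl : r = 1 := by omega
    rw [pow_one] at h5
    simp only [pow_one, Finset.prod_range_one, pow_zero]
    exact ni1_one q h5
  have hord := Nat.pow_le_pow_left (ni1_ord_le q r) 3
  rcases Nat.lt_or_ge q 5 with hq5 | hq5
  · have hq2 := hq.two_le
    rcases (show q = 2 ∨ q = 3 ∨ q = 4 by omega) with rfl | rfl | rfl
    · have hr5 : 5 ≤ r := by
        by_contra hlt
        have : r = 2 ∨ r = 3 ∨ r = 4 := by omega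
        rcases this with rfl | rfl | rfl
        · exact absurd h5 (by norm_num)
        · exact h8 (by norm_num)
        · exact h16 (by norm_num)
      refine hord.trans ?_
      rw [← pow_mul, mul_comm, pow_mul]
      calc (2 ^ 3) ^ (r * (r + 1)) ≤ 10 ^ (r * (r + 1)) := Nat.pow_le_pow_left (by norm_num) _
        _ ≤ 10 ^ (2 ^ r - 1) := Nat.pow_le_pow_right (by norm_num) (by have := ni1_two r hr5; omega)
    · rcases Nat.lt_or_ge r 3 with h3 | h3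
      · obtain rfl : r = 2 := by omega
        decide +kernel
      refine hord.trans ?_
      obtain ⟨m, hm⟩ : ∃ m, r * (r + 1) = 2 * m := (Nat.even_mul_succ_self r).two_dvd
      have h33 := ni1_three r h3
      rw [hm] at h33 ⊢
      rw [← pow_mul]
      calc 3 ^ (2 * m * 3) = (3 ^ 6) ^ m := by rw [← pow_mul]; congr 1; omega
        _ ≤ (10 ^ 3) ^ m := Nat.pow_le_pow_left (by norm_num) _
        _ = 10 ^ (3 * m) := by rw [← pow_mul]
        _ ≤ 10 ^ (3 ^ r - 1) := Nat.pow_le_pow_right (by norm_num) (by omega)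
    · exact absurd hq (by norm_num)
  · refine hord.trans ?_
    obtain ⟨s, rfl⟩ : ∃ s, q = s + 1 := ⟨q - 1, by omega⟩
    have hs : 4 ≤ s := by omega
    have h1 := ni1_pow5 s hs
    have h3 := ni1_five s r hs h2
    rw [← Nat.pow_le_pow_iff_left (show (5 : ℕ) ≠ 0 by norm_num)]
    calc (((s + 1) ^ (r * (r + 1))) ^ 3) ^ 5 = ((s + 1) ^ 5) ^ (3 * (r * (r + 1))) := by
          rw [← pow_mul, ← pow_mul, ← pow_mul]
          congr 1
          ring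
      _ ≤ (10 ^ s) ^ (3 * (r * (r + 1))) := Nat.pow_le_pow_left h1 _
      _ = 10 ^ (3 * (r * (r + 1)) * s) := by rw [← pow_mul, mul_comm]
      _ ≤ 10 ^ (((s + 1) ^ r - 1) * 5) := Nat.pow_le_pow_right (by norm_num) (by omega)
      _ = (10 ^ ((s + 1) ^ r - 1)) ^ 5 := by rw [pow_mul]

theorem ni1 (q r : ℕ) (hq : q.Prime) (hr : 1 ≤ r) (h5 : 5 ≤ q ^ r) :
    q ^ r * ∏ i ∈ Finset.range r, (q ^ r - q ^ i) ≤ 3 ^ (q ^ r - 1) := by
  by_cases h8 : q ^ r = 8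
  · obtain ⟨rfl, rfl⟩ := ni1_pp q r 3 hq (by rw [h8]; norm_num) (by norm_num)
    decide +kernel
  by_cases h16 : q ^ r = 16
  · obtain ⟨rfl, rfl⟩ := ni1_pp q r 4 hq (by rw [h16]; norm_num) (by norm_num)
    decide +kernel
  have h := ni1_cube q r hq hr h5 h8 h16
  rw [← Nat.pow_le_pow_iff_left (show (3 : ℕ) ≠ 0 by norm_num)]
  calc (q ^ r * ∏ i ∈ Finset.range r, (q ^ r - q ^ i)) ^ 3 ≤ 10 ^ (q ^ r - 1) := h
    _ ≤ (3 ^ 3) ^ (q ^ r - 1) := Nat.pow_le_pow_left (by norm_num) _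
    _ = (3 ^ (q ^ r - 1)) ^ 3 := by rw [← pow_mul, ← pow_mul, mul_comm]

theorem ni2 (q r : ℕ) (hq : q.Prime) (hr : 1 ≤ r) (h5 : 5 ≤ q ^ r) (h8 : q ^ r ≠ 8)
    (h16 : q ^ r ≠ 16) :
    (q ^ r * ∏ i ∈ Finset.range r, (q ^ r - q ^ i)) ^ 3 ≤ 10 ^ (q ^ r - 1) := by
  exact ni1_cube q r hq hr h5 h8 h16

end Pool.Agent.H77.TS
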