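import Pool.Agent.H77.TS.Base

/-!
[H77 TS NI3] The inequality for primitive groups (75-100 min).

al p = ceil (3^(p-1) / p) ≥ 3^(p-1) / p. Let d = q^r, o = q^r ∏_{i<r} (q^r - q^i) ≤ d^(r+1).
General estimate (*): al p ^ k * choose (d-1) k ≥ (3^(p-1) (d-1) / (p k))^k (choose (n) k ≥ (n/k)^k).
As p k ≤ d: (d-1)/(p k) ≥ 1 - 1/d, (1 - 1/d)^k ≥ 1 - k/d ≥ 1/2, so it is ≥ 3^((p-1) k) / 2.
r = 1: d = q ≥ 5 prime, o = d (d-1), p k = d or d - 1 (f = 0). p k = d: p = d, k = 1: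
al d * (d-1) ≥ d (d-1) as 3^(d-1) ≥ d^2. p k = d - 1: p = 2: 2^k choose (2k) k ≥ (2k+1)(2k) for
k ≥ 2 (24 ≥ 20; induction, choose (2k) k ≥ 2^k); p ≥ 3: (p-1) k ≥ 2(d-1)/3, 3^(2(d-1)/3)/2 ≥
d (d-1) for d ≥ 11, and d = 7: p = 3, k = 2: 9 * 15 = 135 ≥ 42 (d = 5: none).
r ≥ 2: p k ≥ d - q^(r-1) ≥ d/2 in both cases, so (p-1) k ≥ p k / 2 ≥ d/4 and (*) gives
3^(d/4) / 2 ≥ d^(r+1) for d ≥ 160 (q^r ≤ 2^s...), and all prime powers d = q^r with r ≥ 2, 25 ≤ d <
160: 25, 27, 32, 49, 64, 81, 121, 125, 128 by computation of all (p, k) (decide / norm_num, with the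
exact order o). For d ≥ 160: d^(r+1) ≤ 3^(d/4)/2: with L = log_2 d ≥ 7.3, r ≤ L:
L (L + 1) ≤ 0.396 * 2^L - 1. A convenient way: 2^s ≤ d < 2^(s+1), r ≤ s, d^(r+1) ≤ 2^((s+1)^2),
3^(d/4)/2 ≥ 2^(1.5 * 2^s / 4 - 1) = 2^(3 * 2^(s-3) - 1), good for s ≥ 8 ((s+1)^2 = 81 ≤ 95); the
range 160 ≤ d < 256: prime powers with r ≥ 2: 169, 243: by computation.
-/

namespace Pool.Agent.H77.TS

/-- The order of the affine group is at most `q ^ (r (r + 1))`. -/
theorem ni3_ord_le (q r : ℕ) :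
    q ^ r * ∏ i ∈ Finset.range r, (q ^ r - q ^ i) ≤ q ^ (r * (r + 1)) := by
  have h : ∏ i ∈ Finset.range r, (q ^ r - q ^ i) ≤ ∏ _i ∈ Finset.range r, q ^ r :=
    Finset.prod_le_prod' fun i _ => Nat.sub_le _ _
  rw [Finset.prod_const, Finset.card_range] at h
  calc q ^ r * ∏ i ∈ Finset.range r, (q ^ r - q ^ i) ≤ q ^ r * (q ^ r) ^ r :=
        Nat.mul_le_mul_left _ h
    _ = q ^ (r * (r + 1)) := by
        rw [← pow_mul, ← pow_add]
        congr 1
        ring

/-- `choose (p k) k ≥ p ^ k`. -/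
theorem ni3_choose (p k : ℕ) (hp : 1 ≤ p) : p ^ k ≤ (p * k).choose k := by
  have h1 : p ^ k * k.factorial ≤ (p * k).descFactorial k := by
    rw [← Nat.descFactorial_self, Nat.descFactorial_eq_prod_range, Nat.descFactorial_eq_prod_range,
      ← Finset.card_range k, ← Finset.prod_const, Finset.card_range, ← Finset.prod_mul_distrib]
    refine Finset.prod_le_prod' fun i hi => ?_
    rw [Finset.mem_range] at hi
    rw [Nat.mul_sub]
    have : i ≤ p * i := Nat.le_mul_of_pos_left i hp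
    omega
  rw [Nat.descFactorial_eq_factorial_mul_choose, mul_comm] at h1
  exact Nat.le_of_mul_le_mul_left h1 (Nat.factorial_pos k)

/-- `3 ^ (p - 1) ≤ al p * p`. -/
theorem ni3_al (p : ℕ) (hp : 1 ≤ p) : 3 ^ (p - 1) ≤ al p * p := by
  unfold al
  have h := Nat.lt_div_mul_add (a := 3 ^ (p - 1) + p - 1) hp
  omega

/-- `3 ^ ((p - 1) k) ≤ al p ^ k * choose (p k) k`. -/
theorem ni3_star (p k : ℕ) (hp : 1 ≤ p) : 3 ^ ((p - 1) * k) ≤ al p ^ k * (p * k).choose k := by
  calc 3 ^ ((p - 1) * k) = (3 ^ (p - 1)) ^ k := by rw [pow_mul]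
    _ ≤ (al p * p) ^ k := Nat.pow_le_pow_left (ni3_al p hp) k
    _ = al p ^ k * p ^ k := mul_pow _ _ _
    _ ≤ al p ^ k * (p * k).choose k := Nat.mul_le_mul_left _ (ni3_choose p k hp)

/-- `3 ^ ((p - 1) k) ≤ 2 al p ^ k * choose (d - 1) k` for `p k ≤ d`. -/
theorem ni3_star2 (p k d : ℕ) (hp : 2 ≤ p) (hk : 1 ≤ k) (hd : p * k ≤ d) :
    3 ^ ((p - 1) * k) ≤ 2 * (al p ^ k * (d - 1).choose k) := by
  have h1 : (p * k).choose k ≤ 2 * (d - 1).choose k := by
    have hpk : 1 ≤ p * k := Nat.mul_pos (by omega) hk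
    have h2 := Nat.choose_mul_succ_eq (p * k - 1) k
    have e : p * k - 1 + 1 = p * k := by omega
    rw [e] at h2
    have h3 : (p * k - 1).choose k ≤ (d - 1).choose k := Nat.choose_le_choose k (by omega)
    have h4 : p * k ≤ 2 * (p * k - k) := by
      have : 2 * k ≤ p * k := Nat.mul_le_mul_right k hp
      omega
    refine le_trans ?_ (Nat.mul_le_mul_left 2 h3)
    have h5 : (p * k).choose k * (p * k) ≤ (2 * (p * k - 1).choose k) * (p * k) := by
      calc (p * k).choose k * (p * k) ≤ (p * k).choose k * (2 * (p * k - k)) :=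
            Nat.mul_le_mul_left _ h4
        _ = 2 * ((p * k).choose k * (p * k - k)) := by ring
        _ = 2 * ((p * k - 1).choose k * (p * k)) := by rw [h2]
        _ = (2 * (p * k - 1).choose k) * (p * k) := by ring
    exact Nat.le_of_mul_le_mul_right h5 hpk
  calc 3 ^ ((p - 1) * k) ≤ al p ^ k * (p * k).choose k := ni3_star p k (by omega)
    _ ≤ al p ^ k * (2 * (d - 1).choose k) := Nat.mul_le_mul_left _ h1
    _ = 2 * (al p ^ k * (d - 1).choose k) := by ring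

/-- The general case: it is enough that `(2 o) ^ 4 ≤ 3 ^ d`. -/
theorem ni3_gen (q r p k : ℕ) (hq : 2 ≤ q) (hr : 1 ≤ r) (hp : 2 ≤ p) (hk : 1 ≤ k)
    (hs : p * k = q ^ r ∨ ∃ f < r, p * k = q ^ r - q ^ f)
    (h : 16 * q ^ (4 * (r * (r + 1))) ≤ 3 ^ (q ^ r)) :
    q ^ r * ∏ i ∈ Finset.range r, (q ^ r - q ^ i) ≤ al p ^ k * (q ^ r - 1).choose k := by
  have hdk : p * k ≤ q ^ r := by
    rcases hs with h | ⟨f, hf, h⟩
    · exact h.le
    · rw [h]; exact Nat.sub_le _ _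
  have hpk : q ^ r ≤ 2 * (p * k) := by
    rcases hs with h | ⟨f, hf, h⟩
    · omega
    · have h1 : 2 * q ^ f ≤ q ^ r := by
        calc 2 * q ^ f ≤ q * q ^ f := Nat.mul_le_mul_right _ hq
          _ = q ^ (f + 1) := by rw [pow_succ']
          _ ≤ q ^ r := Nat.pow_le_pow_right (by omega) hf
      omega
  have hd : q ^ r ≤ 4 * ((p - 1) * k) := by
    obtain ⟨s, rfl⟩ : ∃ s, p = s + 1 := ⟨p - 1, by omega⟩
    rw [Nat.add_sub_cancel]
    have : k ≤ s * k := Nat.le_mul_of_pos_left k (by omega)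
    rw [add_mul, one_mul] at hpk
    omega
  have h2 := ni3_star2 p k (q ^ r) hp hk hdk
  have h3 : (2 * (q ^ r * ∏ i ∈ Finset.range r, (q ^ r - q ^ i))) ^ 4
      ≤ (2 * (al p ^ k * (q ^ r - 1).choose k)) ^ 4 := by
    calc (2 * (q ^ r * ∏ i ∈ Finset.range r, (q ^ r - q ^ i))) ^ 4
        ≤ (2 * q ^ (r * (r + 1))) ^ 4 :=
          Nat.pow_le_pow_left (Nat.mul_le_mul_left _ (ni3_ord_le q r)) 4
      _ = 16 * q ^ (4 * (r * (r + 1))) := by
          rw [mul_pow, ← pow_mul, mul_comm (r * (r + 1)) 4]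
          norm_num
      _ ≤ 3 ^ (q ^ r) := h
      _ ≤ 3 ^ (4 * ((p - 1) * k)) := Nat.pow_le_pow_right (by norm_num) hd
      _ = (3 ^ ((p - 1) * k)) ^ 4 := by rw [← pow_mul, mul_comm 4]
      _ ≤ (2 * (al p ^ k * (q ^ r - 1).choose k)) ^ 4 := Nat.pow_le_pow_left h2 4
  have h4 := (Nat.pow_le_pow_iff_left (show (4 : ℕ) ≠ 0 by norm_num)).mp h3
  omega

/-- The check of the small cases. -/
def ni3Check (q r : ℕ) : Bool :=
  ((List.range (q ^ r + 1)).all fun p => decide (2 ≤ p → p = 2 ∨ p % 2 = 1 → q ^ r % p = 0 →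
    (q ^ r * ∏ i ∈ Finset.range r, (q ^ r - q ^ i)) * (q ^ r / p).factorial
      ≤ al p ^ (q ^ r / p) * (q ^ r - 1).descFactorial (q ^ r / p))) &&
  ((List.range r).all fun f => (List.range (q ^ r + 1)).all fun p =>
    decide (2 ≤ p → p = 2 ∨ p % 2 = 1 → (q ^ r - q ^ f) % p = 0 →
    (q ^ r * ∏ i ∈ Finset.range r, (q ^ r - q ^ i)) * ((q ^ r - q ^ f) / p).factorial
      ≤ al p ^ ((q ^ r - q ^ f) / p) * (q ^ r - 1).descFactorial ((q ^ r - q ^ f) / p)))

theorem ni3_check (q r p k : ℕ) (hc : ni3Check q r = true) (hpp : p.Prime) (hk : 1 ≤ k)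
    (hs : p * k = q ^ r ∨ ∃ f < r, p * k = q ^ r - q ^ f) :
    q ^ r * ∏ i ∈ Finset.range r, (q ^ r - q ^ i) ≤ al p ^ k * (q ^ r - 1).choose k := by
  have hp := hpp.two_le
  unfold ni3Check at hc
  rw [Bool.and_eq_true, List.all_eq_true, List.all_eq_true] at hc
  have hle : p ≤ q ^ r := by
    have : p ≤ p * k := Nat.le_mul_of_pos_right p hk
    rcases hs with h | ⟨f, hf, h⟩
    · omega
    · omega
  have key : (q ^ r * ∏ i ∈ Finset.range r, (q ^ r - q ^ i)) * k.factorial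
      ≤ al p ^ k * (q ^ r - 1).descFactorial k := by
    rcases hs with h | ⟨f, hf, h⟩
    · have h1 := of_decide_eq_true (hc.1 p (List.mem_range.mpr (by omega))) hp
        hpp.eq_two_or_odd
        (by rw [← h, Nat.mul_mod_right])
      rwa [← h, Nat.mul_div_cancel_left k (by omega), h] at h1
    · have h1 := hc.2 f (List.mem_range.mpr hf)
      rw [List.all_eq_true] at h1
      have h2 := of_decide_eq_true (h1 p (List.mem_range.mpr (by omega))) hp
        hpp.eq_two_or_odd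
        (by rw [← h, Nat.mul_mod_right])
      rwa [← h, Nat.mul_div_cancel_left k (by omega)] at h2
  rw [Nat.descFactorial_eq_factorial_mul_choose, mul_left_comm, mul_comm] at key
  exact Nat.le_of_mul_le_mul_left key (Nat.factorial_pos k)

theorem ni3_n2 (r : ℕ) (hr : 8 ≤ r) : 8 * (r * (r + 1)) + 8 ≤ 3 * 2 ^ r := by
  induction r, hr using Nat.le_induction with
  | base => norm_num
  | succ n hn ih =>
    rw [pow_succ]
    nlinarith

theorem ni3_n3 (r : ℕ) (hr : 5 ≤ r) : 3 + 4 * (r * (r + 1)) ≤ 3 ^ r := by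
  induction r, hr using Nat.le_induction with
  | base => norm_num
  | succ n hn ih =>
    rw [pow_succ]
    nlinarith

theorem ni3_n5 (r : ℕ) (hr : 3 ≤ r) : 3 + 6 * (r * (r + 1)) ≤ 5 ^ r := by
  induction r, hr using Nat.le_induction with
  | base => norm_num
  | succ n hn ih =>
    rw [pow_succ]
    nlinarith

theorem ni3_n7 (s r : ℕ) (hs : 6 ≤ s) (hr : 2 ≤ r) :
    26 + 12 * (r * (r + 1)) * s ≤ 10 * (s + 1) ^ r := by
  induction r, hr using Nat.le_induction with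
  | base => nlinarith
  | succ n hn ih =>
    have h2 : (s + 1) * (26 + 12 * (n * (n + 1)) * s) ≤ (s + 1) * (10 * (s + 1) ^ n) :=
      Nat.mul_le_mul_left _ ih
    have h3 : 26 + 12 * ((n + 1) * (n + 1 + 1)) * s ≤ (s + 1) * (26 + 12 * (n * (n + 1)) * s) := by
      have h4 : 24 * (n + 1) ≤ 12 * (n * (n + 1)) * s := by
        have : 24 ≤ 12 * n * s := by nlinarith
        calc 24 * (n + 1) ≤ (12 * n * s) * (n + 1) := Nat.mul_le_mul_right _ this
          _ = 12 * (n * (n + 1)) * s := by ring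
      have h5 := Nat.mul_le_mul_left s h4
      nlinarith
    calc 26 + 12 * ((n + 1) * (n + 1 + 1)) * s ≤ (s + 1) * (26 + 12 * (n * (n + 1)) * s) := h3
      _ ≤ (s + 1) * (10 * (s + 1) ^ n) := h2
      _ = 10 * (s + 1) ^ (n + 1) := by ring

theorem ni3_pow10 (s : ℕ) (hs : 6 ≤ s) : (s + 1) ^ 10 ≤ 27 ^ s := by
  induction s, hs using Nat.le_induction with
  | base => norm_num
  | succ n hn ih =>
    have h1 : 7 * (n + 1 + 1) ≤ 8 * (n + 1) := by omega
    have h2 := Nat.pow_le_pow_left h1 10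
    rw [mul_pow, mul_pow] at h2
    have h3 : 7 ^ 10 * (n + 1 + 1) ^ 10 ≤ 7 ^ 10 * (27 * (n + 1) ^ 10) := by
      refine h2.trans ?_
      rw [← mul_assoc]
      exact Nat.mul_le_mul_right _ (by norm_num)
    have h4 := Nat.le_of_mul_le_mul_left h3 (by norm_num)
    calc (n + 1 + 1) ^ 10 ≤ 27 * (n + 1) ^ 10 := h4
      _ ≤ 27 * 27 ^ n := Nat.mul_le_mul_left _ ih
      _ = 27 ^ (n + 1) := by rw [pow_succ' 27 n]

/-- The case `r ≥ 2`. -/
theorem ni3_two (q r p k : ℕ) (hq : q.Prime) (hr : 2 ≤ r) (hpp : p.Prime) (hk : 1 ≤ k)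
    (h5 : 5 ≤ q ^ r) (h8 : q ^ r ≠ 8) (h9 : q ^ r ≠ 9) (h16 : q ^ r ≠ 16)
    (hs : p * k = q ^ r ∨ ∃ f < r, p * k = q ^ r - q ^ f) :
    q ^ r * ∏ i ∈ Finset.range r, (q ^ r - q ^ i) ≤ al p ^ k * (q ^ r - 1).choose k := by
  have hq2 := hq.two_le
  have hp := hpp.two_le
  rcases Nat.lt_or_ge q 7 with hq7 | hq7
  · rcases (show q = 2 ∨ q = 3 ∨ q = 4 ∨ q = 5 ∨ q = 6 by omega) with rfl | rfl | rfl | rfl | rfl
    · rcases Nat.lt_or_ge r 8 with hr8 | hr8
      · rcases (show r = 2 ∨ r = 3 ∨ r = 4 ∨ r = 5 ∨ r = 6 ∨ r = 7 by omega) with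
          rfl | rfl | rfl | rfl | rfl | rfl
        · exact absurd h5 (by norm_num)
        · exact absurd (by norm_num) h8
        · exact absurd (by norm_num) h16
        · exact ni3_check 2 5 p k (by decide +kernel) hpp hk hs
        · exact ni3_check 2 6 p k (by decide +kernel) hpp hk hs
        · exact ni3_check 2 7 p k (by decide +kernel) hpp hk hs
      · refine ni3_gen 2 r p k le_rfl (by omega) hp hk hs ?_
        have h := ni3_n2 r hr8
        obtain ⟨m, rfl⟩ : ∃ m, r = m + 1 := ⟨r - 1, by omega⟩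
        rw [pow_succ] at h
        calc 16 * 2 ^ (4 * ((m + 1) * (m + 1 + 1))) = 2 ^ (4 + 4 * ((m + 1) * (m + 1 + 1))) := by
              rw [pow_add]
              norm_num
          _ ≤ 2 ^ (3 * 2 ^ m) := Nat.pow_le_pow_right (by norm_num) (by omega)
          _ = (2 ^ 3) ^ (2 ^ m) := by rw [pow_mul]
          _ ≤ (3 ^ 2) ^ (2 ^ m) := Nat.pow_le_pow_left (by norm_num) _
          _ = 3 ^ (2 ^ (m + 1)) := by rw [← pow_mul, pow_succ', mul_comm]
    · rcases Nat.lt_or_ge r 5 with hr5 | hr5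
      · rcases (show r = 2 ∨ r = 3 ∨ r = 4 by omega) with rfl | rfl | rfl
        · exact absurd (by norm_num) h9
        · exact ni3_check 3 3 p k (by decide +kernel) hpp hk hs
        · exact ni3_check 3 4 p k (by decide +kernel) hpp hk hs
      · refine ni3_gen 3 r p k (by norm_num) (by omega) hp hk hs ?_
        calc 16 * 3 ^ (4 * (r * (r + 1))) ≤ 3 ^ 3 * 3 ^ (4 * (r * (r + 1))) :=
              Nat.mul_le_mul_right _ (by norm_num)
          _ = 3 ^ (3 + 4 * (r * (r + 1))) := by rw [pow_add]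
          _ ≤ 3 ^ (3 ^ r) := Nat.pow_le_pow_right (by norm_num) (ni3_n3 r hr5)
    · exact absurd hq (by norm_num)
    · rcases Nat.lt_or_ge r 3 with hr3 | hr3
      · obtain rfl : r = 2 := by omega
        exact ni3_check 5 2 p k (by decide +kernel) hpp hk hs
      · refine ni3_gen 5 r p k (by norm_num) (by omega) hp hk hs ?_
        obtain ⟨m, hm⟩ : ∃ m, r * (r + 1) = 2 * m := (Nat.even_mul_succ_self r).two_dvd
        have h := ni3_n5 r hr3
        rw [hm] at h ⊢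
        calc 16 * 5 ^ (4 * (2 * m)) ≤ 3 ^ 3 * (5 ^ 8) ^ m := by
              rw [← pow_mul, show 4 * (2 * m) = 8 * m by omega]
              exact Nat.mul_le_mul_right _ (by norm_num)
          _ ≤ 3 ^ 3 * (3 ^ 12) ^ m := Nat.mul_le_mul_left _ (Nat.pow_le_pow_left (by norm_num) _)
          _ = 3 ^ (3 + 12 * m) := by rw [← pow_mul, ← pow_add]
          _ ≤ 3 ^ (5 ^ r) := Nat.pow_le_pow_right (by norm_num) (by omega)
    · exact absurd hq (by norm_num)
  · refine ni3_gen q r p k hq2 (by omega) hp hk hs ?_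
    obtain ⟨s, rfl⟩ : ∃ s, q = s + 1 := ⟨q - 1, by omega⟩
    have hs6 : 6 ≤ s := by omega
    have h1 := ni3_pow10 s hs6
    have h2 := ni3_n7 s r hs6 hr
    rw [← Nat.pow_le_pow_iff_left (show (10 : ℕ) ≠ 0 by norm_num)]
    calc (16 * (s + 1) ^ (4 * (r * (r + 1)))) ^ 10
        = 16 ^ 10 * ((s + 1) ^ 10) ^ (4 * (r * (r + 1))) := by
          rw [mul_pow, ← pow_mul, ← pow_mul, mul_comm 10]
      _ ≤ 3 ^ 26 * (27 ^ s) ^ (4 * (r * (r + 1))) :=
          Nat.mul_le_mul (by norm_num) (Nat.pow_le_pow_left h1 _)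
      _ = 3 ^ 26 * ((3 ^ 3) ^ s) ^ (4 * (r * (r + 1))) := by norm_num
      _ = 3 ^ (26 + 12 * (r * (r + 1)) * s) := by
          rw [← pow_mul, ← pow_mul, ← pow_add]
          congr 1
          ring
      _ ≤ 3 ^ ((s + 1) ^ r * 10) := Nat.pow_le_pow_right (by norm_num) (by omega)
      _ = (3 ^ ((s + 1) ^ r)) ^ 10 := by rw [pow_mul]

theorem ni3_q3 (n : ℕ) (hn : 6 ≤ n) : (n + 1) ^ 3 * n ^ 3 ≤ 9 ^ n := by
  induction n, hn using Nat.le_induction with
  | base => norm_num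
  | succ n hn ih =>
    have h1 : (n + 1 + 1) ^ 3 ≤ 9 * n ^ 3 := by
      have h : 6 * (n + 1 + 1) ≤ 8 * n := by omega
      have h2 := Nat.pow_le_pow_left h 3
      rw [mul_pow, mul_pow] at h2
      norm_num at h2
      omega
    calc (n + 1 + 1) ^ 3 * (n + 1) ^ 3 ≤ 9 * n ^ 3 * (n + 1) ^ 3 := Nat.mul_le_mul_right _ h1
      _ = 9 * ((n + 1) ^ 3 * n ^ 3) := by ring
      _ ≤ 9 * 9 ^ n := Nat.mul_le_mul_left _ ih
      _ = 9 ^ (n + 1) := by rw [pow_succ' 9 n]

theorem ni3_k4 (k : ℕ) (hk : 3 ≤ k) : (2 * k + 1) * (2 * k) ≤ 4 ^ k := by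
  induction k, hk using Nat.le_induction with
  | base => norm_num
  | succ n hn ih =>
    rw [pow_succ]
    nlinarith

theorem ni3_sq (q : ℕ) (hq : 3 ≤ q) : q * q ≤ 3 ^ (q - 1) := by
  induction q, hq using Nat.le_induction with
  | base => norm_num
  | succ n hn ih =>
    obtain ⟨m, rfl⟩ : ∃ m, n = m + 1 := ⟨n - 1, by omega⟩
    have e1 : m + 1 - 1 = m := by omega
    have e2 : m + 1 + 1 - 1 = m + 1 := by omega
    rw [e1] at ih
    rw [e2, pow_succ]
    nlinarith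

/-- The case `r = 1`. -/
theorem ni3_one (q p k : ℕ) (hq : q.Prime) (hp : p.Prime) (hk : 1 ≤ k) (h5 : 5 ≤ q)
    (hs : p * k = q ∨ p * k = q - 1) :
    q * (q - 1) ≤ al p ^ k * (q - 1).choose k := by
  rcases hs with h | h
  · have hpq : p = q := (Nat.prime_dvd_prime_iff_eq hp hq).mp (Dvd.intro _ h)
    subst hpq
    have hk1 : k = 1 := by
      have : p * k = p * 1 := by omega
      exact Nat.eq_of_mul_eq_mul_left hp.pos this
    subst hk1
    rw [pow_one, Nat.choose_one_right]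
    refine Nat.mul_le_mul_right _ ?_
    have h1 := ni3_al p (by omega)
    have h2 := ni3_sq p (by omega)
    exact Nat.le_of_mul_le_mul_right (h2.trans h1) hp.pos
  · have hq1 : q - 1 = p * k := h.symm
    have hqe : q = p * k + 1 := by omega
    have hstar := ni3_star p k (by have := hp.pos; omega)
    rw [hq1]
    rcases Nat.lt_or_ge p 3 with hp3 | hp3
    · have : p = 2 := by have := hp.two_le; omega
      subst this
      have ha : al 2 = 2 := by decide +kernel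
      rw [ha, hqe]
      rcases Nat.lt_or_ge k 3 with hk3 | hk3
      · have : k = 2 := by omega
        subst this
        decide +kernel
      · refine (ni3_k4 k hk3).trans ?_
        have h2 := ni3_choose 2 k (by norm_num)
        calc 4 ^ k = 2 ^ k * 2 ^ k := by rw [← mul_pow]; norm_num
          _ ≤ 2 ^ k * (2 * k).choose k := Nat.mul_le_mul_left _ h2
    · refine le_trans ?_ hstar
      have hpk6 : 6 ≤ p * k := by
        by_contra hlt
        have hq5 : q = 5 ∨ q = 6 := by omega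
        rcases hq5 with h5' | h6
        · have h4 : p * k = 4 := by omega
          have h4' : p ∣ 2 ^ 2 := Dvd.intro _ (by rw [h4]; norm_num)
          have := (Nat.prime_dvd_prime_iff_eq hp Nat.prime_two).mp (hp.dvd_of_dvd_pow h4')
          omega
        · rw [h6] at hq
          exact absurd hq (by norm_num)
      rw [hqe]
      rw [← Nat.pow_le_pow_iff_left (show (3 : ℕ) ≠ 0 by norm_num)]
      calc ((p * k + 1) * (p * k)) ^ 3 = (p * k + 1) ^ 3 * (p * k) ^ 3 := mul_pow _ _ _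
        _ ≤ 9 ^ (p * k) := ni3_q3 _ hpk6
        _ = 3 ^ (2 * (p * k)) := by rw [pow_mul 3 2]; norm_num
        _ ≤ 3 ^ ((p - 1) * k * 3) := by
            refine Nat.pow_le_pow_right (by norm_num) ?_
            obtain ⟨s, rfl⟩ : ∃ s, p = s + 1 := ⟨p - 1, by omega⟩
            rw [Nat.add_sub_cancel]
            have : 2 ≤ s := by omega
            have h7 := Nat.mul_le_mul_right k this
            rw [add_mul, one_mul]
            omega
        _ = (3 ^ ((p - 1) * k)) ^ 3 := by rw [pow_mul]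

theorem ni3 (q r p k : ℕ) (hq : q.Prime) (hr : 1 ≤ r) (hp : p.Prime) (hk : 1 ≤ k)
    (h5 : 5 ≤ q ^ r) (h8 : q ^ r ≠ 8) (h9 : q ^ r ≠ 9) (h16 : q ^ r ≠ 16)
    (hs : p * k = q ^ r ∨ ∃ f < r, p * k = q ^ r - q ^ f) :
    q ^ r * ∏ i ∈ Finset.range r, (q ^ r - q ^ i) ≤ al p ^ k * (q ^ r - 1).choose k := by
  rcases Nat.lt_or_ge r 2 with h1 | h2
  · obtain rfl : r = 1 := by omega
    simp only [pow_one, Finset.prod_range_one, pow_zero] at h5 hs ⊢
    refine ni3_one q p k hq hp hk h5 ?_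
    rcases hs with h | ⟨f, hf, h⟩
    · exact Or.inl h
    · obtain rfl : f = 0 := by omega
      exact Or.inr (by simpa using h)
  · exact ni3_two q r p k hq h2 hp hk h5 h8 h9 h16 hs

end Pool.Agent.H77.TS
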