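import Pool.Agent.H77.TS.Pa1

/-!
[H77 TS PA3] Primitive soluble groups of degree 8 (75-100 min).

PROOF. As in PA1: Ω ≃ V = (ZMod 2)^3 and K acts by affine maps; the translations by all vectors form
a subgroup of K? We only need: let M be the normal subgroup of top6 (M ⊓ R = normalCore = 1 here,
as K is faithful; M acts regularly, |M| = 8, M elementary abelian), K₀ = R = the stabiliser of a
point, K = M K₀, K₀ acts faithfully on M by conjugation (an element of K₀ centralising M fixes all
points), and M is a minimal normal subgroup (K₀ is maximal: a K₀-invariant subgroup M' of M gives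
M' K₀ ≥ K₀).
(1) K₀ ≠ 1 (else K = M is not primitive on 8 points). Let L be a minimal normal subgroup of K₀; it is
an elementary abelian l-group (K₀ soluble). C_M(L) (the elements of M centralised by L) is
K₀-invariant and ≠ M, so it is trivial. If l = 2 then L is a 2-group acting on the 2-group M ≠ 1 and
has nontrivial fixed points: contradiction. K₀ acts faithfully on the 7 nontrivial elements of M;
|K₀| divides 168 (or: K₀ ≤ GL(3,2)). An l-group with l ∤ 7 acting on 7 points without fixed points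
has 7 = a sum of powers l^i, i ≥ 1, so l divides 7: l = 7. So L has order 7 (a 7-subgroup of
Perm of 7 points) and acts regularly on the 7 nontrivial elements.
(2) Let t ∈ K₀ be an involution. Its fixed points in M form a subgroup, the kernel of t - 1, and
(t - 1)^2 = 0 in characteristic 2, so the kernel has dimension ≥ 2: t fixes at least 3 of the 7
points. t normalises L = <z>, t z t⁻¹ = z^s with s^2 = 1 mod 7, so s = 1 or -1; choosing a fixed point
as base point t acts on the 7 points z^i ↦ z^(s i): for s = -1 only one fixed point, for s = 1 t = 1: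
contradiction. So |K₀| is odd; C_{K₀}(L) = L, K₀ / L embeds in the cyclic group of order 6, so
|K₀| divides 21 and |K| ≤ 168. (Any proof is fine; also an exhaustive proof with decide.)
(3) All elements of order 2 of K are in M (K / M has odd order): at most 7, without fixed points on
Ω (support 8 = 2 * 4).
-/

namespace Pool.Agent.H77.TS

open Equiv

/-- an abelian normal subgroup -/
theorem pa3_abel {L : Type*} [Group L] [Group.IsSolvable L] [Nontrivial L] :
    ∃ A : Subgroup L, A.Normal ∧ A ≠ ⊥ ∧ ∀ a ∈ A, ∀ b ∈ A, a * b = b * a := by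
  classical
  have hs : ∃ n, derivedSeries L n = ⊥ := (Group.isSolvable_def L).1 inferInstance
  let n := Nat.find hs
  have hn : derivedSeries L n = ⊥ := Nat.find_spec hs
  have hn0 : n ≠ 0 := by
    intro h0
    rw [h0, derivedSeries_zero] at hn
    exact top_ne_bot hn
  obtain ⟨m, hm⟩ := Nat.exists_eq_succ_of_ne_zero hn0
  refine ⟨derivedSeries L m, derivedSeries_normal L m, ?_, ?_⟩
  · intro hbot
    have := Nat.find_min' hs hbot
    omega
  · intro a ha b hb
    rw [hm, Nat.succ_eq_add_one, derivedSeries_succ,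
      Subgroup.commutator_eq_bot_iff_le_centralizer] at hn
    exact (Subgroup.mem_centralizer_iff.1 (hn hb) a ha)

/-- fixed points of an element of prime order -/
theorem pa3_mod {V : Type} [Finite V] {G : Type} [Group G] [MulAction G V] (a : G) {l : ℕ}
    (hl : l.Prime) (ha : orderOf a = l) :
    Nat.card V ≡ Nat.card {w : V // a • w = w} [MOD l] := by
  have : Fact l.Prime := ⟨hl⟩
  have h1 : IsPGroup l (Subgroup.zpowers a) := by
    apply IsPGroup.of_card (n := 1)
    rw [Nat.card_zpowers, ha, pow_one]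
  have h2 := h1.card_modEq_card_fixedPoints V
  have h3 : Nat.card (MulAction.fixedPoints (Subgroup.zpowers a) V) =
      Nat.card {w : V // a • w = w} := by
    refine Nat.card_congr (Equiv.subtypeEquivRight fun w => ?_)
    constructor
    · intro hw
      exact hw ⟨a, Subgroup.mem_zpowers a⟩
    · rintro hw ⟨b, hb⟩
      have hb' : b ∈ MulAction.stabilizer G w := by
        have : Subgroup.zpowers a ≤ MulAction.stabilizer G w := by
          rw [Subgroup.zpowers_le]
          exact hw
        exact this hb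
      exact hb'
  rwa [h3] at h2

abbrev V8 : Type := Fin 3 → ZMod 2

theorem pa3_card : Nat.card V8 = 8 := by
  rw [Nat.card_fun, Nat.card_zmod, Nat.card_fin]
  norm_num

theorem pa3_fix (a : V8 ≃ₗ[ZMod 2] V8) (ha : a ≠ 1) :
    Nat.card {w : V8 // a w = w} = 0 ∨ Nat.card {w : V8 // a w = w} = 1 ∨
      Nat.card {w : V8 // a w = w} = 2 ∨ Nat.card {w : V8 // a w = w} = 4 := by
  have : Fact (Nat.Prime 2) := ⟨Nat.prime_two⟩
  have hne : ¬ ∀ u, a u + 0 = u := by
    intro hall
    apply ha
    ext1 u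
    have := hall u
    rwa [add_zero] at this
  rcases pa1_fix a 0 hne with h | ⟨f, hf, h⟩
  · left
    simpa using h
  · right
    have h' : Nat.card {w : V8 // a w = w} = 2 ^ f := by simpa using h
    interval_cases f
    · left; simpa using h'
    · right; left; simpa using h'
    · right; right; simpa using h'

/-- no fixed vector for elements of order 7 -/
theorem pa3_seven (n : V8 ≃ₗ[ZMod 2] V8) (hn : orderOf n = 7) (w : V8) (hw : n w = w) :
    w = 0 := by
  have h1 := pa3_mod (V := V8) n (by norm_num) hn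
  rw [pa3_card] at h1
  have hn1 : n ≠ 1 := by
    intro h; rw [h, orderOf_one] at hn; omega
  have h2 := pa3_fix n hn1
  have h3 : Nat.card {w : V8 // n w = w} = 1 := by
    have h4 : 8 % 7 = Nat.card {w : V8 // n w = w} % 7 := h1
    rcases h2 with h2 | h2 | h2 | h2 <;> rw [h2] at h4 <;> omega
  have h5 := (Nat.card_eq_one_iff_unique.1 h3).1
  have h6 : (⟨w, hw⟩ : {w : V8 // n w = w}) = ⟨0, map_zero n⟩ := Subsingleton.elim _ _
  exact congrArg Subtype.val h6

/-- the powers of an element of order 7 are regular on the nonzero vectors -/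
theorem pa3_reg (n : V8 ≃ₗ[ZMod 2] V8) (hn : orderOf n = 7) (u w : V8) (hu : u ≠ 0)
    (hw : w ≠ 0) : ∃ j : ℕ, (n ^ j) u = w := by
  classical
  have h7 : n ^ 7 = 1 := by rw [← hn]; exact pow_orderOf_eq_one n
  have hinj : Function.Injective (fun j : Fin 7 => (⟨(n ^ (j : ℕ)) u, by
      intro h0
      exact hu ((map_eq_zero_iff _ (LinearEquiv.injective _)).1 h0)⟩ : {w : V8 // w ≠ 0})) := by
    intro i j hij
    simp only [Subtype.mk.injEq] at hij
    have key : ∀ i j : ℕ, i < j → j < 7 → (n ^ i) u ≠ (n ^ j) u := by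
      intro i j hi hj h
      have h1 : (n ^ (j - i)) u = u := by
        have h2 : n ^ j = n ^ i * n ^ (j - i) := by rw [← pow_add]; congr 1; omega
        rw [h2, LinearEquiv.mul_apply] at h
        exact ((LinearEquiv.injective (n ^ i)) h).symm
      have h3 : orderOf (n ^ (j - i)) = 7 := by
        have hc : Nat.Coprime (orderOf n) (j - i) := by
          rw [hn]
          exact (Nat.Prime.coprime_iff_not_dvd (by norm_num)).2
            (fun hd => by have := Nat.le_of_dvd (by omega) hd; omega)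
        rw [Nat.Coprime.orderOf_pow hc, hn]
      exact hu (pa3_seven _ h3 u h1)
    rcases lt_trichotomy (i : ℕ) (j : ℕ) with h | h | h
    · exact absurd hij (key _ _ h j.2)
    · exact Fin.ext h
    · exact absurd hij.symm (key _ _ h i.2)
  have hcard : Fintype.card (Fin 7) = Fintype.card {w : V8 // w ≠ 0} := by
    rw [Fintype.card_fin, Fintype.card_subtype_compl, Fintype.card_subtype_eq,
      ← Nat.card_eq_fintype_card, pa3_card]
  have hbij := (Fintype.bijective_iff_injective_and_card _).2 ⟨hinj, hcard⟩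
  obtain ⟨j, hj⟩ := hbij.2 ⟨w, hw⟩
  exact ⟨j, congrArg Subtype.val hj⟩

theorem pa3_det (a b : V8 ≃ₗ[ZMod 2] V8) (n : V8 ≃ₗ[ZMod 2] V8) (hn : orderOf n = 7) (u : V8)
    (hu : u ≠ 0) (h : ∀ j : ℕ, a ((n ^ j) u) = b ((n ^ j) u)) : a = b := by
  ext1 w
  by_cases hw : w = 0
  · rw [hw, map_zero, map_zero]
  · obtain ⟨j, rfl⟩ := pa3_reg n hn u w hu hw
    exact h j

/-- no involution normalises a group of order 7 -/
theorem pa3_inv (n t : V8 ≃ₗ[ZMod 2] V8) (hn : orderOf n = 7) (ht : t * t = 1) (ht1 : t ≠ 1)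
    (s : ℕ) (hs : t * n * t⁻¹ = n ^ s) : False := by
  classical
  have h7 : n ^ 7 = 1 := by rw [← hn]; exact pow_orderOf_eq_one n
  have hto : orderOf t = 2 := orderOf_eq_prime (by rw [pow_two]; exact ht) ht1
  have h1 := pa3_mod (V := V8) t Nat.prime_two hto
  rw [pa3_card] at h1
  have h1' : 8 % 2 = Nat.card {w : V8 // t w = w} % 2 := h1
  have h2 := pa3_fix t ht1
  -- the image of t - 1 is fixed
  have him : ∀ w : V8, t (t w + w) = t w + w := by
    intro w
    rw [map_add, ← LinearEquiv.mul_apply, ht, LinearEquiv.coe_one, id, add_comm]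
  have hpos : Nat.card {w : V8 // t w = w} ≠ 0 := by
    rw [Nat.card_ne_zero]
    exact ⟨⟨⟨0, map_zero t⟩⟩, inferInstance⟩
  have h4 : Nat.card {w : V8 // t w = w} = 4 := by
    rcases h2 with h2 | h2 | h2 | h2
    · exact absurd h2 hpos
    · rw [h2] at h1'; omega
    · exfalso
      -- w ↦ t w + w has fibres of size at most 2, so at most 4 elements
      have hle : Nat.card V8 ≤ Nat.card ({w : V8 // t w = w} × {w : V8 // t w = w}) := by
        have hsec : ∀ y : {w : V8 // t w = w}, ∃ x : V8, (∃ z, t z + z = y) → t x + x = y := by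
          intro y
          by_cases hy : ∃ z, t z + z = y
          · obtain ⟨z, hz⟩ := hy
            exact ⟨z, fun _ => hz⟩
          · exact ⟨0, fun h => absurd h hy⟩
        choose x hx using hsec
        have hfx : ∀ w : V8, t (w + x ⟨t w + w, him w⟩) = w + x ⟨t w + w, him w⟩ := by
          intro w
          have h5 := hx ⟨t w + w, him w⟩ ⟨w, rfl⟩
          simp only at h5
          rw [map_add]
          have h6 : ∀ a b c d : V8, a + b = c + d → c + a = d + b := by
            intro a b c d h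
            funext i
            have := congrFun h i
            simp only [Pi.add_apply] at this ⊢
            generalize a i = a' at *
            generalize b i = b' at *
            generalize c i = c' at *
            generalize d i = d' at *
            revert a' b' c' d'
            decide
          exact h6 _ _ _ _ h5
        refine Nat.card_le_card_of_injective
          (fun w => (⟨t w + w, him w⟩, ⟨w + x ⟨t w + w, him w⟩, hfx w⟩)) ?_
        intro w w' hww
        simp only [Prod.mk.injEq, Subtype.mk.injEq] at hww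
        obtain ⟨e1, e2⟩ := hww
        have e3 : (⟨t w + w, him w⟩ : {w : V8 // t w = w}) = ⟨t w' + w', him w'⟩ :=
          Subtype.ext e1
        rw [e3] at e2
        exact add_right_cancel e2
      rw [Nat.card_prod, pa3_card, h2] at hle
      omega
    · exact h2
  -- a nonzero fixed vector
  obtain ⟨u, hu, hu0⟩ : ∃ u : V8, t u = u ∧ u ≠ 0 := by
    by_contra hcon
    push Not at hcon
    have : Nat.card {w : V8 // t w = w} ≤ 1 := by
      rw [Finite.card_le_one_iff_subsingleton]
      constructor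
      rintro ⟨a, ha⟩ ⟨b, hb⟩
      apply Subtype.ext
      simp only
      rw [hcon a ha, hcon b hb]
    omega
  have hconj : ∀ j : ℕ, t * n ^ j * t⁻¹ = n ^ (s * j) := by
    intro j
    rw [← conj_pow, hs, pow_mul]
  have htj : ∀ j : ℕ, t ((n ^ j) u) = (n ^ (s * j)) u := by
    intro j
    have h5 : t * n ^ j = n ^ (s * j) * t := by
      rw [← hconj j]; group
    have h6 := congrArg (fun a : V8 ≃ₗ[ZMod 2] V8 => a u) h5
    simp only [LinearEquiv.mul_apply] at h6
    rw [h6, hu]
  have hreg : ∀ i j : ℕ, (n ^ i) u = (n ^ j) u → i ≡ j [MOD 7] := by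
    intro i j hij
    rw [← hn, ← pow_eq_pow_iff_modEq]
    apply pa3_det _ _ n hn u hu0
    intro m
    rw [← LinearEquiv.mul_apply, ← LinearEquiv.mul_apply, ← pow_add, ← pow_add, add_comm i,
      add_comm j, pow_add, pow_add, LinearEquiv.mul_apply, LinearEquiv.mul_apply, hij]
  have hss : s * s ≡ 1 [MOD 7] := by
    apply hreg
    have h5 : t (t ((n ^ 1) u)) = (n ^ 1) u := by
      rw [← LinearEquiv.mul_apply, ht]; rfl
    rw [htj, htj, mul_one] at h5
    exact h5
  have hs7 : s % 7 = 1 ∨ s % 7 = 6 := by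
    have h5 : (s % 7) * (s % 7) % 7 = 1 := by
      rw [← Nat.mul_mod]; exact hss
    have h6 : s % 7 < 7 := Nat.mod_lt _ (by norm_num)
    generalize s % 7 = x at *
    interval_cases x <;> omega
  rcases hs7 with h5 | h5
  · apply ht1
    apply pa3_det _ _ n hn u hu0
    intro j
    rw [htj]
    have h6 : n ^ (s * j) = n ^ j := by
      rw [pow_eq_pow_iff_modEq, hn]
      have : s ≡ 1 [MOD 7] := h5
      simpa using this.mul_right j
    rw [h6]
    rfl
  · have hle : Nat.card {w : V8 // t w = w} ≤ Nat.card Bool := by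
      refine Nat.card_le_card_of_injective (fun w => decide (w.1 = 0)) ?_
      have hfix : ∀ w : {w : V8 // t w = w}, w.1 ≠ 0 → w.1 = u := by
        rintro ⟨w, hw⟩ hw0
        simp only at hw0 ⊢
        obtain ⟨j, rfl⟩ := pa3_reg n hn u w hu0 hw0
        rw [htj] at hw
        have h6 := hreg _ _ hw
        have h7' : j ≡ 0 [MOD 7] := by
          have h8 : (s * j) % 7 = j % 7 := h6
          rw [Nat.mul_mod, h5] at h8
          have h9 : j % 7 < 7 := Nat.mod_lt _ (by norm_num)
          change j % 7 = 0 % 7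
          omega
        have h8 : n ^ j = n ^ 0 := by
          rw [pow_eq_pow_iff_modEq, hn]
          exact h7'
        rw [h8]
        rfl
      intro w w' hww
      simp only [decide_eq_decide] at hww
      apply Subtype.ext
      by_cases h0 : w.1 = 0
      · rw [h0, hww.1 h0]
      · rw [hfix w h0, hfix w' (fun h => h0 (hww.2 h))]
    rw [h4, Nat.card_eq_fintype_card, Fintype.card_bool] at hle
    omega

/-- irreducible soluble groups of 3 x 3 matrices over the field with two elements -/
theorem pa3_lin (L : Subgroup (V8 ≃ₗ[ZMod 2] V8)) (hL : Group.IsSolvable L)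
    (hirr : ∀ W : Submodule (ZMod 2) V8, (∀ l ∈ L, ∀ w ∈ W, l w ∈ W) → W = ⊥ ∨ W = ⊤) :
    Nat.card L ≤ 21 ∧ ∀ t ∈ L, t * t = 1 → t = 1 := by
  classical
  have hfinG : Finite (V8 ≃ₗ[ZMod 2] V8) :=
    Finite.of_injective (fun φ => (φ : V8 → V8)) DFunLike.coe_injective
  have hG : Nat.card (V8 ≃ₗ[ZMod 2] V8) = 168 := by
    have : Fact (Nat.Prime 2) := ⟨Nat.prime_two⟩
    rw [pa1_gl 2 3]
    decide
  have hLnt : Nontrivial L := by
    rw [Subgroup.nontrivial_iff_ne_bot]
    intro hbot
    have h1 := hirr (LinearMap.ker (LinearMap.proj 0 : V8 →ₗ[ZMod 2] ZMod 2)) (by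
      intro l hl w hw
      rw [hbot, Subgroup.mem_bot] at hl
      rw [hl]
      exact hw)
    rcases h1 with h1 | h1
    · have h2 : (Pi.single 1 1 : V8) ∈ (⊥ : Submodule (ZMod 2) V8) := by
        rw [← h1, LinearMap.mem_ker]
        simp
      rw [Submodule.mem_bot] at h2
      have := congrFun h2 1
      simp at this
    · have h2 : (Pi.single 0 1 : V8) ∈ LinearMap.ker (LinearMap.proj 0 : V8 →ₗ[ZMod 2] ZMod 2) := by
        rw [h1]; trivial
      rw [LinearMap.mem_ker] at h2
      simp at h2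
  obtain ⟨A, hAn, hAb, hAc⟩ := pa3_abel (L := L)
  -- the fixed space
  let W : Submodule (ZMod 2) V8 :=
    { carrier := {w | ∀ a ∈ A, (a : V8 ≃ₗ[ZMod 2] V8) w = w}
      add_mem' := by
        intro w w' hw hw' a ha
        rw [map_add, hw a ha, hw' a ha]
      zero_mem' := by
        intro a _
        exact map_zero _
      smul_mem' := by
        intro c w hw a ha
        rw [map_smul, hw a ha] }
  have hW : W = ⊥ := by
    rcases hirr W (by
      intro l hl w hw a ha
      have h1 : (⟨l, hl⟩ : L)⁻¹ * a * ⟨l, hl⟩ ∈ A := by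
        have := hAn.conj_mem a ha (⟨l, hl⟩ : L)⁻¹
        rwa [inv_inv] at this
      have h2 := hw _ h1
      have h3 : (a : V8 ≃ₗ[ZMod 2] V8) * l = l * (((⟨l, hl⟩ : L)⁻¹ * a * ⟨l, hl⟩ : L)) := by
        push_cast
        group
      have h4 := congrArg (fun b : V8 ≃ₗ[ZMod 2] V8 => b w) h3
      simp only [LinearEquiv.mul_apply] at h4
      rw [h4, h2]) with h | h
    · exact h
    · exfalso
      apply hAb
      rw [eq_bot_iff]
      intro a ha
      rw [Subgroup.mem_bot]
      apply Subtype.ext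
      ext1 w
      have : w ∈ W := by rw [h]; trivial
      exact this a ha
  have hW0 : ∀ w : V8, (∀ a ∈ A, (a : V8 ≃ₗ[ZMod 2] V8) w = w) → w = 0 := by
    intro w hw
    have : w ∈ W := hw
    rw [hW] at this
    exact this
  have hLd : Nat.card L ∣ 168 := by
    rw [← hG]; exact Subgroup.card_subgroup_dvd_card L
  have hAd : Nat.card A ∣ 168 := (Subgroup.card_subgroup_dvd_card A).trans hLd
  have h3 : ¬ 3 ∣ Nat.card A := by
    intro hd
    have : Fact (Nat.Prime 3) := ⟨by norm_num⟩
    obtain ⟨a, ha⟩ := exists_prime_orderOf_dvd_card' (G := A) 3 hd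
    have ha' : orderOf ((a : L) : V8 ≃ₗ[ZMod 2] V8) = 3 := by
      rw [Subgroup.orderOf_coe, Subgroup.orderOf_coe, ha]
    have hmod := pa3_mod (V := V8) ((a : L) : V8 ≃ₗ[ZMod 2] V8) (by norm_num) ha'
    rw [pa3_card] at hmod
    have hmod' : 8 % 3 = Nat.card {w : V8 // ((a : L) : V8 ≃ₗ[ZMod 2] V8) w = w} % 3 := hmod
    have hne1 : ((a : L) : V8 ≃ₗ[ZMod 2] V8) ≠ 1 := by
      intro h; rw [h, orderOf_one] at ha'; omega
    have hc2 : Nat.card {w : V8 // ((a : L) : V8 ≃ₗ[ZMod 2] V8) w = w} = 2 := by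
      rcases pa3_fix _ hne1 with h | h | h | h <;> rw [h] at hmod' <;> omega
    obtain ⟨x, y, hxy, hxyu⟩ := (Nat.card_eq_two_iff).1 hc2
    have huniq : ∀ z z' : {w : V8 // ((a : L) : V8 ≃ₗ[ZMod 2] V8) w = w}, z.1 ≠ 0 → z'.1 ≠ 0 →
        z = z' := by
      intro z z' hz hz'
      have hzero : (⟨0, map_zero _⟩ : {w : V8 // ((a : L) : V8 ≃ₗ[ZMod 2] V8) w = w}) ∈
          ({x, y} : Set _) := by rw [hxyu]; trivial
      have hzm : z ∈ ({x, y} : Set _) := by rw [hxyu]; trivial
      have hzm' : z' ∈ ({x, y} : Set _) := by rw [hxyu]; trivial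
      simp only [Set.mem_insert_iff, Set.mem_singleton_iff] at hzero hzm hzm'
      rcases hzero with h0 | h0
      · have hx0 : x.1 = 0 := (congrArg Subtype.val h0).symm
        rcases hzm with h | h
        · exact absurd (by rw [h]; exact hx0) hz
        · rcases hzm' with h' | h'
          · exact absurd (by rw [h']; exact hx0) hz'
          · rw [h, h']
      · have hy0 : y.1 = 0 := (congrArg Subtype.val h0).symm
        rcases hzm with h | h
        · rcases hzm' with h' | h'
          · rw [h, h']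
          · exact absurd (by rw [h']; exact hy0) hz'
        · exact absurd (by rw [h]; exact hy0) hz
    obtain ⟨w, hw0⟩ : ∃ w : {w : V8 // ((a : L) : V8 ≃ₗ[ZMod 2] V8) w = w}, w.1 ≠ 0 := by
      by_cases hx0 : x.1 = 0
      · refine ⟨y, fun hy0 => hxy (Subtype.ext (by rw [hx0, hy0]))⟩
      · exact ⟨x, hx0⟩
    apply hw0
    apply hW0
    intro b hb
    have hcomm : ((a : L) : V8 ≃ₗ[ZMod 2] V8) * (b : V8 ≃ₗ[ZMod 2] V8) = b * (a : L) := by
      have := hAc a.1 a.2 b hb
      exact congrArg (fun l : L => (l : V8 ≃ₗ[ZMod 2] V8)) this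
    have h4 := congrArg (fun c : V8 ≃ₗ[ZMod 2] V8 => c w.1) hcomm
    simp only [LinearEquiv.mul_apply] at h4
    rw [w.2] at h4
    have h5 := huniq ⟨(b : V8 ≃ₗ[ZMod 2] V8) w.1, h4⟩ w (by
      intro h0
      exact hw0 ((map_eq_zero_iff _ (LinearEquiv.injective _)).1 h0)) hw0
    exact congrArg Subtype.val h5
  have h7 : 7 ∣ Nat.card A := by
    by_contra h7
    have h8 : Nat.card A ∣ 2 ^ 3 := by
      have h9 : Nat.Coprime (Nat.card A) 21 := by
        have e1 : Nat.Coprime (Nat.card A) 3 :=
          ((Nat.Prime.coprime_iff_not_dvd (by norm_num)).2 h3).symm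
        have e2 : Nat.Coprime (Nat.card A) 7 :=
          ((Nat.Prime.coprime_iff_not_dvd (by norm_num)).2 h7).symm
        exact e1.mul_right e2
      exact h9.dvd_of_dvd_mul_right (by simpa using hAd)
    obtain ⟨m, -, hm⟩ := (Nat.dvd_prime_pow Nat.prime_two).1 h8
    have : Fact (Nat.Prime 2) := ⟨Nat.prime_two⟩
    have hP : IsPGroup 2 A := IsPGroup.of_card hm
    have hz : (0 : V8) ∈ MulAction.fixedPoints A V8 := by
      intro a
      exact map_zero ((a : L) : V8 ≃ₗ[ZMod 2] V8)
    obtain ⟨b, hb, hb0⟩ := hP.exists_fixed_point_of_prime_dvd_card_of_fixed_point V8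
      (by rw [pa3_card]; norm_num) hz
    exact hb0 (hW0 b (fun a ha => hb ⟨a, ha⟩)).symm
  have : Fact (Nat.Prime 7) := ⟨by norm_num⟩
  obtain ⟨n, hn⟩ := exists_prime_orderOf_dvd_card' (G := A) 7 h7
  have hn' : orderOf ((n : L) : V8 ≃ₗ[ZMod 2] V8) = 7 := by
    rw [Subgroup.orderOf_coe, Subgroup.orderOf_coe, hn]
  have hu0 : (Pi.single 0 1 : V8) ≠ 0 := by
    intro h
    have := congrFun h 0
    simp at this
  have hnorm : ∀ l ∈ L, ∃ s : ℕ, l * (n : L) * l⁻¹ = ((n : L) : V8 ≃ₗ[ZMod 2] V8) ^ s := by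
    intro l hl
    have h1 : (⟨l, hl⟩ : L) * n * (⟨l, hl⟩ : L)⁻¹ ∈ A := hAn.conj_mem n.1 n.2 ⟨l, hl⟩
    have h2 := hAc _ h1 n.1 n.2
    have h2' : (l * (n : L) * l⁻¹) * ((n : L) : V8 ≃ₗ[ZMod 2] V8) =
        (n : L) * (l * (n : L) * l⁻¹) := congrArg (fun l : L => (l : V8 ≃ₗ[ZMod 2] V8)) h2
    have h2j : ∀ j : ℕ, (l * (n : L) * l⁻¹) * ((n : L) : V8 ≃ₗ[ZMod 2] V8) ^ j =
        ((n : L) : V8 ≃ₗ[ZMod 2] V8) ^ j * (l * (n : L) * l⁻¹) := by
      intro j
      exact (Commute.pow_right (show Commute _ _ from h2') j).eq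
    have hm0 : (l * (n : L) * l⁻¹ : V8 ≃ₗ[ZMod 2] V8) (Pi.single 0 1) ≠ 0 := by
      intro h0
      exact hu0 ((map_eq_zero_iff _ (LinearEquiv.injective _)).1 h0)
    obtain ⟨s, hs⟩ := pa3_reg _ hn' _ _ hu0 hm0
    refine ⟨s, ?_⟩
    apply pa3_det _ _ _ hn' _ hu0
    intro j
    rw [← LinearEquiv.mul_apply, h2j, LinearEquiv.mul_apply, ← hs, ← LinearEquiv.mul_apply,
      ← LinearEquiv.mul_apply, ← pow_add, ← pow_add, add_comm]
  have hinv : ∀ t ∈ L, t * t = 1 → t = 1 := by
    intro t ht htt
    by_contra ht1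
    obtain ⟨s, hs⟩ := hnorm t ht
    exact pa3_inv _ t hn' htt ht1 s hs
  refine ⟨?_, hinv⟩
  have hodd : ¬ 2 ∣ Nat.card L := by
    intro hd
    have : Fact (Nat.Prime 2) := ⟨Nat.prime_two⟩
    obtain ⟨a, ha⟩ := exists_prime_orderOf_dvd_card' (G := L) 2 hd
    have h1 : a ^ 2 = 1 := by
      have h0 := pow_orderOf_eq_one a
      rwa [ha] at h0
    have h2 : (a : V8 ≃ₗ[ZMod 2] V8) * a = 1 := by
      have := congrArg (fun l : L => (l : V8 ≃ₗ[ZMod 2] V8)) h1
      simpa [pow_two] using this
    have h3 := hinv a.1 a.2 h2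
    have h4 : a = 1 := Subtype.ext h3
    rw [h4, orderOf_one] at ha
    omega
  have h8 : Nat.card L ∣ 21 := by
    have h9 : Nat.Coprime (Nat.card L) (2 ^ 3) :=
      Nat.Coprime.pow_right 3 ((Nat.Prime.coprime_iff_not_dvd Nat.prime_two).2 hodd).symm
    exact h9.dvd_of_dvd_mul_left (by simpa using hLd)
  exact Nat.le_of_dvd (by norm_num) h8

theorem pa3 {Ω : Type} [Fintype Ω] [DecidableEq Ω] (K : Subgroup (Perm Ω))
    (hK : Group.IsSolvable K) (hp : MulAction.IsPreprimitive K Ω) (hd : Fintype.card Ω = 8) :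
    Nat.card K ≤ 168 ∧ nn K 2 4 ≤ 7 ∧ ∀ k, 1 ≤ k → k ≠ 4 → nn K 2 k = 0 := by
  classical
  obtain ⟨q, r, hq, e, ψ, v, hr, hc, h⟩ := aff2 K hK (by omega) hp
  rw [hd] at hc
  have hq2 : q = 2 := by
    have h1 : q ∣ 2 ^ 3 := by
      have : q ∣ q ^ r := dvd_pow_self q (by omega)
      rw [← hc] at this
      simpa using this
    exact (Nat.prime_dvd_prime_iff_eq hq.out Nat.prime_two).1 (hq.out.dvd_of_dvd_pow h1)
  subst hq2
  have hr3 : r = 3 := by
    have h1 : 2 ^ r = 2 ^ 3 := by rw [← hc]; norm_num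
    exact Nat.pow_right_injective le_rfl h1
  subst hr3
  have hL : Group.IsSolvable ψ.range :=
    Group.isSolvable_of_surjective (f := ψ.rangeRestrict) ψ.rangeRestrict_surjective
  obtain ⟨hL21, hLt⟩ := pa3_lin ψ.range hL (by
    intro W hW
    exact aff_irr K hp e ψ v h W (fun g w hw => hW _ ⟨g, rfl⟩ w hw))
  have hinj : ∀ g g' : K, v g = v g' → ψ g = ψ g' → g = g' := by
    intro g g' h1 h2
    apply Subtype.ext
    apply Equiv.ext
    intro ω
    apply e.injective
    rw [h, h, h1, h2]
  have htr : ∀ g ∈ K, g ^ 2 = 1 → ∀ hg : g ∈ K, ψ ⟨g, hg⟩ = 1 := by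
    intro g _ hg2 hg
    apply hLt _ ⟨_, rfl⟩
    rw [← map_mul]
    have : (⟨g, hg⟩ : K) * ⟨g, hg⟩ = 1 := by
      apply Subtype.ext
      simpa [pow_two] using hg2
    rw [this, map_one]
  have hsupp : ∀ (g : K), ψ g = 1 → v g ≠ 0 → (g : Perm Ω).support.card = 8 := by
    intro g hg hv
    have h1 := pa1_supp e (g : Perm Ω) (ψ g) (v g) (h g)
    have h2 : Nat.card {u : Fin 3 → ZMod 2 // ψ g u + v g = u} = 0 := by
      rw [Nat.card_eq_zero]
      left
      constructor
      rintro ⟨u, hu⟩
      rw [hg] at hu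
      exact hv (by simpa using hu)
    omega
  refine ⟨?_, ?_, ?_⟩
  · have h1 : Function.Injective (fun g : K => (v g, (⟨ψ g, ⟨g, rfl⟩⟩ : ψ.range))) := by
      intro g g' hgg
      simp only [Prod.mk.injEq] at hgg
      exact hinj g g' hgg.1 (congrArg Subtype.val hgg.2)
    have hfinG : Finite ((Fin 3 → ZMod 2) ≃ₗ[ZMod 2] (Fin 3 → ZMod 2)) :=
      Finite.of_injective (fun φ => (φ : (Fin 3 → ZMod 2) → (Fin 3 → ZMod 2)))
        DFunLike.coe_injective
    have h2 := Nat.card_le_card_of_injective _ h1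
    rw [Nat.card_prod, pa3_card] at h2
    exact h2.trans (Nat.mul_le_mul_left 8 hL21)
  · unfold nn
    have h3 : Nat.card {x : V8 // x ≠ 0} = 7 := by
      rw [Nat.card_eq_fintype_card, Fintype.card_subtype_compl, Fintype.card_subtype_eq,
        ← Nat.card_eq_fintype_card, pa3_card]
    rw [← h3]
    refine Nat.card_le_card_of_injective (fun g => ⟨v ⟨g.1, g.2.1⟩, ?_⟩) ?_
    · intro hv
      have h1 : (⟨g.1, g.2.1⟩ : K) = 1 := by
        apply hinj
        · rw [hv]
          have h5 := h 1 (e.symm 0)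
          rw [map_one] at h5
          simp at h5
          exact h5
        · rw [htr g.1 g.2.1 g.2.2.1, map_one]
      have h2 : g.1 = 1 := congrArg Subtype.val h1
      have h4 := g.2.2.2
      rw [h2] at h4
      simp at h4
    · intro g g' hgg
      simp only [Subtype.mk.injEq] at hgg
      have h1 := hinj ⟨g.1, g.2.1⟩ ⟨g'.1, g'.2.1⟩ hgg
        (by rw [htr g.1 g.2.1 g.2.2.1, htr g'.1 g'.2.1 g'.2.2.1])
      have h5 : (⟨g.1, g.2.1⟩ : K).1 = (⟨g'.1, g'.2.1⟩ : K).1 := by rw [h1]
      exact Subtype.ext h5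
  · intro k hk hk4
    unfold nn
    rw [Nat.card_eq_zero]
    left
    constructor
    rintro ⟨g, hgK, hg2, hgs⟩
    by_cases hv : v ⟨g, hgK⟩ = 0
    · have h1 : (⟨g, hgK⟩ : K) = 1 := by
        apply hinj
        · rw [hv]
          have h5 := h 1 (e.symm 0)
          rw [map_one] at h5
          simp at h5
          exact h5
        · rw [htr g hgK hg2, map_one]
      have h2 : g = 1 := congrArg Subtype.val h1
      rw [h2] at hgs
      simp at hgs
      omega
    · have h1 := hsupp ⟨g, hgK⟩ (htr g hgK hg2 hgK) hv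
      simp only at h1
      omega

end Pool.Agent.H77.TS
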