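import Pool.Agent.H77.TS.Aff

/-!
[H77 TS PA4] Primitive soluble groups of degree 9 (75-100 min).

PROOF. As in PA1: Ω ≃ V, V a vector space over ZMod q with |V| = 9, so q = 3, dimension 2, and every
g ∈ K acts as u ↦ M u + v with M ∈ GL(2,3) (identify V with Fin 2 → ZMod 3 by a basis). So the
numbers nn K p k are at most the numbers of pairs (M, v), M a 2 x 2 matrix over ZMod 3 (81
matrices) with det ≠ 0, v one of 9 vectors, such that the affine map has p-th power 1 and moves
exactly p k of the 9 points. Order 3: g^3 = 1 implies M^3 = 1; there are 9 matrices with M^3 = 1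
(decide), so at most 81 pairs, one of them the identity: nn K 3 k ≤ 80 for k ≥ 1. Order 2:
M^2 = 1, M ≠ 1 (v = 0 if M = 1): M = -1: exactly one fixed point (support 8 = 2 * 4), 9 pairs;
M of determinant -1 with M^2 = 1: 12 matrices, v in the (-1)-eigenspace (3 vectors), support
6 = 2 * 3, 36 pairs. A finite computation with decide (all pairs (M, v), 729 cases) is fine.
-/

namespace Pool.Agent.H77.TS

open Equiv

/-- six coordinates -/
abbrev S9 : Type := ZMod 3 × ZMod 3 × ZMod 3 × ZMod 3 × ZMod 3 × ZMod 3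

/-- the affine map of the plane over the field with three elements -/
def T9 (s : S9) (u : ZMod 3 × ZMod 3) : ZMod 3 × ZMod 3 :=
  (s.1 * u.1 + s.2.1 * u.2 + s.2.2.2.2.1, s.2.2.1 * u.1 + s.2.2.2.1 * u.2 + s.2.2.2.2.2)

/-- the affine maps with `p`-th power 1 which move exactly `n` points -/
abbrev P9 (p n : ℕ) (s : S9) : Prop :=
  (∀ u, (T9 s)^[p] u = u) ∧ (Finset.univ.filter (fun u => T9 s u ≠ u)).card = n

theorem pa4_a : (Finset.univ.filter (P9 2 6)).card ≤ 72 := by decide +kernel

theorem pa4_b : (Finset.univ.filter (P9 2 8)).card ≤ 9 := by decide +kernel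

theorem pa4_c : (Finset.univ.filter (P9 3 6)).card ≤ 80 := by decide +kernel

theorem pa4_d : (Finset.univ.filter (P9 3 9)).card ≤ 80 := by decide +kernel

theorem pa4_map {Ω : Type} [Fintype Ω] [DecidableEq Ω] (K : Subgroup (Perm Ω))
    (hK : Group.IsSolvable K) (hp : MulAction.IsPreprimitive K Ω) (hd : Fintype.card Ω = 9)
    (p k : ℕ) : nn K p k ≤ (Finset.univ.filter (P9 p (p * k))).card := by
  classical
  obtain ⟨q, r, hq, e, hr, hc, hg⟩ := aff K hK (by omega) hp
  rw [hd] at hc
  have hq3 : q = 3 := by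
    have h1 : q ∣ 3 ^ 2 := by
      have : q ∣ q ^ r := dvd_pow_self q (by omega)
      rw [← hc] at this
      simpa using this
    exact (Nat.prime_dvd_prime_iff_eq hq.out Nat.prime_three).1 (hq.out.dvd_of_dvd_pow h1)
  subst hq3
  have hr2 : r = 2 := by
    have h1 : 3 ^ r = 3 ^ 2 := by rw [← hc]; norm_num
    exact Nat.pow_right_injective (by norm_num) h1
  subst hr2
  let E : Ω ≃ ZMod 3 × ZMod 3 := e.trans (finTwoArrowEquiv (ZMod 3))
  have hE : ∀ ω, E ω = (e ω 0, e ω 1) := fun ω => rfl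
  have hS : ∀ g ∈ K, ∃ s : S9, ∀ ω, E (g ω) = T9 s (E ω) := by
    intro g hgK
    obtain ⟨φ, v, hφ⟩ := hg g hgK
    refine ⟨(φ (Pi.single 0 1) 0, φ (Pi.single 1 1) 0, φ (Pi.single 0 1) 1,
      φ (Pi.single 1 1) 1, v 0, v 1), fun ω => ?_⟩
    have h1 : e ω = (e ω 0) • (Pi.single 0 1 : Fin 2 → ZMod 3) +
        (e ω 1) • (Pi.single 1 1 : Fin 2 → ZMod 3) := by
      funext i
      fin_cases i <;> simp
    have h2 : φ (e ω) = (e ω 0) • φ (Pi.single 0 1) + (e ω 1) • φ (Pi.single 1 1) := by
      conv_lhs => rw [h1]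
      rw [map_add, map_smul, map_smul]
    rw [hE, hE, hφ, h2]
    simp only [T9, Pi.add_apply, Pi.smul_apply, smul_eq_mul]
    ext
    · simp only; ring
    · simp only; ring
  choose! s hs using hS
  have hit : ∀ g ∈ K, ∀ n ω, E ((g ^ n) ω) = (T9 (s g))^[n] (E ω) := by
    intro g hgK n
    induction n with
    | zero => intro ω; rfl
    | succ n ih =>
      intro ω
      rw [pow_succ, Perm.mul_apply, ih, hs g hgK, Function.iterate_succ_apply]
  have hP : ∀ g : {g : Perm Ω // g ∈ K ∧ g ^ p = 1 ∧ g.support.card = p * k},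
      s g.1 ∈ Finset.univ.filter (P9 p (p * k)) := by
    rintro ⟨g, hgK, hgp, hgs⟩
    rw [Finset.mem_filter]
    refine ⟨Finset.mem_univ _, ?_, ?_⟩
    · intro u
      have h1 := hit g hgK p (E.symm u)
      rw [hgp, Equiv.apply_symm_apply, Perm.coe_one, id, Equiv.apply_symm_apply] at h1
      exact h1.symm
    · change (Finset.univ.filter (fun u => T9 (s g) u ≠ u)).card = p * k
      refine Eq.trans (Eq.symm ?_) hgs
      refine Finset.card_bij (fun ω _ => E ω) ?_ ?_ ?_
      · intro ω hω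
        rw [Finset.mem_filter]
        refine ⟨Finset.mem_univ _, ?_⟩
        rw [← hs g hgK]
        intro h1
        exact (Perm.mem_support.1 hω) (E.injective h1)
      · intro a _ b _ hab
        exact E.injective hab
      · intro u hu
        rw [Finset.mem_filter] at hu
        refine ⟨E.symm u, ?_, by simp⟩
        rw [Perm.mem_support]
        intro h1
        apply hu.2
        have h2 := hs g hgK (E.symm u)
        rw [h1, Equiv.apply_symm_apply] at h2
        exact h2.symm
  unfold nn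
  rw [← Nat.card_eq_finsetCard (Finset.univ.filter (P9 p (p * k)))]
  refine Nat.card_le_card_of_injective (fun g => ⟨s g.1, hP g⟩) ?_
  intro g g' hgg
  simp only [Subtype.mk.injEq] at hgg
  apply Subtype.ext
  ext ω
  apply E.injective
  rw [hs _ g.2.1, hs _ g'.2.1, hgg]

theorem pa4 {Ω : Type} [Fintype Ω] [DecidableEq Ω] (K : Subgroup (Perm Ω))
    (hK : Group.IsSolvable K) (hp : MulAction.IsPreprimitive K Ω) (hd : Fintype.card Ω = 9) :
    nn K 2 3 ≤ 72 ∧ nn K 2 4 ≤ 9 ∧ nn K 3 2 ≤ 80 ∧ nn K 3 3 ≤ 80 := by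
  refine ⟨?_, ?_, ?_, ?_⟩
  · exact (pa4_map K hK hp hd 2 3).trans pa4_a
  · exact (pa4_map K hK hp hd 2 4).trans pa4_b
  · exact (pa4_map K hK hp hd 3 2).trans pa4_c
  · exact (pa4_map K hK hp hd 3 3).trans pa4_d

end Pool.Agent.H77.TS
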