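import Pool.Agent.H77.TS.Pa1
import Pool.Agent.H77.TI.Loc2

/-!
[H77 TS PA5] Primitive soluble groups of degree 16 (75-100 min).

PROOF. As in PA1: Ω ≃ V, |V| = 16, so V = (ZMod 2)^4, and K is (isomorphic to) a soluble subgroup of
the group AGL of all u ↦ φ u + v, of order 16 * 20160 = 322560.
(1) AGL is not soluble: Perm (Fin 5) (not soluble: Equiv.Perm.not_isSolvable_fin_5) embeds in the
linear automorphisms of the 4-dimensional space {x : Fin 5 → ZMod 2 | ∑ x = 0}.
(2) So a soluble subgroup X of AGL has index at least 5: if the index is ≤ 4, AGL acts on the cosets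
with kernel ≤ X soluble and image in Perm of ≤ 4 points, soluble (Pool.Agent.H77.TI.Loc2 has the
proof that Perm (Fin 4) is soluble; you may import it or reprove it), so AGL would be soluble. So
|K| ≤ 322560 / 5 = 64512.
(3) nn K 2 4: g ∈ K with |supp g| = 8 has exactly 8 fixed points; the set of fixed points of
u ↦ φ u + v is a coset of a subspace, here of dimension 3. There are at most 30 such cosets W (15
subspaces of dimension 3, 2 cosets each), and g is determined by W and the image of one further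
point (16 choices): at most 480. (Cruder: the hyperplane coset is {u | f u = c}, f one of 15 nonzero
linear forms, c ∈ ZMod 2.)
-/

namespace Pool.Agent.H77.TS

open Equiv

/-- the group of invertible 4 x 4 matrices over the field with two elements is not soluble -/
theorem pa5_ns : ¬ Group.IsSolvable (Matrix (Fin 4) (Fin 4) (ZMod 2))ˣ := by
  let x : (Matrix (Fin 4) (Fin 4) (ZMod 2))ˣ :=
    ⟨!![0, 0, 1, 0; 1, 0, 0, 0; 0, 1, 0, 0; 0, 0, 0, 1],
      !![0, 1, 0, 0; 0, 0, 1, 0; 1, 0, 0, 0; 0, 0, 0, 1], by decide +kernel, by decide +kernel⟩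
  let y : (Matrix (Fin 4) (Fin 4) (ZMod 2))ˣ :=
    ⟨!![0, 0, 0, 1; 1, 1, 1, 1; 0, 0, 1, 0; 1, 0, 0, 0],
      !![0, 0, 0, 1; 1, 1, 1, 1; 0, 0, 1, 0; 1, 0, 0, 0], by decide +kernel, by decide +kernel⟩
  let z : (Matrix (Fin 4) (Fin 4) (ZMod 2))ˣ :=
    ⟨!![1, 0, 0, 0; 0, 0, 0, 1; 0, 0, 1, 0; 0, 1, 0, 0],
      !![1, 0, 0, 0; 0, 0, 0, 1; 0, 0, 1, 0; 0, 1, 0, 0], by decide +kernel, by decide +kernel⟩
  have key : x = z * (x * (y * x * y⁻¹) * x⁻¹ * (y * x * y⁻¹)⁻¹) * z⁻¹ := by
    apply Units.ext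
    unfold x y z
    decide +kernel
  have hx1 : x ≠ 1 := by
    intro h
    have h1 := congrArg (fun u : (Matrix (Fin 4) (Fin 4) (ZMod 2))ˣ => (u : Matrix (Fin 4) (Fin 4) (ZMod 2)) 0 0) h
    revert h1
    unfold x
    decide +kernel
  refine not_isSolvable_of_mem_derivedSeries hx1 fun n => ?_
  induction n with
  | zero => exact Subgroup.mem_top x
  | succ n ih =>
    rw [key]
    apply (derivedSeries_normal _ _).conj_mem
    rw [derivedSeries_succ]
    exact Subgroup.commutator_mem_commutator ih ((derivedSeries_normal _ _).conj_mem _ ih _)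

theorem pa5_idx {A : Type*} [Group A] [Finite A] (hA : ¬ Group.IsSolvable A) (K : Subgroup A)
    (hK : Group.IsSolvable K) : 5 ≤ K.index := by
  by_contra hlt
  have hX : Nat.card (A ⧸ K) ≤ 4 := by
    have h1 : K.index = Nat.card (A ⧸ K) := rfl
    omega
  have h1 : Group.IsSolvable (Equiv.Perm (A ⧸ K)) := Pool.Agent.H77.TI.loc2_perm hX
  apply hA
  apply Group.isSolvable_of_ker_le_range K.subtype (MulAction.toPermHom A (A ⧸ K))
  rw [← Subgroup.normalCore_eq_ker, Subgroup.range_subtype]
  exact Subgroup.normalCore_le K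

abbrev V16 : Type := Fin 4 → ZMod 2

theorem pa5_card : Nat.card V16 = 16 := by
  rw [Nat.card_fun, Nat.card_zmod, Nat.card_fin]
  norm_num

theorem pa5_two (c : ZMod 2) : c = 0 ∨ c = 1 := by
  revert c
  decide

/-- an affine map with 8 fixed points -/
theorem pa5_tv (φ : V16 ≃ₗ[ZMod 2] V16) (v : V16)
    (h : Nat.card {u : V16 // φ u + v = u} = 8) :
    ∃ (f a : V16) (c : ZMod 2), f ≠ 0 ∧ a ≠ 0 ∧ ∀ u, φ u + v = u + (∑ i, f i * u i + c) • a := by
  classical
  obtain ⟨u₀, hu₀⟩ : ∃ u, φ u + v = u := by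
    by_contra hcon
    have : Nat.card {u : V16 // φ u + v = u} = 0 := by
      rw [Nat.card_eq_zero]
      left
      constructor
      rintro ⟨u, hu⟩
      exact hcon ⟨u, hu⟩
    omega
  let N : AddSubgroup V16 :=
    { carrier := {w | φ w = w}
      add_mem' := by
        intro a b ha hb
        change φ (a + b) = a + b
        rw [map_add, ha, hb]
      zero_mem' := map_zero φ
      neg_mem' := by
        intro a ha
        change φ (-a) = -a
        rw [map_neg, ha] }
  have hN : ∀ w, w ∈ N ↔ φ w = w := fun w => Iff.rfl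
  have hNc : Nat.card N = 8 := by
    rw [← h]
    refine Nat.card_congr
      { toFun := fun w => ⟨w.1 + u₀, ?_⟩
        invFun := fun u => ⟨u.1 - u₀, ?_⟩
        left_inv := ?_
        right_inv := ?_ }
    · have h6 : φ w.1 = w.1 := w.2
      rw [map_add, h6, add_assoc, hu₀]
    · rw [hN, map_sub]
      have h2 : φ u.1 - φ u₀ = (φ u.1 + v) - (φ u₀ + v) := by abel
      rw [h2, u.2, hu₀]
    · intro u
      simp
    · intro w
      simp
  have hidx : N.index = 2 := by
    have h1 := AddSubgroup.card_mul_index N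
    rw [hNc, pa5_card] at h1
    omega
  obtain ⟨w, hw⟩ : ∃ w, w ∉ N := by
    by_contra hcon
    push Not at hcon
    have : N = ⊤ := by
      rw [AddSubgroup.eq_top_iff']
      exact hcon
    rw [this, AddSubgroup.index_top] at hidx
    omega
  have ha0 : φ w - w ≠ 0 := fun h0 => hw (sub_eq_zero.1 h0)
  have hval : ∀ u, φ u - u = 0 ∨ φ u - u = φ w - w := by
    intro u
    by_cases hu : u ∈ N
    · left
      exact sub_eq_zero.2 hu
    · right
      have h1 : u + -w ∈ N := by
        rw [AddSubgroup.add_mem_iff_of_index_two hidx]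
        constructor
        · intro h; exact absurd h hu
        · intro h
          exact absurd (by simpa using N.neg_mem h) hw
      have h2 : φ (u + -w) = u + -w := h1
      rw [map_add, map_neg] at h2
      have h3 : φ u - u = (φ u + -φ w) - (u + -w) + (φ w - w) := by abel
      rw [h3, h2]
      abel
  have hf : ∀ u, ∃ c : ZMod 2, φ u - u = c • (φ w - w) := by
    intro u
    rcases hval u with h1 | h1
    · exact ⟨0, by rw [h1, zero_smul]⟩
    · exact ⟨1, by rw [h1, one_smul]⟩
  choose F hF using hf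
  have hexp : ∀ u : V16, u = ∑ i, u i • (Pi.single i 1 : V16) := by
    intro u
    funext j
    simp [Finset.sum_apply, Pi.single_apply]
  have hlin : ∀ u : V16, φ u - u = (∑ i, F (Pi.single i 1) * u i) • (φ w - w) := by
    intro u
    have h1 : φ u = ∑ i, u i • φ (Pi.single i 1 : V16) := by
      conv_lhs => rw [hexp u]
      rw [map_sum]
      simp only [map_smul]
    have h2 : φ u - u = ∑ i, u i • (φ (Pi.single i 1 : V16) - Pi.single i 1) := by
      rw [h1]
      conv_lhs => rw [hexp u]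
      rw [← Finset.sum_sub_distrib]
      refine Finset.sum_congr rfl fun i _ => ?_
      rw [smul_sub]
      congr 1
      simp [Finset.sum_apply, Pi.single_apply]
    rw [h2, Finset.sum_smul]
    refine Finset.sum_congr rfl fun i _ => ?_
    rw [hF, smul_smul, mul_comm]
  have hv : v = -(φ u₀ - u₀) := by
    have : v = (φ u₀ + v) - φ u₀ := by abel
    rw [this, hu₀]
    abel
  refine ⟨fun i => F (Pi.single i 1), φ w - w, -F u₀, ?_, ha0, ?_⟩
  · intro h0
    apply ha0
    rw [hlin w]
    have : ∀ i, F (Pi.single i 1) = 0 := fun i => congrFun h0 i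
    simp [this]
  · intro u
    have h1 : φ u + v = u + (φ u - u) + v := by abel
    rw [h1, hlin u, hv, hF u₀, add_assoc, add_smul, neg_smul]

theorem pa5 {Ω : Type} [Fintype Ω] [DecidableEq Ω] (K : Subgroup (Perm Ω))
    (hK : Group.IsSolvable K) (hp : MulAction.IsPreprimitive K Ω) (hd : Fintype.card Ω = 16) :
    Nat.card K ≤ 100000 ∧ nn K 2 4 ≤ 480 := by
  classical
  obtain ⟨q, r, hq, e, ψ, v, hr, hc, h⟩ := aff2 K hK (by omega) hp
  rw [hd] at hc
  have hq2 : q = 2 := by
    have h1 : q ∣ 2 ^ 4 := by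
      have : q ∣ q ^ r := dvd_pow_self q (by omega)
      rw [← hc] at this
      simpa using this
    exact (Nat.prime_dvd_prime_iff_eq hq.out Nat.prime_two).1 (hq.out.dvd_of_dvd_pow h1)
  subst hq2
  have hr4 : r = 4 := by
    have h1 : 2 ^ r = 2 ^ 4 := by rw [← hc]; norm_num
    exact Nat.pow_right_injective le_rfl h1
  subst hr4
  have hinj : ∀ g g' : K, v g = v g' → ψ g = ψ g' → g = g' := by
    intro g g' h1 h2
    apply Subtype.ext
    apply Equiv.ext
    intro ω
    apply e.injective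
    rw [h, h, h1, h2]
  have hfinG : Finite ((Fin 4 → ZMod 2) ≃ₗ[ZMod 2] (Fin 4 → ZMod 2)) :=
    Finite.of_injective (fun φ => (φ : (Fin 4 → ZMod 2) → (Fin 4 → ZMod 2)))
      DFunLike.coe_injective
  refine ⟨?_, ?_⟩
  · have hL : Group.IsSolvable ψ.range :=
      Group.isSolvable_of_surjective (f := ψ.rangeRestrict) ψ.rangeRestrict_surjective
    have hG : Nat.card ((Fin 4 → ZMod 2) ≃ₗ[ZMod 2] (Fin 4 → ZMod 2)) = 20160 := by
      rw [pa1_gl 2 4]
      decide
    have hns : ¬ Group.IsSolvable ((Fin 4 → ZMod 2) ≃ₗ[ZMod 2] (Fin 4 → ZMod 2)) := by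
      intro hs
      apply pa5_ns
      exact Group.isSolvable_of_isSolvable_injective
        (f := ((Matrix.GeneralLinearGroup.toLin.trans
          (LinearMap.GeneralLinearGroup.generalLinearEquiv (ZMod 2)
            (Fin 4 → ZMod 2))).toMonoidHom)) (MulEquiv.injective _)
    have h5 := pa5_idx hns ψ.range hL
    have h6 := Subgroup.card_mul_index ψ.range
    rw [hG] at h6
    have h7 : Nat.card ψ.range ≤ 4032 := by nlinarith
    have h1 : Function.Injective (fun g : K => (v g, (⟨ψ g, ⟨g, rfl⟩⟩ : ψ.range))) := by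
      intro g g' hgg
      simp only [Prod.mk.injEq] at hgg
      exact hinj g g' hgg.1 (congrArg Subtype.val hgg.2)
    have h2 := Nat.card_le_card_of_injective _ h1
    rw [Nat.card_prod, pa5_card] at h2
    exact h2.trans ((Nat.mul_le_mul_left 16 h7).trans (by norm_num))
  · have hex : ∀ g : {g : Perm Ω // g ∈ K ∧ g ^ 2 = 1 ∧ g.support.card = 2 * 4},
        ∃ (f a : V16) (c : ZMod 2), f ≠ 0 ∧ a ≠ 0 ∧
          ∀ ω, e (g.1 ω) = e ω + (∑ i, f i * e ω i + c) • a := by
      rintro ⟨g, hgK, hg2, hgs⟩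
      have h1 := pa1_supp e g (ψ ⟨g, hgK⟩) (v ⟨g, hgK⟩) (h ⟨g, hgK⟩)
      have h2 : Nat.card {u : Fin 4 → ZMod 2 // ψ ⟨g, hgK⟩ u + v ⟨g, hgK⟩ = u} = 8 := by omega
      obtain ⟨f, a, c, hf, ha, hfa⟩ := pa5_tv _ _ h2
      refine ⟨f, a, c, hf, ha, fun ω => ?_⟩
      rw [← hfa]
      exact h ⟨g, hgK⟩ ω
    choose f a c hf ha hfa using hex
    have h3 : Nat.card {x : V16 // x ≠ 0} = 15 := by
      rw [Nat.card_eq_fintype_card, Fintype.card_subtype_compl, Fintype.card_subtype_eq,
        ← Nat.card_eq_fintype_card, pa5_card]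
    have h4 : Nat.card ({x : V16 // x ≠ 0} × {x : V16 // x ≠ 0} × ZMod 2) = 450 := by
      rw [Nat.card_prod, Nat.card_prod, h3, Nat.card_zmod]
    unfold nn
    refine le_trans ?_ (show 450 ≤ 480 by norm_num)
    rw [← h4]
    refine Nat.card_le_card_of_injective (fun g => (⟨f g, hf g⟩, ⟨a g, ha g⟩, c g)) ?_
    intro g g' hgg
    simp only [Prod.mk.injEq, Subtype.mk.injEq] at hgg
    apply Subtype.ext
    ext ω
    apply e.injective
    rw [hfa g, hfa g', hgg.1, hgg.2.1, hgg.2.2]

end Pool.Agent.H77.TS
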