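import Pool.Agent.H77.TS.Pa1
import Pool.Agent.H77.TS.Pa3
import Pool.Agent.H77.TS.Pa4
import Pool.Agent.H77.TS.Pa5
import Pool.Agent.H77.TS.Ni3
import Pool.Agent.H77.TS.Ni1

/-!
[H77 TS NB1P] The main bound for primitive groups (45-60 min).

PROOF. d = card Ω = q^r by pa1, o the order bound. Let k ≥ 1 with nn K p k ≠ 0 (for k = 0 both
coefficients are 1: only g = 1). Then some g ≠ 1 in K has support p k, so p k = d or d - q^f, f < r.
nn K p k ≤ |K| ≤ o (injection). d ≠ 8, 9, 16: ni3 (coefficient of X^k in (1 + C c * X)^(d-1) is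
c^k * choose (d-1) k).
d = 8 (q = 2, r = 3, p k ∈ {8, 7, 6, 4}): p = 2: pa3 (nn K 2 4 ≤ 7 ≤ 2^4 * 35, else 0); p = 3, k = 2:
|K| ≤ 168 ≤ 9 * 21; p = 7, k = 1: 168 ≤ 105 * 7; no other p.
d = 9 (p k ∈ {9, 8, 6}): p = 2: |K| ≤ 432 ≤ 2^3 * 56 = 448, 2^4 * 70; p = 3: pa4: 80 ≤ 9 * 28,
27 * 56.
d = 16 (p k ∈ {16, 15, 14, 12, 8}): p = 2, k = 4: pa5: 480 ≤ 16 * 1365; the others |K| ≤ 100000:
p = 2: k = 6: 64 * 5005 = 320320, k = 7: 128 * 6435, k = 8: 256 * 6435; p = 3: k = 4: 81 * 1365 =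
110565, k = 5: 243 * 3003; p = 5, k = 3: 17^3 * 455; p = 7, k = 2: 105^2 * 105.
-/

namespace Pool.Agent.H77.TS

open Equiv Polynomial

theorem nb1p_coeff (c n k : ℕ) : ((1 + C c * X : ℕ[X]) ^ n).coeff k = c ^ k * n.choose k := by
  rw [add_comm, add_pow, finset_sum_coeff]
  have h : ∀ m ∈ Finset.range (n + 1),
      ((C c * X : ℕ[X]) ^ m * 1 ^ (n - m) * (n.choose m : ℕ[X])).coeff k =
        if m = k then c ^ k * n.choose k else 0 := by
    intro m _
    have e : (C c * X : ℕ[X]) ^ m * 1 ^ (n - m) * (n.choose m : ℕ[X]) =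
        C (c ^ m * n.choose m) * X ^ m := by
      have e2 : (C (n.choose m) : ℕ[X]) = ((n.choose m : ℕ) : ℕ[X]) := map_natCast C _
      rw [one_pow, mul_one, mul_pow, C_mul, C_pow, e2]
      ring
    rw [e, coeff_C_mul, coeff_X_pow]
    by_cases hm : m = k
    · subst hm
      simp
    · rw [if_neg (fun h => hm h.symm), if_neg hm, mul_zero]
  rw [Finset.sum_congr rfl h, Finset.sum_ite_eq']
  by_cases hk : k ∈ Finset.range (n + 1)
  · rw [if_pos hk]
  · rw [if_neg hk]
    rw [Finset.mem_range, not_lt] at hk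
    rw [Nat.choose_eq_zero_of_lt (by omega), mul_zero]

theorem nb1p_card {Ω : Type} [Fintype Ω] [DecidableEq Ω] (K : Subgroup (Perm Ω)) (p k : ℕ) :
    nn K p k ≤ Nat.card K := by
  unfold nn
  exact Nat.card_le_card_of_injective (fun g => (⟨g.1, g.2.1⟩ : K)) (by
    intro g g' h
    simp only [Subtype.mk.injEq] at h
    exact Subtype.ext h)

theorem nb1p_zero {Ω : Type} [Fintype Ω] [DecidableEq Ω] (K : Subgroup (Perm Ω)) (p : ℕ) :
    nn K p 0 ≤ 1 := by
  unfold nn
  rw [Finite.card_le_one_iff_subsingleton]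
  constructor
  rintro ⟨g, -, -, hg⟩ ⟨g', -, -, hg'⟩
  rw [mul_zero, Finset.card_eq_zero, Perm.support_eq_empty_iff] at hg hg'
  exact Subtype.ext (hg.trans hg'.symm)

theorem nb1p_nine (q r : ℕ) (hq : q.Prime) (h : q ^ r = 9) : q = 3 ∧ r = 2 := by
  have h2 : q ∣ 3 ^ 2 := by
    have hr : r ≠ 0 := by
      rintro rfl
      norm_num at h
    have : q ∣ q ^ r := dvd_pow_self q hr
    rw [h] at this
    exact this
  have h3 : q = 3 := (Nat.prime_dvd_prime_iff_eq hq Nat.prime_three).mp (hq.dvd_of_dvd_pow h2)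
  subst h3
  refine ⟨rfl, Nat.pow_right_injective (le_refl 3 |>.trans' (by norm_num)) (?_ : 3 ^ r = 3 ^ 2)⟩
  rw [h]
  norm_num

theorem nb1p {Ω : Type} [Fintype Ω] [DecidableEq Ω] (K : Subgroup (Perm Ω))
    (hK : Group.IsSolvable K) (h5 : 5 ≤ Fintype.card Ω) (hp : MulAction.IsPreprimitive K Ω)
    (p : ℕ) (hpp : p.Prime) :
    Le (gg K p) ((1 + C (al p) * X) ^ (Fintype.card Ω - 1)) := by
  intro k
  rw [coeff_gg K hpp.one_lt.le, nb1p_coeff]
  rcases Nat.eq_zero_or_pos k with rfl | hk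
  · rw [pow_zero, one_mul, Nat.choose_zero_right]
    exact nb1p_zero K p
  by_cases h0 : nn K p k = 0
  · rw [h0]
    exact Nat.zero_le _
  obtain ⟨q, r, hq, hr, hc, hle, hsup⟩ := pa1 K hK (by omega) hp
  have hs : p * k = q ^ r ∨ ∃ f < r, p * k = q ^ r - q ^ f := by
    have hne : Nonempty {g : Perm Ω // g ∈ K ∧ g ^ p = 1 ∧ g.support.card = p * k} := by
      by_contra hcon
      rw [not_nonempty_iff] at hcon
      apply h0
      unfold nn
      exact Nat.card_of_isEmpty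
    obtain ⟨g, hgK, -, hgs⟩ := hne
    have hg1 : g ≠ 1 := by
      rintro rfl
      rw [Perm.support_one, Finset.card_empty] at hgs
      have := Nat.mul_pos hpp.pos hk
      omega
    rw [← hgs]
    exact hsup g hgK hg1
  have hcard := nb1p_card K p k
  by_cases h8 : q ^ r = 8
  · obtain ⟨rfl, rfl⟩ := ni1_pp q r 3 hq (by rw [h8]; norm_num) (by norm_num)
    have hd : Fintype.card Ω = 8 := by rw [hc]; norm_num
    obtain ⟨a1, a2, a3⟩ := pa3 K hK hp hd
    rw [hd]
    have hpk : p * k = 8 ∨ p * k = 7 ∨ p * k = 6 ∨ p * k = 4 := by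
      rcases hs with hs | ⟨f, hf, hs⟩
      · left
        rw [hs]
        norm_num
      · interval_cases f <;> simp at hs <;> omega
    have hple : p ≤ p * k := Nat.le_mul_of_pos_right p hk
    have hp8 : p ≤ 8 := by omega
    have hcase : (p = 2 ∧ (k = 4 ∨ k ≠ 4)) ∨ (p = 3 ∧ k = 2) ∨ (p = 7 ∧ k = 1) := by
      interval_cases p <;> first | omega | exact absurd hpp (by norm_num)
    rcases hcase with ⟨rfl, rfl | hk4⟩ | ⟨rfl, rfl⟩ | ⟨rfl, rfl⟩
    · exact a2.trans (by decide +kernel)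
    · rw [a3 k hk hk4]
      exact Nat.zero_le _
    · exact (hcard.trans a1).trans (by decide +kernel)
    · exact (hcard.trans a1).trans (by decide +kernel)
  by_cases h9 : q ^ r = 9
  · obtain ⟨rfl, rfl⟩ := nb1p_nine q r hq h9
    have hd : Fintype.card Ω = 9 := by rw [hc]; norm_num
    obtain ⟨a1, a2, a3, a4⟩ := pa4 K hK hp hd
    rw [hd]
    have hpk : p * k = 9 ∨ p * k = 8 ∨ p * k = 6 := by
      rcases hs with hs | ⟨f, hf, hs⟩
      · left
        rw [hs]
        norm_num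
      · interval_cases f <;> simp at hs <;> omega
    have hple : p ≤ p * k := Nat.le_mul_of_pos_right p hk
    have hp8 : p ≤ 9 := by omega
    have hcase : (p = 2 ∧ (k = 3 ∨ k = 4)) ∨ (p = 3 ∧ (k = 2 ∨ k = 3)) := by
      interval_cases p <;> first | omega | exact absurd hpp (by norm_num)
    rcases hcase with ⟨rfl, rfl | rfl⟩ | ⟨rfl, rfl | rfl⟩
    · exact a1.trans (by decide +kernel)
    · exact a2.trans (by decide +kernel)
    · exact a3.trans (by decide +kernel)
    · exact a4.trans (by decide +kernel)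
  by_cases h16 : q ^ r = 16
  · obtain ⟨rfl, rfl⟩ := ni1_pp q r 4 hq (by rw [h16]; norm_num) (by norm_num)
    have hd : Fintype.card Ω = 16 := by rw [hc]; norm_num
    obtain ⟨a1, a2⟩ := pa5 K hK hp hd
    rw [hd]
    have hpk : p * k = 16 ∨ p * k = 15 ∨ p * k = 14 ∨ p * k = 12 ∨ p * k = 8 := by
      rcases hs with hs | ⟨f, hf, hs⟩
      · left
        rw [hs]
        norm_num
      · interval_cases f <;> simp at hs <;> omega
    have hple : p ≤ p * k := Nat.le_mul_of_pos_right p hk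
    have hp8 : p ≤ 16 := by omega
    have hcase : (p = 2 ∧ (k = 4 ∨ k = 6 ∨ k = 7 ∨ k = 8)) ∨ (p = 3 ∧ (k = 4 ∨ k = 5)) ∨
        (p = 5 ∧ k = 3) ∨ (p = 7 ∧ k = 2) := by
      interval_cases p <;> first | omega | exact absurd hpp (by norm_num)
    rcases hcase with ⟨rfl, rfl | rfl | rfl | rfl⟩ | ⟨rfl, rfl | rfl⟩ | ⟨rfl, rfl⟩ | ⟨rfl, rfl⟩
    · exact a2.trans (by decide +kernel)
    · exact (hcard.trans a1).trans (by decide +kernel)
    · exact (hcard.trans a1).trans (by decide +kernel)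
    · exact (hcard.trans a1).trans (by decide +kernel)
    · exact (hcard.trans a1).trans (by decide +kernel)
    · exact (hcard.trans a1).trans (by decide +kernel)
    · exact (hcard.trans a1).trans (by decide +kernel)
    · exact (hcard.trans a1).trans (by decide +kernel)
  have h3 := ni3 q r p k hq hr hpp hk (by omega) h8 h9 h16 hs
  rw [hc]
  exact (hcard.trans hle).trans h3

end Pool.Agent.H77.TS
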