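import Pool.Agent.H77.TS.Base

/-!
[H77 TS NB1W] The main bound for wreath products (45-60 min).

Let c = al p, a = card De, b = card Bl. PROOF. (1) Le (C (|A|^(p-1)) * X^a)
(X * (1 + C c * X)^(p (a-1))): the only nonzero coefficient on the left is at a, and the coefficient
at a on the right is c^(a-1) * choose (p (a-1)) (a-1) ≥ c^(a-1) p^(a-1) (choose (p n) n ≥ p^n) ≥
(3^(p-1))^(a-1) (c p ≥ 3^(p-1), al is the ceiling of 3^(p-1)/p) ≥ |A|^(p-1).
(2) So every summand of wp A B p is ≤ C (nn B p j) * ((1+cX)^((a-1)(b - p j)) *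
(X (1+cX)^(p (a-1)))^j) = C (nn B p j) * X^j * (1+cX)^((a-1) b) (p j ≤ b), and the sum over j is
≤ gg B p * (1+cX)^((a-1) b) ≤ (1+cX)^((b-1) + (a-1) b), and (b-1) + (a-1) b = a b - 1.
(If j > b the term nn B p j vanishes; here j ≤ b / p.)
-/

namespace Pool.Agent.H77.TS

open Equiv Polynomial

theorem nb1w_choose (p : ℕ) (hp : 1 ≤ p) (n : ℕ) : p ^ n ≤ (p * n).choose n := by
  induction n with
  | zero => simp
  | succ n ih =>
    have h1 : p * (n + 1) = (p * n + p - 1) + 1 := by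
      rw [Nat.mul_succ]
      omega
    have h2 := Nat.add_one_mul_choose_eq (p * n + p - 1) n
    rw [← h1] at h2
    have h4 : p * (p * n + p - 1).choose n = (p * (n + 1)).choose (n + 1) := by
      have h5 : (n + 1) * (p * (p * n + p - 1).choose n) =
          (n + 1) * (p * (n + 1)).choose (n + 1) := by
        calc (n + 1) * (p * (p * n + p - 1).choose n)
            = p * (n + 1) * (p * n + p - 1).choose n := by ring
          _ = (p * (n + 1)).choose (n + 1) * (n + 1) := h2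
          _ = _ := by rw [Nat.mul_comm]
      exact Nat.eq_of_mul_eq_mul_left (Nat.succ_pos n) h5
    rw [← h4, pow_succ']
    refine Nat.mul_le_mul_left p (ih.trans ?_)
    exact Nat.choose_le_choose n (by omega)

theorem nb1w_al (p : ℕ) (hp : 1 ≤ p) : 3 ^ (p - 1) ≤ al p * p := by
  unfold al
  obtain ⟨x, hx⟩ : ∃ x, x = 3 ^ (p - 1) := ⟨_, rfl⟩
  rw [← hx]
  have h1 := Nat.div_add_mod (x + p - 1) p
  have h2 := Nat.mod_lt (x + p - 1) (by omega : 0 < p)
  rw [Nat.mul_comm] at h1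
  omega

theorem nb1w_coeff (c n k : ℕ) : ((1 + C c * X : ℕ[X]) ^ n).coeff k = n.choose k * c ^ k := by
  have h1 : ((1 + X : ℕ[X]) ^ n).comp (C c * X) = (1 + C c * X : ℕ[X]) ^ n := by
    simp
  rw [← h1, comp_C_mul_X_coeff, coeff_one_add_X_pow]
  simp

theorem nb1w_one (N p a : ℕ) (hp : 1 ≤ p) (ha : 1 ≤ a) (hN : N ≤ 3 ^ (a - 1)) :
    Le (C (N ^ (p - 1)) * X ^ a) (X * (1 + C (al p) * X) ^ (p * (a - 1))) := by
  intro k
  rw [coeff_C_mul, coeff_X_pow]
  by_cases hk : k = a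
  · rw [if_pos hk, mul_one]
    obtain ⟨a', rfl⟩ : ∃ a', a = a' + 1 := ⟨a - 1, by omega⟩
    subst hk
    rw [coeff_X_mul, Nat.add_sub_cancel] at *
    rw [nb1w_coeff]
    calc N ^ (p - 1) ≤ (3 ^ a') ^ (p - 1) := Nat.pow_le_pow_left hN _
      _ = (3 ^ (p - 1)) ^ a' := by rw [← pow_mul, ← pow_mul, Nat.mul_comm]
      _ ≤ (al p * p) ^ a' := Nat.pow_le_pow_left (nb1w_al p hp) _
      _ = p ^ a' * al p ^ a' := by rw [mul_pow, Nat.mul_comm]
      _ ≤ (p * a').choose a' * al p ^ a' := Nat.mul_le_mul_right _ (nb1w_choose p hp a')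
  · rw [if_neg hk, mul_zero]
    exact Nat.zero_le _

theorem nb1w_subset {s t : Finset ℕ} (h : s ⊆ t) (f : ℕ → ℕ[X]) :
    Le (∑ i ∈ s, f i) (∑ i ∈ t, f i) := by
  intro k
  simp only [finsetSum_coeff]
  exact Finset.sum_le_sum_of_subset h

theorem nb1w {Bl De : Type} [Fintype Bl] [DecidableEq Bl] [Fintype De] [DecidableEq De]
    (A : Subgroup (Perm De)) (B : Subgroup (Perm Bl)) (p : ℕ) (hp : p.Prime)
    (ha : 1 ≤ Fintype.card De) (hb : 1 ≤ Fintype.card Bl)
    (hA : Nat.card A ≤ 3 ^ (Fintype.card De - 1))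
    (hgA : Le (gg A p) ((1 + C (al p) * X) ^ (Fintype.card De - 1)))
    (hgB : Le (gg B p) ((1 + C (al p) * X) ^ (Fintype.card Bl - 1))) :
    Le (wp A B p) ((1 + C (al p) * X) ^ (Fintype.card De * Fintype.card Bl - 1)) := by
  obtain ⟨P, hP⟩ : ∃ P : ℕ[X], P = 1 + C (al p) * X := ⟨_, rfl⟩
  have h1 := nb1w_one (Nat.card A) p (Fintype.card De) hp.one_le ha hA
  obtain ⟨a, ha'⟩ : ∃ a, a = Fintype.card De := ⟨_, rfl⟩
  obtain ⟨b, hb'⟩ : ∃ b, b = Fintype.card Bl := ⟨_, rfl⟩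
  rw [← hP] at hgA hgB h1 ⊢
  have h2 : Le (wp A B p) (∑ j ∈ Finset.range (b / p + 1), C (nn B p j) * X ^ j *
      P ^ ((a - 1) * b)) := by
    unfold wp
    rw [← hb', ← ha']
    rw [← ha'] at h1 hgA
    refine Le.sum _ fun j hj => ?_
    have hjb : p * j ≤ b := by
      have h3 : j ≤ b / p := Nat.lt_succ_iff.1 (Finset.mem_range.1 hj)
      exact (Nat.mul_le_mul_left p h3).trans (Nat.mul_div_le b p)
    have h4 : C (nn B p j) * X ^ j * P ^ ((a - 1) * b) =
        C (nn B p j) * ((P ^ (a - 1)) ^ (b - p * j) * (X * P ^ (p * (a - 1))) ^ j) := by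
      rw [mul_assoc]
      congr 1
      rw [mul_pow, ← pow_mul, ← pow_mul]
      have h5 : (a - 1) * b = (a - 1) * (b - p * j) + p * (a - 1) * j := by
        obtain ⟨d, rfl⟩ : ∃ d, b = p * j + d := ⟨b - p * j, by omega⟩
        rw [Nat.add_sub_cancel_left]
        ring
      rw [h5, pow_add]
      ring
    rw [h4]
    exact (Le.refl _).mul ((hgA.pow _).mul (h1.pow _))
  refine h2.trans ?_
  have h3 : Le (∑ j ∈ Finset.range (b / p + 1), C (nn B p j) * X ^ j * P ^ ((a - 1) * b))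
      (gg B p * P ^ ((a - 1) * b)) := by
    unfold gg
    rw [← hb', Finset.sum_mul]
    refine nb1w_subset ?_ _
    intro j hj
    rw [Finset.mem_range] at hj ⊢
    exact lt_of_lt_of_le hj (Nat.succ_le_succ (Nat.div_le_self b p))
  refine h3.trans ?_
  have h4 : P ^ (Fintype.card De * Fintype.card Bl - 1) = P ^ (b - 1) * P ^ ((a - 1) * b) := by
    rw [← pow_add, ← ha', ← hb']
    congr 1
    obtain ⟨a', rfl⟩ : ∃ a', a = a' + 1 := ⟨a - 1, by omega⟩
    obtain ⟨b', rfl⟩ : ∃ b', b = b' + 1 := ⟨b - 1, by omega⟩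
    have h5 : (a' + 1) * (b' + 1) = b' + a' * (b' + 1) + 1 := by ring
    rw [h5]
    simp
  rw [h4, hb']
  exact hgB.mul (Le.refl _)

end Pool.Agent.H77.TS
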