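import Pool.Agent.H77.TS.Nb0
import Pool.Agent.H77.TS.Nb1p
import Pool.Agent.H77.TS.Nb1w

/-!
[H77 TS NB1] The main bound nn K p k ≤ (al p)^k choose (n-1) k (30-45 min).

PROOF. Strong induction on card Ω. card Ω ≤ 4: by ns the coefficients are at most tb (card Ω) p k,
and these are at most the right hand side: k = 0: 1; m = 2: 1 ≤ 2; m = 3: (2,1): 3 ≤ 2*2, (3,1):
2 ≤ 3*2; m = 4: (2,1): 6 ≤ 2*3, (2,2): 3 ≤ 4*3, (3,1): 8 ≤ 3*3 (al 2 = 2, al 3 = 3); all the other
entries of the table are 0.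
card Ω ≥ 5: sd. Intransitive: Le.mul and (1+cX)^(a-1) (1+cX)^(b-1) = (1+cX)^(a+b-2), which is
≤ (1+cX)^(a+b-1) coefficientwise. Imprimitive: nb1w with nb0 for A. Primitive: nb1p.
-/

namespace Pool.Agent.H77.TS

open Equiv Polynomial

theorem nb1_coeff (c m k : ℕ) : ((1 + C c * X) ^ m : ℕ[X]).coeff k = c ^ k * m.choose k := by
  have h : ((1 + C c * X) ^ m : ℕ[X]) = ((1 + X) ^ m : ℕ[X]).comp (C c * X) := by simp
  rw [h, comp_C_mul_X_coeff, coeff_one_add_X_pow, mul_comm]
  simp

theorem nb1_mono (c m n : ℕ) (h : m ≤ n) :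
    Le ((1 + C c * X) ^ m : ℕ[X]) ((1 + C c * X) ^ n) := by
  intro k
  rw [nb1_coeff, nb1_coeff]
  exact Nat.mul_le_mul_left _ (Nat.choose_le_choose k h)

theorem nb1_tb (m p k : ℕ) (hm : m ≤ 4) (h1 : 1 ≤ m) :
    tb m p k ≤ al p ^ k * (m - 1).choose k := by
  unfold tb
  split_ifs with h0 h2 h3 h5 h7 h11 h13
  · subst h0; simp
  · subst h2
    have : al 2 = 2 := by decide
    rw [this]
    interval_cases m <;> rcases k with _ | _ | _ | k <;>
      first | omega | simp [t2, List.getD, Nat.choose]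
  · subst h3
    have : al 3 = 3 := by decide
    rw [this]
    interval_cases m <;> rcases k with _ | _ | _ | k <;>
      first | omega | simp [t3, List.getD, Nat.choose]
  · interval_cases m <;> simp [t5]
  · interval_cases m <;> simp [t7]
  · interval_cases m <;> simp [t11]
  · interval_cases m <;> simp [t13]
  · exact Nat.zero_le _

theorem nb1_aux (p : ℕ) (hp : p.Prime) (n : ℕ) :
    ∀ (Ω : Type) [Fintype Ω] [DecidableEq Ω] (K : Subgroup (Perm Ω)),
      Group.IsSolvable K → 1 ≤ Fintype.card Ω → Fintype.card Ω = n →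
      Le (gg K p) ((1 + C (al p) * X) ^ (Fintype.card Ω - 1)) := by
  induction n using Nat.strong_induction_on with
  | _ n ih =>
    intro Ω _ _ K hK h1 hn
    rcases Nat.lt_or_ge 4 (Fintype.card Ω) with h5 | h4
    · rcases sd K hK (by omega) with h | h | h
      · obtain ⟨a, b, Ω₁, Ω₂, _, _, _, _, K₁, K₂, ha, hb, hab, hc1, hc2, hs1, hs2, -, hle⟩ := h
        have i1 := ih (Fintype.card Ω₁) (by omega) Ω₁ K₁ hs1 (by omega) rfl
        have i2 := ih (Fintype.card Ω₂) (by omega) Ω₂ K₂ hs2 (by omega) rfl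
        refine (hle p hp).trans ((i1.mul i2).trans ?_)
        rw [← pow_add]
        exact nb1_mono _ _ _ (by omega)
      · obtain ⟨a, b, De, Bl, _, _, _, _, A, B, ha, hb, hab, hc1, hc2, hs1, hs2, -, hle⟩ := h
        have l1 : Fintype.card De < n := by
          rw [hc1, ← hn, ← hab]
          nlinarith
        have l2 : Fintype.card Bl < n := by
          rw [hc2, ← hn, ← hab]
          nlinarith
        have i1 := ih (Fintype.card De) l1 De A hs1 (by omega) rfl
        have i2 := ih (Fintype.card Bl) l2 Bl B hs2 (by omega) rfl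
        have hw := nb1w A B p hp (by omega) (by omega) (nb0 A hs1 (by omega)) i1 i2
        rw [hc1, hc2, hab] at hw
        exact (hle p hp).trans hw
      · exact nb1p K hK h5 h p hp
    · intro k
      rw [coeff_gg K hp.one_le k, nb1_coeff]
      exact ((ns K h4).2 p k hp).trans (nb1_tb _ _ _ h4 h1)

theorem nb1 {Ω : Type} [Fintype Ω] [DecidableEq Ω] (K : Subgroup (Perm Ω))
    (hK : Group.IsSolvable K) (h1 : 1 ≤ Fintype.card Ω) (p : ℕ) (hp : p.Prime) :
    Le (gg K p) ((1 + C (al p) * X) ^ (Fintype.card Ω - 1)) :=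
  nb1_aux p hp _ Ω K hK h1 rfl

theorem nb1' {Ω : Type} [Fintype Ω] [DecidableEq Ω] (K : Subgroup (Perm Ω))
    (hK : Group.IsSolvable K) (h1 : 1 ≤ Fintype.card Ω) (p k : ℕ) (hp : p.Prime) :
    nn K p k ≤ al p ^ k * (Fintype.card Ω - 1).choose k := by
  have h := nb1 K hK h1 p hp k
  rwa [coeff_gg K hp.one_le k, nb1_coeff] at h

end Pool.Agent.H77.TS
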