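import Pool.Agent.H77.TS.Nb0
import Pool.Agent.H77.TS.Pa3
import Pool.Agent.H77.TS.Pa5

/-!
[H77 TS NB2] The number of involutions (45-60 min).

I(K) := ∑ nn K 2 k = (gg K 2).eval 1. Claim I(K)^3 ≤ 10^(n-1), n = card Ω ≥ 1.
PROOF. Strong induction. n ≤ 4: ns: I ≤ 1, 2, 4, 10. n ≥ 5: sd. Intransitive: I(K) ≤ I(K₁) I(K₂)
(evaluate Le at 1: sums of coefficients). Imprimitive: with Y real, Y^3 = 10^(a-1) (Y =
(10:ℝ)^((a-1)/3)): I(A) ≤ Y, |A| ≤ 3^(a-1) ≤ Y^2 (27 ≤ 100), so I(K) ≤ ∑_j nn B 2 j *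
(I(A)^(b-2j) * |A|^j) ≤ ∑_j nn B 2 j * Y^b = Y^b I(B), and (Y^b I(B))^3 ≤ 10^((a-1)b) 10^(b-1) =
10^(ab-1). Primitive: I(K) ≤ |K| (the elements counted are different elements of K). n = 8:
168^3 ≤ 10^7 (pa3). n = 16: 100000^3 = 10^15 (pa5). Otherwise pa1 and ni2.
-/

namespace Pool.Agent.H77.TS

open Equiv

/-- The number of elements of order at most 2. -/
noncomputable def nb2I {Ω : Type} [Fintype Ω] [DecidableEq Ω] (K : Subgroup (Perm Ω)) : ℕ :=
  ∑ k ∈ Finset.range (Fintype.card Ω + 1), nn K 2 k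

theorem nb2_eval {Ω : Type} [Fintype Ω] [DecidableEq Ω] (K : Subgroup (Perm Ω)) :
    (gg K 2).eval 1 = nb2I K := by
  unfold gg nb2I
  rw [Polynomial.eval_finsetSum]
  refine Finset.sum_congr rfl fun k _ => ?_
  simp

theorem nb2_le {f g : Polynomial ℕ} (h : Le f g) : f.eval 1 ≤ g.eval 1 := by
  rw [Polynomial.eval_eq_sum_range' (n := max f.natDegree g.natDegree + 1) (by omega),
    Polynomial.eval_eq_sum_range' (n := max f.natDegree g.natDegree + 1) (by omega)]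
  refine Finset.sum_le_sum fun k _ => ?_
  rw [one_pow, mul_one, mul_one]
  exact h k

theorem nb2_card {Ω : Type} [Fintype Ω] [DecidableEq Ω] (K : Subgroup (Perm Ω)) :
    nb2I K ≤ Nat.card K := by
  classical
  unfold nb2I nn
  have h1 : ∑ k ∈ Finset.range (Fintype.card Ω + 1),
      Nat.card {g : Perm Ω // g ∈ K ∧ g ^ 2 = 1 ∧ g.support.card = 2 * k} =
      Nat.card (Σ k : Fin (Fintype.card Ω + 1),
        {g : Perm Ω // g ∈ K ∧ g ^ 2 = 1 ∧ g.support.card = 2 * (k : ℕ)}) := by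
    rw [Nat.card_sigma, Finset.sum_range]
  rw [h1]
  refine Nat.card_le_card_of_injective (fun x => (⟨x.2.1, x.2.2.1⟩ : K)) ?_
  rintro ⟨k, g, hg⟩ ⟨l, g', hg'⟩ h
  have h2 : g = g' := congrArg Subtype.val h
  subst h2
  have h3 : k = l := by
    have h4 := hg.2.2
    have h5 := hg'.2.2
    apply Fin.ext
    omega
  subst h3
  rfl

theorem nb2_small {Ω : Type} [Fintype Ω] [DecidableEq Ω] (K : Subgroup (Perm Ω))
    (h1 : 1 ≤ Fintype.card Ω) (h4 : Fintype.card Ω ≤ 4) :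
    nb2I K ^ 3 ≤ 10 ^ (Fintype.card Ω - 1) := by
  have h2 : nb2I K ≤ ∑ k ∈ Finset.range (Fintype.card Ω + 1), tb (Fintype.card Ω) 2 k :=
    Finset.sum_le_sum fun k _ => (ns K h4).2 2 k Nat.prime_two
  refine (Nat.pow_le_pow_left h2 3).trans ?_
  obtain ⟨m, hm⟩ : ∃ m, m = Fintype.card Ω := ⟨_, rfl⟩
  rw [← hm] at h1 h4 ⊢
  interval_cases m <;> decide

theorem nb2_wr {De Bl : Type} [Fintype De] [DecidableEq De] [Fintype Bl] [DecidableEq Bl]
    (A : Subgroup (Perm De)) (B : Subgroup (Perm Bl)) (Y : ℝ) (hY : 0 ≤ Y)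
    (h1 : (nb2I A : ℝ) ≤ Y) (h2 : (Nat.card A : ℝ) ≤ Y ^ 2) :
    (((wp A B 2).eval 1 : ℕ) : ℝ) ≤ nb2I B * Y ^ Fintype.card Bl := by
  unfold wp
  rw [Polynomial.eval_finsetSum]
  have e1 : ∀ j ∈ Finset.range (Fintype.card Bl / 2 + 1),
      (((Polynomial.C (nn B 2 j) * ((gg A 2) ^ (Fintype.card Bl - 2 * j) *
        (Polynomial.C (Nat.card A ^ (2 - 1)) * Polynomial.X ^ (Fintype.card De)) ^ j)).eval 1 :
          ℕ) : ℝ) ≤ (nn B 2 j : ℝ) * Y ^ Fintype.card Bl := by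
    intro j hj
    have hj' : 2 * j ≤ Fintype.card Bl := by
      have := Finset.mem_range.1 hj
      omega
    rw [Polynomial.eval_mul, Polynomial.eval_C, Polynomial.eval_mul, Polynomial.eval_pow,
      nb2_eval, Polynomial.eval_pow, Polynomial.eval_mul, Polynomial.eval_C,
      Polynomial.eval_pow, Polynomial.eval_X, one_pow, mul_one]
    push_cast
    refine mul_le_mul_of_nonneg_left ?_ (Nat.cast_nonneg _)
    have e2 : Y ^ Fintype.card Bl = Y ^ (Fintype.card Bl - 2 * j) * (Y ^ 2) ^ j := by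
      rw [← pow_mul, ← pow_add]
      congr 1
      omega
    rw [e2]
    have e3 : ((Nat.card A : ℝ) ^ (2 - 1)) ^ j ≤ (Y ^ 2) ^ j := by
      refine pow_le_pow_left₀ (by positivity) ?_ j
      simpa using h2
    exact mul_le_mul (pow_le_pow_left₀ (Nat.cast_nonneg _) h1 _) e3 (by positivity)
      (by positivity)
  rw [Nat.cast_sum]
  refine (Finset.sum_le_sum e1).trans ?_
  rw [← Finset.sum_mul]
  refine mul_le_mul_of_nonneg_right ?_ (by positivity)
  unfold nb2I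
  rw [Nat.cast_sum]
  refine Finset.sum_le_sum_of_subset_of_nonneg ?_ fun _ _ _ => Nat.cast_nonneg _
  intro j hj
  rw [Finset.mem_range] at hj ⊢
  omega

theorem nb2_main (m : ℕ) : ∀ (Ω : Type) [Fintype Ω] [DecidableEq Ω] (K : Subgroup (Perm Ω)),
    Group.IsSolvable K → Fintype.card Ω = m → 1 ≤ m → nb2I K ^ 3 ≤ 10 ^ (m - 1) := by
  induction m using Nat.strong_induction_on with
  | _ m ih =>
  intro Ω _ _ K hK hm h1
  by_cases h4 : m ≤ 4
  · rw [← hm]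
    exact nb2_small K (by omega) (by omega)
  rcases sd K hK (by omega) with
    ⟨a, b, Ω₁, Ω₂, i1, i2, i3, i4, K₁, K₂, ha, hb, hab, c1, c2, s1, s2, _, hle⟩ |
    ⟨a, b, De, Bl, i1, i2, i3, i4, A, B, ha, hb, hab, c1, c2, s1, s2, _, hle⟩ | hp
  · have h2 := nb2_le (hle 2 Nat.prime_two)
    rw [Polynomial.eval_mul, nb2_eval, nb2_eval, nb2_eval] at h2
    have h3 := ih a (by omega) Ω₁ K₁ s1 c1 ha
    have h5 := ih b (by omega) Ω₂ K₂ s2 c2 hb
    calc nb2I K ^ 3 ≤ (nb2I K₁ * nb2I K₂) ^ 3 := Nat.pow_le_pow_left h2 3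
      _ = nb2I K₁ ^ 3 * nb2I K₂ ^ 3 := mul_pow _ _ _
      _ ≤ 10 ^ (a - 1) * 10 ^ (b - 1) := Nat.mul_le_mul h3 h5
      _ = 10 ^ (a - 1 + (b - 1)) := (pow_add _ _ _).symm
      _ ≤ 10 ^ (m - 1) := Nat.pow_le_pow_right (by norm_num) (by omega)
  · have h2 := nb2_le (hle 2 Nat.prime_two)
    rw [nb2_eval] at h2
    have ham : a < m := by
      rw [← hm, ← hab]
      nlinarith
    have hbm : b < m := by
      rw [← hm, ← hab]
      nlinarith
    have h3 := ih a ham De A s1 c1 (by omega)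
    have h5 := ih b hbm Bl B s2 c2 (by omega)
    have h6 := nb0 A s1 (by omega)
    rw [c1] at h6
    obtain ⟨Y, hY0, hY⟩ : ∃ Y : ℝ, 0 ≤ Y ∧ Y ^ 3 = 10 ^ (a - 1) :=
      ⟨((10 : ℝ) ^ (a - 1)) ^ (((3 : ℕ) : ℝ)⁻¹), by positivity,
        Real.rpow_inv_natCast_pow (by positivity) (by norm_num)⟩
    have h7 : (nb2I A : ℝ) ≤ Y := by
      have h8 : (nb2I A : ℝ) ^ 3 ≤ Y ^ 3 := by
        rw [hY]
        exact_mod_cast h3
      exact (pow_le_pow_iff_left₀ (Nat.cast_nonneg _) hY0 (by norm_num)).1 h8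
    have h8 : (Nat.card A : ℝ) ≤ Y ^ 2 := by
      have h9 : (Nat.card A : ℝ) ^ 3 ≤ (Y ^ 2) ^ 3 := by
        have h10 : (Y ^ 2) ^ 3 = (100 : ℝ) ^ (a - 1) := by
          calc (Y ^ 2) ^ 3 = (Y ^ 3) ^ 2 := by ring
            _ = ((10 : ℝ) ^ (a - 1)) ^ 2 := by rw [hY]
            _ = ((10 : ℝ) ^ 2) ^ (a - 1) := by rw [← pow_mul, ← pow_mul, mul_comm]
            _ = _ := by norm_num
        rw [h10]
        have h11 : (Nat.card A : ℝ) ≤ 3 ^ (a - 1) := by exact_mod_cast h6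
        calc (Nat.card A : ℝ) ^ 3 ≤ (3 ^ (a - 1)) ^ 3 :=
              pow_le_pow_left₀ (Nat.cast_nonneg _) h11 3
          _ = (27 : ℝ) ^ (a - 1) := by
            rw [← pow_mul, mul_comm, pow_mul]
            norm_num
          _ ≤ (100 : ℝ) ^ (a - 1) := pow_le_pow_left₀ (by norm_num) (by norm_num) _
      exact (pow_le_pow_iff_left₀ (Nat.cast_nonneg _) (by positivity) (by norm_num)).1 h9
    have h9 := nb2_wr A B Y hY0 h7 h8
    rw [c2] at h9
    have h10 : (nb2I K : ℝ) ≤ nb2I B * Y ^ b := by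
      have h11 : (nb2I K : ℝ) ≤ (((wp A B 2).eval 1 : ℕ) : ℝ) := by exact_mod_cast h2
      exact h11.trans h9
    have h11 : (nb2I K : ℝ) ^ 3 ≤ 10 ^ (m - 1) := by
      calc (nb2I K : ℝ) ^ 3 ≤ (nb2I B * Y ^ b) ^ 3 :=
            pow_le_pow_left₀ (Nat.cast_nonneg _) h10 3
        _ = (nb2I B : ℝ) ^ 3 * (Y ^ 3) ^ b := by ring
        _ = (nb2I B : ℝ) ^ 3 * 10 ^ ((a - 1) * b) := by rw [hY, ← pow_mul]
        _ ≤ 10 ^ (b - 1) * 10 ^ ((a - 1) * b) := by
            refine mul_le_mul_of_nonneg_right ?_ (by positivity)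
            exact_mod_cast h5
        _ = 10 ^ (m - 1) := by
            rw [← pow_add]
            congr 1
            obtain ⟨a', rfl⟩ : ∃ a', a = a' + 1 := ⟨a - 1, by omega⟩
            have h12 : (a' + 1) * b = m := hab.trans hm
            have h13 : (a' + 1) * b = a' * b + b := by ring
            rw [h13] at h12
            rw [Nat.add_sub_cancel]
            omega
    exact_mod_cast h11
  · have hc := nb2_card K
    by_cases h8 : m = 8
    · subst h8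
      have h2 := (pa3 K hK hp hm).1
      calc nb2I K ^ 3 ≤ 168 ^ 3 := Nat.pow_le_pow_left (hc.trans h2) 3
        _ ≤ 10 ^ (8 - 1) := by norm_num
    by_cases h16 : m = 16
    · subst h16
      have h2 := (pa5 K hK hp hm).1
      calc nb2I K ^ 3 ≤ 100000 ^ 3 := Nat.pow_le_pow_left (hc.trans h2) 3
        _ ≤ 10 ^ (16 - 1) := by norm_num
    obtain ⟨q, r, hq, hr, hqr, hord, _⟩ := pa1 K hK (by omega) hp
    rw [hm] at hqr
    rw [hqr] at h8 h16 ⊢
    exact (Nat.pow_le_pow_left (hc.trans hord) 3).trans (ni2 q r hq hr (by omega) h8 h16)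

theorem nb2 {Ω : Type} [Fintype Ω] [DecidableEq Ω] (K : Subgroup (Perm Ω))
    (hK : Group.IsSolvable K) (h1 : 1 ≤ Fintype.card Ω) :
    (∑ k ∈ Finset.range (Fintype.card Ω + 1), nn K 2 k) ^ 3 ≤ 10 ^ (Fintype.card Ω - 1) :=
  nb2_main (Fintype.card Ω) Ω K hK rfl h1

end Pool.Agent.H77.TS
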