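import Pool.Agent.H77.TS.Tab

/-!
[H77 TS NS] Degrees at most 4 (30-45 min).

PROOF. nn K p k ≤ nn ⊤ p k and |K| ≤ m! with m = card Ω ≤ 4 (tord m = m!). Transport to Fin m
(Fintype.equivFin) and compute: the number of g in Perm (Fin m) with g^p = 1 and |supp g| = p k is
1 for k = 0, and for k ≥ 1: m = 2: (p,k) = (2,1): 1; m = 3: (2,1): 3, (3,1): 2; m = 4: (2,1): 6,
(2,2): 3, (3,1): 8; otherwise 0 (p k > m, or p = 2, k = 1, ...). For p ≥ 5 and k ≥ 1: p k > m,
nn_eq_zero. For p = 2, 3 and k ≤ 2: decide on Perm (Fin m).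
-/

namespace Pool.Agent.H77.TS

open Equiv

theorem nn_le_NS {Ω : Type} [Fintype Ω] [DecidableEq Ω] (K : Subgroup (Perm Ω)) {m : ℕ}
    (hm : Fintype.card Ω = m) (p k c : ℕ)
    (hc : (Finset.univ.filter fun g : Perm (Fin m) => g ^ p = 1 ∧ g.support.card = p * k).card ≤ c) :
    nn K p k ≤ c := by
  refine le_trans ?_ hc
  have e : Ω ≃ Fin m := Fintype.equivFinOfCardEq hm
  unfold nn
  have hs : ∀ g : Perm Ω, (e.permCongr g).support.card = g.support.card := by
    intro g
    have h : (e.permCongr g).support = g.support.map e.toEmbedding := by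
      ext x
      simp only [Perm.mem_support, Finset.mem_map_equiv, Equiv.permCongr_apply]
      rw [not_iff_not]
      constructor
      · intro h
        rw [Equiv.eq_symm_apply]
        exact h
      · intro h
        rw [h]
        simp
    rw [h, Finset.card_map]
  have hp : ∀ g : Perm Ω, (e.permCongr g) ^ p = e.permCongr (g ^ p) := by
    intro g
    exact (map_pow e.permCongrHom g p).symm
  have h1 : Nat.card {g : Perm Ω // g ∈ K ∧ g ^ p = 1 ∧ g.support.card = p * k} ≤
      Nat.card (Finset.univ.filter fun g : Perm (Fin m) => g ^ p = 1 ∧ g.support.card = p * k) := by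
    refine Nat.card_le_card_of_injective (fun x => ⟨e.permCongr x.1, ?_⟩) ?_
    · rw [Finset.mem_filter]
      refine ⟨Finset.mem_univ _, ?_, ?_⟩
      · rw [hp, x.2.2.1]
        exact map_one e.permCongrHom
      · rw [hs]
        exact x.2.2.2
    · intro x y hxy
      have h2 : e.permCongr x.1 = e.permCongr y.1 := congrArg Subtype.val hxy
      exact Subtype.ext (e.permCongr.injective h2)
  refine h1.trans ?_
  rw [Nat.card_eq_fintype_card, Fintype.card_coe]

theorem c221_NS : (Finset.univ.filter fun g : Perm (Fin 2) =>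
    g ^ 2 = 1 ∧ g.support.card = 2 * 1).card ≤ 1 := by decide +kernel

theorem c321_NS : (Finset.univ.filter fun g : Perm (Fin 3) =>
    g ^ 2 = 1 ∧ g.support.card = 2 * 1).card ≤ 3 := by decide +kernel

theorem c331_NS : (Finset.univ.filter fun g : Perm (Fin 3) =>
    g ^ 3 = 1 ∧ g.support.card = 3 * 1).card ≤ 2 := by decide +kernel

theorem c421_NS : (Finset.univ.filter fun g : Perm (Fin 4) =>
    g ^ 2 = 1 ∧ g.support.card = 2 * 1).card ≤ 6 := by decide +kernel

theorem c422_NS : (Finset.univ.filter fun g : Perm (Fin 4) =>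
    g ^ 2 = 1 ∧ g.support.card = 2 * 2).card ≤ 3 := by decide +kernel

theorem c431_NS : (Finset.univ.filter fun g : Perm (Fin 4) =>
    g ^ 3 = 1 ∧ g.support.card = 3 * 1).card ≤ 8 := by decide +kernel

theorem nn_zero_NS {Ω : Type} [Fintype Ω] [DecidableEq Ω] (K : Subgroup (Perm Ω)) (p : ℕ) :
    nn K p 0 ≤ 1 := by
  unfold nn
  have : Subsingleton {g : Perm Ω // g ∈ K ∧ g ^ p = 1 ∧ g.support.card = p * 0} := by
    constructor
    rintro ⟨g, -, -, hg⟩ ⟨h, -, -, hh⟩
    rw [mul_zero, Finset.card_eq_zero, Perm.support_eq_empty_iff] at hg hh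
    exact Subtype.ext (hg.trans hh.symm)
  exact Finite.card_le_one_iff_subsingleton.2 this

theorem ns {Ω : Type} [Fintype Ω] [DecidableEq Ω] (K : Subgroup (Perm Ω))
    (h4 : Fintype.card Ω ≤ 4) :
    Nat.card K ≤ tord (Fintype.card Ω) ∧
      ∀ p k : ℕ, p.Prime → nn K p k ≤ tb (Fintype.card Ω) p k := by
  obtain ⟨m, hm⟩ : ∃ m, m = Fintype.card Ω := ⟨_, rfl⟩
  rw [← hm] at h4 ⊢
  constructor
  · have h1 : Nat.card K ≤ m.factorial := by
      refine (Subgroup.card_le_card_group K).trans ?_
      rw [Nat.card_eq_fintype_card, Fintype.card_perm, hm]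
    refine h1.trans ?_
    interval_cases m <;> decide
  · intro p k hp
    rcases Nat.eq_zero_or_pos k with hk | hk
    · subst hk
      refine (nn_zero_NS K p).trans ?_
      simp [tb]
    · by_cases hlt : m < p * k
      · rw [nn_eq_zero K (by rw [← hm]; exact hlt)]
        exact Nat.zero_le _
      · push Not at hlt
        have hp2 := hp.two_le
        have hp4 : p ≤ 4 := by nlinarith
        have hp3 : p = 2 ∨ p = 3 := by
          interval_cases p
          · exact Or.inl rfl
          · exact Or.inr rfl
          · exact absurd hp (by decide)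
        rcases hp3 with h | h
        · subst h
          have hk2 : k ≤ 2 := by omega
          interval_cases k
          · interval_cases m
            · exact nn_le_NS K hm.symm 2 1 _ c221_NS
            · exact nn_le_NS K hm.symm 2 1 _ c321_NS
            · exact nn_le_NS K hm.symm 2 1 _ c421_NS
          · have hm4 : m = 4 := by omega
            subst hm4
            exact nn_le_NS K hm.symm 2 2 _ c422_NS
        · subst h
          have hk1 : k = 1 := by omega
          subst hk1
          interval_cases m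
          · exact nn_le_NS K hm.symm 3 1 _ c331_NS
          · exact nn_le_NS K hm.symm 3 1 _ c431_NS

end Pool.Agent.H77.TS
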