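import Pool.Agent.H77.TS.Aff

/-!
[H77 TS PA2] Primitive soluble groups of prime degree (60-75 min).

PROOF. As in PA1 (you may repeat its first part here): a prime q, a vector space V over ZMod q with
|V| = |Ω| = d prime, so q = d and V is one-dimensional, and a bijection Ω ≃ V such that every g in K
acts as u ↦ c_g u + v_g with c_g ≠ 0 in ZMod d (an additive bijection of a one-dimensional space is
a multiplication by a scalar). Let g^p = 1, g ≠ 1, |supp g| = p k. If c_g = 1 then v_g ≠ 0, g has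
order d, so p = d, no fixed point, p k = d, k = 1. If c_g ≠ 1 then g has exactly one fixed point, its
order is the order of c_g, so c_g^p = 1, p ≠ d (p divides d - 1), p k = d - 1. The number of g with
c_g = 1, v_g ≠ 0 is at most d - 1. The number of c ≠ 1 in (ZMod d)ˣ with c^p = 1 is at most p - 1
(roots of X^p - 1 in a field, card_nthRoots), and for each there are at most d values v.
-/

namespace Pool.Agent.H77.TS

open Equiv

/-- coordinates in prime degree -/
theorem pa2_aff {Ω : Type} [Fintype Ω] [DecidableEq Ω] (K : Subgroup (Perm Ω))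
    (hK : Group.IsSolvable K) (hp : MulAction.IsPreprimitive K Ω)
    (hd : (Fintype.card Ω).Prime) :
    ∃ (q : ℕ) (_ : Fact q.Prime) (e : Ω ≃ ZMod q), Fintype.card Ω = q ∧ ∀ g ∈ K,
      ∃ c b : ZMod q, ∀ ω, e (g ω) = c * e ω + b := by
  classical
  obtain ⟨q, r, hq, e, hr, hc, hg⟩ := aff K hK hd.two_le hp
  have hr1 : r = 1 := Nat.Prime.eq_one_of_pow (by rw [← hc]; exact hd)
  subst hr1
  refine ⟨q, hq, e.trans (Equiv.funUnique (Fin 1) (ZMod q)), by rw [hc, pow_one], ?_⟩
  intro g hgK
  obtain ⟨φ, v, hφ⟩ := hg g hgK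
  refine ⟨φ 1 0, v 0, fun ω => ?_⟩
  have h1 : e ω = (e ω 0) • (1 : Fin 1 → ZMod q) := by
    funext i
    fin_cases i
    simp
  have h2 : e (g ω) 0 = (φ (e ω) + v) 0 := by rw [hφ]
  change e (g ω) 0 = φ 1 0 * e ω 0 + v 0
  rw [h2, h1, map_smul]
  simp [mul_comm]

theorem pa2_pow {Ω : Type} {q : ℕ} [Fact q.Prime] (e : Ω ≃ ZMod q) (g : Perm Ω) (c b : ZMod q)
    (h : ∀ ω, e (g ω) = c * e ω + b) (n : ℕ) :
    ∃ b', ∀ ω, e ((g ^ n) ω) = c ^ n * e ω + b' := by
  induction n with
  | zero => exact ⟨0, fun ω => by simp⟩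
  | succ n ih =>
    obtain ⟨b', hb'⟩ := ih
    refine ⟨c ^ n * b + b', fun ω => ?_⟩
    rw [pow_succ, Perm.mul_apply, hb', h]
    ring

/-- the number of points moved by an affine map in dimension one -/
theorem pa2_supp {Ω : Type} [Fintype Ω] [DecidableEq Ω] {q : ℕ} [Fact q.Prime] (e : Ω ≃ ZMod q)
    (hc : Fintype.card Ω = q) (g : Perm Ω) (c b : ZMod q) (h : ∀ ω, e (g ω) = c * e ω + b) :
    (c = 1 ∧ b = 0 ∧ g.support.card = 0) ∨ (c = 1 ∧ b ≠ 0 ∧ g.support.card = q) ∨
      (c ≠ 1 ∧ g.support.card = q - 1) := by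
  classical
  by_cases hc1 : c = 1
  · by_cases hb : b = 0
    · left
      refine ⟨hc1, hb, ?_⟩
      have : g = 1 := by
        ext ω
        apply e.injective
        rw [h, hc1, hb, Equiv.Perm.coe_one, id]
        ring
      rw [this]
      simp
    · right; left
      refine ⟨hc1, hb, ?_⟩
      have : g.support = Finset.univ := by
        ext ω
        simp only [Perm.mem_support, Finset.mem_univ, iff_true]
        intro h1
        have h2 := h ω
        rw [h1, hc1, one_mul] at h2
        exact hb (left_eq_add.1 h2)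
      rw [this, Finset.card_univ, hc]
  · right; right
    refine ⟨hc1, ?_⟩
    have h1c : (1 - c) ≠ 0 := fun h0 => hc1 (sub_eq_zero.1 h0).symm
    have : g.support = Finset.univ.erase (e.symm (b / (1 - c))) := by
      ext ω
      simp only [Perm.mem_support, Finset.mem_erase, Finset.mem_univ, and_true, ne_eq]
      rw [not_iff_not, ← e.injective.eq_iff, h, Equiv.eq_symm_apply, eq_div_iff h1c]
      constructor
      · intro h3
        linear_combination -h3
      · intro h3
        linear_combination -h3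
    rw [this, Finset.card_erase_of_mem (Finset.mem_univ _), Finset.card_univ, hc]

theorem pa2 {Ω : Type} [Fintype Ω] [DecidableEq Ω] (K : Subgroup (Perm Ω))
    (hK : Group.IsSolvable K) (hp : MulAction.IsPreprimitive K Ω)
    (hd : (Fintype.card Ω).Prime) (p k : ℕ) (hpp : p.Prime) (hk : 1 ≤ k) (h0 : nn K p k ≠ 0) :
    (p = Fintype.card Ω ∧ k = 1 ∧ nn K p k ≤ Fintype.card Ω - 1) ∨
      (p * k = Fintype.card Ω - 1 ∧ nn K p k ≤ Fintype.card Ω * (p - 1)) := by
  classical
  obtain ⟨q, hq, e, hc, hg⟩ := pa2_aff K hK hp hd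
  choose! c b hcb using hg
  have hpk : 0 < p * k := Nat.mul_pos hpp.pos hk
  have hinj : ∀ g ∈ K, ∀ g' ∈ K, c g = c g' → b g = b g' → g = g' := by
    intro g hgK g' hgK' h1 h2
    ext ω
    apply e.injective
    rw [hcb g hgK, hcb g' hgK', h1, h2]
  have hne : Nonempty {g : Perm Ω // g ∈ K ∧ g ^ p = 1 ∧ g.support.card = p * k} := by
    by_contra hcon
    apply h0
    unfold nn
    rw [Nat.card_eq_zero]
    left
    exact not_nonempty_iff.1 hcon
  obtain ⟨g₀, hg₀K, hg₀p, hg₀s⟩ := hne
  have hq2 := hq.out.two_le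
  rcases pa2_supp e hc g₀ (c g₀) (b g₀) (hcb g₀ hg₀K) with h1 | h1 | h1
  · omega
  · left
    have hpq : p * k = q := by omega
    have hpq' : p = q := (Nat.prime_dvd_prime_iff_eq hpp hq.out).1 ⟨k, hpq.symm⟩
    have hk1 : k = 1 := by
      have h2 : p * k = p * 1 := by omega
      exact Nat.eq_of_mul_eq_mul_left hpp.pos h2
    refine ⟨by omega, hk1, ?_⟩
    rw [hc]
    unfold nn
    have hmap : ∀ g : {g : Perm Ω // g ∈ K ∧ g ^ p = 1 ∧ g.support.card = p * k},
        c g.1 = 1 ∧ b g.1 ≠ 0 := by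
      rintro ⟨g, hgK, hgp, hgs⟩
      rcases pa2_supp e hc g (c g) (b g) (hcb g hgK) with h2 | h2 | h2
      · omega
      · exact ⟨h2.1, h2.2.1⟩
      · omega
    have h3 : Nat.card {x : ZMod q // x ≠ 0} = q - 1 := by
      rw [Nat.card_eq_fintype_card, Fintype.card_subtype_compl, ZMod.card,
        Fintype.card_subtype_eq]
    rw [← h3]
    refine Nat.card_le_card_of_injective (fun g => ⟨b g.1, (hmap g).2⟩) ?_
    intro g g' hgg
    apply Subtype.ext
    simp only [Subtype.mk.injEq] at hgg
    exact hinj _ g.2.1 _ g'.2.1 (by rw [(hmap g).1, (hmap g').1]) hgg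
  · right
    have hpq : p * k = q - 1 := by omega
    refine ⟨by omega, ?_⟩
    rw [hc]
    unfold nn
    set S : Finset (ZMod q) := (Polynomial.nthRoots p (1 : ZMod q)).toFinset with hS
    have hS1 : (1 : ZMod q) ∈ S := by
      rw [hS, Multiset.mem_toFinset, Polynomial.mem_nthRoots hpp.pos, one_pow]
    have hSc : S.card ≤ p :=
      (Multiset.toFinset_card_le _).trans (Polynomial.card_nthRoots p 1)
    have hmap : ∀ g : {g : Perm Ω // g ∈ K ∧ g ^ p = 1 ∧ g.support.card = p * k},
        c g.1 ∈ S.erase 1 := by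
      rintro ⟨g, hgK, hgp, hgs⟩
      rcases pa2_supp e hc g (c g) (b g) (hcb g hgK) with h2 | h2 | h2
      · omega
      · omega
      · rw [Finset.mem_erase]
        refine ⟨h2.1, ?_⟩
        rw [hS, Multiset.mem_toFinset, Polynomial.mem_nthRoots hpp.pos]
        obtain ⟨b', hb'⟩ := pa2_pow e g (c g) (b g) (hcb g hgK) p
        rw [hgp] at hb'
        have h4 := hb' (e.symm 0)
        have h5 := hb' (e.symm 1)
        rw [Equiv.Perm.coe_one, id, Equiv.apply_symm_apply] at h4 h5
        linear_combination h4 - h5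
    have h3 : Nat.card (ZMod q × {x // x ∈ S.erase 1}) ≤ q * (p - 1) := by
      rw [Nat.card_prod, Nat.card_zmod, Nat.card_eq_fintype_card, Fintype.card_coe,
        Finset.card_erase_of_mem hS1]
      exact Nat.mul_le_mul_left _ (by omega)
    refine le_trans (Nat.card_le_card_of_injective (fun g => (b g.1, ⟨c g.1, hmap g⟩)) ?_) h3
    intro g g' hgg
    apply Subtype.ext
    simp only [Prod.mk.injEq, Subtype.mk.injEq] at hgg
    exact hinj _ g.2.1 _ g'.2.1 hgg.2 hgg.1

end Pool.Agent.H77.TS
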