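import Pool.Agent.H77.TS.Tab

/-!
[H77 TS TBI] Table check, intransitive (20-30 min).

PROOF. Finite computation. For p = 2, 3, 5, 7, 11, 13 and k ≤ 7 by decide (interval_cases a, b; or
one decide +kernel over Fin 15 × Fin 15 × list of primes × Fin 8). For p not in the list tb a p j = 0
for j ≥ 1, so the sum is 1 for k = 0 and 0 for k ≥ 1. For k ≥ 8 (p k > 14) all products vanish
(tb a p j = 0 if j > length of the list; j + (k - j) = k ≥ 8 and the lists have total length at most
7 in each sum: check that tb a p j = 0 for p j > a, a ≤ 14).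
-/

namespace Pool.Agent.H77.TS

private theorem tbi_len (l : List (List ℕ)) (h15 : l.length = 15)
    (h : ∀ a < 15, (l.getD a []).length ≤ a / 2) (a : ℕ) : (l.getD a []).length ≤ a / 2 := by
  by_cases ha : a < 15
  · exact h a ha
  · rw [List.getD_eq_default _ _ (by omega)]
    simp

private theorem tbi_zero (a p j : ℕ) (hj : a / 2 < j) : tb a p j = 0 := by
  have h2 := tbi_len t2 (by decide) (by decide) a
  have h3 := tbi_len t3 (by decide) (by decide) a
  have h5 := tbi_len t5 (by decide) (by decide) a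
  have h7 := tbi_len t7 (by decide) (by decide) a
  have h11 := tbi_len t11 (by decide) (by decide) a
  have h13 := tbi_len t13 (by decide) (by decide) a
  unfold tb
  rw [if_neg (by omega)]
  split_ifs
  · exact List.getD_eq_default _ _ (by omega)
  · exact List.getD_eq_default _ _ (by omega)
  · exact List.getD_eq_default _ _ (by omega)
  · exact List.getD_eq_default _ _ (by omega)
  · exact List.getD_eq_default _ _ (by omega)
  · exact List.getD_eq_default _ _ (by omega)
  · rfl

private theorem tbi_other (a p j : ℕ) (h : p ∉ [2, 3, 5, 7, 11, 13]) (hj : j ≠ 0) :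
    tb a p j = 0 := by
  simp only [List.mem_cons, List.not_mem_nil, or_false, not_or] at h
  obtain ⟨h2, h3, h5, h7, h11, h13⟩ := h
  unfold tb
  rw [if_neg hj, if_neg h2, if_neg h3, if_neg h5, if_neg h7, if_neg h11, if_neg h13]

private theorem tbi_one (a p : ℕ) : tb a p 0 = 1 := by
  unfold tb
  rw [if_pos rfl]

private theorem tbi_tord : ∀ a < 14, ∀ b < 14, (1 ≤ a ∧ 1 ≤ b ∧ 5 ≤ a + b ∧ a + b ≤ 14) →
    tord a * tord b ≤ tord (a + b) := by
  decide +kernel

private theorem tbi_fin : ∀ p ∈ [2, 3, 5, 7, 11, 13], ∀ a < 14, ∀ b < 14,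
    (1 ≤ a ∧ 1 ≤ b ∧ 5 ≤ a + b ∧ a + b ≤ 14) → ∀ k < 8,
      ∑ j ∈ Finset.range (k + 1), tb a p j * tb b p (k - j) ≤ tb (a + b) p k := by
  decide +kernel

theorem tbi (a b : ℕ) (ha : 1 ≤ a) (hb : 1 ≤ b) (h5 : 5 ≤ a + b) (h14 : a + b ≤ 14) :
    tord a * tord b ≤ tord (a + b) ∧ ∀ p k : ℕ, p.Prime →
      ∑ j ∈ Finset.range (k + 1), tb a p j * tb b p (k - j) ≤ tb (a + b) p k := by
  refine ⟨tbi_tord a (by omega) b (by omega) ⟨ha, hb, h5, h14⟩, fun p k _ => ?_⟩
  by_cases hk : k < 8
  · by_cases hp : p ∈ [2, 3, 5, 7, 11, 13]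
    · exact tbi_fin p hp a (by omega) b (by omega) ⟨ha, hb, h5, h14⟩ k hk
    · rcases Nat.eq_zero_or_pos k with rfl | hk0
      · rw [zero_add, Finset.sum_range_one, Nat.sub_zero, tbi_one, tbi_one, tbi_one]
      · refine (le_of_eq (Finset.sum_eq_zero fun j hj => ?_)).trans (Nat.zero_le _)
        rcases Nat.eq_zero_or_pos j with rfl | hj0
        · rw [tbi_other b p (k - 0) hp (by omega), mul_zero]
        · rw [tbi_other a p j hp (by omega), zero_mul]
  · refine (le_of_eq (Finset.sum_eq_zero fun j hj => ?_)).trans (Nat.zero_le _)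
    rw [Finset.mem_range] at hj
    by_cases hja : a / 2 < j
    · rw [tbi_zero a p j hja, zero_mul]
    · rw [tbi_zero b p (k - j) (by omega), mul_zero]

end Pool.Agent.H77.TS
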