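import Pool.Agent.H77.TS.Tab

/-!
[H77 TS TBW] Table check, imprimitive (45-60 min).

PROOF. Finite computation: (a, b) ∈ {(2,3), (3,2), (2,4), (4,2), (3,3), (2,5), (5,2), (2,6), (6,2),
(3,4), (4,3), (2,7), (7,2)} and p = 2, 3, 5, 7 (for larger p: b / p = 0 and a < p, so the left side
is 1; for 7 < p also the table entries used are 1 at 0). Expand the polynomials (simp with
Finset.sum_range_succ, ring_nf, coefficients), or better: define multiplication of lists of natural
numbers, prove that it computes the coefficients, and use decide +kernel.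
-/

namespace Pool.Agent.H77.TS

open Polynomial

/-- The polynomial of the table. -/
noncomputable def tp (m p : ℕ) : ℕ[X] := ∑ i ∈ Finset.range (m + 1), C (tb m p i) * X ^ i

/-- The polynomial with a given list of coefficients. -/
noncomputable def tbw_of : List ℕ → ℕ[X]
  | [] => 0
  | a :: L => C a + X * tbw_of L

/-- Addition of lists. -/
def tbw_add : List ℕ → List ℕ → List ℕ
  | [], M => M
  | L, [] => L
  | a :: L, b :: M => (a + b) :: tbw_add L M

/-- Multiplication by a scalar. -/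
def tbw_smul (c : ℕ) : List ℕ → List ℕ
  | [] => []
  | a :: L => (c * a) :: tbw_smul c L

/-- Multiplication of lists. -/
def tbw_mul : List ℕ → List ℕ → List ℕ
  | [], _ => []
  | a :: L, M => tbw_add (tbw_smul a M) (0 :: tbw_mul L M)

/-- Powers of lists. -/
def tbw_pow (L : List ℕ) : ℕ → List ℕ
  | 0 => [1]
  | n + 1 => tbw_mul (tbw_pow L n) L

/-- Comparison of lists. -/
def tbw_le : List ℕ → List ℕ → Bool
  | [], _ => true
  | a :: L, [] => (a == 0) && tbw_le L []
  | a :: L, b :: M => (Nat.ble a b) && tbw_le L M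

/-- The list of table entries from index `k` on. -/
def tbw_tp (m p : ℕ) : ℕ → ℕ → List ℕ
  | _, 0 => []
  | k, n + 1 => tb m p k :: tbw_tp m p (k + 1) n

/-- Sum of lists. -/
def tbw_sum (f : ℕ → List ℕ) : ℕ → List ℕ
  | 0 => []
  | n + 1 => tbw_add (tbw_sum f n) (f n)

/-- Monomial. -/
def tbw_mono : ℕ → List ℕ
  | 0 => [1]
  | n + 1 => 0 :: tbw_mono n

/-- The check. -/
def tbw_chk (a b p : ℕ) : Bool :=
  tbw_le (tbw_sum (fun j => tbw_mul [tb b p j]
    (tbw_mul (tbw_pow (tbw_tp a p 0 (a + 1)) (b - p * j))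
      (tbw_pow (tbw_mul [tord a ^ (p - 1)] (tbw_mono a)) j))) (b / p + 1))
    (tbw_tp (a * b) p 0 (a * b + 1))

theorem tbw_of_add (L M : List ℕ) : tbw_of (tbw_add L M) = tbw_of L + tbw_of M := by
  induction L generalizing M with
  | nil => simp [tbw_add, tbw_of]
  | cons a L ih =>
    cases M with
    | nil => simp [tbw_add, tbw_of]
    | cons b M => simp only [tbw_add, tbw_of, ih, C_add]; ring

theorem tbw_of_smul (c : ℕ) (L : List ℕ) : tbw_of (tbw_smul c L) = C c * tbw_of L := by
  induction L with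
  | nil => simp [tbw_smul, tbw_of]
  | cons a L ih => simp only [tbw_smul, tbw_of, ih, C_mul]; ring

theorem tbw_of_mul (L M : List ℕ) : tbw_of (tbw_mul L M) = tbw_of L * tbw_of M := by
  induction L with
  | nil => simp [tbw_mul, tbw_of]
  | cons a L ih =>
    simp only [tbw_mul, tbw_of_add, tbw_of_smul, tbw_of, ih, map_zero]; ring

theorem tbw_of_pow (L : List ℕ) (n : ℕ) : tbw_of (tbw_pow L n) = tbw_of L ^ n := by
  induction n with
  | zero => simp [tbw_pow, tbw_of]
  | succ n ih => rw [tbw_pow, tbw_of_mul, ih, pow_succ]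

theorem tbw_of_sum (f : ℕ → List ℕ) (n : ℕ) :
    tbw_of (tbw_sum f n) = ∑ j ∈ Finset.range n, tbw_of (f j) := by
  induction n with
  | zero => simp [tbw_sum, tbw_of]
  | succ n ih => rw [tbw_sum, tbw_of_add, ih, Finset.sum_range_succ]

theorem tbw_of_mono (n : ℕ) : tbw_of (tbw_mono n) = X ^ n := by
  induction n with
  | zero => simp [tbw_mono, tbw_of]
  | succ n ih => rw [tbw_mono, tbw_of, ih, pow_succ]; simp; ring

theorem tbw_of_tp (m p k n : ℕ) :
    tbw_of (tbw_tp m p k n) = ∑ i ∈ Finset.range n, C (tb m p (k + i)) * X ^ i := by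
  induction n generalizing k with
  | zero => simp [tbw_tp, tbw_of]
  | succ n ih =>
    rw [tbw_tp, tbw_of, ih, Finset.sum_range_succ', Finset.mul_sum, add_comm]
    congr 1
    · refine Finset.sum_congr rfl fun i _ => ?_
      rw [show k + (i + 1) = k + 1 + i by ring]
      ring
    · simp

theorem tbw_of_tp' (m p : ℕ) : tbw_of (tbw_tp m p 0 (m + 1)) = tp m p := by
  rw [tbw_of_tp, tp]; simp

theorem tbw_le_of (L M : List ℕ) (h : tbw_le L M = true) : Le (tbw_of L) (tbw_of M) := by
  induction L generalizing M with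
  | nil => intro k; simp [tbw_of]
  | cons a L ih =>
    cases M with
    | nil =>
      simp only [tbw_le, Bool.and_eq_true, beq_iff_eq] at h
      have := ih [] h.2
      intro k
      cases k with
      | zero => simp [tbw_of, h.1]
      | succ k => simpa [tbw_of, coeff_C_succ] using this k
    | cons b M =>
      simp only [tbw_le, Bool.and_eq_true] at h
      have := ih M h.2
      have h1 := Nat.le_of_ble_eq_true h.1
      intro k
      cases k with
      | zero => simpa [tbw_of] using h1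
      | succ k => simpa [tbw_of, coeff_C_succ] using this k

theorem tbw_chk_le (a b p : ℕ) (h : tbw_chk a b p = true) :
    Le (∑ j ∈ Finset.range (b / p + 1), C (tb b p j) *
        ((tp a p) ^ (b - p * j) * (C (tord a ^ (p - 1)) * X ^ a) ^ j)) (tp (a * b) p) := by
  have := tbw_le_of _ _ h
  rw [tbw_of_sum, tbw_of_tp'] at this
  simpa only [tbw_of_mul, tbw_of_pow, tbw_of_tp', tbw_of_mono, tbw_of, mul_zero, add_zero]
    using this

/-- All checks together. -/
def tbw_all (a b : ℕ) : Bool :=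
  !(Nat.ble 2 a && Nat.ble 2 b && Nat.ble 5 (a * b) && Nat.ble (a * b) 14) ||
  (Nat.ble (tord a ^ b * tord b) (tord (a * b)) && tbw_chk a b 2 && tbw_chk a b 3 &&
    tbw_chk a b 5 && tbw_chk a b 7 && tbw_chk a b 11 && tbw_chk a b 13)

theorem tbw_all_ok : ∀ a < 8, ∀ b < 8, tbw_all a b = true := by
  decide +kernel

theorem tbw_chk_small (a : ℕ) (ha8 : a < 8) (b : ℕ) (hb8 : b < 8) (ha : 2 ≤ a) (hb : 2 ≤ b)
    (h5 : 5 ≤ a * b) (h14 : a * b ≤ 14) :
    tord a ^ b * tord b ≤ tord (a * b) ∧ tbw_chk a b 2 = true ∧ tbw_chk a b 3 = true ∧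
    tbw_chk a b 5 = true ∧ tbw_chk a b 7 = true ∧ tbw_chk a b 11 = true ∧
    tbw_chk a b 13 = true := by
  have h := tbw_all_ok a ha8 b hb8
  unfold tbw_all at h
  rw [Nat.ble_eq_true_of_le ha, Nat.ble_eq_true_of_le hb, Nat.ble_eq_true_of_le h5,
    Nat.ble_eq_true_of_le h14] at h
  simp only [Bool.and_self, Bool.not_true, Bool.false_or, Bool.and_eq_true] at h
  obtain ⟨⟨⟨⟨⟨⟨h0, h2⟩, h3⟩, h5'⟩, h7⟩, h11⟩, h13⟩ := h
  exact ⟨Nat.le_of_ble_eq_true h0, h2, h3, h5', h7, h11, h13⟩

theorem tbw (a b : ℕ) (ha : 2 ≤ a) (hb : 2 ≤ b) (h5 : 5 ≤ a * b) (h14 : a * b ≤ 14) :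
    tord a ^ b * tord b ≤ tord (a * b) ∧ ∀ p : ℕ, p.Prime →
      Le (∑ j ∈ Finset.range (b / p + 1), C (tb b p j) *
        ((tp a p) ^ (b - p * j) * (C (tord a ^ (p - 1)) * X ^ a) ^ j)) (tp (a * b) p) := by
  have ha8 : a < 8 := by nlinarith
  have hb8 : b < 8 := by nlinarith
  obtain ⟨h0, h2, h3, h5', h7, h11, h13⟩ := tbw_chk_small a ha8 b hb8 ha hb h5 h14
  refine ⟨h0, fun p hp => ?_⟩
  by_cases e2 : p = 2
  · subst e2; exact tbw_chk_le a b 2 h2
  by_cases e3 : p = 3
  · subst e3; exact tbw_chk_le a b 3 h3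
  by_cases e5 : p = 5
  · subst e5; exact tbw_chk_le a b 5 h5'
  by_cases e7 : p = 7
  · subst e7; exact tbw_chk_le a b 7 h7
  by_cases e11 : p = 11
  · subst e11; exact tbw_chk_le a b 11 h11
  by_cases e13 : p = 13
  · subst e13; exact tbw_chk_le a b 13 h13
  have hp8 : 8 ≤ p := by
    by_contra hlt
    push Not at hlt
    interval_cases p <;> first | omega | (revert hp; decide)
  have ht : ∀ m k : ℕ, tb m p k = if k = 0 then 1 else 0 := by
    intro m k
    simp only [tb, e2, e3, e5, e7, e11, e13, if_false]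
  have htp : ∀ m : ℕ, tp m p = 1 := by
    intro m
    rw [tp, Finset.sum_eq_single 0]
    · simp [ht]
    · intro i _ hi
      simp [ht, hi]
    · intro h
      simp at h
  rw [Nat.div_eq_of_lt (by omega)]
  simp only [htp, ht]
  simp
  exact Le.refl _

end Pool.Agent.H77.TS
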