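import Pool.Agent.H77.TS.Sd
import Pool.Agent.H77.TS.Pa2
import Pool.Agent.H77.TS.Pa3
import Pool.Agent.H77.TS.Pa4
import Pool.Agent.H77.TS.Ns
import Pool.Agent.H77.TS.Tbi
import Pool.Agent.H77.TS.Tbw

/-!
[H77 TS NB3] The table is correct (45-60 min).

PROOF. Strong induction on m = card Ω ≤ 14. m ≤ 4: ns. m ≥ 5: sd. Intransitive: tbi (coeff_mul,
coeff_gg). Imprimitive: compare wp A B p with the polynomial in tbw (Le.mul, Le.pow, Le.sum: gg A p ≤
tp a p coefficientwise, nn B p j ≤ tb b p j, |A|^(p-1) ≤ tord a^(p-1)); coefficient k of tp m p is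
tb m p k for k ≤ m, and for k > m nn K p k = 0. Primitive: m = q^r by pa1, so m ∈ {5, 7, 8, 9, 11,
13}; |K| ≤ 20, 42, 168, 432, 110, 156. k = 0: nn K p 0 = 1 = tb m p 0. k ≥ 1 and nn K p k ≠ 0:
m = 5, 7, 11, 13: pa2: p = m, k = 1: nn ≤ m - 1 ≤ tb m m 1 (4, 6, 110, 156), or p k = m - 1 and
nn ≤ m (p-1): (5;2,2): 5, (7;2,3): 7 ≤ 9, (7;3,2): 14 ≤ 16, (11;2,5): 11, (11;5,2): 44, (13;2,6): 13,
(13;3,4): 26. m = 8: pa1: p k ∈ {8, 7, 6, 4}: p = 2: pa3: k = 4: 7 ≤ 33, otherwise 0; (3,2), (7,1):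
|K| ≤ 168 = tb 8 p k. m = 9: p k ∈ {9, 8, 6}: pa4: (2,3): 72, (2,4): 9 ≤ 54, (3,2): 80 ≤ 168,
(3,3): 80.
-/

namespace Pool.Agent.H77.TS

open Equiv

theorem nb3_zero {Ω : Type} [Fintype Ω] [DecidableEq Ω] (K : Subgroup (Perm Ω)) (p : ℕ) :
    nn K p 0 ≤ 1 := by
  unfold nn
  rw [Finite.card_le_one_iff_subsingleton]
  constructor
  rintro ⟨g, -, -, hg⟩ ⟨g', -, -, hg'⟩
  have h1 : g = 1 := by
    rw [mul_zero, Finset.card_eq_zero] at hg
    exact Perm.support_eq_empty_iff.1 hg
  have h2 : g' = 1 := by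
    rw [mul_zero, Finset.card_eq_zero] at hg'
    exact Perm.support_eq_empty_iff.1 hg'
  exact Subtype.ext (h1.trans h2.symm)

theorem nb3_tb_zero (m p : ℕ) : tb m p 0 = 1 := by
  unfold tb
  rw [if_pos rfl]

theorem nb3_card {Ω : Type} [Fintype Ω] [DecidableEq Ω] (K : Subgroup (Perm Ω)) (p k : ℕ) :
    nn K p k ≤ Nat.card K := by
  unfold nn
  refine Nat.card_le_card_of_injective (fun g => (⟨g.1, g.2.1⟩ : K)) ?_
  intro g g' h
  exact Subtype.ext (congrArg (fun x : K => (x : Perm Ω)) h)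

theorem nb3_wit {Ω : Type} [Fintype Ω] [DecidableEq Ω] (K : Subgroup (Perm Ω)) {p k : ℕ}
    (hp : p.Prime) (hk : 1 ≤ k) (h0 : nn K p k ≠ 0) :
    ∃ g ∈ K, g ≠ 1 ∧ g.support.card = p * k := by
  have hne : Nonempty {g : Perm Ω // g ∈ K ∧ g ^ p = 1 ∧ g.support.card = p * k} := by
    by_contra hcon
    apply h0
    unfold nn
    rw [Nat.card_eq_zero]
    left
    exact not_nonempty_iff.1 hcon
  obtain ⟨g, hg, _, hs⟩ := hne
  refine ⟨g, hg, ?_, hs⟩
  rintro rfl
  have := Nat.mul_pos hp.pos hk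
  rw [Perm.support_one, Finset.card_empty] at hs
  omega

theorem nb3_tp (m p k : ℕ) : (tp m p).coeff k = if k < m + 1 then tb m p k else 0 := by
  unfold tp
  simp only [Polynomial.finsetSum_coeff, Polynomial.coeff_C_mul, Polynomial.coeff_X_pow]
  by_cases hk : k < m + 1
  · rw [if_pos hk]
    simp [Finset.mem_range.2 hk]
  · rw [if_neg hk]
    apply Finset.sum_eq_zero
    intro i hi
    rw [Finset.mem_range] at hi
    have : k ≠ i := by omega
    rw [if_neg this, mul_zero]

theorem nb3_le_tp {Ω : Type} [Fintype Ω] [DecidableEq Ω] (K : Subgroup (Perm Ω)) {p : ℕ}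
    (hp : p.Prime) (h : ∀ k, nn K p k ≤ tb (Fintype.card Ω) p k) :
    Le (gg K p) (tp (Fintype.card Ω) p) := by
  intro k
  rw [coeff_gg K hp.one_le, nb3_tp]
  by_cases hk : k < Fintype.card Ω + 1
  · rw [if_pos hk]
    exact h k
  · rw [if_neg hk]
    have h1 : Fintype.card Ω < p * k := by
      have := hp.one_le
      nlinarith
    rw [nn_eq_zero K h1]

theorem nb3_prime {Ω : Type} [Fintype Ω] [DecidableEq Ω] (K : Subgroup (Perm Ω))
    (hK : Group.IsSolvable K) (hp : MulAction.IsPreprimitive K Ω) (m : ℕ)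
    (hm : Fintype.card Ω = m) (hm4 : m = 5 ∨ m = 7 ∨ m = 11 ∨ m = 13)
    (p k : ℕ) (hpp : p.Prime) (hk : 1 ≤ k) : nn K p k ≤ tb m p k := by
  by_cases h0 : nn K p k = 0
  · rw [h0]
    exact Nat.zero_le _
  have hd : (Fintype.card Ω).Prime := by
    rw [hm]
    rcases hm4 with h | h | h | h <;> rw [h] <;> norm_num
  rcases pa2 K hK hp hd p k hpp hk h0 with ⟨h1, h2, h3⟩ | ⟨h1, h3⟩
  · rw [hm] at h1 h3
    subst h1
    subst h2
    refine h3.trans ?_
    rcases hm4 with h | h | h | h <;> subst h <;> decide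
  · rw [hm] at h1 h3
    refine h3.trans ?_
    have hp1 : p ≤ m - 1 := by
      rw [← h1]
      exact Nat.le_mul_of_pos_right p hk
    have hk1 : k ≤ m - 1 := by
      rw [← h1]
      exact Nat.le_mul_of_pos_left k hpp.pos
    rcases hm4 with h | h | h | h
    · subst h
      have hp5 : p ≤ 4 := hp1
      have hk5 : k ≤ 4 := hk1
      interval_cases p <;> first | (exfalso; revert hpp; norm_num; done) | skip
      all_goals interval_cases k <;> first | omega | decide
    · subst h
      have hp5 : p ≤ 6 := hp1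
      have hk5 : k ≤ 6 := hk1
      interval_cases p <;> first | (exfalso; revert hpp; norm_num; done) | skip
      all_goals interval_cases k <;> first | omega | decide
    · subst h
      have hp5 : p ≤ 10 := hp1
      have hk5 : k ≤ 10 := hk1
      interval_cases p <;> first | (exfalso; revert hpp; norm_num; done) | skip
      all_goals interval_cases k <;> first | omega | decide
    · subst h
      have hp5 : p ≤ 12 := hp1
      have hk5 : k ≤ 12 := hk1
      interval_cases p <;> first | (exfalso; revert hpp; norm_num; done) | skip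
      all_goals interval_cases k <;> first | omega | decide

theorem nb3_eight {Ω : Type} [Fintype Ω] [DecidableEq Ω] (K : Subgroup (Perm Ω))
    (hK : Group.IsSolvable K) (hp : MulAction.IsPreprimitive K Ω) (hm : Fintype.card Ω = 8)
    (hsup : ∀ g ∈ K, g ≠ 1 → g.support.card = 8 ∨ g.support.card = 7 ∨ g.support.card = 6 ∨
      g.support.card = 4)
    (p k : ℕ) (hpp : p.Prime) (hk : 1 ≤ k) : nn K p k ≤ tb 8 p k := by
  by_cases h0 : nn K p k = 0
  · rw [h0]
    exact Nat.zero_le _
  obtain ⟨hK1, h24, h2⟩ := pa3 K hK hp hm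
  obtain ⟨g, hg, hg1, hs⟩ := nb3_wit K hpp hk h0
  have h3 := hsup g hg hg1
  rw [hs] at h3
  have hle : p * k ≤ 8 := by omega
  have hp8 : p ≤ 8 := (Nat.le_mul_of_pos_right p hk).trans hle
  have hk8 : k ≤ 8 := (Nat.le_mul_of_pos_left k hpp.pos).trans hle
  have hcard := (nb3_card K p k).trans hK1
  by_cases hp2 : p = 2
  · subst hp2
    by_cases hk4 : k = 4
    · subst hk4
      exact h24.trans (by decide)
    · exact absurd (h2 k hk hk4) h0
  · interval_cases p <;> first | (exfalso; revert hpp; norm_num; done) | omega | skip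
    all_goals interval_cases k <;> first | omega | exact hcard.trans (by decide)

theorem nb3_nine {Ω : Type} [Fintype Ω] [DecidableEq Ω] (K : Subgroup (Perm Ω))
    (hK : Group.IsSolvable K) (hp : MulAction.IsPreprimitive K Ω) (hm : Fintype.card Ω = 9)
    (hsup : ∀ g ∈ K, g ≠ 1 → g.support.card = 9 ∨ g.support.card = 8 ∨ g.support.card = 6)
    (p k : ℕ) (hpp : p.Prime) (hk : 1 ≤ k) : nn K p k ≤ tb 9 p k := by
  by_cases h0 : nn K p k = 0
  · rw [h0]
    exact Nat.zero_le _
  obtain ⟨h1, h2, h3, h4⟩ := pa4 K hK hp hm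
  obtain ⟨g, hg, hg1, hs⟩ := nb3_wit K hpp hk h0
  have h5 := hsup g hg hg1
  rw [hs] at h5
  have hle : p * k ≤ 9 := by omega
  have hp8 : p ≤ 9 := (Nat.le_mul_of_pos_right p hk).trans hle
  have hk8 : k ≤ 9 := (Nat.le_mul_of_pos_left k hpp.pos).trans hle
  interval_cases p <;> first | (exfalso; revert hpp; norm_num; done) | skip
  all_goals interval_cases k <;> first
    | omega
    | exact h1
    | exact le_trans h2 (by decide : 9 ≤ tb 9 2 4)
    | exact le_trans h3 (by decide : 80 ≤ tb 9 3 2)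
    | exact h4

theorem nb3_prim {Ω : Type} [Fintype Ω] [DecidableEq Ω] (K : Subgroup (Perm Ω))
    (hK : Group.IsSolvable K) (hp : MulAction.IsPreprimitive K Ω)
    (h5 : 5 ≤ Fintype.card Ω) (h14 : Fintype.card Ω ≤ 14) :
    Nat.card K ≤ tord (Fintype.card Ω) ∧
      ∀ p k : ℕ, p.Prime → nn K p k ≤ tb (Fintype.card Ω) p k := by
  obtain ⟨q, r, hq, hr, hc, hcard, hsup⟩ := pa1 K hK (by omega) hp
  have hk0 : (∀ p k : ℕ, p.Prime → 1 ≤ k → nn K p k ≤ tb (Fintype.card Ω) p k) →
      ∀ p k : ℕ, p.Prime → nn K p k ≤ tb (Fintype.card Ω) p k := by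
    intro h p k hpp
    rcases Nat.eq_zero_or_pos k with hk | hk
    · rw [hk, nb3_tb_zero]
      exact nb3_zero K p
    · exact h p k hpp hk
  have hr3 : r ≤ 3 := by
    by_contra hcon
    have h1 : 2 ^ 4 ≤ 2 ^ r := Nat.pow_le_pow_right (by norm_num) (by omega)
    have h2 : 2 ^ r ≤ q ^ r := Nat.pow_le_pow_left hq.two_le r
    omega
  have hq14 : q ≤ 14 := by
    have h1 : q ^ 1 ≤ q ^ r := Nat.pow_le_pow_right hq.pos hr
    rw [pow_one] at h1
    omega
  have hcases : (r = 1 ∧ (q = 5 ∨ q = 7 ∨ q = 11 ∨ q = 13)) ∨ (r = 2 ∧ q = 3) ∨ (r = 3 ∧ q = 2) := by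
    interval_cases r
    · left
      refine ⟨rfl, ?_⟩
      rw [pow_one] at hc
      interval_cases q <;> first | (exfalso; revert hq; norm_num; done) | omega
    · right; left
      refine ⟨rfl, ?_⟩
      interval_cases q <;> first | (exfalso; revert hq; norm_num; done) | omega
    · right; right
      refine ⟨rfl, ?_⟩
      interval_cases q <;> first | (exfalso; revert hq; norm_num; done) | omega
  rcases hcases with ⟨hr1, hq4⟩ | ⟨hr2, hq3⟩ | ⟨hr3, hq2⟩
  · subst hr1
    rw [pow_one] at hc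
    refine ⟨?_, hk0 fun p k hpp hk => ?_⟩
    · refine hcard.trans ?_
      rw [hc]
      rcases hq4 with h | h | h | h <;> subst h <;> decide
    · rw [hc]
      exact nb3_prime K hK hp q hc hq4 p k hpp hk
  · subst hr2
    subst hq3
    have hc9 : Fintype.card Ω = 9 := by rw [hc]; norm_num
    refine ⟨?_, hk0 fun p k hpp hk => ?_⟩
    · refine hcard.trans ?_
      rw [hc9]
      decide
    · rw [hc9]
      refine nb3_nine K hK hp hc9 ?_ p k hpp hk
      intro g hg hg1
      rcases hsup g hg hg1 with h | ⟨f, hf, h⟩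
      · left
        rw [h]
        norm_num
      · right
        interval_cases f
        · left; rw [h]; norm_num
        · right; rw [h]; norm_num
  · subst hr3
    subst hq2
    have hc8 : Fintype.card Ω = 8 := by rw [hc]; norm_num
    refine ⟨?_, hk0 fun p k hpp hk => ?_⟩
    · rw [hc8]
      exact (pa3 K hK hp hc8).1.trans (by decide)
    · rw [hc8]
      refine nb3_eight K hK hp hc8 ?_ p k hpp hk
      intro g hg hg1
      rcases hsup g hg hg1 with h | ⟨f, hf, h⟩
      · left
        rw [h]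
        norm_num
      · right
        interval_cases f
        · left; rw [h]; norm_num
        · right; left; rw [h]; norm_num
        · right; right; rw [h]; norm_num

theorem nb3_aux (m : ℕ) : ∀ {Ω : Type} [Fintype Ω] [DecidableEq Ω] (K : Subgroup (Perm Ω))
    (_ : Group.IsSolvable K) (_ : Fintype.card Ω = m) (_ : m ≤ 14),
    Nat.card K ≤ tord m ∧ ∀ p k : ℕ, p.Prime → nn K p k ≤ tb m p k := by
  induction m using Nat.strong_induction_on with
  | _ m ih =>
    intro Ω _ _ K hK hm h14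
    by_cases h4 : m ≤ 4
    · have := ns K (by rw [hm]; exact h4)
      rw [hm] at this
      exact this
    have h5 : 5 ≤ m := by omega
    rcases sd K hK (by omega) with hT | hT | hT
    · obtain ⟨a, b, Ω₁, Ω₂, _, _, _, _, K₁, K₂, ha, hb, hab, hca, hcb, hs1, hs2, hcard, hle⟩ := hT
      rw [hm] at hab
      obtain ⟨i1, i2⟩ := ih a (by omega) K₁ hs1 hca (by omega)
      obtain ⟨j1, j2⟩ := ih b (by omega) K₂ hs2 hcb (by omega)
      obtain ⟨t1, t2⟩ := tbi a b ha hb (by omega) (by omega)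
      rw [hab] at t1 t2
      refine ⟨hcard.trans ((Nat.mul_le_mul i1 j1).trans t1), fun p k hpp => ?_⟩
      have h6 := hle p hpp k
      rw [coeff_gg K hpp.one_le, Polynomial.coeff_mul] at h6
      refine h6.trans (le_trans ?_ (t2 p k hpp))
      rw [← Finset.Nat.sum_antidiagonal_eq_sum_range_succ (fun i j => tb a p i * tb b p j)]
      refine Finset.sum_le_sum fun x _ => ?_
      rw [coeff_gg K₁ hpp.one_le, coeff_gg K₂ hpp.one_le]
      exact Nat.mul_le_mul (i2 p x.1 hpp) (j2 p x.2 hpp)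
    · obtain ⟨a, b, De, Bl, _, _, _, _, A, B, ha, hb, hab, hca, hcb, hs1, hs2, hcard, hle⟩ := hT
      rw [hm] at hab
      have ham : a < m := by nlinarith
      have hbm : b < m := by nlinarith
      obtain ⟨i1, i2⟩ := ih a ham A hs1 hca (by omega)
      obtain ⟨j1, j2⟩ := ih b hbm B hs2 hcb (by omega)
      obtain ⟨t1, t2⟩ := tbw a b ha hb (by omega) (by omega)
      rw [hab] at t1 t2
      refine ⟨hcard.trans ((Nat.mul_le_mul (Nat.pow_le_pow_left i1 b) j1).trans t1),
        fun p k hpp => ?_⟩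
      have h6 : Le (wp A B p) (tp m p) := by
        refine Le.trans ?_ (t2 p hpp)
        unfold wp
        rw [hca, hcb]
        refine Le.sum _ fun j _ => ?_
        have hA : Le (gg A p) (tp a p) := by
          have := nb3_le_tp A hpp (fun k => by rw [hca]; exact i2 p k hpp)
          rwa [hca] at this
        have hC : ∀ {x y : ℕ}, x ≤ y → Le (Polynomial.C x) (Polynomial.C y) := by
          intro x y hxy k
          rw [Polynomial.coeff_C, Polynomial.coeff_C]
          split_ifs
          · exact hxy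
          · exact le_rfl
        exact (hC (j2 p j hpp)).mul ((hA.pow _).mul
          (((hC (Nat.pow_le_pow_left i1 _)).mul (Le.refl _)).pow _))
      have h7 := (hle p hpp).trans h6 k
      rw [coeff_gg K hpp.one_le, nb3_tp] at h7
      refine h7.trans ?_
      split_ifs
      · exact le_rfl
      · exact Nat.zero_le _
    · have := nb3_prim K hK hT (by rw [hm]; exact h5) (by rw [hm]; exact h14)
      rw [hm] at this
      exact this

theorem nb3 {Ω : Type} [Fintype Ω] [DecidableEq Ω] (K : Subgroup (Perm Ω))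
    (hK : Group.IsSolvable K) (h14 : Fintype.card Ω ≤ 14) :
    Nat.card K ≤ tord (Fintype.card Ω) ∧
      ∀ p k : ℕ, p.Prime → nn K p k ≤ tb (Fintype.card Ω) p k :=
  nb3_aux _ K hK rfl h14

end Pool.Agent.H77.TS
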