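import Pool.Agent.H77.TS.Nqc

/-!
[H77 TS NQ2] Numerical check for 15 ≤ m ≤ 28 (45-60 min).

PROOF. Finite computation. The largest value is about 0.75 (m = 16: the class (2,8) gives 0.592, (2,1)
0.117), all the others are below 0.35. Since the numbers are large it may be better to prove
inequalities of natural numbers: for every (p, k) the term is at most c / 10^6 with c a natural
number, 10^6 * w * t^5 ≤ c * cc^4, and the sum of the c is < 10^6; e.g. define a computable function
with natural number division (c = 10^6 * w * t^5 / cc^4 + 1) and use decide +kernel for every m,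
or norm_num. No native_decide. You may split into several files Nq2a, Nq2b.
-/

namespace Pool.Agent.H77.TS

/-- the bounds in a form which can be evaluated -/
def tmf (m p k : ℕ) : ℕ :=
  if p = 2 then min (tcf m 2 k) (crL.getD (m - 15) 0) else tcf m p k

theorem tm_eq (m : ℕ) : tm m = tmf m := by
  funext p k
  unfold tm tmf tcf
  rw [Nat.choose_eq_descFactorial_div_factorial]

theorem nq2_a : ∀ m ∈ Finset.Icc 15 28, nqc m (tmf m) (3 ^ (m - 1)) < 10 ^ 6 := by
  decide +kernel

theorem nq2 (m : ℕ) (h15 : 15 ≤ m) (h28 : m ≤ 28) : WB m (tm m) (3 ^ (m - 1)) < 1 := by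
  rw [tm_eq]
  exact nqc_le _ _ _ (nq2_a m (Finset.mem_Icc.2 ⟨h15, h28⟩))

theorem nq2cr_a : ∀ m ∈ Finset.Icc 15 28, 10 ^ (m - 1) < (crL.getD (m - 15) 0 + 1) ^ 3 := by
  decide +kernel

/-- the list is correct -/
theorem nq2cr (m n : ℕ) (h15 : 15 ≤ m) (h28 : m ≤ 28) (hn : n ^ 3 ≤ 10 ^ (m - 1)) :
    n ≤ crL.getD (m - 15) 0 := by
  by_contra hlt
  push Not at hlt
  have h1 := nq2cr_a m (Finset.mem_Icc.2 ⟨h15, h28⟩)
  have h2 : (crL.getD (m - 15) 0 + 1) ^ 3 ≤ n ^ 3 := Nat.pow_le_pow_left hlt 3
  omega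

end Pool.Agent.H77.TS
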