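import Pool.Agent.H77.TS.Nqc

/-!
[H77 TS NQ3] Numerical check for 29 ≤ m ≤ 59 (45-75 min).

PROOF. Finite computation, the values are at most 0.1 (m = 30: 0.091). See NQ2 for the method:
a computable function N(m) = ∑_{p,k} (10^6 * w * t^5 / cc^4 + 1) with natural numbers and
decide +kernel for each m (or in blocks); the number of classes (p, k) is at most 150 for each m,
so the rounding error is at most 150 / 10^6. You may split into several files Nq3a, Nq3b, ...
-/

namespace Pool.Agent.H77.TS

theorem nq3_a : ∀ m ∈ Finset.Icc 29 59, nqc m (tcf m) (3 ^ (m - 1)) < 10 ^ 6 := by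
  decide +kernel

theorem nq3 (m : ℕ) (h29 : 29 ≤ m) (h59 : m ≤ 59) : WB m (tc m) (3 ^ (m - 1)) < 1 := by
  rw [tc_eq]
  exact nqc_le _ _ _ (nq3_a m (Finset.mem_Icc.2 ⟨h29, h59⟩))

end Pool.Agent.H77.TS
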