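import Pool.Agent.H77.TS.Nq4b

/-!
[H77 TS NQ4D] Large degrees, odd p (60-75 min).

PROOF. p al p ≤ 3^(p-1) + p - 1 ≤ 3.32^(p-1) (al is a floor of (3^(p-1)+p-1)/p; p ≥ 3, induction:
11 ≤ 11.02), so al p ≤ 3.32^(p-1)/3. Let N = m - 1 - k, N ≤ m and N ≥ m - 1 - m/3 ≥ 0.65 m (m ≥ 60).
By nq4b tc/cc ≤ (1/m) (p al p)^k (2.719/N)^((p-1)k) * (N/2.719) ≤ s^k with
s = (3.32 * 2.719 / (0.65 m))^(p-1) ≤ (13.89/m)^(p-1). So with n = m - 1, x = al p * s^4: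
∑_{k ≥ 1} tc (tc/cc)^4 ≤ ∑_{k ≥ 1} choose n k x^k = (1+x)^n - 1 ≤ exp (n x) - 1, and
n x ≤ (m/3) (3.32 * 13.89^4 / m^4)^(p-1) ≤ (m/3) (123600/m^4)^(p-1). 123600/m^4 ≤ 0.00954 for m ≥ 60,
and (m/3) (123600/m^4)^2 = 5.0924... * 10^9 / m^7 ≤ 0.00182 (60^7 = 2.799... * 10^12). So
n x ≤ 0.00182 * 0.00954^(p-3) ≤ 0.00182 * (1/4)^(p-3), exp (n x) - 1 ≤ 1.01 n x (n x small:
Real.exp_bound or exp y ≤ 1 / (1 - y)), and 32 * 1.01 * 0.00182 = 0.0589 ≤ 1/16. So the sum is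
≤ (1/16) (1/4)^(p-3) = (1/4)^(p-1).
-/

namespace Pool.Agent.H77.TS

theorem nq4d_al (p : ℕ) (h3 : 3 ≤ p) : (p : ℚ) * (al p : ℚ) ≤ (83 / 25) ^ (p - 1) := by
  have h1 : p * al p ≤ 3 ^ (p - 1) + p - 1 := Nat.mul_div_le _ _
  have h2 : ((p * al p : ℕ) : ℚ) ≤ ((3 ^ (p - 1) + (p - 1) : ℕ) : ℚ) := by
    have : 3 ^ (p - 1) + p - 1 = 3 ^ (p - 1) + (p - 1) := Nat.add_sub_assoc (by omega) _
    rw [this] at h1
    exact_mod_cast h1
  have h4 : ∀ n : ℕ, 2 ≤ n → ((3 ^ n + n : ℕ) : ℚ) ≤ (83 / 25) ^ n := by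
    intro n hn
    induction n, hn using Nat.le_induction with
    | base => norm_num
    | succ n hn ih =>
      have hn' : (2 : ℚ) ≤ n := by exact_mod_cast hn
      have h5 : (0 : ℚ) ≤ (3 : ℚ) ^ n := by positivity
      push_cast at ih ⊢
      rw [pow_succ, pow_succ]
      nlinarith
  rw [Nat.cast_mul] at h2
  exact h2.trans (h4 (p - 1) (by omega))

theorem nq4d_bin (n : ℕ) (x : ℚ) (hx : 0 ≤ x) (hnx : (n : ℚ) * x ≤ 1 / 100) :
    (1 + x) ^ n - 1 ≤ 100 / 99 * ((n : ℚ) * x) := by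
  rcases Nat.eq_zero_or_pos n with rfl | hn
  · simp
  have hn1 : (1 : ℚ) ≤ n := by exact_mod_cast hn
  have hx1 : x ≤ 1 / 100 := by nlinarith
  have h1 : 1 + (n : ℚ) * (-x) ≤ (1 + (-x)) ^ n :=
    one_add_mul_le_pow (by linarith) n
  have h2 : (1 + x) ^ n * (1 + (-x)) ^ n ≤ 1 := by
    rw [← mul_pow]
    apply pow_le_one₀
    · nlinarith
    · nlinarith
  have h3 : (0 : ℚ) ≤ (1 + x) ^ n := by positivity
  have h4 : (1 + x) ^ n * (1 - (n : ℚ) * x) ≤ 1 := by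
    refine le_trans (mul_le_mul_of_nonneg_left ?_ h3) h2
    linarith
  have h5 : (1 + x) ^ n ≤ 100 / 99 := by nlinarith
  have h6 : (0 : ℚ) ≤ (n : ℚ) * x := by positivity
  nlinarith

theorem nq4d_rho (m p k : ℕ) (hm : 60 ≤ m) (hp : p.Prime) (h3 : 3 ≤ p) (hk : 1 ≤ k)
    (h : p * k ≤ m) :
    (tc m p k : ℚ) / (cc m p k : ℚ) ≤ (((225677 / 16250) / (m : ℚ)) ^ (p - 1)) ^ k := by
  have hm' : (60 : ℚ) ≤ m := by exact_mod_cast hm
  have hm0 : (0 : ℚ) < m := by linarith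
  refine (nq4b m p k hm hp hk h).trans ?_
  have hN : (13 / 20 : ℚ) * m ≤ ((m - 1 - k : ℕ) : ℚ) := by
    have h5 : 3 * k ≤ m := le_trans (Nat.mul_le_mul_right k h3) h
    have h6 : ((m - 1 - k : ℕ) : ℚ) = (m : ℚ) - 1 - k := by
      rw [Nat.sub_sub, Nat.cast_sub (by omega)]
      push_cast
      ring
    have h7 : (3 : ℚ) * k ≤ m := by exact_mod_cast h5
    rw [h6]
    linarith
  have hN0 : (0 : ℚ) < ((m - 1 - k : ℕ) : ℚ) := lt_of_lt_of_le (by positivity) hN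
  set b : ℚ := (2719 / 650) / (m : ℚ) with hb
  have hb0 : 0 ≤ b := by positivity
  have hEb : (2719 / 1000) / ((m - 1 - k : ℕ) : ℚ) ≤ b := by
    rw [hb, div_le_div_iff₀ hN0 hm0]
    linarith
  have h1b : 1 / (m : ℚ) ≤ b := by
    rw [hb]
    exact div_le_div_of_nonneg_right (by norm_num) hm0.le
  have he : (p - 1) * k - 1 + 1 = (p - 1) * k := by
    have : 1 ≤ (p - 1) * k := Nat.mul_pos (by omega) hk
    omega
  have h5 : 1 / (m : ℚ) * ((2719 / 1000) / ((m - 1 - k : ℕ) : ℚ)) ^ ((p - 1) * k - 1) ≤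
      (b ^ (p - 1)) ^ k := by
    rw [← pow_mul, ← he, pow_succ']
    exact mul_le_mul h1b (pow_le_pow_left₀ (by positivity) hEb _) (by positivity) hb0
  have h6 : ((p : ℚ) * (al p : ℚ)) ^ k ≤ ((83 / 25) ^ (p - 1)) ^ k :=
    pow_le_pow_left₀ (by positivity) (nq4d_al p h3) k
  calc 1 / (m : ℚ) * ((p : ℚ) * (al p : ℚ)) ^ k *
      ((2719 / 1000) / ((m - 1 - k : ℕ) : ℚ)) ^ ((p - 1) * k - 1)
      = ((p : ℚ) * (al p : ℚ)) ^ k * (1 / (m : ℚ) *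
        ((2719 / 1000) / ((m - 1 - k : ℕ) : ℚ)) ^ ((p - 1) * k - 1)) := by ring
    _ ≤ ((83 / 25) ^ (p - 1)) ^ k * (b ^ (p - 1)) ^ k :=
        mul_le_mul h6 h5 (by positivity) (by positivity)
    _ = (((225677 / 16250) / (m : ℚ)) ^ (p - 1)) ^ k := by
        rw [← mul_pow, ← mul_pow, hb]
        congr 2
        ring

theorem nq4d_term (m p k : ℕ) (hm : 60 ≤ m) (hp : p.Prime) (h3 : 3 ≤ p) (hk : 1 ≤ k)
    (h : p * k ≤ m) :
    32 * (tc m p k : ℚ) ^ 5 / (cc m p k : ℚ) ^ 4 ≤ 32 * (((m - 1).choose k : ℚ) *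
      ((al p : ℚ) * (((225677 / 16250) / (m : ℚ)) ^ (p - 1)) ^ 4) ^ k) := by
  have h1 := nq4d_rho m p k hm hp h3 hk h
  have hc : (0 : ℚ) < (cc m p k : ℚ) := by exact_mod_cast (cc1 m p k hp hk h).2
  set s : ℚ := ((225677 / 16250) / (m : ℚ)) ^ (p - 1) with hs
  have h2 : ((tc m p k : ℚ) / (cc m p k : ℚ)) ^ 4 ≤ (s ^ k) ^ 4 :=
    pow_le_pow_left₀ (by positivity) h1 4
  have h3' : (tc m p k : ℚ) = (al p : ℚ) ^ k * ((m - 1).choose k : ℚ) := by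
    unfold tc
    push_cast
    ring
  calc 32 * (tc m p k : ℚ) ^ 5 / (cc m p k : ℚ) ^ 4
      = 32 * ((tc m p k : ℚ) * ((tc m p k : ℚ) / (cc m p k : ℚ)) ^ 4) := by
        field_simp
    _ ≤ 32 * ((tc m p k : ℚ) * (s ^ k) ^ 4) := by
        apply mul_le_mul_of_nonneg_left _ (by norm_num)
        exact mul_le_mul_of_nonneg_left h2 (by positivity)
    _ = 32 * (((m - 1).choose k : ℚ) * ((al p : ℚ) * s ^ 4) ^ k) := by
        rw [h3', mul_pow, ← pow_mul, ← pow_mul, mul_comm k 4, ← pow_mul]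
        ring

theorem nq4d_sum (m p : ℕ) (x : ℚ) (hx : 0 ≤ x) (hm : 60 ≤ m) (h3 : 3 ≤ p) :
    ∑ k ∈ Finset.Icc 1 (m / p), ((m - 1).choose k : ℚ) * x ^ k ≤ (1 + x) ^ (m - 1) - 1 := by
  have h1 : (1 + x) ^ (m - 1) = ∑ k ∈ Finset.range (m - 1 + 1), ((m - 1).choose k : ℚ) * x ^ k := by
    rw [add_comm, add_pow]
    refine Finset.sum_congr rfl fun k _ => ?_
    rw [one_pow, mul_one, mul_comm]
  rw [h1, Finset.range_eq_Ico, Finset.sum_eq_sum_Ico_succ_bot (by omega)]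
  rw [Nat.choose_zero_right, pow_zero, Nat.cast_one, mul_one, add_sub_cancel_left]
  apply Finset.sum_le_sum_of_subset_of_nonneg
  · intro k hk
    rw [Finset.mem_Icc] at hk
    rw [Finset.mem_Ico]
    have h4 : m / p ≤ m / 3 := Nat.div_le_div_left h3 (by norm_num)
    omega
  · intro k _ _
    positivity

theorem nq4d (m p : ℕ) (hm : 60 ≤ m) (hp : p.Prime) (h3 : 3 ≤ p) :
    ∑ k ∈ Finset.Icc 1 (m / p), 32 * (tc m p k : ℚ) ^ 5 / (cc m p k : ℚ) ^ 4 ≤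
      (1 / 4) ^ (p - 1) := by
  have hm' : (60 : ℚ) ≤ m := by exact_mod_cast hm
  have hm0 : (0 : ℚ) < m := by linarith
  set β : ℚ := (225677 / 16250) / (m : ℚ) with hβ
  have hβ0 : 0 ≤ β := by positivity
  set x : ℚ := (al p : ℚ) * (β ^ (p - 1)) ^ 4 with hx
  have hx0 : 0 ≤ x := by positivity
  have h1 : ∑ k ∈ Finset.Icc 1 (m / p), 32 * (tc m p k : ℚ) ^ 5 / (cc m p k : ℚ) ^ 4 ≤
      32 * ((1 + x) ^ (m - 1) - 1) := by
    refine le_trans (Finset.sum_le_sum (g := fun k => 32 * (((m - 1).choose k : ℚ) * x ^ k))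
      fun k hk => ?_) ?_
    · rw [Finset.mem_Icc] at hk
      have h5 : p * k ≤ m := le_trans (Nat.mul_le_mul_left p hk.2) (Nat.mul_div_le m p)
      exact nq4d_term m p k hm hp h3 hk.1 h5
    · rw [← Finset.mul_sum]
      exact mul_le_mul_of_nonneg_left (nq4d_sum m p x hx0 hm h3) (by norm_num)
  -- the size of x
  have hal : (al p : ℚ) ≤ (1 / 3) * (83 / 25) ^ (p - 1) := by
    have h5 := nq4d_al p h3
    have h6 : (3 : ℚ) ≤ p := by exact_mod_cast h3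
    have h7 : (0 : ℚ) ≤ (al p : ℚ) := by positivity
    nlinarith
  set γ : ℚ := 83 / 25 * β ^ 4 with hγ
  have hγ0 : 0 ≤ γ := by positivity
  have hxγ : x ≤ (1 / 3) * γ ^ (p - 1) := by
    calc x ≤ ((1 / 3) * (83 / 25) ^ (p - 1)) * (β ^ (p - 1)) ^ 4 :=
          mul_le_mul_of_nonneg_right hal (by positivity)
      _ = (1 / 3) * γ ^ (p - 1) := by
          rw [hγ, mul_pow, ← pow_mul, ← pow_mul, mul_comm (p - 1) 4]
          ring
  have hγ1 : γ ≤ 123600 / (m : ℚ) ^ 4 := by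
    rw [hγ, hβ, div_pow, mul_div_assoc']
    apply div_le_div_of_nonneg_right _ (by positivity)
    norm_num
  have hm4 : (60 : ℚ) ^ 4 ≤ (m : ℚ) ^ 4 := pow_le_pow_left₀ (by norm_num) hm' 4
  have hm7 : (60 : ℚ) ^ 7 ≤ (m : ℚ) ^ 7 := pow_le_pow_left₀ (by norm_num) hm' 7
  have hγ2 : γ ≤ 1 / 4 := by
    refine hγ1.trans ?_
    rw [div_le_iff₀ (by positivity)]
    linarith
  have hγ3 : (m : ℚ) * γ ^ 2 ≤ 546 / 100000 := by
    calc (m : ℚ) * γ ^ 2 ≤ m * (123600 / (m : ℚ) ^ 4) ^ 2 := by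
          apply mul_le_mul_of_nonneg_left _ hm0.le
          exact pow_le_pow_left₀ hγ0 hγ1 2
      _ = 123600 ^ 2 / (m : ℚ) ^ 7 := by
          field_simp
      _ ≤ 546 / 100000 := by
          rw [div_le_iff₀ (by positivity)]
          linarith
  have hpow : γ ^ (p - 1) ≤ γ ^ 2 * (1 / 4) ^ (p - 3) := by
    have h5 : p - 1 = 2 + (p - 3) := by omega
    rw [h5, pow_add]
    apply mul_le_mul_of_nonneg_left _ (by positivity)
    exact pow_le_pow_left₀ hγ0 hγ2 _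
  set q : ℚ := (1 / 4) ^ (p - 3) with hq
  have hq0 : 0 ≤ q := by positivity
  have hq1 : q ≤ 1 := pow_le_one₀ (by norm_num) (by norm_num)
  have hnx : ((m - 1 : ℕ) : ℚ) * x ≤ 182 / 100000 * q := by
    have h5 : ((m - 1 : ℕ) : ℚ) ≤ m := by exact_mod_cast Nat.sub_le m 1
    calc ((m - 1 : ℕ) : ℚ) * x ≤ m * ((1 / 3) * (γ ^ 2 * q)) := by
          apply mul_le_mul h5 _ hx0 hm0.le
          refine hxγ.trans ?_
          exact mul_le_mul_of_nonneg_left hpow (by norm_num)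
      _ = (1 / 3) * (m * γ ^ 2) * q := by ring
      _ ≤ (1 / 3) * (546 / 100000) * q := by
          apply mul_le_mul_of_nonneg_right _ hq0
          exact mul_le_mul_of_nonneg_left hγ3 (by norm_num)
      _ = 182 / 100000 * q := by ring
  have h6 := nq4d_bin (m - 1) x hx0 (by linarith)
  have h7 : (1 / 4 : ℚ) ^ (p - 1) = 1 / 16 * q := by
    have h5 : p - 1 = 2 + (p - 3) := by omega
    rw [h5, pow_add, hq]
    norm_num
  rw [h7]
  linarith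

end Pool.Agent.H77.TS
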