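import Pool.Agent.H77.TS.Nq4c
import Pool.Agent.H77.TS.Nq4d

/-!
[H77 TS NQ4] Large degrees, assembly (25-40 min).

PROOF. Order term: 64 * 3^(5(m-1)) / (m!)^4 ≤ 1/10: induction from m = 60 (the quotient of
consecutive terms is 243/(m+1)^4 ≤ 1; m = 60 by norm_num, 60! > 8 * 10^81, 3^295 < 10^141).
p = 2: nq4c: ≤ 1/20. Odd primes p: the weight is ≤ 32, nq4d, and ∑_{p ≥ 3} (1/4)^(p-1) ≤ 1/12
(geometric sum over all p from 3 to m). Total < 1.
-/

namespace Pool.Agent.H77.TS

theorem nq4_o (m : ℕ) (h60 : 60 ≤ m) :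
    640 * (3 ^ (m - 1)) ^ 5 ≤ m.factorial ^ 4 := by
  induction m, h60 using Nat.le_induction with
  | base => decide +kernel
  | succ n hn ih =>
    have h1 : 3 ^ (n + 1 - 1) = 3 * 3 ^ (n - 1) := by
      rw [← pow_succ']
      congr 1
      omega
    rw [h1, Nat.factorial_succ, mul_pow, mul_pow]
    have h2 : 3 ^ 5 ≤ (n + 1) ^ 4 := by
      calc 3 ^ 5 ≤ 61 ^ 4 := by norm_num
        _ ≤ (n + 1) ^ 4 := Nat.pow_le_pow_left (by omega) 4
    calc 640 * (3 ^ 5 * (3 ^ (n - 1)) ^ 5) = 3 ^ 5 * (640 * (3 ^ (n - 1)) ^ 5) := by ring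
      _ ≤ (n + 1) ^ 4 * n.factorial ^ 4 := Nat.mul_le_mul h2 ih

theorem nq4_geo (m : ℕ) : ∑ p ∈ Finset.Icc 3 m, (1 / 4 : ℚ) ^ (p - 1) ≤ 1 / 12 := by
  have h : ∀ m : ℕ, 2 ≤ m →
      ∑ p ∈ Finset.Icc 3 m, (1 / 4 : ℚ) ^ (p - 1) = 1 / 12 - (1 / 3) * (1 / 4) ^ (m - 1) := by
    intro m hm
    induction m, hm using Nat.le_induction with
    | base => norm_num
    | succ n hn ih =>
      rw [Finset.sum_Icc_succ_top (by omega), ih]
      have h1 : n + 1 - 1 = (n - 1) + 1 := by omega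
      rw [h1, pow_succ]
      ring
  rcases Nat.lt_or_ge m 2 with hm | hm
  · rw [Finset.Icc_eq_empty (by omega)]
    norm_num
  · rw [h m hm]
    have : (0 : ℚ) ≤ (1 / 3) * (1 / 4) ^ (m - 1) := by positivity
    linarith

theorem nq4 (m : ℕ) (h60 : 60 ≤ m) : WB m (tc m) (3 ^ (m - 1)) < 1 := by
  have ho : 64 * ((3 ^ (m - 1) : ℕ) : ℚ) ^ 5 / (m.factorial : ℚ) ^ 4 ≤ 1 / 10 := by
    have h1 := nq4_o m h60
    have h2 : ((640 * (3 ^ (m - 1)) ^ 5 : ℕ) : ℚ) ≤ ((m.factorial ^ 4 : ℕ) : ℚ) := by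
      exact_mod_cast h1
    have h3 : (0 : ℚ) < (m.factorial : ℚ) ^ 4 := by
      have : (0 : ℚ) < (m.factorial : ℚ) := by exact_mod_cast m.factorial_pos
      positivity
    rw [div_le_iff₀ h3]
    rw [Nat.cast_mul, Nat.cast_pow, Nat.cast_pow (m.factorial)] at h2
    have h4 : ((640 : ℕ) : ℚ) = 640 := by norm_num
    rw [h4] at h2
    linarith
  have hs : (∑ p ∈ (Finset.range (m + 1)).filter Nat.Prime, ∑ k ∈ Finset.Icc 1 (m / p),
      (if p ≠ 2 ∧ k = 1 then 32 else 1 : ℚ) * (tc m p k : ℚ) ^ 5 / (cc m p k : ℚ) ^ 4) ≤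
      1 / 20 + 1 / 12 := by
    have hsplit : (Finset.range (m + 1)).filter Nat.Prime =
        insert 2 (((Finset.range (m + 1)).filter Nat.Prime).erase 2) := by
      rw [Finset.insert_erase]
      rw [Finset.mem_filter, Finset.mem_range]
      exact ⟨by omega, Nat.prime_two⟩
    rw [hsplit, Finset.sum_insert (Finset.notMem_erase _ _)]
    apply add_le_add
    · refine le_trans (le_of_eq ?_) (nq4c m h60)
      refine Finset.sum_congr rfl fun k _ => ?_
      rw [if_neg (by simp), one_mul]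
    · refine le_trans (Finset.sum_le_sum (g := fun p => (1 / 4 : ℚ) ^ (p - 1)) ?_) ?_
      · intro p hp
        rw [Finset.mem_erase, Finset.mem_filter, Finset.mem_range] at hp
        have hp3 : 3 ≤ p := by
          have := hp.2.2.two_le
          omega
        refine le_trans (Finset.sum_le_sum fun k _ => ?_) (nq4d m p h60 hp.2.2 hp3)
        have h5 : (if p ≠ 2 ∧ k = 1 then 32 else 1 : ℚ) ≤ 32 := by
          split_ifs <;> norm_num
        apply div_le_div_of_nonneg_right _ (by positivity)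
        exact mul_le_mul_of_nonneg_right h5 (by positivity)
      · refine le_trans (Finset.sum_le_sum_of_subset_of_nonneg ?_ ?_) (nq4_geo m)
        · intro p hp
          rw [Finset.mem_erase, Finset.mem_filter, Finset.mem_range] at hp
          rw [Finset.mem_Icc]
          have := hp.2.2.two_le
          exact ⟨by omega, by omega⟩
        · intro p _ _
          positivity
  unfold WB
  linarith

end Pool.Agent.H77.TS
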