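import Pool.Agent.H77.TS.Nq1
import Pool.Agent.H77.TS.Nq2
import Pool.Agent.H77.TS.Nq3
import Pool.Agent.H77.TS.Nq4
import Pool.Agent.H77.TS.Nb1
import Pool.Agent.H77.TS.Nb2
import Pool.Agent.H77.TS.Nb3

/-!
[H77 TS CRIT] The numerical criterion (30-45 min).

PROOF. First: WS m t o ≤ WB m t o and WA m t o ≤ WB m t o for all m, t, o (termwise: the weights 1
and wt m p k are at most the weight in WB; 4 ≤ 64). Then cases: m ≤ 14: t = tb m, o = tord m: nb3,
nq1. 15 ≤ m ≤ 28: t = tm m, o = 3^(m-1): nb0, nb1', and for p = 2 nn K 2 k ≤ ∑ nn K 2 j (k ≤ m,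
otherwise nn_eq_zero), nb2, nq2cr; nq2. 29 ≤ m ≤ 59: t = tc m: nb0, nb1', nq3. 60 ≤ m: nq4.
(Fintype.card (Fin m) = m.)
-/

namespace Pool.Agent.H77.TS

open Equiv

theorem crit_s (m : ℕ) (t : ℕ → ℕ → ℕ) (o : ℕ) : WS m t o ≤ WB m t o := by
  unfold WS WB
  apply add_le_add
  · refine Finset.sum_le_sum fun p _ => Finset.sum_le_sum fun k _ => ?_
    apply div_le_div_of_nonneg_right _ (by positivity)
    have h5 : (1 : ℚ) ≤ (if p ≠ 2 ∧ k = 1 then 32 else 1 : ℚ) := by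
      split_ifs <;> norm_num
    calc (t p k : ℚ) ^ 5 = 1 * (t p k : ℚ) ^ 5 := by ring
      _ ≤ _ := mul_le_mul_of_nonneg_right h5 (by positivity)
  · apply div_le_div_of_nonneg_right _ (by positivity)
    have : (0 : ℚ) ≤ (o : ℚ) ^ 5 := by positivity
    linarith

theorem crit_a (m : ℕ) (t : ℕ → ℕ → ℕ) (o : ℕ) : WA m t o ≤ WB m t o := by
  unfold WA WB
  apply add_le_add _ le_rfl
  refine Finset.sum_le_sum fun p _ => Finset.sum_le_sum fun k _ => ?_
  apply div_le_div_of_nonneg_right _ (by positivity)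
  apply mul_le_mul_of_nonneg_right _ (by positivity)
  unfold wt
  by_cases h1 : p = 2
  · have h2 : ¬ (p ≠ 2 ∧ k = 1) := fun h => h.1 h1
    have h3 : ¬ (p ≠ 2 ∧ k = 1 ∧ m ≤ p + 1) := fun h => h.1 h1
    rw [if_neg h2, if_neg h3]
    split_ifs <;> norm_num
  · have h3 : ¬ (p = 2 ∧ k % 2 = 1) := fun h => h1 h.1
    rw [if_neg h3]
    by_cases hk : k = 1
    · rw [if_pos (show p ≠ 2 ∧ k = 1 from ⟨h1, hk⟩)]
      split_ifs <;> norm_num
    · rw [if_neg (show ¬ (p ≠ 2 ∧ k = 1) from fun h => hk h.2),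
        if_neg (show ¬ (p ≠ 2 ∧ k = 1 ∧ m ≤ p + 1) from fun h => hk h.2.1)]
      norm_num

theorem crit (m : ℕ) (h6 : 6 ≤ m) (K : Subgroup (Perm (Fin m))) (hK : Group.IsSolvable K) :
    ∃ (t : ℕ → ℕ → ℕ) (o : ℕ), (∀ p k : ℕ, p.Prime → nn K p k ≤ t p k) ∧ Nat.card K ≤ o ∧
      WS m t o < 1 ∧ WA m t o < 1 := by
  have hc : Fintype.card (Fin m) = m := Fintype.card_fin m
  have h0 := nb0 K hK (by omega)
  rw [hc] at h0
  rcases Nat.lt_or_ge m 15 with h | h
  · have h1 := nb3 K hK (by omega)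
    rw [hc] at h1
    exact ⟨tb m, tord m, h1.2, h1.1, (nq1 m h6 (by omega)).1, (nq1 m h6 (by omega)).2⟩
  rcases Nat.lt_or_ge m 29 with h' | h'
  · refine ⟨tm m, 3 ^ (m - 1), ?_, h0, lt_of_le_of_lt (crit_s _ _ _) (nq2 m h (by omega)),
      lt_of_le_of_lt (crit_a _ _ _) (nq2 m h (by omega))⟩
    intro p k hp
    have h1 := nb1' K hK (by omega) p k hp
    rw [hc] at h1
    unfold tm
    split_ifs with hp2
    · subst hp2
      refine le_min h1 ?_
      rcases Nat.lt_or_ge m k with hk | hk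
      · rw [nn_eq_zero K (by rw [hc]; omega)]
        exact Nat.zero_le _
      · have h2 := nb2 K hK (by omega)
        rw [hc] at h2
        have h3 : nn K 2 k ≤ ∑ k ∈ Finset.range (m + 1), nn K 2 k :=
          Finset.single_le_sum (f := fun k => nn K 2 k) (fun _ _ => Nat.zero_le _)
            (Finset.mem_range.2 (by omega))
        exact h3.trans (nq2cr m _ h (by omega) h2)
    · exact h1
  · have hW : WB m (tc m) (3 ^ (m - 1)) < 1 := by
      rcases Nat.lt_or_ge m 60 with h'' | h''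
      · exact nq3 m h' (by omega)
      · exact nq4 m h''
    refine ⟨tc m, 3 ^ (m - 1), ?_, h0, lt_of_le_of_lt (crit_s _ _ _) hW,
      lt_of_le_of_lt (crit_a _ _ _) hW⟩
    intro p k hp
    have h1 := nb1' K hK (by omega) p k hp
    rw [hc] at h1
    exact h1

end Pool.Agent.H77.TS
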