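import Pool.Agent.H77.TI.Base

/-!
[H77 TS M5B] Five groups of degree 5 with a common fixed point each (30-45 min).

PROOF. a i is fixed by K i. Take the five functions f c : Fin 5 → Fin 5:
(0,1,2,3,4), (0,0,1,2,3), (0,1,1,2,3), (0,1,2,2,3), (0,1,2,3,3) (c = 0, ..., 4), and
τ c i = swap (f c i) (a i), so τ c i (f c i) = a i. Suppose τ c' i * n * (τ c i)⁻¹ ∈ K i for all i.
It fixes a i, so n ((τ c i)⁻¹ (a i)) = (τ c' i)⁻¹ (a i), i.e. n (f c i) = f c' i for all i. As n is
injective, f c i = f c j iff f c' i = f c' j, and the patterns of equality are different for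
different c (f 0 is injective, in f c for c ≥ 1 the only equality is between i = c - 1 and c). So
c = c', and n fixes the image of f c, which has at least 4 of the 5 points, so n = 1 (decide over
n : Perm (Fin 5) and c, c' is also possible: ∀ c c' n, (∀ i, n (f c i) = f c' i) → c = c' ∧ n = 1).
-/

namespace Pool.Agent.H77.TS

open Equiv Pool.Agent.H77.TI

/-- the five patterns -/
private def pat (c : Fin 5) : Fin 5 → Fin 5 :=
  match c with
  | 0 => ![0, 1, 2, 3, 4]
  | 1 => ![0, 0, 1, 2, 3]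
  | 2 => ![0, 1, 1, 2, 3]
  | 3 => ![0, 1, 2, 2, 3]
  | 4 => ![0, 1, 2, 3, 3]

private theorem pat_eq : ∀ c c' : Fin 5,
    (∀ i j, pat c i = pat c j ↔ pat c' i = pat c' j) → c = c' := by decide

private theorem pat_surj : ∀ c : Fin 5, ∀ x : Fin 5, x ≠ 4 → ∃ i, pat c i = x := by decide

theorem m5b (K : Fin 5 → Subgroup (Perm (Fin 5)))
    (hf : ∀ i, ∃ a : Fin 5, ∀ g ∈ K i, g a = a) : Five ⊤ K := by
  choose a ha using hf
  refine ⟨fun c i => swap (pat c i) (a i), fun _ _ => Subgroup.mem_top _, ?_⟩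
  intro c c' n h
  have h1 : ∀ i, n (pat c i) = pat c' i := by
    intro i
    have h2 := ha i _ (h i)
    rw [Perm.mul_apply, Perm.mul_apply, swap_inv, swap_apply_right] at h2
    have h3 : n (pat c i) = (swap (pat c' i) (a i)).symm (a i) := by
      rw [Equiv.eq_symm_apply]
      exact h2
    rw [h3, Equiv.symm_swap, swap_apply_right]
  have hcc : c = c' := by
    apply pat_eq
    intro i j
    rw [← h1 i, ← h1 j]
    exact n.injective.eq_iff.symm
  refine ⟨hcc, ?_⟩
  subst hcc
  have h2 : ∀ x : Fin 5, x ≠ 4 → n x = x := by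
    intro x hx
    obtain ⟨i, hi⟩ := pat_surj c x hx
    rw [← hi]
    exact h1 i
  have h3 : n 4 = 4 := by
    by_contra h4
    have h5 := h2 (n 4) h4
    exact h4 (n.injective h5)
  ext x
  by_cases hx : x = 4
  · rw [hx, h3]
    rfl
  · rw [h2 x hx]
    rfl

end Pool.Agent.H77.TS
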