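import Pool.Agent.H77.TS.Ub0
import Pool.Agent.H77.TS.Cc1

/-!
[H77 TS UB2] The proportions for the symmetric group (45-60 min).

PROOF. (1) For g with g^p = 1, |supp g| = p k, k ≥ 1 (p prime): yy K g = nn K p k / cc m p k. Indeed
#{x | x g' x⁻¹ ∈ K} is the same number c for all g' of this type (g' = y g y⁻¹ by cc2, x ↦ x y), so
cc m p k * c = ∑_{g'} #{x | x g' x⁻¹ ∈ K} = ∑_x #{g' | x g' x⁻¹ ∈ K} = m! * nn K p k (g' ↦ x g' x⁻¹ is
a bijection of the type). And Nat.card (Perm (Fin m)) = m!.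
(2) The elements g of prime order are the disjoint union over primes p ≤ m and 1 ≤ k ≤ m / p of the
types (p, k) (g has order p, g^p = 1, g ≠ 1; the support is divisible by p, as all cycles have length
p, and k ≥ 1). So the sum is ∑_{p,k} cc m p k * (nn K p k / cc m p k)^5, and
cc * (nn/cc)^5 = nn^5 / cc^4 ≤ (t p k)^5 / cc^4. (p < m + 1: p k ≤ m.)
-/

namespace Pool.Agent.H77.TS

open Equiv

open Classical in
private theorem ub2_double (m p k : ℕ) (hp : p.Prime) (hk : 1 ≤ k) (K : Subgroup (Perm (Fin m)))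
    (g : Perm (Fin m)) (hg : g ^ p = 1) (h : g.support.card = p * k) :
    cc m p k * Nat.card {x : Perm (Fin m) // x * g * x⁻¹ ∈ K} = m.factorial * nn K p k := by
  set T : Finset (Perm (Fin m)) :=
    Finset.univ.filter (fun g' => g' ^ p = 1 ∧ g'.support.card = p * k) with hT
  have hpk : p * k ≤ m := by
    rw [← h]
    simpa using Finset.card_le_univ g.support
  have hTc : T.card = cc m p k := by
    rw [← (cc1 m p k hp hk hpk).1, Nat.card_eq_fintype_card, Fintype.card_subtype]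
  have hc : ∀ g' : Perm (Fin m), Nat.card {x : Perm (Fin m) // x * g' * x⁻¹ ∈ K} =
      (Finset.univ.filter (fun x : Perm (Fin m) => x * g' * x⁻¹ ∈ K)).card := by
    intro g'
    rw [Nat.card_eq_fintype_card, Fintype.card_subtype]
  have hconst : ∀ g' ∈ T, (Finset.univ.filter (fun x : Perm (Fin m) => x * g' * x⁻¹ ∈ K)).card =
      (Finset.univ.filter (fun x : Perm (Fin m) => x * g * x⁻¹ ∈ K)).card := by
    intro g' hg'
    rw [hT, Finset.mem_filter] at hg'
    obtain ⟨y, hy⟩ := cc2 m p k hp g g' hg hg'.2.1 h hg'.2.2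
    apply Finset.card_bij (fun x _ => x * y)
    · intro x hx
      rw [Finset.mem_filter] at hx ⊢
      refine ⟨Finset.mem_univ _, ?_⟩
      have h1 : x * y * g * (x * y)⁻¹ = x * g' * x⁻¹ := by
        rw [← hy]
        group
      rw [h1]
      exact hx.2
    · intro x _ x' _ hxx
      exact mul_right_cancel hxx
    · intro z hz
      rw [Finset.mem_filter] at hz
      refine ⟨z * y⁻¹, ?_, by group⟩
      rw [Finset.mem_filter]
      refine ⟨Finset.mem_univ _, ?_⟩
      have h1 : z * y⁻¹ * g' * (z * y⁻¹)⁻¹ = z * g * z⁻¹ := by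
        rw [← hy]
        group
      rw [h1]
      exact hz.2
  have hnn : ∀ x : Perm (Fin m), (T.filter (fun g' => x * g' * x⁻¹ ∈ K)).card = nn K p k := by
    intro x
    unfold nn
    rw [Nat.card_eq_fintype_card, Fintype.card_subtype]
    apply Finset.card_bij (fun g' _ => x * g' * x⁻¹)
    · intro z hz
      rw [Finset.mem_filter, hT, Finset.mem_filter] at hz
      rw [Finset.mem_filter]
      refine ⟨Finset.mem_univ _, hz.2, ?_, ?_⟩
      · rw [conj_pow, hz.1.2.1]
        group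
      · rw [Equiv.Perm.card_support_conj]
        exact hz.1.2.2
    · intro z _ z' _ hzz
      exact mul_left_cancel (mul_right_cancel hzz)
    · intro z hz
      rw [Finset.mem_filter] at hz
      refine ⟨x⁻¹ * z * x, ?_, by group⟩
      rw [Finset.mem_filter, hT, Finset.mem_filter]
      refine ⟨⟨Finset.mem_univ _, ?_, ?_⟩, ?_⟩
      · have h1 : x⁻¹ * z * x = x⁻¹ * z * (x⁻¹)⁻¹ := by group
        rw [h1, conj_pow, hz.2.2.1]
        group
      · have h1 : x⁻¹ * z * x = x⁻¹ * z * (x⁻¹)⁻¹ := by group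
        rw [h1, Equiv.Perm.card_support_conj]
        exact hz.2.2.2
      · have h1 : x * (x⁻¹ * z * x) * x⁻¹ = z := by group
        rw [h1]
        exact hz.2.1
  calc cc m p k * Nat.card {x : Perm (Fin m) // x * g * x⁻¹ ∈ K}
      = ∑ g' ∈ T, (Finset.univ.filter (fun x : Perm (Fin m) => x * g' * x⁻¹ ∈ K)).card := by
        rw [Finset.sum_congr rfl hconst, Finset.sum_const, hTc, smul_eq_mul, hc g]
    _ = ∑ g' ∈ T, ∑ x : Perm (Fin m), (if x * g' * x⁻¹ ∈ K then 1 else 0) := by
        refine Finset.sum_congr rfl fun g' _ => ?_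
        rw [Finset.card_filter]
    _ = ∑ x : Perm (Fin m), ∑ g' ∈ T, (if x * g' * x⁻¹ ∈ K then 1 else 0) := Finset.sum_comm
    _ = ∑ x : Perm (Fin m), nn K p k := by
        refine Finset.sum_congr rfl fun x _ => ?_
        rw [← hnn x, Finset.card_filter]
    _ = m.factorial * nn K p k := by
        rw [Finset.sum_const, Finset.card_univ, Fintype.card_perm, Fintype.card_fin, smul_eq_mul]

theorem yy_eq (m p k : ℕ) (hp : p.Prime) (hk : 1 ≤ k) (K : Subgroup (Perm (Fin m)))
    (g : Perm (Fin m)) (hg : g ^ p = 1) (h : g.support.card = p * k) :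
    yy K g = (nn K p k : ℝ) / cc m p k := by
  have hpk : p * k ≤ m := by
    rw [← h]
    simpa using Finset.card_le_univ g.support
  have h1 := ub2_double m p k hp hk K g hg h
  have h2 := (cc1 m p k hp hk hpk).2
  have h3 : Nat.card (Perm (Fin m)) = m.factorial := by
    rw [Nat.card_eq_fintype_card, Fintype.card_perm, Fintype.card_fin]
  unfold yy
  rw [h3, div_eq_div_iff (by exact_mod_cast m.factorial_ne_zero) (by exact_mod_cast h2.ne')]
  have h4 : (cc m p k : ℝ) * (Nat.card {x : Perm (Fin m) // x * g * x⁻¹ ∈ K} : ℝ) =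
      (m.factorial : ℝ) * (nn K p k : ℝ) := by exact_mod_cast h1
  linarith

private theorem ub2_type (m : ℕ) (g : Perm (Fin m)) (hg : (orderOf g).Prime) :
    g ^ orderOf g = 1 ∧ 1 ≤ g.support.card / orderOf g ∧
      g.support.card = orderOf g * (g.support.card / orderOf g) := by
  obtain ⟨n, hn⟩ := Equiv.Perm.cycleType_prime_order hg
  have h1 : g.support.card = (n + 1) * orderOf g := by
    rw [← Equiv.Perm.sum_cycleType, hn, Multiset.sum_replicate, smul_eq_mul]
  have h2 : g.support.card / orderOf g = n + 1 := by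
    rw [h1, Nat.mul_div_cancel _ hg.pos]
  refine ⟨pow_orderOf_eq_one g, ?_, ?_⟩
  · rw [h2]
    omega
  · rw [h2, h1, mul_comm]

open Classical in
private theorem ub2_one (m : ℕ) (K : Subgroup (Perm (Fin m))) (t : ℕ → ℕ → ℕ)
    (ht : ∀ p k : ℕ, p.Prime → nn K p k ≤ t p k) (p k : ℕ) (hp : p.Prime) (hk : 1 ≤ k)
    (hpk : p * k ≤ m) (F : Finset (Perm (Fin m)))
    (hF : ∀ g ∈ F, g ^ p = 1 ∧ g.support.card = p * k) :
    ∑ g ∈ F, (yy K g) ^ 5 ≤ (t p k : ℝ) ^ 5 / (cc m p k : ℝ) ^ 4 := by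
  have h1 : ∑ g ∈ F, (yy K g) ^ 5 = (F.card : ℝ) * ((nn K p k : ℝ) / cc m p k) ^ 5 := by
    rw [Finset.sum_congr rfl fun g hg => by rw [yy_eq m p k hp hk K g (hF g hg).1 (hF g hg).2],
      Finset.sum_const, nsmul_eq_mul]
  have hcc := cc1 m p k hp hk hpk
  have h2 : F.card ≤ cc m p k := by
    rw [← hcc.1, Nat.card_eq_fintype_card, Fintype.card_subtype]
    apply Finset.card_le_card
    intro g hg
    rw [Finset.mem_filter]
    exact ⟨Finset.mem_univ _, hF g hg⟩
  have h3 : (0 : ℝ) < cc m p k := by exact_mod_cast hcc.2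
  have h4 : (nn K p k : ℝ) ≤ t p k := by exact_mod_cast ht p k hp
  rw [h1]
  calc (F.card : ℝ) * ((nn K p k : ℝ) / cc m p k) ^ 5
      ≤ (cc m p k : ℝ) * ((nn K p k : ℝ) / cc m p k) ^ 5 := by
        apply mul_le_mul_of_nonneg_right _ (by positivity)
        exact_mod_cast h2
    _ = (nn K p k : ℝ) ^ 5 / (cc m p k : ℝ) ^ 4 := by
        field_simp
    _ ≤ (t p k : ℝ) ^ 5 / (cc m p k : ℝ) ^ 4 := by
        apply div_le_div_of_nonneg_right _ (by positivity)
        exact pow_le_pow_left₀ (Nat.cast_nonneg _) h4 5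

open Classical in
theorem ub2 (m : ℕ) (K : Subgroup (Perm (Fin m))) (t : ℕ → ℕ → ℕ)
    (ht : ∀ p k : ℕ, p.Prime → nn K p k ≤ t p k) :
    ∑ g ∈ Finset.univ.filter (fun g : Perm (Fin m) => (orderOf g).Prime), (yy K g) ^ 5 ≤
      ∑ p ∈ (Finset.range (m + 1)).filter Nat.Prime, ∑ k ∈ Finset.Icc 1 (m / p),
        (t p k : ℝ) ^ 5 / (cc m p k : ℝ) ^ 4 := by
  have hmaps : ∀ g ∈ Finset.univ.filter (fun g : Perm (Fin m) => (orderOf g).Prime),
      (⟨orderOf g, g.support.card / orderOf g⟩ : Σ _ : ℕ, ℕ) ∈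
        ((Finset.range (m + 1)).filter Nat.Prime).sigma (fun p => Finset.Icc 1 (m / p)) := by
    intro g hg
    rw [Finset.mem_filter] at hg
    obtain ⟨-, h2, h3⟩ := ub2_type m g hg.2
    have h4 : g.support.card ≤ m := by simpa using Finset.card_le_univ g.support
    rw [Finset.mem_sigma, Finset.mem_filter, Finset.mem_range, Finset.mem_Icc]
    refine ⟨⟨?_, hg.2⟩, h2, Nat.div_le_div_right h4⟩
    have h5 : orderOf g ≤ orderOf g * (g.support.card / orderOf g) :=
      Nat.le_mul_of_pos_right _ h2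
    show orderOf g < m + 1
    omega
  rw [← Finset.sum_fiberwise_of_maps_to hmaps, Finset.sum_sigma]
  refine Finset.sum_le_sum fun p hp => Finset.sum_le_sum fun k hk => ?_
  rw [Finset.mem_filter, Finset.mem_range] at hp
  rw [Finset.mem_Icc] at hk
  apply ub2_one m K t ht p k hp.2 hk.1
  · calc p * k ≤ p * (m / p) := Nat.mul_le_mul_left _ hk.2
      _ ≤ m := Nat.mul_div_le m p
  · intro g hg
    rw [Finset.mem_filter, Finset.mem_filter] at hg
    obtain ⟨h1, -, h3⟩ := ub2_type m g hg.1.2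
    have h4 := hg.2
    simp only [Sigma.mk.injEq, heq_eq_eq] at h4
    obtain ⟨h5, h6⟩ := h4
    subst h5
    rw [h6] at h3
    exact ⟨h1, h3⟩

end Pool.Agent.H77.TS
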