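import Pool.Agent.H77.TS.M5a
import Pool.Agent.H77.TS.M5b
import Pool.Agent.H77.TS.Nb3
import Pool.Agent.H77.TS.Ub2

/-!
[H77 TS M5C] The symmetric group of degree 5 (45-60 min).

PROOF. If every K i has a common fixed point: m5b. Otherwise let K i₁ have none and use ub0 (the
product form): the elements of prime order of Perm (Fin 5) have the types (p, k) = (2, 1), (2, 2),
(3, 1), (5, 1), with cc = 10, 15, 20, 24 elements (cc1; or: sum over the types as in ub2; each
element of prime order p has g^p = 1 and |supp g| = p k, k ≥ 1, p k ≤ 5). For g of type (p, k)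
yy (K i) g = nn (K i) p k / cc 5 p k (yy_eq). By nb3 (table tb 5): nn (K i) p k ≤ 6, 5, 8, 4 for the
four types, |K i| ≤ 24; by m5a nn (K i₁) 2 1 ≤ 4, nn (K i₁) 3 1 ≤ 2, |K i₁| ≤ 20. So the
quantity of ub0 is at most 10 * (4/10) * (6/10)^4 + 15 * (5/15)^5 + 20 * (2/20) * (8/20)^4 +
24 * (4/24)^5 + 4 * 20 * 24^4 / 120^4 = 0.518 + 0.062 + 0.051 + 0.003 + 0.128 < 1.
-/

namespace Pool.Agent.H77.TS

open Equiv Pool.Agent.H77.TI

theorem m5c_prod (a : Fin 5 → ℝ) (i₁ : Fin 5) (s t : ℝ) (ha0 : ∀ i, 0 ≤ a i) (h1 : a i₁ ≤ s)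
    (h : ∀ i, a i ≤ t) : ∏ i, a i ≤ s * t ^ 4 := by
  rw [← Finset.mul_prod_erase Finset.univ a (Finset.mem_univ i₁)]
  have h2 : ∏ i ∈ Finset.univ.erase i₁, a i ≤ ∏ _i ∈ Finset.univ.erase i₁, t :=
    Finset.prod_le_prod (fun i _ => ha0 i) fun i _ => h i
  rw [Finset.prod_const, Finset.card_erase_of_mem (Finset.mem_univ _), Finset.card_univ,
    Fintype.card_fin] at h2
  exact mul_le_mul h1 h2 (Finset.prod_nonneg fun i _ => ha0 i) ((ha0 i₁).trans h1)

theorem m5c_type (g : Perm (Fin 5)) (hg : (orderOf g).Prime) :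
    (g ^ 2 = 1 ∧ g.support.card = 2 * 1) ∨ (g ^ 2 = 1 ∧ g.support.card = 2 * 2) ∨
      (g ^ 3 = 1 ∧ g.support.card = 3 * 1) ∨ (g ^ 5 = 1 ∧ g.support.card = 5 * 1) := by
  obtain ⟨n, hn⟩ := Equiv.Perm.cycleType_prime_order hg
  have h1 : g.support.card = (n + 1) * orderOf g := by
    rw [← Equiv.Perm.sum_cycleType, hn, Multiset.sum_replicate, smul_eq_mul]
  have h4 : g.support.card ≤ 5 := by simpa using Finset.card_le_univ g.support
  have h5 := pow_orderOf_eq_one g
  have h6 := hg.two_le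
  generalize orderOf g = p at *
  rw [h1] at h4 ⊢
  have hp5 : p ≤ 5 := by
    have : 1 * p ≤ (n + 1) * p := Nat.mul_le_mul_right _ (by omega)
    omega
  rcases (show p = 2 ∨ p = 3 ∨ p = 4 ∨ p = 5 by omega) with rfl | rfl | rfl | rfl
  · rcases (show n = 0 ∨ n = 1 by omega) with rfl | rfl
    · exact Or.inl ⟨h5, by norm_num⟩
    · exact Or.inr (Or.inl ⟨h5, by norm_num⟩)
  · obtain rfl : n = 0 := by omega
    exact Or.inr (Or.inr (Or.inl ⟨h5, by norm_num⟩))
  · exact absurd hg (by norm_num)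
  · obtain rfl : n = 0 := by omega
    exact Or.inr (Or.inr (Or.inr ⟨h5, by norm_num⟩))

open Classical in
/-- The contribution of one type. -/
theorem m5c_one (K : Fin 5 → Subgroup (Perm (Fin 5))) (i₁ : Fin 5) (p k s t : ℕ) (hp : p.Prime)
    (hk : 1 ≤ k) (hpk : p * k ≤ 5) (h1 : nn (K i₁) p k ≤ s) (h : ∀ i, nn (K i) p k ≤ t) :
    ∑ g ∈ Finset.univ.filter (fun g : Perm (Fin 5) => g ^ p = 1 ∧ g.support.card = p * k),
      ∏ i, yy (K i) g ≤
    (cc 5 p k : ℝ) * (((s : ℝ) / cc 5 p k) * ((t : ℝ) / cc 5 p k) ^ 4) := by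
  have hcc := cc1 5 p k hp hk hpk
  have hpos : (0 : ℝ) < cc 5 p k := by exact_mod_cast hcc.2
  have hcard : (Finset.univ.filter (fun g : Perm (Fin 5) => g ^ p = 1 ∧ g.support.card = p * k)).card
      = cc 5 p k := by
    rw [← hcc.1, Nat.card_eq_fintype_card, Fintype.card_subtype]
  calc ∑ g ∈ Finset.univ.filter (fun g : Perm (Fin 5) => g ^ p = 1 ∧ g.support.card = p * k),
      ∏ i, yy (K i) g
      ≤ ∑ _g ∈ Finset.univ.filter (fun g : Perm (Fin 5) => g ^ p = 1 ∧ g.support.card = p * k),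
        ((s : ℝ) / cc 5 p k) * ((t : ℝ) / cc 5 p k) ^ 4 := by
        refine Finset.sum_le_sum fun g hg => ?_
        rw [Finset.mem_filter] at hg
        have hyy : ∀ i, yy (K i) g = (nn (K i) p k : ℝ) / cc 5 p k := fun i =>
          yy_eq 5 p k hp hk (K i) g hg.2.1 hg.2.2
        apply m5c_prod _ i₁
        · intro i
          rw [hyy]
          positivity
        · rw [hyy]
          exact div_le_div_of_nonneg_right (by exact_mod_cast h1) hpos.le
        · intro i
          rw [hyy]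
          exact div_le_div_of_nonneg_right (by exact_mod_cast h i) hpos.le
    _ = (cc 5 p k : ℝ) * (((s : ℝ) / cc 5 p k) * ((t : ℝ) / cc 5 p k) ^ 4) := by
        rw [Finset.sum_const, hcard, nsmul_eq_mul]

theorem m5c_sum (F : Perm (Fin 5) → ℝ) (hF : ∀ g, 0 ≤ F g) :
    ∑ g ∈ Finset.univ.filter (fun g : Perm (Fin 5) => (orderOf g).Prime), F g ≤
      ∑ g ∈ Finset.univ.filter (fun g : Perm (Fin 5) => g ^ 2 = 1 ∧ g.support.card = 2 * 1), F g +
      ∑ g ∈ Finset.univ.filter (fun g : Perm (Fin 5) => g ^ 2 = 1 ∧ g.support.card = 2 * 2), F g +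
      ∑ g ∈ Finset.univ.filter (fun g : Perm (Fin 5) => g ^ 3 = 1 ∧ g.support.card = 3 * 1), F g +
      ∑ g ∈ Finset.univ.filter (fun g : Perm (Fin 5) => g ^ 5 = 1 ∧ g.support.card = 5 * 1), F g := by
  simp only [Finset.sum_filter]
  rw [← Finset.sum_add_distrib, ← Finset.sum_add_distrib, ← Finset.sum_add_distrib]
  refine Finset.sum_le_sum fun g _ => ?_
  have h0 := hF g
  have h : ∀ (P : Prop) (_ : Decidable P), 0 ≤ (if P then F g else 0) := fun P _ => by
    split_ifs <;> simp [h0]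
  by_cases hg : (orderOf g).Prime
  · rw [if_pos hg]
    have e1 := h (g ^ 2 = 1 ∧ g.support.card = 2 * 1) inferInstance
    have e2 := h (g ^ 2 = 1 ∧ g.support.card = 2 * 2) inferInstance
    have e3 := h (g ^ 3 = 1 ∧ g.support.card = 3 * 1) inferInstance
    have e4 := h (g ^ 5 = 1 ∧ g.support.card = 5 * 1) inferInstance
    rcases m5c_type g hg with h1 | h1 | h1 | h1
    · rw [if_pos h1]
      linarith
    · rw [if_pos h1]
      linarith
    · rw [if_pos h1]
      linarith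
    · rw [if_pos h1]
      linarith
  · rw [if_neg hg]
    have e1 := h (g ^ 2 = 1 ∧ g.support.card = 2 * 1) inferInstance
    have e2 := h (g ^ 2 = 1 ∧ g.support.card = 2 * 2) inferInstance
    have e3 := h (g ^ 3 = 1 ∧ g.support.card = 3 * 1) inferInstance
    have e4 := h (g ^ 5 = 1 ∧ g.support.card = 5 * 1) inferInstance
    linarith

theorem m5c (K : Fin 5 → Subgroup (Perm (Fin 5))) (hK : ∀ i, Group.IsSolvable (K i)) :
    Five ⊤ K := by
  classical
  by_cases hall : ∀ i, ∃ a : Fin 5, ∀ g ∈ K i, g a = a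
  · exact m5b K hall
  push Not at hall
  obtain ⟨i₁, hi₁⟩ := hall
  have hf : ¬ ∃ a : Fin 5, ∀ g ∈ K i₁, g a = a := by
    push Not
    exact hi₁
  obtain ⟨ha1, ha2, ha3⟩ := m5a (K i₁) (hK i₁) hf
  have h14 : Fintype.card (Fin 5) ≤ 14 := by rw [Fintype.card_fin]; norm_num
  have hcard : ∀ i, Nat.card (K i) ≤ 24 := fun i => by
    have h := (nb3 (K i) (hK i) h14).1
    rw [Fintype.card_fin] at h
    exact h
  have hnn : ∀ i p k, p.Prime → nn (K i) p k ≤ tb 5 p k := fun i p k hp => by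
    have h := (nb3 (K i) (hK i) h14).2 p k hp
    rwa [Fintype.card_fin] at h
  apply ub0 K
  have hF : ∀ g : Perm (Fin 5), 0 ≤ ∏ i, yy (K i) g := fun g =>
    Finset.prod_nonneg fun i _ => by unfold yy; positivity
  have h1 := m5c_one K i₁ 2 1 4 6 Nat.prime_two le_rfl (by norm_num) ha1
    (fun i => (hnn i 2 1 Nat.prime_two).trans (by decide))
  have h2 := m5c_one K i₁ 2 2 5 5 Nat.prime_two (by norm_num) (by norm_num)
    ((hnn i₁ 2 2 Nat.prime_two).trans (by decide)) (fun i => (hnn i 2 2 Nat.prime_two).trans (by decide))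
  have h3 := m5c_one K i₁ 3 1 2 8 Nat.prime_three le_rfl (by norm_num) ha2
    (fun i => (hnn i 3 1 Nat.prime_three).trans (by decide))
  have h4 := m5c_one K i₁ 5 1 4 4 Nat.prime_five le_rfl (by norm_num)
    ((hnn i₁ 5 1 Nat.prime_five).trans (by decide)) (fun i => (hnn i 5 1 Nat.prime_five).trans (by decide))
  have e1 : cc 5 2 1 = 10 := by decide +kernel
  have e2 : cc 5 2 2 = 15 := by decide +kernel
  have e3 : cc 5 3 1 = 20 := by decide +kernel
  have e4 : cc 5 5 1 = 24 := by decide +kernel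
  rw [e1] at h1
  rw [e2] at h2
  rw [e3] at h3
  rw [e4] at h4
  have hs := m5c_sum (fun g => ∏ i, yy (K i) g) hF
  have h5 : 4 * (∏ i, (Nat.card (K i) : ℝ)) / (Nat.card (Perm (Fin 5)) : ℝ) ^ 4 ≤
      4 * (20 * 24 ^ 4) / 120 ^ 4 := by
    have e : Nat.card (Perm (Fin 5)) = 120 := by
      rw [Nat.card_eq_fintype_card, Fintype.card_perm, Fintype.card_fin]
      decide +kernel
    rw [e]
    have := m5c_prod (fun i => (Nat.card (K i) : ℝ)) i₁ 20 24 (fun i => Nat.cast_nonneg _)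
      (by exact_mod_cast ha3) (fun i => by exact_mod_cast hcard i)
    push_cast
    gcongr
  push_cast at h1 h2 h3 h4
  norm_num at h1 h2 h3 h4 h5 hs ⊢
  linarith

end Pool.Agent.H77.TS
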