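import Pool.Agent.H77.TS.Nqc

/-!
[H77 TS NQ1] Numerical check for 6 ≤ m ≤ 14 (30-45 min).

PROOF. Finite computation with the tables. WS: 0.733, 0.342, 0.891, 0.160, 0.094, 0.086, 0.105,
0.052, 0.037 for m = 6, ..., 14; WA: 0.501, 0.044, 0.534, 0.011, 0.003, 0.003, 0.005, 0.001, 0.001.
interval_cases m and norm_num / decide +kernel (write the sums explicitly, Nat.Prime filter by
decide or simp; cc m p k by norm_num [cc, Nat.factorial]). Also m = 5 for the alternating group with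
order bound 12: WA 5 (tb 5) 12 = 0.442. No native_decide.
-/

namespace Pool.Agent.H77.TS

/-- an upper bound of `10 ^ 6` times a weighted sum, with natural numbers -/
def nqg (m : ℕ) (w t : ℕ → ℕ → ℕ) (c o : ℕ) : ℕ :=
  (∑ p ∈ Finset.Icc 2 m, ∑ k ∈ Finset.Icc 1 (m / p),
    (10 ^ 6 * (w p k * t p k ^ 5) / cc m p k ^ 4 + 1)) +
    (10 ^ 6 * (c * o ^ 5) / m.factorial ^ 4 + 1)

theorem nqg_le (m : ℕ) (w t : ℕ → ℕ → ℕ) (c o : ℕ) (h : nqg m w t c o < 10 ^ 6) :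
    (∑ p ∈ (Finset.range (m + 1)).filter Nat.Prime, ∑ k ∈ Finset.Icc 1 (m / p),
      (w p k : ℚ) * (t p k : ℚ) ^ 5 / (cc m p k : ℚ) ^ 4) +
      (c : ℚ) * (o : ℚ) ^ 5 / (m.factorial : ℚ) ^ 4 < 1 := by
  have h1 : (∑ p ∈ (Finset.range (m + 1)).filter Nat.Prime, ∑ k ∈ Finset.Icc 1 (m / p),
      (w p k : ℚ) * (t p k : ℚ) ^ 5 / (cc m p k : ℚ) ^ 4) +
      (c : ℚ) * (o : ℚ) ^ 5 / (m.factorial : ℚ) ^ 4 ≤ (nqg m w t c o : ℚ) / 10 ^ 6 := by
    unfold nqg
    rw [Nat.cast_add, add_div]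
    apply add_le_add
    · rw [Nat.cast_sum, Finset.sum_div]
      have hsub : (Finset.range (m + 1)).filter Nat.Prime ⊆ Finset.Icc 2 m := by
        intro p hp
        rw [Finset.mem_filter, Finset.mem_range] at hp
        rw [Finset.mem_Icc]
        exact ⟨hp.2.two_le, by omega⟩
      refine le_trans (Finset.sum_le_sum (fun p _ => ?_))
        (Finset.sum_le_sum_of_subset_of_nonneg hsub (fun p _ _ => by positivity))
      rw [Nat.cast_sum, Finset.sum_div]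
      refine Finset.sum_le_sum fun k _ => ?_
      have h2 := nqc_div (w p k * t p k ^ 5) (cc m p k ^ 4)
      rw [Nat.cast_mul, Nat.cast_pow, Nat.cast_pow] at h2
      exact h2
    · have h2 := nqc_div (c * o ^ 5) (m.factorial ^ 4)
      rw [Nat.cast_mul, Nat.cast_pow, Nat.cast_pow] at h2
      exact h2
  refine lt_of_le_of_lt h1 ?_
  rw [div_lt_one (by positivity)]
  exact_mod_cast h

theorem nq1_s : ∀ m ∈ Finset.Icc 6 14, nqg m (fun _ _ => 1) (tb m) 4 (tord m) < 10 ^ 6 := by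
  decide +kernel

theorem nq1_w : ∀ m ∈ Finset.Icc 6 14, nqg m (wt m) (tb m) 64 (tord m) < 10 ^ 6 := by
  decide +kernel

theorem nq1 (m : ℕ) (h6 : 6 ≤ m) (h14 : m ≤ 14) :
    WS m (tb m) (tord m) < 1 ∧ WA m (tb m) (tord m) < 1 := by
  constructor
  · have h1 := nqg_le _ _ _ _ _ (nq1_s m (Finset.mem_Icc.2 ⟨h6, h14⟩))
    unfold WS
    simpa using h1
  · have h1 := nqg_le _ _ _ _ _ (nq1_w m (Finset.mem_Icc.2 ⟨h6, h14⟩))
    unfold WA
    simpa using h1

theorem nq1' : WA 5 (tb 5) 12 < 1 := by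
  have h1 := nqg_le 5 (wt 5) (tb 5) 64 12 (by decide +kernel)
  unfold WA
  simpa using h1

end Pool.Agent.H77.TS
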