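import Pool.Agent.H77.TS.Nb3
import Pool.Agent.H77.TS.Nq1
import Pool.Agent.H77.TI.Loc2

/-!
[H77 TS M5D] The alternating group of degree 5 (30-45 min).

PROOF. Γ = alternatingGroup (Fin 5), order 60, simple and not commutative, so TrivRad Γ (a soluble
normal subgroup is ⊥ or ⊤; not ⊤ since Γ simple and soluble would be commutative). By loc2 the index
of (K i).subgroupOf Γ (soluble) is at least 5, so |K i| ≤ 12. ub0b: by ub3 with t = tb 5 (nb3) the sum
for K i is at most ∑∑ wt t^5/cc^4, 4 |K i|^5 / 60^4 = 64 |K i|^5 / 120^4 ≤ 64 * 12^5/120^4, and the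
total is (WA 5 (tb 5) 12 : ℝ) < 1 by nq1' (cast from ℚ: push_cast).
-/

namespace Pool.Agent.H77.TS

open Equiv Pool.Agent.H77.TI

open Classical in
private theorem alt_bound (m : ℕ) (hm : 2 ≤ m) (K : Subgroup (Perm (Fin m)))
    (hK : K ≤ alternatingGroup (Fin m)) (t : ℕ → ℕ → ℕ) (o : ℕ)
    (ht : ∀ p k : ℕ, p.Prime → nn K p k ≤ t p k) (ho : Nat.card K ≤ o) (hw : WA m t o < 1) :
    (∑ g ∈ Finset.univ.filter (fun g : alternatingGroup (Fin m) => (orderOf g).Prime),
        (yy (K.subgroupOf (alternatingGroup (Fin m))) g) ^ 5) +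
      4 * (Nat.card (K.subgroupOf (alternatingGroup (Fin m))) : ℝ) ^ 5 /
        (Nat.card (alternatingGroup (Fin m)) : ℝ) ^ 4 < 1 := by
  haveI : Nontrivial (Fin m) := Fin.nontrivial_iff_two_le.2 hm
  have h1 := ub3 m hm K hK t ht
  have h2 : Nat.card (K.subgroupOf (alternatingGroup (Fin m))) = Nat.card K :=
    Nat.card_congr (Subgroup.subgroupOfEquivOfLe hK).toEquiv
  have h3 : 2 * Nat.card (alternatingGroup (Fin m)) = m.factorial := by
    rw [two_mul_nat_card_alternatingGroup, Nat.card_perm, Nat.card_fin]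
  have h4 : (Nat.card (alternatingGroup (Fin m)) : ℝ) = (m.factorial : ℝ) / 2 := by
    rw [← h3]
    push_cast
    ring
  have h5 : ((WA m t o : ℚ) : ℝ) = (∑ p ∈ (Finset.range (m + 1)).filter Nat.Prime,
      ∑ k ∈ Finset.Icc 1 (m / p), (wt m p k : ℝ) * (t p k : ℝ) ^ 5 / (cc m p k : ℝ) ^ 4) +
      64 * (o : ℝ) ^ 5 / (m.factorial : ℝ) ^ 4 := by
    unfold WA
    push_cast
    rfl
  have h6 : ((WA m t o : ℚ) : ℝ) < 1 := by exact_mod_cast hw
  have hf : (0 : ℝ) < m.factorial := by exact_mod_cast Nat.factorial_pos m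
  have h7 : 4 * (Nat.card (K.subgroupOf (alternatingGroup (Fin m))) : ℝ) ^ 5 /
        (Nat.card (alternatingGroup (Fin m)) : ℝ) ^ 4 ≤
      64 * (o : ℝ) ^ 5 / (m.factorial : ℝ) ^ 4 := by
    rw [h2, h4]
    have h8 : (Nat.card K : ℝ) ^ 5 ≤ (o : ℝ) ^ 5 :=
      pow_le_pow_left₀ (Nat.cast_nonneg _) (by exact_mod_cast ho) 5
    have h9 : 4 * (Nat.card K : ℝ) ^ 5 / ((m.factorial : ℝ) / 2) ^ 4 =
        64 * (Nat.card K : ℝ) ^ 5 / (m.factorial : ℝ) ^ 4 := by
      field_simp
      ring
    rw [h9]
    exact div_le_div_of_nonneg_right (by linarith) (by positivity)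
  refine lt_of_le_of_lt (add_le_add ?_ h7) (h5 ▸ h6)
  convert h1 using 1

theorem m5d (K : Fin 5 → Subgroup (Perm (Fin 5))) (hK : ∀ i, Group.IsSolvable (K i))
    (hA : ∀ i, K i ≤ alternatingGroup (Fin 5)) :
    Five ⊤ (fun i => (K i).subgroupOf (alternatingGroup (Fin 5))) := by
  classical
  have hcard : Nat.card (alternatingGroup (Fin 5)) = 60 := by
    have h3 : 2 * Nat.card (alternatingGroup (Fin 5)) = (5).factorial := by
      rw [two_mul_nat_card_alternatingGroup, Nat.card_perm, Nat.card_fin]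
    have h4 : (5).factorial = 120 := by decide
    omega
  haveI hsimp : IsSimpleGroup (alternatingGroup (Fin 5)) := inferInstance
  have hTR : TrivRad (alternatingGroup (Fin 5)) := by
    intro N hN hS
    rcases hN.eq_bot_or_eq_top with h | h
    · exact h
    · exfalso
      subst h
      have hs : Group.IsSolvable (alternatingGroup (Fin 5)) := by
        exact Group.isSolvable_of_isSolvable_injective
          (f := (Subgroup.topEquiv (G := alternatingGroup (Fin 5))).symm.toMonoidHom)
          (Subgroup.topEquiv (G := alternatingGroup (Fin 5))).symm.injective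
      have hcomm := IsSimpleGroup.comm_iff_isSolvable.2 hs
      have h1 := hcomm
        ⟨swap 0 1 * swap 1 2, by rw [Equiv.Perm.mem_alternatingGroup]; decide⟩
        ⟨swap 0 1 * swap 1 3, by rw [Equiv.Perm.mem_alternatingGroup]; decide⟩
      have h2 := congrArg (fun g : alternatingGroup (Fin 5) => (g : Perm (Fin 5)) 0) h1
      revert h2
      decide
  apply ub0b (fun i => (K i).subgroupOf (alternatingGroup (Fin 5)))
  intro i
  have h12 : Nat.card (K i) ≤ 12 := by
    have h2 : Nat.card ((K i).subgroupOf (alternatingGroup (Fin 5))) = Nat.card (K i) :=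
      Nat.card_congr (Subgroup.subgroupOfEquivOfLe (hA i)).toEquiv
    have hsol : Group.IsSolvable ((K i).subgroupOf (alternatingGroup (Fin 5))) := by
      haveI := hK i
      exact Group.isSolvable_of_isSolvable_injective
        (f := (Subgroup.subgroupOfEquivOfLe (hA i)).toMonoidHom)
        (Subgroup.subgroupOfEquivOfLe (hA i)).injective
    haveI : Nontrivial (alternatingGroup (Fin 5)) := hsimp.toNontrivial
    have h5 := loc2 hTR ((K i).subgroupOf (alternatingGroup (Fin 5))) hsol
    have h6 := Subgroup.card_mul_index ((K i).subgroupOf (alternatingGroup (Fin 5)))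
    rw [h2, hcard] at h6
    by_contra hcon
    have : 13 * 5 ≤ Nat.card (K i) * ((K i).subgroupOf (alternatingGroup (Fin 5))).index :=
      Nat.mul_le_mul (by omega) h5
    omega
  have hn := (nb3 (K i) (hK i) (by simp)).2
  rw [Fintype.card_fin] at hn
  have h := alt_bound 5 (by omega) (K i) (hA i) (tb 5) 12 hn h12 nq1'
  convert h using 4

end Pool.Agent.H77.TS
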