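import Pool.Agent.H77.TS.Fc0a
import Pool.Agent.H77.TS.M5c
import Pool.Agent.H77.TS.M5d
import Pool.Agent.H77.TI.Loc3
import Pool.Agent.H77.TI.Loc4

/-!
[H77 TS FC0] The alternating case of the local hypothesis (25-35 min).

PROOF. Let S = alternatingGroup (Fin m), index 2 in Perm (Fin m). Case K 0 ≤ S: then
K i ⊔ S = K 0 ⊔ S = S, so K i ≤ S for all i. loc4 with A₀ = S (Subgroup.subgroupOf_self: S.subgroupOf S
= ⊤) and fc0b (m ≥ 6) or m5d (m = 5). Case not K 0 ≤ S: there is an odd permutation in K 0, and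
K 0 ⊔ S = ⊤ (any odd permutation is the product of this one and an even one), so K i ⊔ S = ⊤ for all
i: loc3b (S is normal) and fc0a or m5c.
-/

namespace Pool.Agent.H77.TS

open Equiv Pool.Agent.H77.TI

private theorem sup_alt {m : ℕ} (L : Subgroup (Perm (Fin m)))
    (hL : ¬ L ≤ alternatingGroup (Fin m)) : L ⊔ alternatingGroup (Fin m) = ⊤ := by
  rw [SetLike.not_le_iff_exists] at hL
  obtain ⟨g, hg, hga⟩ := hL
  rw [Equiv.Perm.mem_alternatingGroup] at hga
  have hg1 : Perm.sign g = -1 := by
    rcases Int.units_eq_one_or (Perm.sign g) with h | h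
    · exact absurd h hga
    · exact h
  rw [eq_top_iff]
  intro x _
  rcases Int.units_eq_one_or (Perm.sign x) with h | h
  · exact Subgroup.mem_sup_right (Equiv.Perm.mem_alternatingGroup.2 h)
  · have h1 : x = g * (g⁻¹ * x) := by group
    rw [h1]
    refine Subgroup.mul_mem _ (Subgroup.mem_sup_left hg) (Subgroup.mem_sup_right ?_)
    rw [Equiv.Perm.mem_alternatingGroup, map_mul, map_inv, hg1, h]
    decide

theorem fc0 (m : ℕ) (h5 : 5 ≤ m) (K : Fin 5 → Subgroup (Perm (Fin m)))
    (hK : ∀ i, Group.IsSolvable (K i))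
    (h : ∀ i j, K i ⊔ alternatingGroup (Fin m) = K j ⊔ alternatingGroup (Fin m)) :
    Five (alternatingGroup (Fin m)) K := by
  by_cases h0 : K 0 ≤ alternatingGroup (Fin m)
  · have hA : ∀ i, K i ≤ alternatingGroup (Fin m) := by
      intro i
      have h1 := h i 0
      rw [sup_eq_right.2 h0] at h1
      exact sup_eq_right.1 h1
    refine loc4 (alternatingGroup (Fin m)) (alternatingGroup (Fin m)) K hA ?_
    rw [Subgroup.subgroupOf_self]
    rcases Nat.lt_or_ge 5 m with h6 | h6
    · exact fc0b m h6 K hK hA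
    · have hm : m = 5 := by omega
      subst hm
      exact m5d K hK hA
  · have hS : ∀ i, K i ⊔ alternatingGroup (Fin m) = ⊤ := by
      intro i
      rw [h i 0]
      exact sup_alt _ h0
    refine loc3b (alternatingGroup (Fin m)) inferInstance K hS ?_
    rcases Nat.lt_or_ge 5 m with h6 | h6
    · exact fc0a m h6 K hK
    · have hm : m = 5 := by omega
      subst hm
      exact m5c K hK

end Pool.Agent.H77.TS
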