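import Pool.Agent.H77.TS.Crit

/-!
[H77 TS FC0A] Five regular orbits, degree at least 6 (30-45 min).

PROOF. fc0a: ub0b, for every i: crit for K i gives t, o; ub2 and Nat.card (Perm (Fin m)) = m!, so the
sum is at most ∑∑ t^5/cc^4 + 4 o^5/(m!)^4 = (WS m t o : ℝ) < 1 (cast of the rational number: push_cast
in the definition of WS).
fc0b: the same in Γ = alternatingGroup (Fin m): ub3, Nat.card Γ = m!/2 (2 * card Γ = m!), so
4 |K|^5 / (m!/2)^4 = 64 |K|^5/(m!)^4, Nat.card ((K i).subgroupOf Γ) = Nat.card (K i) because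
K i ≤ Γ; WA.
-/

namespace Pool.Agent.H77.TS

open Equiv Pool.Agent.H77.TI

open Classical in
private theorem sym_bound (m : ℕ) (K : Subgroup (Perm (Fin m))) (t : ℕ → ℕ → ℕ) (o : ℕ)
    (ht : ∀ p k : ℕ, p.Prime → nn K p k ≤ t p k) (ho : Nat.card K ≤ o) (hw : WS m t o < 1) :
    (∑ g ∈ Finset.univ.filter (fun g : Perm (Fin m) => (orderOf g).Prime), (yy K g) ^ 5) +
      4 * (Nat.card K : ℝ) ^ 5 / (Nat.card (Perm (Fin m)) : ℝ) ^ 4 < 1 := by
  have h1 := ub2 m K t ht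
  have h3 : Nat.card (Perm (Fin m)) = m.factorial := by
    rw [Nat.card_perm, Nat.card_fin]
  have h5 : ((WS m t o : ℚ) : ℝ) = (∑ p ∈ (Finset.range (m + 1)).filter Nat.Prime,
      ∑ k ∈ Finset.Icc 1 (m / p), (t p k : ℝ) ^ 5 / (cc m p k : ℝ) ^ 4) +
      4 * (o : ℝ) ^ 5 / (m.factorial : ℝ) ^ 4 := by
    unfold WS
    push_cast
    rfl
  have h6 : ((WS m t o : ℚ) : ℝ) < 1 := by exact_mod_cast hw
  have h7 : 4 * (Nat.card K : ℝ) ^ 5 / (Nat.card (Perm (Fin m)) : ℝ) ^ 4 ≤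
      4 * (o : ℝ) ^ 5 / (m.factorial : ℝ) ^ 4 := by
    rw [h3]
    have h8 : (Nat.card K : ℝ) ^ 5 ≤ (o : ℝ) ^ 5 :=
      pow_le_pow_left₀ (Nat.cast_nonneg _) (by exact_mod_cast ho) 5
    exact div_le_div_of_nonneg_right (by linarith) (by positivity)
  exact lt_of_le_of_lt (add_le_add h1 h7) (h5 ▸ h6)

theorem fc0a (m : ℕ) (h6 : 6 ≤ m) (K : Fin 5 → Subgroup (Perm (Fin m)))
    (hK : ∀ i, Group.IsSolvable (K i)) : Five ⊤ K := by
  apply ub0b K
  intro i
  obtain ⟨t, o, ht, ho, hs, _⟩ := crit m h6 (K i) (hK i)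
  have h := sym_bound m (K i) t o ht ho hs
  convert h using 4

open Classical in
private theorem alt_bound (m : ℕ) (hm : 2 ≤ m) (K : Subgroup (Perm (Fin m)))
    (hK : K ≤ alternatingGroup (Fin m)) (t : ℕ → ℕ → ℕ) (o : ℕ)
    (ht : ∀ p k : ℕ, p.Prime → nn K p k ≤ t p k) (ho : Nat.card K ≤ o) (hw : WA m t o < 1) :
    (∑ g ∈ Finset.univ.filter (fun g : alternatingGroup (Fin m) => (orderOf g).Prime),
        (yy (K.subgroupOf (alternatingGroup (Fin m))) g) ^ 5) +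
      4 * (Nat.card (K.subgroupOf (alternatingGroup (Fin m))) : ℝ) ^ 5 /
        (Nat.card (alternatingGroup (Fin m)) : ℝ) ^ 4 < 1 := by
  haveI : Nontrivial (Fin m) := Fin.nontrivial_iff_two_le.2 hm
  have h1 := ub3 m hm K hK t ht
  have h2 : Nat.card (K.subgroupOf (alternatingGroup (Fin m))) = Nat.card K :=
    Nat.card_congr (Subgroup.subgroupOfEquivOfLe hK).toEquiv
  have h3 : 2 * Nat.card (alternatingGroup (Fin m)) = m.factorial := by
    rw [two_mul_nat_card_alternatingGroup, Nat.card_perm, Nat.card_fin]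
  have h4 : (Nat.card (alternatingGroup (Fin m)) : ℝ) = (m.factorial : ℝ) / 2 := by
    rw [← h3]
    push_cast
    ring
  have h5 : ((WA m t o : ℚ) : ℝ) = (∑ p ∈ (Finset.range (m + 1)).filter Nat.Prime,
      ∑ k ∈ Finset.Icc 1 (m / p), (wt m p k : ℝ) * (t p k : ℝ) ^ 5 / (cc m p k : ℝ) ^ 4) +
      64 * (o : ℝ) ^ 5 / (m.factorial : ℝ) ^ 4 := by
    unfold WA
    push_cast
    rfl
  have h6 : ((WA m t o : ℚ) : ℝ) < 1 := by exact_mod_cast hw
  have hf : (0 : ℝ) < m.factorial := by exact_mod_cast Nat.factorial_pos m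
  have h7 : 4 * (Nat.card (K.subgroupOf (alternatingGroup (Fin m))) : ℝ) ^ 5 /
        (Nat.card (alternatingGroup (Fin m)) : ℝ) ^ 4 ≤
      64 * (o : ℝ) ^ 5 / (m.factorial : ℝ) ^ 4 := by
    rw [h2, h4]
    have h8 : (Nat.card K : ℝ) ^ 5 ≤ (o : ℝ) ^ 5 :=
      pow_le_pow_left₀ (Nat.cast_nonneg _) (by exact_mod_cast ho) 5
    have h9 : 4 * (Nat.card K : ℝ) ^ 5 / ((m.factorial : ℝ) / 2) ^ 4 =
        64 * (Nat.card K : ℝ) ^ 5 / (m.factorial : ℝ) ^ 4 := by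
      field_simp
      ring
    rw [h9]
    exact div_le_div_of_nonneg_right (by linarith) (by positivity)
  refine lt_of_le_of_lt (add_le_add ?_ h7) (h5 ▸ h6)
  convert h1 using 1

theorem fc0b (m : ℕ) (h6 : 6 ≤ m) (K : Fin 5 → Subgroup (Perm (Fin m)))
    (hK : ∀ i, Group.IsSolvable (K i)) (hA : ∀ i, K i ≤ alternatingGroup (Fin m)) :
    Five ⊤ (fun i => (K i).subgroupOf (alternatingGroup (Fin m))) := by
  classical
  apply ub0b (fun i => (K i).subgroupOf (alternatingGroup (Fin m)))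
  intro i
  obtain ⟨t, o, ht, ho, _, hs⟩ := crit m h6 (K i) (hK i)
  have h := alt_bound m (by omega) (K i) (hA i) t o ht ho hs
  convert h using 4

end Pool.Agent.H77.TS
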