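import Pool.Agent.H77.TS.Fc0
import Pool.Agent.H77.TI.Loc1

/-!
[H77 TS FC1] Transport to the automorphism group of the component (60-75 min).

PROOF. S = alternatingGroup (Fin m).
fc1a: let N = (inn T).subgroupOf A. By loc1b N is normal in A, simple and not commutative. Let
N' = N.map φ, it is isomorphic to N (φ injective), so simple and not commutative, and normal in
φ.range. S is simple (m ≥ 5: alternatingGroup.isSimpleGroup or the like in Mathlib; it is there for
5 ≤ card). If φ.range = S: N' normal in S, not ⊥, so N' = S. If φ.range = ⊤: N' ⊓ S is normal in N';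
if it is ⊥ then sign is injective on N', so N' is commutative, contradiction; so (N' simple) N' ≤ S,
N' normal in S, so N' = S.
fc1: let K' i = ((K i).subgroupOf A).map φ (soluble). K' i ⊔ S = K' j ⊔ S: it is the image under φ of
(K i ⊔ inn T).subgroupOf A (for subgroups below A the map L ↦ (L.subgroupOf A).map φ preserves
suprema: Subgroup.subgroupOf_sup, Subgroup.map_sup). fc0 gives τ with entries in S = N': τ c i =
φ (σ c i), (σ c i : MulAut T) ∈ inn T. If σ c' i * n * (σ c i)⁻¹ ∈ K i for all i then n ∈ A (K i ≤ A,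
σ in A), and τ c' i * φ n * (τ c i)⁻¹ ∈ K' i, so c = c', φ n = 1, n = 1.
-/

namespace Pool.Agent.H77.TS

open Equiv Pool.Agent.H77.TI

theorem fc1a {T : Type*} [Group T] [Finite T] (hs : IsSimpleGroup T)
    (hc : ¬ ∀ a b : T, a * b = b * a) (m : ℕ) (h5 : 5 ≤ m) (A : Subgroup (MulAut T))
    (hA : inn T ≤ A) (φ : A →* Perm (Fin m)) (hφ : Function.Injective φ)
    (hr : φ.range = ⊤ ∨ φ.range = alternatingGroup (Fin m)) :
    ((inn T).subgroupOf A).map φ = alternatingGroup (Fin m) := by
  obtain ⟨hNn, hNs, hNc, -, -⟩ := loc1b hs hc A hA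
  set N : Subgroup A := (inn T).subgroupOf A with hN
  have e : N ≃* N.map φ := N.equivMapOfInjective φ hφ
  haveI := hNs
  haveI hs' : IsSimpleGroup (N.map φ) := e.symm.isSimpleGroup
  have hc' : ¬ ∀ a b : N.map φ, a * b = b * a := by
    intro h
    apply hNc
    intro a b
    apply e.injective
    rw [map_mul, map_mul]
    exact h _ _
  -- all elements are even
  have hle : N.map φ ≤ alternatingGroup (Fin m) := by
    rcases hs'.eq_bot_or_eq_top_of_normal
      ((Perm.sign : Perm (Fin m) →* ℤˣ).comp (N.map φ).subtype).ker inferInstance with h | h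
    · exfalso
      apply hc'
      intro a b
      have hinj := (MonoidHom.ker_eq_bot_iff _).1 h
      apply hinj
      rw [map_mul, map_mul, mul_comm]
    · intro g hg
      have h1 : (⟨g, hg⟩ : N.map φ) ∈
          ((Perm.sign : Perm (Fin m) →* ℤˣ).comp (N.map φ).subtype).ker := by
        rw [h]
        exact Subgroup.mem_top _
      rw [MonoidHom.mem_ker] at h1
      rw [Equiv.Perm.mem_alternatingGroup]
      exact h1
  have hrange : alternatingGroup (Fin m) ≤ φ.range := by
    rcases hr with h | h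
    · rw [h]
      exact le_top
    · rw [h]
  have hnorm : ((N.map φ).subgroupOf (alternatingGroup (Fin m))).Normal := by
    refine ⟨?_⟩
    rintro ⟨x, hx⟩ hxN ⟨g, hg⟩
    rw [Subgroup.mem_subgroupOf] at hxN ⊢
    obtain ⟨a, rfl⟩ := hrange hg
    obtain ⟨y, hy, hyx⟩ := hxN
    refine ⟨a * y * a⁻¹, hNn.conj_mem y hy a, ?_⟩
    rw [map_mul, map_mul, map_inv, hyx]
    rfl
  haveI hS : IsSimpleGroup (alternatingGroup (Fin m)) :=
    alternatingGroup.isSimpleGroup (by rw [Nat.card_fin]; exact h5)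
  rcases hS.eq_bot_or_eq_top_of_normal _ hnorm with h | h
  · exfalso
    rw [Subgroup.subgroupOf_eq_bot] at h
    have h1 : N.map φ = ⊥ := by
      rw [eq_bot_iff]
      intro x hx
      exact (Subgroup.disjoint_def.1 h) hx (hle hx)
    obtain ⟨x, y, hxy⟩ := hs'.toNontrivial.exists_pair_ne
    apply hxy
    have hx := x.2
    have hy := y.2
    have hx1 : (x : Perm (Fin m)) ∈ (⊥ : Subgroup (Perm (Fin m))) := by rw [← h1]; exact hx
    have hy1 : (y : Perm (Fin m)) ∈ (⊥ : Subgroup (Perm (Fin m))) := by rw [← h1]; exact hy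
    rw [Subgroup.mem_bot] at hx1 hy1
    exact Subtype.ext (hx1.trans hy1.symm)
  · exact le_antisymm hle (Subgroup.subgroupOf_eq_top.1 h)

theorem fc1 {T : Type*} [Group T] [Finite T] (hs : IsSimpleGroup T)
    (hc : ¬ ∀ a b : T, a * b = b * a) (m : ℕ) (h5 : 5 ≤ m) (A : Subgroup (MulAut T))
    (hA : inn T ≤ A) (φ : A →* Perm (Fin m)) (hφ : Function.Injective φ)
    (hr : φ.range = ⊤ ∨ φ.range = alternatingGroup (Fin m))
    (K : Fin 5 → Subgroup (MulAut T)) (hK : ∀ i, Group.IsSolvable (K i)) (hKA : ∀ i, K i ≤ A)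
    (hKK : ∀ i j, K i ⊔ inn T = K j ⊔ inn T) : Five (inn T) K := by
  have hN := fc1a hs hc m h5 A hA φ hφ hr
  have hsol : ∀ i, Group.IsSolvable (((K i).subgroupOf A).map φ) := by
    intro i
    haveI := hK i
    have h1 : Group.IsSolvable ((K i).subgroupOf A) :=
      Group.isSolvable_of_isSolvable_injective
        (f := (Subgroup.subgroupOfEquivOfLe (hKA i)).toMonoidHom)
        (Subgroup.subgroupOfEquivOfLe (hKA i)).injective
    exact Group.isSolvable_of_surjective
      (f := (((K i).subgroupOf A).equivMapOfInjective φ hφ).toMonoidHom)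
      (((K i).subgroupOf A).equivMapOfInjective φ hφ).surjective
  have hsup : ∀ i, ((K i).subgroupOf A).map φ ⊔ alternatingGroup (Fin m) =
      ((K i ⊔ inn T).subgroupOf A).map φ := by
    intro i
    rw [← hN, ← Subgroup.map_sup, ← Subgroup.subgroupOf_sup (hKA i) hA]
  obtain ⟨τ, hτS, hτ⟩ := fc0 m h5 (fun i => ((K i).subgroupOf A).map φ) hsol (by
    intro i j
    rw [hsup i, hsup j, hKK i j])
  have hσ : ∀ c i, ∃ σ : A, (σ : MulAut T) ∈ inn T ∧ φ σ = τ c i := by
    intro c i
    have h1 := hτS c i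
    rw [← hN] at h1
    obtain ⟨σ, h2, h3⟩ := h1
    exact ⟨σ, Subgroup.mem_subgroupOf.1 h2, h3⟩
  choose σ hσ1 hσ2 using hσ
  refine ⟨fun c i => (σ c i : MulAut T), fun c i => hσ1 c i, ?_⟩
  intro c c' n hn
  have hn0 : n ∈ A := by
    have h1 := hKA 0 (hn 0)
    have h2 : n = (σ c' 0 : MulAut T)⁻¹ * ((σ c' 0 : MulAut T) * n * (σ c 0 : MulAut T)⁻¹) *
        (σ c 0 : MulAut T) := by group
    rw [h2]
    exact A.mul_mem (A.mul_mem (A.inv_mem (σ c' 0).2) h1) (σ c 0).2
  obtain ⟨h1, h2⟩ := hτ c c' (φ ⟨n, hn0⟩) (by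
    intro i
    refine ⟨σ c' i * ⟨n, hn0⟩ * (σ c i)⁻¹, ?_, ?_⟩
    · exact Subgroup.mem_subgroupOf.2 (hn i)
    · rw [map_mul, map_mul, map_inv, hσ2, hσ2])
  refine ⟨h1, ?_⟩
  have h3 : (⟨n, hn0⟩ : A) = 1 := hφ (by rw [h2, map_one])
  exact congrArg Subtype.val h3

end Pool.Agent.H77.TS
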