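import Pool.Agent.H77.TS.Fc1
import Pool.Agent.H77.TI.Loc5
import Pool.Agent.H77.TI.Red5

/-!
[H77 TS FINC] The theorem on groups with alternating components (45-60 min).

PROOF. red5 with i₁ = 0. LocHyp: T a component, K i ≤ autSub (H i) T with K i ⊔ inn T constant. K i is
soluble: autSub (H i) T is the image of a subgroup of H i. T is finite, simple, not commutative.
Case 1 (alternating or symmetric): A = autSub ⊤ T: autSub (H i) T ≤ A (monotone), inn T ≤ A (T ≤
normalizer T, and the elements of T act as inner automorphisms: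
Subgroup.normalizerMonoidHom). φ = the isomorphism, or the isomorphism with alternatingGroup (Fin n)
followed by Subgroup.subtype (range alternatingGroup (Fin n)). fc1.
Case 2: as in TI.FinA: K i ≤ autSub (H i) T, so derivedSeries (K i) (d i) = ⊥ for i ≠ i₀; loc5.
-/

namespace Pool.Agent.H77.TS

open Equiv Pool.Agent.H77.TI

private theorem finC_sol {G : Type*} [Group G] (H T : Subgroup G) (hH : Group.IsSolvable H) :
    Group.IsSolvable (autSub H T) := by
  have h1 : Group.IsSolvable (H.subgroupOf (Subgroup.normalizer (T : Set G))) := by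
    let f : (H.subgroupOf (Subgroup.normalizer (T : Set G))) →* H :=
      ((Subgroup.normalizer (T : Set G)).subtype.comp
        (H.subgroupOf (Subgroup.normalizer (T : Set G))).subtype).codRestrict H (fun x => x.2)
    have hf : Function.Injective f := by
      intro x y hxy
      have h2 := congrArg Subtype.val hxy
      exact Subtype.ext (Subtype.ext h2)
    exact Group.isSolvable_of_isSolvable_injective hf
  unfold autSub
  exact Group.isSolvable_of_surjective
    (T.normalizerMonoidHom.subgroupMap_surjective (H.subgroupOf (Subgroup.normalizer (T : Set G))))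

private theorem finC_der {A : Type*} [Group A] {K L : Subgroup A} (h : K ≤ L) {n : ℕ}
    (hL : derivedSeries L n = ⊥) : derivedSeries K n = ⊥ := by
  have h1 := map_derivedSeries_le_derivedSeries (Subgroup.inclusion h) n
  rw [hL, le_bot_iff] at h1
  exact (Subgroup.map_eq_bot_iff_of_injective _ (Subgroup.inclusion_injective h)).1 h1

private theorem finC_mono {G : Type*} [Group G] {H H' : Subgroup G} (h : H ≤ H') (T : Subgroup G) :
    autSub H T ≤ autSub H' T := by
  unfold autSub
  exact Subgroup.map_mono (Subgroup.comap_mono h)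

private theorem finC_inn {G : Type*} [Group G] (T : Subgroup G) :
    inn T ≤ autSub (⊤ : Subgroup G) T := by
  rintro _ ⟨t, rfl⟩
  unfold autSub
  refine ⟨⟨(t : G), Subgroup.le_normalizer t.2⟩, Subgroup.mem_top _, ?_⟩
  ext s
  simp [MulAut.conj_apply]

theorem finC {G : Type*} [Group G] [Finite G] (hR : TrivRad G)
    (H : Fin 5 → Subgroup G) (hsol : ∀ i, Group.IsSolvable (H i))
    (hcomp : ∀ T : Subgroup G, IsComp T →
      (∃ n : ℕ, 5 ≤ n ∧ (Nonempty (autSub (⊤ : Subgroup G) T ≃* Perm (Fin n)) ∨
        Nonempty (autSub (⊤ : Subgroup G) T ≃* alternatingGroup (Fin n)))) ∨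
      (∃ (i₀ : Fin 5) (d : Fin 5 → ℕ),
        (∀ i, i ≠ i₀ → derivedSeries (autSub (H i) T) (d i) = ⊥) ∧
          (1 : ℚ) ≤ ∑ i ∈ Finset.univ.erase i₀, (1 / 2 : ℚ) ^ (d i))) :
    Regular H := by
  refine red5 hR H 0 (hsol 0) ?_
  intro T hT K hK hKK
  have hKs : ∀ i, Group.IsSolvable (K i) := fun i =>
    haveI := finC_sol (H i) T (hsol i)
    Group.isSolvable_of_isSolvable_injective (Subgroup.inclusion_injective (hK i))
  rcases hcomp T hT with ⟨m, h5, hm⟩ | ⟨i₀, d, hd, hsum⟩
  · have hinn := finC_inn T
    have hKA : ∀ i, K i ≤ autSub (⊤ : Subgroup G) T := fun i => (hK i).trans (finC_mono le_top T)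
    rcases hm with ⟨⟨e⟩⟩ | ⟨⟨e⟩⟩
    · exact fc1 hT.2.1 hT.2.2 m h5 _ hinn e.toMonoidHom e.injective
        (Or.inl (MonoidHom.range_eq_top.mpr e.surjective)) K hKs hKA hKK
    · refine fc1 hT.2.1 hT.2.2 m h5 _ hinn
        ((alternatingGroup (Fin m)).subtype.comp e.toMonoidHom) ?_ (Or.inr ?_) K hKs hKA hKK
      · exact Subtype.val_injective.comp e.injective
      · rw [MonoidHom.range_comp, MonoidHom.range_eq_top.mpr e.surjective,
          ← MonoidHom.range_eq_map, Subgroup.range_subtype]
  · exact loc5 hT.2.1 hT.2.2 K hKK i₀ (hKs i₀) d (fun i hi => finC_der (hK i) (hd i hi)) hsum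

end Pool.Agent.H77.TS
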