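import Pool.Agent.H77.TS.Fc1
import Pool.Agent.H77.TI.Loc5
import Pool.Agent.H77.TI.Red5

/-!
[H77 TS FIND] The theorem on groups with alternating components and components on which the subgroups act with small
derived length. As FinC, but in the alternating case only the group generated by the inner automorphisms and the
automorphisms induced by one of the subgroups matters.
-/

namespace Pool.Agent.H77.TS

open Equiv Pool.Agent.H77.TI

private theorem finD_sol {G : Type*} [Group G] (H T : Subgroup G) (hH : Group.IsSolvable H) :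
    Group.IsSolvable (autSub H T) := by
  have h1 : Group.IsSolvable (H.subgroupOf (Subgroup.normalizer (T : Set G))) := by
    let f : (H.subgroupOf (Subgroup.normalizer (T : Set G))) →* H :=
      ((Subgroup.normalizer (T : Set G)).subtype.comp
        (H.subgroupOf (Subgroup.normalizer (T : Set G))).subtype).codRestrict H (fun x => x.2)
    have hf : Function.Injective f := by
      intro x y hxy
      have h2 := congrArg Subtype.val hxy
      exact Subtype.ext (Subtype.ext h2)
    exact Group.isSolvable_of_isSolvable_injective hf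
  unfold autSub
  exact Group.isSolvable_of_surjective
    (T.normalizerMonoidHom.subgroupMap_surjective (H.subgroupOf (Subgroup.normalizer (T : Set G))))

private theorem finD_der {A : Type*} [Group A] {K L : Subgroup A} (h : K ≤ L) {n : ℕ}
    (hL : derivedSeries L n = ⊥) : derivedSeries K n = ⊥ := by
  have h1 := map_derivedSeries_le_derivedSeries (Subgroup.inclusion h) n
  rw [hL, le_bot_iff] at h1
  exact (Subgroup.map_eq_bot_iff_of_injective _ (Subgroup.inclusion_injective h)).1 h1

theorem finD {G : Type*} [Group G] [Finite G] (hR : TrivRad G)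
    (H : Fin 5 → Subgroup G) (hsol : ∀ i, Group.IsSolvable (H i))
    (hcomp : ∀ T : Subgroup G, IsComp T →
      (∃ (j : Fin 5) (n : ℕ), 5 ≤ n ∧
        (Nonempty ((autSub (H j) T ⊔ inn T : Subgroup (MulAut T)) ≃* Perm (Fin n)) ∨
          Nonempty ((autSub (H j) T ⊔ inn T : Subgroup (MulAut T)) ≃* alternatingGroup (Fin n)))) ∨
      (∃ (i₀ : Fin 5) (d : Fin 5 → ℕ),
        (∀ i, i ≠ i₀ → derivedSeries (autSub (H i) T) (d i) = ⊥) ∧
          (1 : ℚ) ≤ ∑ i ∈ Finset.univ.erase i₀, (1 / 2 : ℚ) ^ (d i))) :
    Regular H := by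
  refine red5 hR H 0 (hsol 0) ?_
  intro T hT K hK hKK
  have hKs : ∀ i, Group.IsSolvable (K i) := fun i =>
    haveI := finD_sol (H i) T (hsol i)
    Group.isSolvable_of_isSolvable_injective (Subgroup.inclusion_injective (hK i))
  rcases hcomp T hT with ⟨j, m, h5, hm⟩ | ⟨i₀, d, hd, hsum⟩
  · have hinn : inn T ≤ autSub (H j) T ⊔ inn T := le_sup_right
    have hKA : ∀ i, K i ≤ autSub (H j) T ⊔ inn T := fun i =>
      calc K i ≤ K i ⊔ inn T := le_sup_left
        _ = K j ⊔ inn T := hKK i j
        _ ≤ autSub (H j) T ⊔ inn T := sup_le_sup_right (hK j) _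
    rcases hm with ⟨⟨e⟩⟩ | ⟨⟨e⟩⟩
    · exact fc1 hT.2.1 hT.2.2 m h5 _ hinn e.toMonoidHom e.injective
        (Or.inl (MonoidHom.range_eq_top.mpr e.surjective)) K hKs hKA hKK
    · refine fc1 hT.2.1 hT.2.2 m h5 _ hinn
        ((alternatingGroup (Fin m)).subtype.comp e.toMonoidHom) ?_ (Or.inr ?_) K hKs hKA hKK
      · exact Subtype.val_injective.comp e.injective
      · rw [MonoidHom.range_comp, MonoidHom.range_eq_top.mpr e.surjective,
          ← MonoidHom.range_eq_map, Subgroup.range_subtype]
  · exact loc5 hT.2.1 hT.2.2 K hKK i₀ (hKs i₀) d (fun i hi => finD_der (hK i) (hd i hi)) hsum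

end Pool.Agent.H77.TS
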