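import Pool.Agent.H77.TS.Pa1
import Pool.Agent.H77.TS.Base

/-!
[H77 TS M5A] Soluble groups of degree 5 without common fixed point (45-60 min).

PROOF. If K is transitive on Fin 5 then it is primitive (5 is prime; Mathlib:
MulAction.IsPreprimitive.of_prime_card or the like: block sizes divide 5), and by pa1 (q = 5,
r = 1) |K| ≤ 5 * 4 = 20, and an element g ≠ 1 of K has support 5 or 5 - 1 = 4, so
nn K 2 1 = nn K 3 1 = 0. Otherwise: every orbit has at least 2 points (no common fixed point) and is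
not everything, so there is an orbit B with 2 points or with 3 points, and the complement is
invariant with 3 or 2 points: so there is a 2-element set {a, b} invariant under K. K ≤ the stabiliser
S of {a, b}: |S| = 12, S contains 4 transpositions and 2 three-cycles (count over all two-element
sets by decide, or conjugate to {0, 1}): nn K 2 1 ≤ 4, nn K 3 1 ≤ 2, |K| ≤ 12 ≤ 20.
-/

namespace Pool.Agent.H77.TS

open Equiv

theorem m5a_cnt2 : ∀ T ∈ (Finset.univ : Finset (Fin 5)).powersetCard 2,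
    (Finset.univ.filter (fun g : Perm (Fin 5) => (∀ x ∈ T, g x ∈ T) ∧ g * g = 1 ∧
      g.support.card = 2)).card ≤ 4 := by
  decide +kernel

theorem m5a_cnt3 : ∀ T ∈ (Finset.univ : Finset (Fin 5)).powersetCard 2,
    (Finset.univ.filter (fun g : Perm (Fin 5) => (∀ x ∈ T, g x ∈ T) ∧ g * (g * g) = 1 ∧
      g.support.card = 3)).card ≤ 2 := by
  decide +kernel

theorem m5a_cnt : ∀ T ∈ (Finset.univ : Finset (Fin 5)).powersetCard 2,
    (Finset.univ.filter (fun g : Perm (Fin 5) => ∀ x ∈ T, g x ∈ T)).card ≤ 12 := by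
  decide +kernel

theorem m5a_le {α : Type} [Fintype α] (P Q : α → Prop) [DecidablePred Q] (h : ∀ g, P g → Q g) :
    Nat.card {g // P g} ≤ (Finset.univ.filter Q).card := by
  have h1 : Nat.card {g // P g} ≤ Nat.card {g // Q g} :=
    Nat.card_le_card_of_injective (Subtype.map id h)
      (Subtype.map_injective h Function.injective_id)
  rwa [Nat.card_eq_fintype_card (α := {g // Q g}), Fintype.card_subtype] at h1

theorem m5a_nn0 (K : Subgroup (Perm (Fin 5))) (p : ℕ) (hp : 1 ≤ p) (hp3 : p ≤ 3)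
    (hs : ∀ g ∈ K, g ≠ 1 → g.support.card = 5 ∨ g.support.card = 4) : nn K p 1 = 0 := by
  unfold nn
  rw [Nat.card_eq_zero]
  left
  constructor
  rintro ⟨g, hg, -, hc⟩
  have h1 : g ≠ 1 := by
    rintro rfl
    rw [Perm.support_one, Finset.card_empty] at hc
    omega
  rcases hs g hg h1 with h | h
  · omega
  · omega

theorem m5a_orb (K : Subgroup (Perm (Fin 5)))
    (hf : ¬ ∃ a : Fin 5, ∀ g ∈ K, g a = a) (hnt : ¬ MulAction.IsPretransitive K (Fin 5)) :
    ∃ T ∈ (Finset.univ : Finset (Fin 5)).powersetCard 2, ∀ g ∈ K, ∀ x ∈ T, g x ∈ T := by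
  classical
  have hnt2 : ∃ x y : Fin 5, ∀ g ∈ K, g x ≠ y := by
    by_contra h
    push Not at h
    apply hnt
    constructor
    intro x y
    obtain ⟨g, hg, hgx⟩ := h x y
    exact ⟨⟨g, hg⟩, hgx⟩
  obtain ⟨x, y, hxy⟩ := hnt2
  let O : Fin 5 → Finset (Fin 5) := fun z => Finset.univ.filter (fun w => ∃ g ∈ K, g z = w)
  have hO : ∀ z w, w ∈ O z ↔ ∃ g ∈ K, g z = w := by
    intro z w
    simp [O]
  have hinv : ∀ z, ∀ g ∈ K, ∀ w ∈ O z, g w ∈ O z := by
    intro z g hg w hw
    obtain ⟨k, hk, rfl⟩ := (hO z w).1 hw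
    rw [hO]
    exact ⟨g * k, K.mul_mem hg hk, rfl⟩
  have h2 : ∀ z, 2 ≤ (O z).card := by
    intro z
    have h1 : ∃ g ∈ K, g z ≠ z := by
      by_contra h
      push Not at h
      exact hf ⟨z, h⟩
    obtain ⟨g, hg, hgz⟩ := h1
    have h3 : ({z, g z} : Finset (Fin 5)) ⊆ O z := by
      intro w hw
      rw [Finset.mem_insert, Finset.mem_singleton] at hw
      rw [hO]
      rcases hw with rfl | rfl
      · exact ⟨1, K.one_mem, rfl⟩
      · exact ⟨g, hg, rfl⟩
    calc 2 = ({z, g z} : Finset (Fin 5)).card := (Finset.card_pair (Ne.symm hgz)).symm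
      _ ≤ (O z).card := Finset.card_le_card h3
  have hdis : Disjoint (O x) (O y) := by
    rw [Finset.disjoint_left]
    intro w hw hw'
    obtain ⟨g, hg, rfl⟩ := (hO x w).1 hw
    obtain ⟨k, hk, hk2⟩ := (hO y (g x)).1 hw'
    apply hxy (k⁻¹ * g) (K.mul_mem (K.inv_mem hk) hg)
    rw [Perm.mul_apply, ← hk2]
    simp
  have hsum : (O x).card + (O y).card ≤ 5 := by
    rw [← Finset.card_union_of_disjoint hdis]
    exact (Finset.card_le_univ _).trans (by simp)
  have hcase : (O x).card = 2 ∨ (O y).card = 2 := by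
    have := h2 x
    have := h2 y
    omega
  rcases hcase with h | h
  · exact ⟨O x, Finset.mem_powersetCard.2 ⟨Finset.subset_univ _, h⟩, fun g hg w hw => hinv x g hg w hw⟩
  · exact ⟨O y, Finset.mem_powersetCard.2 ⟨Finset.subset_univ _, h⟩, fun g hg w hw => hinv y g hg w hw⟩

theorem m5a (K : Subgroup (Perm (Fin 5))) (hK : Group.IsSolvable K)
    (hf : ¬ ∃ a : Fin 5, ∀ g ∈ K, g a = a) :
    nn K 2 1 ≤ 4 ∧ nn K 3 1 ≤ 2 ∧ Nat.card K ≤ 20 := by
  classical
  by_cases ht : MulAction.IsPretransitive K (Fin 5)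
  · have hp : MulAction.IsPreprimitive K (Fin 5) :=
      MulAction.IsPreprimitive.of_prime_card (by rw [Nat.card_fin]; norm_num)
    obtain ⟨q, r, hq, hr, hc, hcard, hs⟩ := pa1 K hK (by simp) hp
    rw [Fintype.card_fin] at hc
    have hq5 : q = 5 := by
      have h1 : q ∣ 5 := by
        rw [hc]
        exact dvd_pow_self q (by omega)
      have h5 : Nat.Prime 5 := by norm_num
      exact (Nat.prime_dvd_prime_iff_eq hq h5).1 h1
    subst hq5
    have hr1 : r = 1 := by
      have h1 : (5 : ℕ) ^ r = 5 ^ 1 := by rw [← hc, pow_one]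
      exact Nat.pow_right_injective (by norm_num) h1
    subst hr1
    have hs2 : ∀ g ∈ K, g ≠ 1 → g.support.card = 5 ∨ g.support.card = 4 := by
      intro g hg hg1
      rcases hs g hg hg1 with h | ⟨f, hf1, h⟩
      · left
        simpa using h
      · right
        have hf0 : f = 0 := by omega
        subst hf0
        simpa using h
    rw [m5a_nn0 K 2 (by norm_num) (by norm_num) hs2, m5a_nn0 K 3 (by norm_num) (by norm_num) hs2]
    refine ⟨by norm_num, by norm_num, ?_⟩
    simpa using hcard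
  · obtain ⟨T, hT, hinv⟩ := m5a_orb K hf ht
    refine ⟨?_, ?_, ?_⟩
    · refine le_trans ?_ (m5a_cnt2 T hT)
      unfold nn
      refine m5a_le _ _ ?_
      rintro g ⟨hg, h2, h3⟩
      refine ⟨hinv g hg, ?_, by simpa using h3⟩
      rw [← h2, pow_two]
    · refine le_trans ?_ (m5a_cnt3 T hT)
      unfold nn
      refine m5a_le _ _ ?_
      rintro g ⟨hg, h2, h3⟩
      refine ⟨hinv g hg, ?_, by simpa using h3⟩
      rw [← h2, pow_succ, pow_two, mul_assoc]
    · refine le_trans ?_ ((m5a_cnt T hT).trans (by norm_num))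
      exact m5a_le (fun g => g ∈ K) _ hinv

end Pool.Agent.H77.TS
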