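import Pool.Agent.H77.TS.Aff

/-!
[H77 TS PA1] Primitive soluble groups are affine: order and supports (75-100 min).

PROOF. K acts faithfully, transitively and primitively on Ω, |Ω| ≥ 2. Let ω₀ ∈ Ω and R its
stabiliser in ↥K: a maximal subgroup (MulAction.IsPreprimitive.isCoatom_stabilizer_of_isPreprimitive
or isCoatom_stabilizer_iff_preprimitive). Pool.Agent.H77.TI.top7 for P = ↥K gives a prime q, a
finite vector space V over ZMod q and e : (K ⧸ R) ≃ V with e (g • x) = φ_g (e x) + v_g. With
Ω ≃ K ⧸ R (orbit-stabiliser, equivariant) we get e' : Ω ≃ V with e' (g ω) = φ_g (e' ω) + v_g.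
|V| = q^r, r ≥ 1 (|Ω| ≥ 2). g is determined by (φ_g, v_g). The number of v is q^r, and an additive
bijection φ of V is ZMod q-linear and determined by the images of a basis b_0, ..., b_(r-1), which
are linearly independent: at most ∏_{i<r} (q^r - q^i) (Mathlib: Matrix.card_GL_field /
card_linearIndependent). The fixed points of g ≠ 1: {u | φ u + v = u} is empty or a coset of the
kernel of φ - 1, a subspace; if it is a coset of a subspace of dimension f then it has q^f elements,
and f < r because g ≠ 1. The support of g is the complement.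
-/

namespace Pool.Agent.H77.TS

open Equiv

/-- the number of fixed points of an affine map -/
theorem pa1_fix {q r : ℕ} [Fact q.Prime] (φ : (Fin r → ZMod q) ≃ₗ[ZMod q] (Fin r → ZMod q))
    (v : Fin r → ZMod q) (hne : ¬ ∀ u, φ u + v = u) :
    Nat.card {u : Fin r → ZMod q // φ u + v = u} = 0 ∨
      ∃ f < r, Nat.card {u : Fin r → ZMod q // φ u + v = u} = q ^ f := by
  classical
  by_cases h : ∃ u₀, φ u₀ + v = u₀
  · right
    obtain ⟨u₀, hu₀⟩ := h
    let N : Submodule (ZMod q) (Fin r → ZMod q) :=
      LinearMap.ker ((φ : (Fin r → ZMod q) →ₗ[ZMod q] (Fin r → ZMod q)) - LinearMap.id)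
    have hN : ∀ w, w ∈ N ↔ φ w = w := by
      intro w
      simp [N, sub_eq_zero]
    refine ⟨Module.finrank (ZMod q) N, ?_, ?_⟩
    · have hlt : N ≠ ⊤ := by
        intro htop
        apply hne
        intro u
        have h1 : φ (u - u₀) = u - u₀ := (hN _).1 (by rw [htop]; trivial)
        rw [map_sub] at h1
        have h2 : φ u + v = (φ u - φ u₀) + (φ u₀ + v) := by abel
        rw [h2, h1, hu₀]
        abel
      have h3 := Submodule.finrank_lt hlt
      rwa [Module.finrank_fintype_fun_eq_card, Fintype.card_fin] at h3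
    · have h4 : Nat.card N = q ^ Module.finrank (ZMod q) N := by
        have h5 := Module.natCard_eq_pow_finrank (K := ZMod q) (V := N)
        rwa [Nat.card_zmod] at h5
      rw [← h4]
      refine Nat.card_congr
        { toFun := fun u => ⟨u.1 - u₀, ?_⟩
          invFun := fun w => ⟨w.1 + u₀, ?_⟩
          left_inv := ?_
          right_inv := ?_ }
      · rw [hN, map_sub]
        have h2 : φ u.1 - φ u₀ = (φ u.1 + v) - (φ u₀ + v) := by abel
        rw [h2, u.2, hu₀]
      · have h6 := (hN _).1 w.2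
        rw [map_add, h6, add_assoc, hu₀]
      · intro u
        simp
      · intro w
        simp
  · left
    rw [Nat.card_eq_zero]
    left
    constructor
    rintro ⟨u, hu⟩
    exact h ⟨u, hu⟩

theorem pa1_supp {Ω : Type} [Fintype Ω] [DecidableEq Ω] {q r : ℕ} [Fact q.Prime]
    (e : Ω ≃ (Fin r → ZMod q)) (g : Perm Ω)
    (φ : (Fin r → ZMod q) ≃ₗ[ZMod q] (Fin r → ZMod q)) (v : Fin r → ZMod q)
    (h : ∀ ω, e (g ω) = φ (e ω) + v) :
    g.support.card + Nat.card {u : Fin r → ZMod q // φ u + v = u} = q ^ r := by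
  classical
  have h1 : Nat.card {u : Fin r → ZMod q // φ u + v = u} = (Finset.univ \ g.support).card := by
    have hA : Nat.card {ω : Ω // ω ∈ (Finset.univ \ g.support : Finset Ω)} =
        Nat.card {u : Fin r → ZMod q // φ u + v = u} :=
      Nat.card_congr (e.subtypeEquiv (fun ω => by
        rw [← h ω, e.injective.eq_iff]
        simp))
    rw [← hA, Nat.card_eq_fintype_card, Fintype.card_coe]
  have h2 : Fintype.card Ω = q ^ r := by
    rw [Fintype.card_congr e, Fintype.card_fun, ZMod.card, Fintype.card_fin]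
  rw [h1, ← h2, ← Finset.card_univ (α := Ω), add_comm]
  exact Finset.card_sdiff_add_card_eq_card (Finset.subset_univ _)

theorem pa1_gl (q r : ℕ) [Fact q.Prime] :
    Nat.card ((Fin r → ZMod q) ≃ₗ[ZMod q] (Fin r → ZMod q)) =
      ∏ i ∈ Finset.range r, (q ^ r - q ^ i) := by
  have h1 : Nat.card (Matrix.GeneralLinearGroup (Fin r) (ZMod q)) =
      Nat.card ((Fin r → ZMod q) ≃ₗ[ZMod q] (Fin r → ZMod q)) :=
    Nat.card_congr ((Matrix.GeneralLinearGroup.toLin.trans
      (LinearMap.GeneralLinearGroup.generalLinearEquiv (ZMod q) (Fin r → ZMod q))).toEquiv)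
  rw [← h1, Matrix.card_GL_field, ZMod.card, Finset.prod_range]

theorem pa1 {Ω : Type} [Fintype Ω] [DecidableEq Ω] (K : Subgroup (Perm Ω))
    (hK : Group.IsSolvable K) (h2 : 2 ≤ Fintype.card Ω) (hp : MulAction.IsPreprimitive K Ω) :
    ∃ q r : ℕ, q.Prime ∧ 1 ≤ r ∧ Fintype.card Ω = q ^ r ∧
      Nat.card K ≤ q ^ r * ∏ i ∈ Finset.range r, (q ^ r - q ^ i) ∧
      ∀ g ∈ K, g ≠ 1 → g.support.card = q ^ r ∨ ∃ f < r, g.support.card = q ^ r - q ^ f := by
  classical
  obtain ⟨q, r, hq, e, hr, hc, hg⟩ := aff K hK h2 hp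
  refine ⟨q, r, hq.out, hr, hc, ?_, ?_⟩
  · choose! φ v hφ using hg
    have hinj : Function.Injective (fun g : K => (v g.1, φ g.1)) := by
      intro g g' hgg
      simp only [Prod.mk.injEq] at hgg
      apply Subtype.ext
      apply Equiv.ext
      intro ω
      apply e.injective
      rw [hφ g.1 g.2, hφ g'.1 g'.2, hgg.1, hgg.2]
    have hfin : Finite ((Fin r → ZMod q) ≃ₗ[ZMod q] (Fin r → ZMod q)) :=
      Finite.of_injective (fun φ => (φ : (Fin r → ZMod q) → (Fin r → ZMod q)))
        DFunLike.coe_injective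
    have h3 := Nat.card_le_card_of_injective _ hinj
    rwa [Nat.card_prod, pa1_gl, Nat.card_fun, Nat.card_zmod, Nat.card_fin] at h3
  · intro g hgK hg1
    obtain ⟨φ, v, hφ⟩ := hg g hgK
    have h3 := pa1_supp e g φ v hφ
    have hne : ¬ ∀ u, φ u + v = u := by
      intro hall
      apply hg1
      ext ω
      apply e.injective
      rw [hφ, hall, Equiv.Perm.coe_one, id]
    rcases pa1_fix φ v hne with h4 | ⟨f, hf, h4⟩
    · left
      omega
    · right
      exact ⟨f, hf, by omega⟩

end Pool.Agent.H77.TS
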