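import Pool.Agent.H77.TS.Sd
import Pool.Agent.H77.TS.Pa1
import Pool.Agent.H77.TS.Ns
import Pool.Agent.H77.TS.Ni1

/-!
[H77 TS NB0] The order of a soluble permutation group is at most 3^(n-1) (30-45 min).

PROOF. Strong induction on card Ω. card Ω ≤ 4: ns (1, 2, 6, 24 ≤ 1, 3, 9, 27). card Ω ≥ 5: sd.
Intransitive: |K| ≤ 3^(a-1) 3^(b-1) ≤ 3^(a+b-1). Imprimitive: |K| ≤ (3^(a-1))^b 3^(b-1) = 3^(ab-1)
(a < ab, b < ab). Primitive: pa1 and ni1.
-/

namespace Pool.Agent.H77.TS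

open Equiv

theorem nb0_aux (n : ℕ) : ∀ (Ω : Type) [Fintype Ω] [DecidableEq Ω] (K : Subgroup (Perm Ω)),
    Group.IsSolvable K → Fintype.card Ω = n → 1 ≤ n → Nat.card K ≤ 3 ^ (n - 1) := by
  induction n using Nat.strong_induction_on with
  | _ n ih =>
    intro Ω _ _ K hK hn h1
    rcases Nat.lt_or_ge 4 n with h5 | h4
    · rcases sd K hK (by omega) with h | h | h
      · obtain ⟨a, b, Ω₁, Ω₂, _, _, _, _, K₁, K₂, ha, hb, hab, hc1, hc2, hs1, hs2, hle, -⟩ := h
        have i1 := ih a (by omega) Ω₁ K₁ hs1 hc1 ha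
        have i2 := ih b (by omega) Ω₂ K₂ hs2 hc2 hb
        calc Nat.card K ≤ Nat.card K₁ * Nat.card K₂ := hle
          _ ≤ 3 ^ (a - 1) * 3 ^ (b - 1) := Nat.mul_le_mul i1 i2
          _ = 3 ^ (a - 1 + (b - 1)) := by rw [pow_add]
          _ ≤ 3 ^ (n - 1) := Nat.pow_le_pow_right (by norm_num) (by omega)
      · obtain ⟨a, b, De, Bl, _, _, _, _, A, B, ha, hb, hab, hc1, hc2, hs1, hs2, hle, -⟩ := h
        have hab' : a * b = n := by rw [hab, hn]
        have i1 := ih a (by nlinarith) De A hs1 hc1 (by omega)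
        have i2 := ih b (by nlinarith) Bl B hs2 hc2 (by omega)
        have e : (a - 1) * b + (b - 1) = n - 1 := by
          obtain ⟨a', rfl⟩ : ∃ a', a = a' + 1 := ⟨a - 1, by omega⟩
          obtain ⟨b', rfl⟩ : ∃ b', b = b' + 1 := ⟨b - 1, by omega⟩
          rw [← hab', Nat.add_sub_cancel, Nat.add_sub_cancel]
          have : (a' + 1) * (b' + 1) = a' * (b' + 1) + b' + 1 := by ring
          omega
        calc Nat.card K ≤ Nat.card A ^ b * Nat.card B := hle
          _ ≤ (3 ^ (a - 1)) ^ b * 3 ^ (b - 1) := Nat.mul_le_mul (Nat.pow_le_pow_left i1 _) i2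
          _ = 3 ^ (n - 1) := by rw [← pow_mul, ← pow_add, e]
      · obtain ⟨q, r, hq, hr, hc, hle, -⟩ := pa1 K hK (by omega) h
        have h6 := ni1 q r hq hr (by omega)
        rw [← hn, hc]
        exact hle.trans h6
    · have h2 := (ns K (by omega)).1
      rw [hn] at h2
      refine h2.trans ?_
      interval_cases n <;> decide

theorem nb0 {Ω : Type} [Fintype Ω] [DecidableEq Ω] (K : Subgroup (Perm Ω))
    (hK : Group.IsSolvable K) (h1 : 1 ≤ Fintype.card Ω) :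
    Nat.card K ≤ 3 ^ (Fintype.card Ω - 1) :=
  nb0_aux _ Ω K hK rfl h1

end Pool.Agent.H77.TS
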