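import Pool.Agent.H77.TS.Base

/-!
Tables for degrees at most 14.
-/

namespace Pool.Agent.H77.TS

/-- Bounds for the orders of soluble permutation groups of degree `m ≤ 14`. -/
def tordL : List ℕ :=
  [1, 1, 2, 6, 24, 24, 72, 144, 1152, 1296, 2304, 6912, 82944, 82944, 165888]

/-- Bounds for the orders of soluble permutation groups of degree `m ≤ 14`. -/
def tord (m : ℕ) : ℕ := tordL.getD m 0

/-- Table for `p = 2`. -/
def t2 : List (List ℕ) :=
  [[], [], [1], [3], [6, 3], [6, 5], [7, 9, 7], [9, 21, 9], [12, 42, 36, 33],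
   [12, 44, 72, 54], [13, 54, 82, 69, 33], [15, 78, 162, 141, 110],
   [18, 117, 324, 423, 594, 243], [18, 119, 372, 618, 594, 243],
   [19, 135, 445, 747, 1017, 837, 243]]

/-- Table for `p = 3`. -/
def t3 : List (List ℕ) :=
  [[], [], [], [2], [8], [8], [8, 8], [10, 16], [16, 168], [16, 168, 80], [16, 168, 80],
   [18, 200, 336], [24, 296, 1344, 1152], [24, 296, 1424, 1152], [24, 304, 1472, 1344]]

/-- Table for `p = 5`. -/
def t5 : List (List ℕ) :=
  [[], [], [], [], [], [4], [4], [4], [4], [4], [8, 64], [8, 110], [8, 110], [8, 110], [8, 110]]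

/-- Table for `p = 7`. -/
def t7 : List (List ℕ) :=
  [[], [], [], [], [], [], [], [6], [168], [168], [168], [168], [168], [168], [168, 384]]

/-- Table for `p = 11`. -/
def t11 : List (List ℕ) :=
  [[], [], [], [], [], [], [], [], [], [], [], [110], [110], [110], [110]]

/-- Table for `p = 13`. -/
def t13 : List (List ℕ) :=
  [[], [], [], [], [], [], [], [], [], [], [], [], [], [156], [156]]

/-- Bounds for the numbers `nn K p k` of soluble permutation groups of degree `m ≤ 14`. -/
def tb (m p k : ℕ) : ℕ :=
  if k = 0 then 1 else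
  if p = 2 then (t2.getD m []).getD (k - 1) 0 else
  if p = 3 then (t3.getD m []).getD (k - 1) 0 else
  if p = 5 then (t5.getD m []).getD (k - 1) 0 else
  if p = 7 then (t7.getD m []).getD (k - 1) 0 else
  if p = 11 then (t11.getD m []).getD (k - 1) 0 else
  if p = 13 then (t13.getD m []).getD (k - 1) 0 else 0

end Pool.Agent.H77.TS
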