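import Pool.Agent.H77.TS.Ub3
import Pool.Agent.H77.TS.Tab

/-!
The numerical quantities.
-/

namespace Pool.Agent.H77.TS

/-- The quantity of the union bound for the symmetric group (with rational numbers). -/
def WS (m : ℕ) (t : ℕ → ℕ → ℕ) (o : ℕ) : ℚ :=
  (∑ p ∈ (Finset.range (m + 1)).filter Nat.Prime, ∑ k ∈ Finset.Icc 1 (m / p),
    (t p k : ℚ) ^ 5 / (cc m p k : ℚ) ^ 4) + 4 * (o : ℚ) ^ 5 / (m.factorial : ℚ) ^ 4

/-- The quantity of the union bound for the alternating group. -/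
def WA (m : ℕ) (t : ℕ → ℕ → ℕ) (o : ℕ) : ℚ :=
  (∑ p ∈ (Finset.range (m + 1)).filter Nat.Prime, ∑ k ∈ Finset.Icc 1 (m / p),
    (wt m p k : ℚ) * (t p k : ℚ) ^ 5 / (cc m p k : ℚ) ^ 4) +
    64 * (o : ℚ) ^ 5 / (m.factorial : ℚ) ^ 4

/-- A common upper bound of `WS` and `WA`. -/
def WB (m : ℕ) (t : ℕ → ℕ → ℕ) (o : ℕ) : ℚ :=
  (∑ p ∈ (Finset.range (m + 1)).filter Nat.Prime, ∑ k ∈ Finset.Icc 1 (m / p),
    (if p ≠ 2 ∧ k = 1 then 32 else 1 : ℚ) * (t p k : ℚ) ^ 5 / (cc m p k : ℚ) ^ 4) +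
    64 * (o : ℚ) ^ 5 / (m.factorial : ℚ) ^ 4

/-- Cube roots of `10 ^ (m - 1)`, rounded down, for `15 ≤ m ≤ 28`. -/
def crL : List ℕ :=
  [46415, 100000, 215443, 464158, 1000000, 2154434, 4641588, 10000000, 21544346, 46415888,
   100000000, 215443469, 464158883, 1000000000]

/-- The bounds for degrees `15 ≤ m ≤ 28`. -/
def tm (m p k : ℕ) : ℕ :=
  if p = 2 then min (al 2 ^ k * (m - 1).choose k) (crL.getD (m - 15) 0)
  else al p ^ k * (m - 1).choose k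

/-- The bounds for all degrees. -/
def tc (m p k : ℕ) : ℕ := al p ^ k * (m - 1).choose k

end Pool.Agent.H77.TS
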