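import Mathlib

/-!
[H77 TS NQ4A] A lower bound for falling factorials (20-30 min).

PROOF. Fix j and use induction on N ≥ j (Nat.le_induction). N = j: descFactorial j j = j!, and
(j/e)^j ≤ j! because exp j ≥ j^j / j! (Real.pow_div_factorial_le_exp or similar, a term of the
series), e = Real.exp 1 < 2.7182818286 (Real.exp_one_lt_d9). Step: (N+1).descFactorial j / N.descFactorial j =
(N+1)/(N+1-j) (Nat.succ_descFactorial: (n + 1 - k) * (n + 1).descFactorial k = (n + 1) *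
n.descFactorial k), and ((N+1)/N)^j ≤ (N+1)/(N+1-j), i.e. (1 - 1/(N+1))^j ≥ 1 - j/(N+1): Bernoulli
(one_add_mul_le_pow). (N = 0: j = 0, trivial.)
-/

namespace Pool.Agent.H77.TS

theorem base_NQ4A (j : ℕ) : ((j : ℝ) / (2719 / 1000)) ^ j ≤ (j.factorial : ℝ) := by
  have h1 := Real.pow_div_factorial_le_exp (j : ℝ) (Nat.cast_nonneg j) j
  have h2 : Real.exp (j : ℝ) = (Real.exp 1) ^ j := by
    rw [← Real.exp_nat_mul, mul_one]
  have h3 : (Real.exp 1) ^ j ≤ (2719 / 1000 : ℝ) ^ j := by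
    apply pow_le_pow_left₀ (Real.exp_pos 1).le
    have := Real.exp_one_lt_d9
    linarith
  have h4 : (0 : ℝ) < (j.factorial : ℝ) := by exact_mod_cast Nat.factorial_pos j
  rw [div_le_iff₀ h4, h2] at h1
  rw [div_pow, div_le_iff₀ (by positivity)]
  calc (j : ℝ) ^ j ≤ Real.exp 1 ^ j * j.factorial := h1
    _ ≤ (2719 / 1000 : ℝ) ^ j * j.factorial := by gcongr
    _ = j.factorial * (2719 / 1000 : ℝ) ^ j := by ring

theorem real_NQ4A (N j : ℕ) (h : j ≤ N) :
    ((N : ℝ) / (2719 / 1000)) ^ j ≤ (N.descFactorial j : ℝ) := by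
  rcases Nat.eq_zero_or_pos j with h0 | h0
  · subst h0
    simp
  induction N, h using Nat.le_induction with
  | base =>
    rw [Nat.descFactorial_self]
    exact base_NQ4A j
  | succ N hN ih =>
    have hNpos : (0 : ℝ) < N := by exact_mod_cast (by omega : 0 < N)
    have h1 := Nat.succ_descFactorial N j
    have h2 : ((N + 1 : ℕ) : ℝ) - j = ((N + 1 - j : ℕ) : ℝ) := by
      rw [Nat.cast_sub (by omega)]
    have h3 : (((N + 1 - j : ℕ) : ℝ)) * ((N + 1).descFactorial j : ℝ) =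
        ((N + 1 : ℕ) : ℝ) * (N.descFactorial j : ℝ) := by exact_mod_cast h1
    have hpos : (0 : ℝ) < ((N + 1 - j : ℕ) : ℝ) := by exact_mod_cast (by omega : 0 < N + 1 - j)
    have ha : (0 : ℝ) < ((N + 1 : ℕ) : ℝ) := by positivity
    have h4 : 1 + (j : ℝ) * (-(1 / ((N + 1 : ℕ) : ℝ))) ≤ (1 + -(1 / ((N + 1 : ℕ) : ℝ))) ^ j := by
      apply one_add_mul_le_pow
      have : 1 / ((N + 1 : ℕ) : ℝ) ≤ 1 := by
        rw [div_le_one ha]
        exact_mod_cast (by omega : 1 ≤ N + 1)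
      linarith
    have h5 : 1 + -(1 / ((N + 1 : ℕ) : ℝ)) = (N : ℝ) / ((N + 1 : ℕ) : ℝ) := by
      field_simp
      push_cast
      ring
    have h6 : 1 + (j : ℝ) * (-(1 / ((N + 1 : ℕ) : ℝ))) =
        ((N + 1 - j : ℕ) : ℝ) / ((N + 1 : ℕ) : ℝ) := by
      rw [← h2]
      field_simp
      ring
    rw [h5, h6] at h4
    -- h4 : (a - j) / a ≤ (N / a) ^ j
    have h7 : (((N + 1 : ℕ) : ℝ) / (2719 / 1000)) ^ j * ((N : ℝ) / ((N + 1 : ℕ) : ℝ)) ^ j =
        ((N : ℝ) / (2719 / 1000)) ^ j := by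
      rw [← mul_pow]
      congr 1
      field_simp
    have h8 : (((N + 1 : ℕ) : ℝ) / (2719 / 1000)) ^ j *
        (((N + 1 - j : ℕ) : ℝ) / ((N + 1 : ℕ) : ℝ)) ≤ (N.descFactorial j : ℝ) := by
      refine le_trans ?_ ih
      rw [← h7]
      gcongr
    have h9 : (((N + 1 : ℕ) : ℝ) / (2719 / 1000)) ^ j * ((N + 1 - j : ℕ) : ℝ) ≤
        ((N + 1).descFactorial j : ℝ) * ((N + 1 - j : ℕ) : ℝ) := by
      rw [mul_comm ((N + 1).descFactorial j : ℝ), h3]
      rw [← mul_div_assoc, div_le_iff₀ ha] at h8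
      linarith
    exact le_of_mul_le_mul_right h9 hpos

theorem nq4a (N j : ℕ) (h : j ≤ N) :
    ((N : ℚ) / (2719 / 1000)) ^ j ≤ (N.descFactorial j : ℚ) := by
  have h1 := real_NQ4A N j h
  have h2 : ((((N : ℚ) / (2719 / 1000)) ^ j : ℚ) : ℝ) ≤ ((N.descFactorial j : ℚ) : ℝ) := by
    push_cast
    exact h1
  exact_mod_cast h2

end Pool.Agent.H77.TS
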