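import Pool.Agent.H77.TS.Nq
import Pool.Agent.H77.TS.Cc1
import Pool.Agent.H77.TS.Nq4a

/-!
[H77 TS NQ4B] The proportion for large degrees (30-45 min).

PROOF. With choose (m-1) k = (m-1)! / (k! (m-1-k)!) and cc3:
tc m p k / cc m p k = (al p)^k (m-1)!/(k! (m-1-k)!) * (m - p k)! p^k k! / m!
= (1/m) (p al p)^k (m - p k)! / (m-1-k)!, and (m-1-k)! / (m - p k)! =
(m-1-k).descFactorial ((p-1) k - 1) (Nat.factorial_mul_descFactorial; (m-1-k) - ((p-1)k-1) = m - p k
because (p-1) k + k = p k ≤ m and k ≥ 1). nq4a with N = m - 1 - k > 0.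
(In the statement (m - 1 - k : ℕ) is the truncated subtraction of natural numbers, here k + 1 ≤ m.)
-/

namespace Pool.Agent.H77.TS

theorem nq4b (m p k : ℕ) (hm : 60 ≤ m) (hp : p.Prime) (hk : 1 ≤ k) (h : p * k ≤ m) :
    (tc m p k : ℚ) / (cc m p k : ℚ) ≤ 1 / (m : ℚ) * ((p : ℚ) * (al p : ℚ)) ^ k *
      ((2719 / 1000) / ((m - 1 - k : ℕ) : ℚ)) ^ ((p - 1) * k - 1) := by
  have hp2 := hp.two_le
  obtain ⟨q, rfl⟩ : ∃ q, p = q + 2 := ⟨p - 2, by omega⟩
  have hqk : (q + 2) * k = k + (q + 1) * k := by ring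
  have hqk1 : 1 ≤ (q + 1) * k := Nat.mul_pos (by omega) hk
  have hk2 : 2 * k ≤ m := by nlinarith
  have hJ : (q + 2 - 1) * k - 1 = (q + 1) * k - 1 := by rfl
  rw [hJ]
  set J := (q + 1) * k - 1 with hJdef
  have hJle : J ≤ m - 1 - k := by omega
  have hrest : m - 1 - k - J = m - (q + 2) * k := by omega
  have h1 := cc3 m (q + 2) k hp hk h
  have h2 := Nat.choose_mul_factorial_mul_factorial (show k ≤ m - 1 by omega)
  have h3 := Nat.factorial_mul_descFactorial hJle
  rw [hrest] at h3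
  have h4 : m * (m - 1).factorial = m.factorial := Nat.mul_factorial_pred (by omega)
  have h5 := nq4a (m - 1 - k) J hJle
  have hD : 0 < (m - 1 - k).descFactorial J := Nat.pos_of_ne_zero (fun h0 => by
    rw [Nat.descFactorial_eq_zero_iff_lt] at h0
    omega)
  have hcc : 0 < cc m (q + 2) k := Nat.pos_of_ne_zero (fun h0 => by
    rw [h0, zero_mul] at h1
    exact (Nat.factorial_pos m).ne h1)
  -- exact formula
  have h6 : tc m (q + 2) k * (m * (m - 1 - k).descFactorial J) =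
      ((q + 2) * al (q + 2)) ^ k * cc m (q + 2) k := by
    have hF : 0 < (m - (q + 2) * k).factorial := Nat.factorial_pos _
    have hkf : 0 < k.factorial := Nat.factorial_pos _
    apply Nat.eq_of_mul_eq_mul_right (Nat.mul_pos hF hkf)
    unfold tc
    calc al (q + 2) ^ k * (m - 1).choose k * (m * (m - 1 - k).descFactorial J) *
          ((m - (q + 2) * k).factorial * k.factorial)
        = al (q + 2) ^ k * (m * ((m - 1).choose k * k.factorial *
          ((m - (q + 2) * k).factorial * (m - 1 - k).descFactorial J))) := by ring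
      _ = al (q + 2) ^ k * m.factorial := by rw [h3, h2, h4]
      _ = al (q + 2) ^ k * (cc m (q + 2) k *
          ((m - (q + 2) * k).factorial * (q + 2) ^ k * k.factorial)) := by rw [h1]
      _ = ((q + 2) * al (q + 2)) ^ k * cc m (q + 2) k *
          ((m - (q + 2) * k).factorial * k.factorial) := by rw [mul_pow]; ring
  have hm0 : (0 : ℚ) < (m : ℚ) := by exact_mod_cast (by omega : 0 < m)
  have hD' : (0 : ℚ) < ((m - 1 - k).descFactorial J : ℚ) := by exact_mod_cast hD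
  have hcc' : (0 : ℚ) < (cc m (q + 2) k : ℚ) := by exact_mod_cast hcc
  have hN' : (0 : ℚ) < ((m - 1 - k : ℕ) : ℚ) := by exact_mod_cast (by omega : 0 < m - 1 - k)
  have h7 : (tc m (q + 2) k : ℚ) / (cc m (q + 2) k : ℚ) =
      1 / (m : ℚ) * (((q + 2 : ℕ) : ℚ) * (al (q + 2) : ℚ)) ^ k *
        (1 / ((m - 1 - k).descFactorial J : ℚ)) := by
    have h8 : (tc m (q + 2) k : ℚ) * ((m : ℚ) * ((m - 1 - k).descFactorial J : ℚ)) =
        (((q + 2 : ℕ) : ℚ) * (al (q + 2) : ℚ)) ^ k * (cc m (q + 2) k : ℚ) := by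
      exact_mod_cast h6
    rw [div_eq_iff hcc'.ne']
    have h9 : 1 / (m : ℚ) * (((q + 2 : ℕ) : ℚ) * (al (q + 2) : ℚ)) ^ k *
        (1 / ((m - 1 - k).descFactorial J : ℚ)) * (cc m (q + 2) k : ℚ) =
        ((((q + 2 : ℕ) : ℚ) * (al (q + 2) : ℚ)) ^ k * (cc m (q + 2) k : ℚ)) /
          ((m : ℚ) * ((m - 1 - k).descFactorial J : ℚ)) := by
      field_simp
    rw [h9, ← h8, mul_div_assoc, div_self (by positivity), mul_one]
  rw [h7]
  have h10 : 1 / ((m - 1 - k).descFactorial J : ℚ) ≤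
      ((2719 / 1000) / ((m - 1 - k : ℕ) : ℚ)) ^ J := by
    have h11 : ((2719 / 1000) / ((m - 1 - k : ℕ) : ℚ)) ^ J =
        1 / (((m - 1 - k : ℕ) : ℚ) / (2719 / 1000)) ^ J := by
      rw [one_div, ← inv_pow, inv_div]
    rw [h11]
    apply one_div_le_one_div_of_le (by positivity) h5
  gcongr

end Pool.Agent.H77.TS
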