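import Pool.Agent.H77.TS.Nq4b

/-!
[H77 TS NQ4C] Large degrees, p = 2 (45-60 min).

PROOF. al 2 = 2, tc m 2 k = 2^k choose (m-1) k. By nq4b with m - 1 - k ≥ (m-2)/2 (2 k ≤ m):
tc/cc ≤ (1/m) 4^k (2.719 * 2/(m-2))^(k-1) = (4/m) r^(k-1), r = 21.752/(m-2). So with n = m - 1 and
x = 2 r^4: the k-th term tc * (tc/cc)^4 is ≤ (4/m)^4 * 2^k * choose n k * r^(4(k-1)) =
(4/m)^4 * 2 * choose n k * x^(k-1), and
∑_{k ≥ 1} choose n k * x^(k-1) ≤ n (1+x)^n: choose n k ≤ n * choose (n-1) (k-1)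
(k * choose n k = n * choose (n-1) (k-1)) and the binomial theorem: the sum is ≤ n (1+x)^(n-1).
So the whole sum is ≤ (256/m^4) * 2 n (1+x)^n, (1+x)^n ≤ exp (n x),
n x = 2 * 21.752^4 (m-1)/(m-2)^4 ≤ 2.34 for m ≥ 60 (2 * 21.752^4 < 447743, (m-1)/(m-2)^4 ≤
59/58^4: (m-1)/(m-2) ≤ 59/58 and (m-2)^3 ≥ 58^3), exp 2.34 ≤ 11 (2.34 < 2.4 and e^2.4 = 11.02..., so
use e^2.34 < 10.39: e^(2.34) = (e^(1.17))^2, or Real.exp_one_lt_d9 and e^(0.34) ≤ 1/(1 - 0.34)...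
= 1.516: 7.3891 * 1.516 = 11.2; use the bound 12 instead of 11: enough).
Total: 256 * 2 * 12 / m^3 = 6144/m^3 ≤ 6144/216000 < 1/20.
-/

namespace Pool.Agent.H77.TS

private theorem nq4c_exp (x : ℚ) (N : ℕ) (hx : 0 ≤ x) (h : (N : ℚ) * x ≤ 5 / 2) :
    (1 + x) ^ N ≤ 13 := by
  have h1 : ((1 + (x : ℝ)) ^ N) ≤ 13 := by
    have hx' : (0 : ℝ) ≤ (x : ℝ) := by exact_mod_cast hx
    have h' : (N : ℝ) * (x : ℝ) ≤ 5 / 2 := by
      have h0 := (Rat.cast_le (K := ℝ)).mpr h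
      push_cast at h0
      exact h0
    have h2 : (1 + (x : ℝ)) ≤ Real.exp x := by linarith [Real.add_one_le_exp (x : ℝ)]
    calc (1 + (x : ℝ)) ^ N ≤ (Real.exp x) ^ N := pow_le_pow_left₀ (by linarith) h2 N
      _ = Real.exp (N * x) := by rw [← Real.exp_nat_mul]
      _ ≤ Real.exp (5 / 2) := Real.exp_le_exp.mpr h'
      _ ≤ 13 := by
        have h4 : Real.exp (5 / 2) ^ 2 = Real.exp 1 ^ 5 := by
          rw [← Real.exp_nat_mul, ← Real.exp_nat_mul]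
          norm_num
        have h5 : Real.exp 1 ^ 5 ≤ 2.7182818286 ^ 5 :=
          pow_le_pow_left₀ (Real.exp_pos 1).le Real.exp_one_lt_d9.le 5
        have h6 : (2.7182818286 : ℝ) ^ 5 ≤ 13 ^ 2 := by norm_num
        exact (pow_le_pow_iff_left₀ (Real.exp_pos _).le (by norm_num) two_ne_zero).mp
          (by rw [h4]; exact h5.trans h6)
  exact_mod_cast h1

private theorem nq4c_term (m k : ℕ) (hm : 60 ≤ m) (hk : 1 ≤ k) (h : 2 * k ≤ m) :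
    (tc m 2 k : ℚ) ^ 5 / (cc m 2 k : ℚ) ^ 4 ≤
      512 / (m : ℚ) ^ 4 *
        (((m - 1).choose k : ℚ) * (2 * (21752 / 1000 / ((m : ℚ) - 2)) ^ 4) ^ (k - 1)) := by
  obtain ⟨j, rfl⟩ : ∃ j, k = j + 1 := ⟨k - 1, by omega⟩
  have hm' : (60 : ℚ) ≤ m := by exact_mod_cast hm
  have hc : (0 : ℚ) < cc m 2 (j + 1) := by exact_mod_cast (cc1 m 2 (j + 1) Nat.prime_two hk h).2
  have h1 := nq4b m 2 (j + 1) hm Nat.prime_two hk h
  have hal : al 2 = 2 := by decide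
  have hT : (tc m 2 (j + 1) : ℚ) = 2 * 2 ^ j * ((m - 1).choose (j + 1) : ℚ) := by
    unfold tc
    rw [hal]
    push_cast
    ring
  have hcast : ((m - 1 - (j + 1) : ℕ) : ℚ) = (m : ℚ) - 1 - (j + 1) := by
    rw [Nat.sub_sub, Nat.cast_sub (by omega)]
    push_cast
    ring
  have hj : 2 * ((j : ℚ) + 1) ≤ m := by exact_mod_cast h
  have h2 : (2719 / 1000 : ℚ) / ((m - 1 - (j + 1) : ℕ) : ℚ) ≤ 5438 / 1000 / ((m : ℚ) - 2) := by
    rw [hcast, div_le_div_iff₀ (by linarith) (by linarith)]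
    linarith
  have h3 : (0 : ℚ) ≤ (2719 / 1000 : ℚ) / ((m - 1 - (j + 1) : ℕ) : ℚ) := by positivity
  have hr : (0 : ℚ) ≤ 21752 / 1000 / ((m : ℚ) - 2) := div_nonneg (by norm_num) (by linarith)
  have h4 : (tc m 2 (j + 1) : ℚ) / (cc m 2 (j + 1) : ℚ) ≤
      4 / (m : ℚ) * (21752 / 1000 / ((m : ℚ) - 2)) ^ j := by
    rw [hal] at h1
    have e1 : (2 - 1) * (j + 1) - 1 = j := by omega
    rw [e1] at h1
    have h5 : (4 * ((2719 / 1000 : ℚ) / ((m - 1 - (j + 1) : ℕ) : ℚ))) ^ j ≤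
        (21752 / 1000 / ((m : ℚ) - 2)) ^ j := by
      apply pow_le_pow_left₀ (by positivity)
      calc 4 * ((2719 / 1000 : ℚ) / ((m - 1 - (j + 1) : ℕ) : ℚ)) ≤
            4 * (5438 / 1000 / ((m : ℚ) - 2)) := by linarith
        _ = 21752 / 1000 / ((m : ℚ) - 2) := by ring
    calc (tc m 2 (j + 1) : ℚ) / (cc m 2 (j + 1) : ℚ)
        ≤ 1 / (m : ℚ) * (((2 : ℕ) : ℚ) * ((2 : ℕ) : ℚ)) ^ (j + 1) *
          ((2719 / 1000) / ((m - 1 - (j + 1) : ℕ) : ℚ)) ^ j := h1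
      _ = 4 / (m : ℚ) * (4 * ((2719 / 1000 : ℚ) / ((m - 1 - (j + 1) : ℕ) : ℚ))) ^ j := by
          rw [mul_pow 4, pow_succ]
          push_cast
          norm_num
          ring
      _ ≤ 4 / (m : ℚ) * (21752 / 1000 / ((m : ℚ) - 2)) ^ j :=
          mul_le_mul_of_nonneg_left h5 (by positivity)
  have h5 : ((tc m 2 (j + 1) : ℚ) / (cc m 2 (j + 1) : ℚ)) ^ 4 ≤
      (4 / (m : ℚ) * (21752 / 1000 / ((m : ℚ) - 2)) ^ j) ^ 4 :=
    pow_le_pow_left₀ (by positivity) h4 4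
  calc (tc m 2 (j + 1) : ℚ) ^ 5 / (cc m 2 (j + 1) : ℚ) ^ 4
      = (tc m 2 (j + 1) : ℚ) * ((tc m 2 (j + 1) : ℚ) / (cc m 2 (j + 1) : ℚ)) ^ 4 := by
        rw [div_pow]
        ring
    _ ≤ (tc m 2 (j + 1) : ℚ) * (4 / (m : ℚ) * (21752 / 1000 / ((m : ℚ) - 2)) ^ j) ^ 4 :=
        mul_le_mul_of_nonneg_left h5 (by positivity)
    _ = 512 / (m : ℚ) ^ 4 * (((m - 1).choose (j + 1) : ℚ) *
          (2 * (21752 / 1000 / ((m : ℚ) - 2)) ^ 4) ^ (j + 1 - 1)) := by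
        rw [hT, Nat.add_sub_cancel, mul_pow 2, ← pow_mul, mul_pow, ← pow_mul, mul_comm j 4,
          div_pow 4]
        ring

private theorem nq4c_shift (g : ℕ → ℚ) (M : ℕ) :
    ∑ k ∈ Finset.Icc 1 M, g (k - 1) = ∑ j ∈ Finset.range M, g j := by
  induction M with
  | zero => simp
  | succ M ih =>
    rw [Finset.sum_Icc_succ_top (by omega), ih, Finset.sum_range_succ, Nat.add_sub_cancel]

private theorem nq4c_sum (m : ℕ) (hm : 60 ≤ m) (x : ℚ) (hx : 0 ≤ x) :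
    ∑ k ∈ Finset.Icc 1 (m / 2), ((m - 1).choose k : ℚ) * x ^ (k - 1) ≤
      ((m : ℚ) - 1) * (1 + x) ^ (m - 2) := by
  have h1 : ∀ k ∈ Finset.Icc 1 (m / 2), ((m - 1).choose k : ℚ) * x ^ (k - 1) ≤
      ((m : ℚ) - 1) * (((m - 2).choose (k - 1) : ℚ) * x ^ (k - 1)) := by
    intro k hk
    rw [Finset.mem_Icc] at hk
    obtain ⟨j, rfl⟩ : ∃ j, k = j + 1 := ⟨k - 1, by omega⟩
    obtain ⟨M, rfl⟩ : ∃ M, m = M + 2 := ⟨m - 2, by omega⟩
    have e1 : M + 2 - 1 = M + 1 := by omega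
    have e2 : M + 2 - 2 = M := by omega
    rw [e1, e2, Nat.add_sub_cancel]
    have h2 : (M + 1).choose (j + 1) ≤ (M + 1) * M.choose j := by
      have h3 := Nat.add_one_mul_choose_eq M j
      calc (M + 1).choose (j + 1) ≤ (M + 1).choose (j + 1) * (j + 1) :=
            Nat.le_mul_of_pos_right _ (by omega)
        _ = (M + 1) * M.choose j := h3.symm
    have h3 : ((M + 1).choose (j + 1) : ℚ) ≤ ((M : ℚ) + 1) * (M.choose j : ℚ) := by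
      exact_mod_cast h2
    calc ((M + 1).choose (j + 1) : ℚ) * x ^ j ≤ (((M : ℚ) + 1) * (M.choose j : ℚ)) * x ^ j :=
          mul_le_mul_of_nonneg_right h3 (pow_nonneg hx j)
      _ = (((M + 2 : ℕ) : ℚ) - 1) * ((M.choose j : ℚ) * x ^ j) := by
          push_cast
          ring
  have hm' : (60 : ℚ) ≤ m := by exact_mod_cast hm
  calc ∑ k ∈ Finset.Icc 1 (m / 2), ((m - 1).choose k : ℚ) * x ^ (k - 1)
      ≤ ∑ k ∈ Finset.Icc 1 (m / 2), ((m : ℚ) - 1) * (((m - 2).choose (k - 1) : ℚ) * x ^ (k - 1)) :=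
        Finset.sum_le_sum h1
    _ = ((m : ℚ) - 1) * ∑ j ∈ Finset.range (m / 2), ((m - 2).choose j : ℚ) * x ^ j := by
        rw [← Finset.mul_sum, nq4c_shift (fun j => ((m - 2).choose j : ℚ) * x ^ j)]
    _ ≤ ((m : ℚ) - 1) * ∑ j ∈ Finset.range (m - 2 + 1), ((m - 2).choose j : ℚ) * x ^ j := by
        apply mul_le_mul_of_nonneg_left _ (by linarith)
        apply Finset.sum_le_sum_of_subset_of_nonneg
        · intro j hj
          rw [Finset.mem_range] at hj ⊢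
          omega
        · intro j _ _
          positivity
    _ = ((m : ℚ) - 1) * (1 + x) ^ (m - 2) := by
        rw [add_comm 1 x, add_pow]
        congr 1
        refine Finset.sum_congr rfl fun j _ => ?_
        rw [one_pow]
        ring

theorem nq4c (m : ℕ) (hm : 60 ≤ m) :
    ∑ k ∈ Finset.Icc 1 (m / 2), (tc m 2 k : ℚ) ^ 5 / (cc m 2 k : ℚ) ^ 4 ≤ 1 / 20 := by
  have hm' : (60 : ℚ) ≤ m := by exact_mod_cast hm
  have hx : (0 : ℚ) ≤ 2 * (21752 / 1000 / ((m : ℚ) - 2)) ^ 4 := by positivity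
  have h1 : ∑ k ∈ Finset.Icc 1 (m / 2), (tc m 2 k : ℚ) ^ 5 / (cc m 2 k : ℚ) ^ 4 ≤
      512 / (m : ℚ) ^ 4 * ∑ k ∈ Finset.Icc 1 (m / 2),
        ((m - 1).choose k : ℚ) * (2 * (21752 / 1000 / ((m : ℚ) - 2)) ^ 4) ^ (k - 1) := by
    rw [Finset.mul_sum]
    refine Finset.sum_le_sum fun k hk => ?_
    rw [Finset.mem_Icc] at hk
    exact nq4c_term m k hm hk.1 (by omega)
  have h2 := nq4c_sum m hm _ hx
  have h3 : (1 + 2 * (21752 / 1000 / ((m : ℚ) - 2)) ^ 4) ^ (m - 2) ≤ 13 := by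
    apply nq4c_exp _ _ hx
    rw [Nat.cast_sub (by omega : 2 ≤ m)]
    push_cast
    have hM : (58 : ℚ) ≤ (m : ℚ) - 2 := by linarith
    generalize (m : ℚ) - 2 = M at hM
    have hM0 : M ≠ 0 := by linarith
    have e1 : M * (2 * (21752 / 1000 / M) ^ 4) = 2 * (21752 / 1000) ^ 4 / M ^ 3 := by
      field_simp
    rw [e1, div_le_iff₀ (by positivity)]
    have h4 : (58 : ℚ) ^ 3 ≤ M ^ 3 := pow_le_pow_left₀ (by norm_num) hM 3
    calc (2 : ℚ) * (21752 / 1000) ^ 4 ≤ 5 / 2 * 58 ^ 3 := by norm_num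
      _ ≤ 5 / 2 * M ^ 3 := mul_le_mul_of_nonneg_left h4 (by norm_num)
  calc ∑ k ∈ Finset.Icc 1 (m / 2), (tc m 2 k : ℚ) ^ 5 / (cc m 2 k : ℚ) ^ 4
      ≤ 512 / (m : ℚ) ^ 4 * (((m : ℚ) - 1) *
          (1 + 2 * (21752 / 1000 / ((m : ℚ) - 2)) ^ 4) ^ (m - 2)) :=
        h1.trans (mul_le_mul_of_nonneg_left h2 (by positivity))
    _ ≤ 512 / (m : ℚ) ^ 4 * (((m : ℚ) - 1) * 13) :=
        mul_le_mul_of_nonneg_left (mul_le_mul_of_nonneg_left h3 (by linarith)) (by positivity)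
    _ ≤ 1 / 20 := by
        have h4 : (60 : ℚ) ^ 3 ≤ (m : ℚ) ^ 3 := pow_le_pow_left₀ (by norm_num) hm' 3
        have h5 : (60 : ℚ) ^ 3 * m ≤ (m : ℚ) ^ 4 := by
          calc (60 : ℚ) ^ 3 * m ≤ (m : ℚ) ^ 3 * m :=
                mul_le_mul_of_nonneg_right h4 (by positivity)
            _ = (m : ℚ) ^ 4 := by ring
        rw [div_mul_eq_mul_div, div_le_div_iff₀ (by positivity) (by norm_num)]
        norm_num at h5
        linarith

end Pool.Agent.H77.TS
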