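import Pool.Agent.H77.TS.Nq

/-!
Upper bounds in natural numbers for the numerical quantities (used by Nq1, Nq2, Nq3).
-/

namespace Pool.Agent.H77.TS

/-- `w * t ^ 5 / c ^ 4` in units of `10 ^ (-6)`, rounded up. -/
def up (w t c : ℕ) : ℕ := 10 ^ 6 * w * t ^ 5 / c ^ 4 + 1

theorem le_up (w t c : ℕ) :
    (w : ℚ) * (t : ℚ) ^ 5 / (c : ℚ) ^ 4 ≤ (up w t c : ℚ) / 10 ^ 6 := by
  rcases Nat.eq_zero_or_pos (c ^ 4) with h | h
  · have h1 : (c : ℚ) ^ 4 = 0 := by exact_mod_cast h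
    rw [h1, div_zero]
    positivity
  · have h3 : (0 : ℚ) < (c : ℚ) ^ 4 := by exact_mod_cast h
    rw [div_le_div_iff₀ h3 (by norm_num)]
    have h1 := Nat.lt_mul_div_succ (10 ^ 6 * w * t ^ 5) h
    have h2 : 10 ^ 6 * w * t ^ 5 ≤ c ^ 4 * up w t c := h1.le
    have h4 : ((10 ^ 6 * w * t ^ 5 : ℕ) : ℚ) ≤ ((c ^ 4 * up w t c : ℕ) : ℚ) := by
      exact_mod_cast h2
    rw [Nat.cast_mul, Nat.cast_mul, Nat.cast_mul] at h4
    push_cast at h4
    linarith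

/-- The primes below 60. -/
def pl : List ℕ := [2, 3, 5, 7, 11, 13, 17, 19, 23, 29, 31, 37, 41, 43, 47, 53, 59]

theorem mem_pl (p : ℕ) (hp : p < 60) : p.Prime ↔ p ∈ pl := by
  unfold pl
  interval_cases p <;> norm_num

/-- The total bound in units of `10 ^ (-6)`. -/
def chk (m : ℕ) (w t : ℕ → ℕ → ℕ) (v o : ℕ) : ℕ :=
  ((pl.filter (· ≤ m)).map (fun p => ((List.range' 1 (m / p)).map
    (fun k => up (w p k) (t p k) (cc m p k))).sum)).sum + up v o m.factorial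

theorem sum_Icc_NqUp (n : ℕ) (f : ℕ → ℕ) :
    ∑ k ∈ Finset.Icc 1 n, f k = ((List.range' 1 n).map f).sum := by
  have h : Finset.Icc 1 n = (List.range' 1 n).toFinset := by
    ext x
    simp only [Finset.mem_Icc, List.mem_toFinset, List.mem_range'_1]
    omega
  rw [h, List.sum_toFinset f List.nodup_range']

theorem filter_NqUp (m : ℕ) (hm : m < 60) :
    (Finset.range (m + 1)).filter Nat.Prime = (pl.filter (· ≤ m)).toFinset := by
  ext p
  simp only [Finset.mem_filter, Finset.mem_range, List.mem_toFinset, List.mem_filter,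
    decide_eq_true_eq]
  constructor
  · rintro ⟨h1, h2⟩
    exact ⟨(mem_pl p (by omega)).1 h2, by omega⟩
  · rintro ⟨h1, h2⟩
    exact ⟨by omega, (mem_pl p (by omega)).2 h1⟩

theorem le_chk (m : ℕ) (hm : m < 60) (w t t' : ℕ → ℕ → ℕ) (v o : ℕ)
    (ht : ∀ p k, p.Prime → p ≤ m → 1 ≤ k → k ≤ m / p → t p k ≤ t' p k) :
    (∑ p ∈ (Finset.range (m + 1)).filter Nat.Prime, ∑ k ∈ Finset.Icc 1 (m / p),
      (w p k : ℚ) * (t p k : ℚ) ^ 5 / (cc m p k : ℚ) ^ 4) +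
      (v : ℚ) * (o : ℚ) ^ 5 / (m.factorial : ℚ) ^ 4 ≤ (chk m w t' v o : ℚ) / 10 ^ 6 := by
  have h1 : (∑ p ∈ (Finset.range (m + 1)).filter Nat.Prime, ∑ k ∈ Finset.Icc 1 (m / p),
      (w p k : ℚ) * (t p k : ℚ) ^ 5 / (cc m p k : ℚ) ^ 4) ≤
      ∑ p ∈ (Finset.range (m + 1)).filter Nat.Prime, ∑ k ∈ Finset.Icc 1 (m / p),
        (up (w p k) (t' p k) (cc m p k) : ℚ) / 10 ^ 6 := by
    apply Finset.sum_le_sum
    intro p hp
    rw [Finset.mem_filter, Finset.mem_range] at hp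
    apply Finset.sum_le_sum
    intro k hk
    rw [Finset.mem_Icc] at hk
    refine le_trans ?_ (le_up _ _ _)
    have h2 : (t p k : ℚ) ≤ (t' p k : ℚ) := by
      exact_mod_cast ht p k hp.2 (by omega) hk.1 hk.2
    gcongr
  have h3 := le_up v o m.factorial
  have h4 : ∑ p ∈ (Finset.range (m + 1)).filter Nat.Prime, ∑ k ∈ Finset.Icc 1 (m / p),
        (up (w p k) (t' p k) (cc m p k) : ℚ) / 10 ^ 6 =
      ((∑ p ∈ (Finset.range (m + 1)).filter Nat.Prime, ∑ k ∈ Finset.Icc 1 (m / p),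
        up (w p k) (t' p k) (cc m p k) : ℕ) : ℚ) / 10 ^ 6 := by
    rw [Nat.cast_sum, Finset.sum_div]
    refine Finset.sum_congr rfl fun p _ => ?_
    rw [Nat.cast_sum, Finset.sum_div]
  have h5 : (∑ p ∈ (Finset.range (m + 1)).filter Nat.Prime, ∑ k ∈ Finset.Icc 1 (m / p),
        up (w p k) (t' p k) (cc m p k) : ℕ) = ((pl.filter (· ≤ m)).map (fun p =>
          ((List.range' 1 (m / p)).map (fun k => up (w p k) (t' p k) (cc m p k))).sum)).sum := by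
    rw [filter_NqUp m hm, List.sum_toFinset _ (List.Nodup.filter _ (by decide))]
    simp only [sum_Icc_NqUp]
  rw [h4, h5] at h1
  unfold chk
  rw [Nat.cast_add, add_div]
  exact add_le_add h1 h3

theorem lt_one_NqUp (m : ℕ) (hm : m < 60) (w t t' : ℕ → ℕ → ℕ) (v o : ℕ)
    (ht : ∀ p k, p.Prime → p ≤ m → 1 ≤ k → k ≤ m / p → t p k ≤ t' p k)
    (hc : chk m w t' v o < 10 ^ 6) :
    (∑ p ∈ (Finset.range (m + 1)).filter Nat.Prime, ∑ k ∈ Finset.Icc 1 (m / p),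
      (w p k : ℚ) * (t p k : ℚ) ^ 5 / (cc m p k : ℚ) ^ 4) +
      (v : ℚ) * (o : ℚ) ^ 5 / (m.factorial : ℚ) ^ 4 < 1 := by
  refine lt_of_le_of_lt (le_chk m hm w t t' v o ht) ?_
  rw [div_lt_one (by norm_num)]
  exact_mod_cast hc

/-- The weight in `WB`. -/
def wB (p k : ℕ) : ℕ := if p ≠ 2 ∧ k = 1 then 32 else 1

theorem WB_lt (m : ℕ) (hm : m < 60) (t t' : ℕ → ℕ → ℕ) (o : ℕ)
    (ht : ∀ p k, p.Prime → p ≤ m → 1 ≤ k → k ≤ m / p → t p k ≤ t' p k)
    (hc : chk m wB t' 64 o < 10 ^ 6) : WB m t o < 1 := by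
  have h := lt_one_NqUp m hm wB t t' 64 o ht hc
  unfold WB
  unfold wB at h
  push_cast at h
  exact h

theorem WS_lt (m : ℕ) (hm : m < 60) (t t' : ℕ → ℕ → ℕ) (o : ℕ)
    (ht : ∀ p k, p.Prime → p ≤ m → 1 ≤ k → k ≤ m / p → t p k ≤ t' p k)
    (hc : chk m (fun _ _ => 1) t' 4 o < 10 ^ 6) : WS m t o < 1 := by
  have h := lt_one_NqUp m hm (fun _ _ => 1) t t' 4 o ht hc
  unfold WS
  push_cast at h
  simpa using h

theorem WA_lt (m : ℕ) (hm : m < 60) (t t' : ℕ → ℕ → ℕ) (o : ℕ)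
    (ht : ∀ p k, p.Prime → p ≤ m → 1 ≤ k → k ≤ m / p → t p k ≤ t' p k)
    (hc : chk m (wt m) t' 64 o < 10 ^ 6) : WA m t o < 1 := by
  have h := lt_one_NqUp m hm (wt m) t t' 64 o ht hc
  unfold WA
  push_cast at h
  exact h

/-- `tc` with factorials in place of binomial coefficients. -/
def tcf (m p k : ℕ) : ℕ := al p ^ k * ((m - 1).factorial / (k.factorial * (m - 1 - k).factorial))

theorem tcf_eq (m p k : ℕ) (hk : k ≤ m - 1) : tc m p k = tcf m p k := by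
  unfold tc tcf
  rw [Nat.choose_eq_factorial_div_factorial hk]

theorem le_NqUp {m p k : ℕ} (hp : p.Prime) (h : p ≤ m) (hk : k ≤ m / p) : k ≤ m - 1 := by
  have h1 : m / p ≤ m / 2 := Nat.div_le_div_left hp.two_le (by norm_num)
  have := hp.two_le
  omega

end Pool.Agent.H77.TS
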