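import Pool.Agent.H77.TS.Nq

/-!
A computable upper bound for `WB`.
-/

namespace Pool.Agent.H77.TS

/-- an upper bound of `10 ^ 6 * WB` with natural numbers -/
def nqc (m : ℕ) (t : ℕ → ℕ → ℕ) (o : ℕ) : ℕ :=
  (∑ p ∈ Finset.Icc 2 m, ∑ k ∈ Finset.Icc 1 (m / p),
    (10 ^ 6 * (if p ≠ 2 ∧ k = 1 then 32 else 1) * t p k ^ 5 / cc m p k ^ 4 + 1)) +
    (10 ^ 6 * 64 * o ^ 5 / m.factorial ^ 4 + 1)

theorem nqc_div (a b : ℕ) : (a : ℚ) / b ≤ ((10 ^ 6 * a / b + 1 : ℕ) : ℚ) / 10 ^ 6 := by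
  rcases Nat.eq_zero_or_pos b with rfl | hb
  · simp only [Nat.cast_zero, div_zero]
    positivity
  · rw [le_div_iff₀ (by positivity), div_mul_eq_mul_div, div_le_iff₀ (by exact_mod_cast hb)]
    have h1 := Nat.lt_div_mul_add hb (a := 10 ^ 6 * a)
    have h2 : 10 ^ 6 * a ≤ (10 ^ 6 * a / b + 1) * b := by
      rw [add_mul, one_mul]
      exact h1.le
    have h3 : ((10 ^ 6 * a : ℕ) : ℚ) ≤ (((10 ^ 6 * a / b + 1) * b : ℕ) : ℚ) := by
      exact_mod_cast h2
    rw [Nat.cast_mul, Nat.cast_mul] at h3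
    have h4 : ((10 ^ 6 : ℕ) : ℚ) = 10 ^ 6 := by norm_num
    rw [h4] at h3
    linarith

theorem nqc_le (m : ℕ) (t : ℕ → ℕ → ℕ) (o : ℕ) (h : nqc m t o < 10 ^ 6) : WB m t o < 1 := by
  have h1 : WB m t o ≤ (nqc m t o : ℚ) / 10 ^ 6 := by
    unfold WB nqc
    rw [Nat.cast_add, add_div]
    apply add_le_add
    · rw [Nat.cast_sum, Finset.sum_div]
      have hsub : (Finset.range (m + 1)).filter Nat.Prime ⊆ Finset.Icc 2 m := by
        intro p hp
        rw [Finset.mem_filter, Finset.mem_range] at hp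
        rw [Finset.mem_Icc]
        exact ⟨hp.2.two_le, by omega⟩
      refine le_trans (Finset.sum_le_sum (fun p _ => ?_))
        (Finset.sum_le_sum_of_subset_of_nonneg hsub (fun p _ _ => by positivity))
      rw [Nat.cast_sum, Finset.sum_div]
      refine Finset.sum_le_sum fun k _ => ?_
      have h2 := nqc_div ((if p ≠ 2 ∧ k = 1 then 32 else 1) * t p k ^ 5) (cc m p k ^ 4)
      have h3 : (((if p ≠ 2 ∧ k = 1 then 32 else 1) * t p k ^ 5 : ℕ) : ℚ) =
          (if p ≠ 2 ∧ k = 1 then 32 else 1 : ℚ) * (t p k : ℚ) ^ 5 := by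
        split_ifs <;> push_cast <;> ring
      rw [h3, ← mul_assoc] at h2
      rw [Nat.cast_pow] at h2
      exact h2
    · have h2 := nqc_div (64 * o ^ 5) (m.factorial ^ 4)
      rw [← mul_assoc] at h2
      push_cast at h2 ⊢
      exact h2
  refine lt_of_le_of_lt h1 ?_
  rw [div_lt_one (by positivity)]
  exact_mod_cast h

/-- the bounds in a form which can be evaluated -/
def tcf (m p k : ℕ) : ℕ := al p ^ k * ((m - 1).descFactorial k / k.factorial)

theorem tc_eq (m : ℕ) : tc m = tcf m := by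
  funext p k
  rw [tc, tcf, Nat.choose_eq_descFactorial_div_factorial]

end Pool.Agent.H77.TS
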