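import Pool.Agent.H77.TS.Base

/-!
[H77 TS SA0] Coefficients of powers of gg (30-45 min).

PROOF. Induction on the finite type ι (or transport to Fin n and induction on n): for n = 0 both
sides are 1 if k = 0 and 0 otherwise. Step: (gg A p) ^ (n+1) = (gg A p) ^ n * gg A p, coeff_mul;
the elements f : Fin (n+1) → Perm De split into (f restricted, f last); an element g with g^p = 1
(p prime) has support of size divisible by p (Equiv.Perm: cycle type consists of p's; e.g. from
Equiv.Perm.card_fixedPoints_modEq or orderOf / cycleType), so |supp g| = p * j for exactly one j,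
and the number of g in A with g^p = 1, |supp g| = p * j is (gg A p).coeff j (coeff_gg).
-/

namespace Pool.Agent.H77.TS

open Equiv Polynomial

theorem dvd_support {De : Type} [Fintype De] [DecidableEq De] {p : ℕ} (hp : p.Prime)
    (g : Perm De) (h : g ^ p = 1) : p ∣ g.support.card := by
  haveI : Fact p.Prime := ⟨hp⟩
  have h1 : g ^ p ^ 1 = 1 := by simpa using h
  have h2 := Equiv.Perm.card_compl_support_modEq h1
  rw [Finset.card_compl] at h2
  have h3 : g.support.card ≤ Fintype.card De := Finset.card_le_univ _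
  have h4 := (Nat.modEq_iff_dvd' (Nat.sub_le _ _)).1 h2
  have h5 : Fintype.card De - (Fintype.card De - g.support.card) = g.support.card := by omega
  rwa [h5] at h4

open Classical in
theorem gg_eq_sum_SA0 {De : Type} [Fintype De] [DecidableEq De] (A : Subgroup (Perm De)) {p : ℕ}
    (hp : p.Prime) :
    gg A p = ∑ g ∈ (Finset.univ.filter (fun g : Perm De => g ∈ A ∧ g ^ p = 1)),
      (X : ℕ[X]) ^ (g.support.card / p) := by
  ext k
  rw [coeff_gg A hp.one_lt.le, finset_sum_coeff]
  simp only [coeff_X_pow]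
  rw [Finset.sum_boole]
  unfold nn
  rw [Nat.card_eq_fintype_card, Fintype.card_subtype, Finset.filter_filter]
  simp only [Nat.cast_id]
  congr 1
  ext g
  simp only [Finset.mem_filter, Finset.mem_univ, true_and]
  constructor
  · rintro ⟨h1, h2, h3⟩
    refine ⟨⟨h1, h2⟩, ?_⟩
    rw [h3, Nat.mul_div_cancel_left _ hp.pos]
  · rintro ⟨⟨h1, h2⟩, h3⟩
    refine ⟨h1, h2, ?_⟩
    rw [h3, Nat.mul_div_cancel' (dvd_support hp g h2)]

theorem sa0 {De : Type} [Fintype De] [DecidableEq De] (A : Subgroup (Perm De)) {p : ℕ}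
    (hp : p.Prime) (ι : Type) [Fintype ι] (k : ℕ) :
    Nat.card {f : ι → Perm De // (∀ i, f i ∈ A ∧ (f i) ^ p = 1) ∧
      ∑ i, (f i).support.card = p * k} = ((gg A p) ^ (Fintype.card ι)).coeff k := by
  classical
  have h1 : (gg A p) ^ (Fintype.card ι) = ∏ _i : ι, gg A p := by
    rw [Finset.prod_const, Finset.card_univ]
  rw [h1, gg_eq_sum_SA0 A hp, Finset.prod_univ_sum, finset_sum_coeff]
  simp only [Finset.prod_pow_eq_pow_sum, coeff_X_pow]
  rw [Finset.sum_boole, Nat.card_eq_fintype_card, Fintype.card_subtype]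
  simp only [Nat.cast_id]
  congr 1
  ext f
  simp only [Finset.mem_filter, Finset.mem_univ, true_and, Fintype.mem_piFinset]
  constructor
  · rintro ⟨h2, h3⟩
    refine ⟨h2, ?_⟩
    have h4 : ∑ i, (f i).support.card = p * ∑ i, ((f i).support.card / p) := by
      rw [Finset.mul_sum]
      exact Finset.sum_congr rfl fun i _ => (Nat.mul_div_cancel' (dvd_support hp _ (h2 i).2)).symm
    rw [h4] at h3
    exact (Nat.eq_of_mul_eq_mul_left hp.pos h3).symm
  · rintro ⟨h2, h3⟩
    refine ⟨h2, ?_⟩
    have h4 : ∑ i, (f i).support.card = p * ∑ i, ((f i).support.card / p) := by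
      rw [Finset.mul_sum]
      exact Finset.sum_congr rfl fun i _ => (Nat.mul_div_cancel' (dvd_support hp _ (h2 i).2)).symm
    rw [h4, h3]

end Pool.Agent.H77.TS
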