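import Pool.Agent.H77.TS.Sa0

/-!
[H77 TS SA1] Elements of a wreath product above one permutation of the blocks (75-100 min).

Let a = |De|, b = |Bl|. PROOF. For π in the set, f is determined by π (De nonempty).
π^m (i, δ) = (σ^m i, f_{σ^(m-1) i} ... f_{σ i} f_i δ). As π^p = 1: for i with σ i = i, (f_i)^p = 1;
for i moved by σ (its σ-orbit has p elements as σ^p = 1, p prime):
f_{σ^(p-1) i} ... f_{σ i} f_i = 1. The support of π is {(i, δ) | σ i ≠ i} union
{(i, δ) | σ i = i, f_i δ ≠ δ}, so p * k = a * p * j + ∑_{σ i = i} |supp f_i|.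
Let T be a set of representatives of the σ-orbits of length p: |T| = j (|supp σ| = p * j). For i in T
f_i is the inverse of f_{σ^(p-1) i} ... f_{σ i}, where σ i, ..., σ^(p-1) i are in supp σ \ T. So π is
determined by (f_i) for σ i = i, and (f_i) for i in supp σ \ T: the number of π is at most
#{(f_i)_{σ i = i} : f_i ∈ A, f_i^p = 1, ∑ |supp f_i| = p k - a p j} * |A|^((p-1) j)
(if p k < a p j the set is empty). By sa0 for ι = {i | σ i = i}, of size b - p j, the first factor is
the coefficient of X^(k - a j) in (gg A p)^(b - p j). And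
(C (|A|^(p-1)) * X^a)^j = C (|A|^((p-1) j)) * X^(a j), so the right hand side is
|A|^((p-1) j) * coeff (k - a j) (k ≥ a j), which is what we need.
-/

namespace Pool.Agent.H77.TS

open Equiv Polynomial

theorem ne_SA1 {Bl : Type} [Fintype Bl] [DecidableEq Bl] {p : ℕ} (hp : p.Prime) (σ : Perm Bl)
    (hσ : σ ^ p = 1) {i : Bl} (hi : σ i ≠ i) {m : ℕ} (h0 : 0 < m) (h : m < p) :
    (σ ^ m) i ≠ i := by
  intro h1
  have h2 : Function.IsPeriodicPt σ m i := by
    unfold Function.IsPeriodicPt Function.IsFixedPt
    rw [Perm.iterate_eq_pow, h1]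
  have h3 : Function.IsPeriodicPt σ p i := by
    unfold Function.IsPeriodicPt Function.IsFixedPt
    rw [Perm.iterate_eq_pow, hσ, Perm.one_apply]
  have h4 := h2.minimalPeriod_dvd
  have h5 := h3.minimalPeriod_dvd
  rcases (Nat.dvd_prime hp).1 h5 with h6 | h6
  · rw [Function.minimalPeriod_eq_one_iff_isFixedPt] at h6
    exact hi h6
  · rw [h6] at h4
    exact absurd (Nat.le_of_dvd h0 h4) (by omega)

theorem reps_SA1 {Bl : Type} [Fintype Bl] [DecidableEq Bl] {p : ℕ} (hp : p.Prime) (σ : Perm Bl)
    (hσ : σ ^ p = 1) (j : ℕ) (hj : σ.support.card = p * j) :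
    ∃ T : Finset Bl, T ⊆ σ.support ∧ T.card = j ∧
      ∀ i ∈ T, ∀ m, 0 < m → m < p → (σ ^ m) i ∉ T := by
  classical
  let r : Bl → Bl := fun i => Quotient.out (Quotient.mk (Perm.SameCycle.setoid σ) i)
  have hr1 : ∀ i, σ.SameCycle (r i) i := fun i =>
    Quotient.exact (s := Perm.SameCycle.setoid σ)
      (Quotient.out_eq (Quotient.mk (Perm.SameCycle.setoid σ) i))
  have hr2 : ∀ i i', σ.SameCycle i i' → r i = r i' := fun i i' h => by
    have : Quotient.mk (Perm.SameCycle.setoid σ) i = Quotient.mk (Perm.SameCycle.setoid σ) i' :=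
      Quotient.sound h
    simp only [r, this]
  have hsc : ∀ (i : Bl) (m : ℕ), σ.SameCycle i ((σ ^ m) i) := fun i m => ⟨m, by simp⟩
  refine ⟨σ.support.filter (fun i => r i = i), Finset.filter_subset _ _, ?_, ?_⟩
  · have h1 : ((σ.support.filter (fun i => r i = i)) ×ˢ Finset.range p).card =
        σ.support.card := by
      apply Finset.card_bij (fun x _ => (σ ^ x.2) x.1)
      · rintro ⟨i, m⟩ h
        rw [Finset.mem_product, Finset.mem_filter] at h
        exact (Perm.pow_apply_mem_support).2 h.1.1
      · rintro ⟨i, m⟩ h ⟨i', m'⟩ h' he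
        rw [Finset.mem_product, Finset.mem_filter, Finset.mem_range] at h h'
        simp only at h h' he
        have h2 : i = i' := by
          rw [← h.1.2, ← h'.1.2]
          apply hr2
          exact ((hsc i m).trans (by rw [he])).trans (hsc i' m').symm
        subst h2
        have hi : σ i ≠ i := Perm.mem_support.1 h.1.1
        have key : ∀ a b : ℕ, a < p → b < p → (σ ^ a) i = (σ ^ b) i → ¬ a < b := by
          intro a b ha hb hab hlt
          apply ne_SA1 hp σ hσ hi (m := b - a) (by omega) (by omega)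
          have h3 : σ ^ b = σ ^ a * σ ^ (b - a) := by
            rw [← pow_add]
            congr 1
            omega
          rw [h3, Perm.mul_apply] at hab
          exact ((σ ^ a).injective hab).symm
        have h4 : m = m' := by
          have := key m m' h.2 h'.2 he
          have := key m' m h'.2 h.2 he.symm
          omega
        rw [h4]
      · intro i hi
        obtain ⟨m, hm⟩ := hr1 i
        refine ⟨(r i, (m % p).toNat), ?_, ?_⟩
        · rw [Finset.mem_product, Finset.mem_filter, Finset.mem_range]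
          refine ⟨⟨?_, hr2 _ _ (hr1 i)⟩, ?_⟩
          · rw [Perm.mem_support] at hi ⊢
            intro h
            apply hi
            rw [← hm]
            exact (Perm.zpow_apply_eq_self_of_apply_eq_self h m).symm ▸ h
          · have := Int.emod_lt_of_pos m (by exact_mod_cast hp.pos : (0 : ℤ) < p)
            have := Int.emod_nonneg m (by exact_mod_cast hp.pos.ne' : (p : ℤ) ≠ 0)
            simp only
            omega
        · have h5 : (σ ^ (m % p).toNat) = σ ^ m := by
            have h6 : ((m % (p : ℤ)).toNat : ℤ) = m % p := Int.toNat_of_nonneg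
              (Int.emod_nonneg m (by exact_mod_cast hp.pos.ne' : (p : ℤ) ≠ 0))
            rw [← zpow_natCast, h6]
            conv_rhs => rw [← Int.mul_ediv_add_emod m p]
            rw [zpow_add, zpow_mul, zpow_natCast, hσ, one_zpow, one_mul]
          simp only [h5, hm]
    rw [Finset.card_product, Finset.card_range, hj, mul_comm] at h1
    exact Nat.eq_of_mul_eq_mul_left hp.pos h1
  · intro i hi m h0 hm hmem
    rw [Finset.mem_filter] at hi hmem
    apply ne_SA1 hp σ hσ (Perm.mem_support.1 hi.1) h0 hm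
    rw [← hmem.2, ← hr2 _ _ (hsc i m), hi.2]

theorem supp_SA1 {Bl De : Type} [Fintype Bl] [DecidableEq Bl] [Fintype De] [DecidableEq De]
    (σ : Perm Bl) (f : Bl → Perm De) (π : Perm (Bl × De))
    (h : ∀ i δ, π (i, δ) = (σ i, f i δ)) :
    π.support.card =
      Fintype.card De * σ.support.card + ∑ i : {i // σ i = i}, (f i).support.card := by
  classical
  have h1 : π.support.card = ∑ x : Bl × De, if π x ≠ x then 1 else 0 := by
    rw [Finset.sum_boole]
    simp only [Perm.support, Nat.cast_id]
  have h2 : ∀ i, ∑ δ, (if π (i, δ) ≠ (i, δ) then 1 else 0) =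
      if σ i = i then (f i).support.card else Fintype.card De := by
    intro i
    by_cases hi : σ i = i
    · rw [if_pos hi, Finset.sum_boole]
      simp only [Perm.support, Nat.cast_id]
      congr 1
      ext δ
      simp [h, hi]
    · rw [if_neg hi, Finset.sum_boole]
      simp only [Nat.cast_id]
      rw [Finset.filter_true_of_mem]
      · rfl
      · intro δ _ h3
        rw [h] at h3
        exact hi (Prod.mk.inj h3).1
  rw [h1, Fintype.sum_prod_type]
  simp_rw [h2]
  rw [← Fintype.sum_subtype_add_sum_subtype (fun i => σ i = i)]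
  have h3 : ∀ i : {i // σ i = i}, (if σ i = i then (f i).support.card else Fintype.card De) =
      (f i).support.card := fun i => if_pos i.2
  have h4 : ∀ i : {i // ¬ σ i = i}, (if σ i = i then (f i).support.card else Fintype.card De) =
      Fintype.card De := fun i => if_neg i.2
  simp_rw [h3, h4]
  rw [Finset.sum_const, Finset.card_univ, smul_eq_mul, Fintype.card_subtype, add_comm, mul_comm]
  rfl

/-- The product along the orbit. -/
def FF_SA1 {Bl De : Type} (σ : Perm Bl) (f : Bl → Perm De) : ℕ → Bl → Perm De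
  | 0, _ => 1
  | m + 1, i => FF_SA1 σ f m (σ i) * f i

theorem pow_SA1 {Bl De : Type} (σ : Perm Bl) (f : Bl → Perm De) (π : Perm (Bl × De))
    (h : ∀ i δ, π (i, δ) = (σ i, f i δ)) (m : ℕ) : ∀ (i : Bl) (δ : De),
    (π ^ m) (i, δ) = ((σ ^ m) i, FF_SA1 σ f m i δ) := by
  induction m with
  | zero => intro i δ; simp [FF_SA1]
  | succ m ih =>
    intro i δ
    rw [pow_succ, Perm.mul_apply, h, ih, pow_succ, Perm.mul_apply]
    rfl

theorem FF_congr_SA1 {Bl De : Type} (σ : Perm Bl) (f f' : Bl → Perm De) (m : ℕ) :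
    ∀ (i : Bl), (∀ t < m, f ((σ ^ t) i) = f' ((σ ^ t) i)) → FF_SA1 σ f m i = FF_SA1 σ f' m i := by
  induction m with
  | zero => intro i _; rfl
  | succ m ih =>
    intro i h
    have h1 : f i = f' i := by simpa using h 0 (by omega)
    have h2 := ih (σ i) (fun t ht => by
      have := h (t + 1) (by omega)
      rwa [pow_succ, Perm.mul_apply] at this)
    simp only [FF_SA1]
    rw [h1, h2]

theorem FF_fix_SA1 {Bl De : Type} (σ : Perm Bl) (f : Bl → Perm De) (i : Bl) (hi : σ i = i)
    (m : ℕ) : FF_SA1 σ f m i = (f i) ^ m := by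
  induction m with
  | zero => rfl
  | succ m ih =>
    simp only [FF_SA1]
    rw [hi, ih, pow_succ]

theorem FF_one_SA1 {Bl De : Type} (σ : Perm Bl) (f : Bl → Perm De) (π : Perm (Bl × De))
    (h : ∀ i δ, π (i, δ) = (σ i, f i δ)) (p : ℕ) (hπ : π ^ p = 1) (i : Bl) :
    FF_SA1 σ f p i = 1 := by
  ext δ
  have := pow_SA1 σ f π h p i δ
  rw [hπ, Perm.one_apply] at this
  rw [← (Prod.mk.inj this).2, Perm.one_apply]

theorem sa1 {Bl De : Type} [Fintype Bl] [DecidableEq Bl] [Fintype De] [DecidableEq De]
    [Nonempty De] (A : Subgroup (Perm De)) {p : ℕ} (hp : p.Prime) (σ : Perm Bl)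
    (hσ : σ ^ p = 1) (j : ℕ) (hj : σ.support.card = p * j) (k : ℕ) :
    Nat.card {π : Perm (Bl × De) // (∃ f : Bl → Perm De, (∀ i, f i ∈ A) ∧
        ∀ i δ, π (i, δ) = (σ i, f i δ)) ∧ π ^ p = 1 ∧ π.support.card = p * k} ≤
      ((gg A p) ^ (Fintype.card Bl - p * j) *
        (C (Nat.card A ^ (p - 1)) * X ^ (Fintype.card De)) ^ j).coeff k := by
  classical
  obtain ⟨T, hT1, hT2, hT3⟩ := reps_SA1 hp σ hσ j hj
  have hR : ((gg A p) ^ (Fintype.card Bl - p * j) *
        (C (Nat.card A ^ (p - 1)) * X ^ (Fintype.card De)) ^ j).coeff k =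
      if Fintype.card De * j ≤ k then
        ((gg A p) ^ (Fintype.card Bl - p * j)).coeff (k - Fintype.card De * j) *
          (Nat.card A) ^ ((p - 1) * j) else 0 := by
    rw [mul_pow, ← C_pow, ← pow_mul, ← pow_mul, ← mul_assoc, coeff_mul_X_pow']
    split_ifs
    · rw [coeff_mul_C]
    · rfl
  rw [hR]
  by_cases hk : Fintype.card De * j ≤ k
  · rw [if_pos hk]
    have hfx : Fintype.card {i // σ i = i} = Fintype.card Bl - p * j := by
      have h1 := Fintype.card_subtype_compl (fun i => σ i = i)
      have h2 : Fintype.card {i // ¬ σ i = i} = p * j := by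
        rw [Fintype.card_subtype, ← hj]
        rfl
      have h3 := Fintype.card_subtype_le (fun i => σ i = i)
      omega
    rw [← hfx, ← sa0 A hp {i // σ i = i} (k - Fintype.card De * j)]
    have hcA : (Nat.card A) ^ ((p - 1) * j) = Nat.card ({i // i ∈ σ.support \ T} → A) := by
      rw [Nat.card_fun]
      congr 1
      rw [Nat.card_eq_fintype_card, Fintype.card_coe, Finset.card_sdiff_of_subset hT1, hj, hT2,
        Nat.sub_mul, one_mul]
    rw [hcA, ← Nat.card_prod]
    choose F hF1 hF2 using fun x : {π : Perm (Bl × De) // (∃ f : Bl → Perm De, (∀ i, f i ∈ A) ∧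
        ∀ i δ, π (i, δ) = (σ i, f i δ)) ∧ π ^ p = 1 ∧ π.support.card = p * k} => x.2.1
    refine Nat.card_le_card_of_injective (fun x => (⟨fun i => F x i.1, fun i => ⟨hF1 x i, ?_⟩, ?_⟩,
      fun i => ⟨F x i.1, hF1 x i.1⟩)) ?_
    · rw [← FF_fix_SA1 σ (F x) i.1 i.2 p]
      exact FF_one_SA1 σ (F x) x.1 (hF2 x) p x.2.2.1 i.1
    · have h1 := supp_SA1 σ (F x) x.1 (hF2 x)
      rw [x.2.2.2, hj] at h1
      rw [Nat.mul_sub]
      have h2 : Fintype.card De * (p * j) = p * (Fintype.card De * j) := by ring
      rw [h2] at h1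
      simp only
      omega
    · intro x y hxy
      have h1 := congrArg Prod.fst hxy
      have h2 := congrArg Prod.snd hxy
      simp only [Subtype.mk.injEq] at h1 h2
      have hfix : ∀ i, σ i = i → F x i = F y i := fun i hi => congrFun h1 ⟨i, hi⟩
      have hmv : ∀ i, i ∈ σ.support → i ∉ T → F x i = F y i := fun i hi hiT => by
        have := congrFun h2 ⟨i, Finset.mem_sdiff.2 ⟨hi, hiT⟩⟩
        simpa using this
      have hT : ∀ i ∈ T, F x i = F y i := fun i hi => by
        have hx := FF_one_SA1 σ (F x) x.1 (hF2 x) p x.2.2.1 i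
        have hy := FF_one_SA1 σ (F y) y.1 (hF2 y) p y.2.2.1 i
        have hp1 : p = (p - 1) + 1 := by have := hp.pos; omega
        rw [hp1] at hx hy
        simp only [FF_SA1] at hx hy
        have h3 : FF_SA1 σ (F x) (p - 1) (σ i) = FF_SA1 σ (F y) (p - 1) (σ i) := by
          apply FF_congr_SA1
          intro t ht
          have h4 : (σ ^ t) (σ i) = (σ ^ (t + 1)) i := by
            rw [pow_succ, Perm.mul_apply]
          rw [h4]
          exact hmv _ (Perm.pow_apply_mem_support.2 (hT1 hi)) (hT3 i hi (t + 1) (by omega)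
            (by omega))
        rw [h3] at hx
        exact mul_left_cancel (hx.trans hy.symm)
      have hall : ∀ i, F x i = F y i := fun i => by
        by_cases hi : σ i = i
        · exact hfix i hi
        · by_cases hiT : i ∈ T
          · exact hT i hiT
          · exact hmv i (Perm.mem_support.2 hi) hiT
      apply Subtype.ext
      ext1 ⟨i, δ⟩
      rw [hF2 x, hF2 y, hall i]
  · rw [if_neg hk, Nat.le_zero, Nat.card_eq_zero]
    left
    constructor
    rintro ⟨π, ⟨f, hf1, hf2⟩, hπ, hs⟩
    have h1 := supp_SA1 σ f π hf2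
    rw [hs, hj] at h1
    apply hk
    have h2 : p * (Fintype.card De * j) ≤ p * k := by
      have : Fintype.card De * (p * j) = p * (Fintype.card De * j) := by ring
      omega
    exact Nat.le_of_mul_le_mul_left h2 hp.pos

end Pool.Agent.H77.TS
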