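import Pool.Agent.H77.TS.Sa1

/-!
[H77 TS SA2] The wreath product inequality (45-60 min).

PROOF. First part: let k be given. The elements g of K with g^p = 1 and |supp g| = p k are mapped
injectively by e.permCongr to π in wr A B with π^p = 1, |supp π| = p k. For π in wr A B the
permutation σ of Bl is determined (De nonempty), σ ∈ B, σ^p = 1 (first components of π^p = 1), so
|supp σ| = p j with j ≤ |Bl| / p (dvd_support). So the number is at most the sum over j in
range (|Bl| / p + 1) of the sum over the nn B p j elements σ of B with σ^p = 1, |supp σ| = p j of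
the numbers of sa1; this is the coefficient of X^k in wp A B p. (For the coefficient of gg K p use
coeff_gg.)
Second part: wr A B has at most |A|^|Bl| * |B| elements: π is determined by (σ, f).
-/

namespace Pool.Agent.H77.TS

open Equiv Polynomial

theorem card_support_SA2 {α β : Type} [Fintype α] [DecidableEq α] [Fintype β] [DecidableEq β]
    (e : α ≃ β) (g : Perm α) : (e.permCongr g).support.card = g.support.card := by
  have h : (e.permCongr g).support = g.support.map e.toEmbedding := by
    ext x
    simp only [Perm.mem_support, Finset.mem_map_equiv, Equiv.permCongr_apply]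
    rw [not_iff_not]
    constructor
    · intro h
      rw [Equiv.eq_symm_apply]
      exact h
    · intro h
      rw [h]
      simp
  rw [h, Finset.card_map]

theorem pow_congr_SA2 {α β : Type} (e : α ≃ β) (g : Perm α) (n : ℕ) :
    (e.permCongr g) ^ n = e.permCongr (g ^ n) := by
  have := map_pow e.permCongrHom g n
  exact this.symm

theorem sa2 {Ω Bl De : Type} [Fintype Ω] [DecidableEq Ω] [Fintype Bl] [DecidableEq Bl]
    [Fintype De] [DecidableEq De] [Nonempty De] (K : Subgroup (Perm Ω)) (e : Ω ≃ Bl × De)
    (A : Subgroup (Perm De)) (B : Subgroup (Perm Bl))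
    (h : ∀ g ∈ K, e.permCongr g ∈ wr A B) :
    (∀ p : ℕ, p.Prime → Le (gg K p) (wp A B p)) ∧
      Nat.card K ≤ Nat.card A ^ (Fintype.card Bl) * Nat.card B := by
  classical
  choose sg hsg F hF1 hF2 using h
  constructor
  · intro p hp k
    rw [coeff_gg K hp.one_lt.le]
    unfold wp
    rw [finset_sum_coeff]
    simp only [coeff_C_mul]
    let c : ℕ → ℕ := fun j => ((gg A p) ^ (Fintype.card Bl - p * j) *
      (C (Nat.card A ^ (p - 1)) * X ^ (Fintype.card De)) ^ j).coeff k
    let S : Finset (Perm Bl) := Finset.univ.filter (fun σ => σ ∈ B ∧ σ ^ p = 1)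
    have hS : ∀ σ ∈ S, σ ^ p = 1 := fun σ hσ => (Finset.mem_filter.1 hσ).2.2
    let Fib : S → Type := fun σ => {π : Perm (Bl × De) // (∃ f : Bl → Perm De, (∀ i, f i ∈ A) ∧
        ∀ i δ, π (i, δ) = (σ.1 i, f i δ)) ∧ π ^ p = 1 ∧ π.support.card = p * k}
    have hfin : ∀ σ, Finite (Fib σ) := fun σ => by
      simp only [Fib]
      infer_instance
    have h1 : nn K p k ≤ Nat.card (Σ σ : S, Fib σ) := by
      unfold nn
      have hsp : ∀ x : {g : Perm Ω // g ∈ K ∧ g ^ p = 1 ∧ g.support.card = p * k},
          (e.permCongr x.1) ^ p = 1 := fun x => by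
        rw [pow_congr_SA2, x.2.2.1]
        ext1 y
        simp
      refine Nat.card_le_card_of_injective (fun x => (⟨⟨sg x.1 x.2.1, ?_⟩,
        ⟨e.permCongr x.1, ⟨F x.1 x.2.1, hF1 x.1 x.2.1, ?_⟩, hsp x, ?_⟩⟩ : Σ σ : S, Fib σ)) ?_
      · rw [Finset.mem_filter]
        refine ⟨Finset.mem_univ _, hsg x.1 x.2.1, ?_⟩
        ext i
        obtain ⟨δ⟩ := (inferInstance : Nonempty De)
        have h2 := pow_SA1 (sg x.1 x.2.1) (F x.1 x.2.1) _ (hF2 x.1 x.2.1) p i δ
        rw [hsp x, Perm.one_apply] at h2
        rw [← (Prod.mk.inj h2).1, Perm.one_apply]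
      · exact hF2 x.1 x.2.1
      · rw [card_support_SA2]
        exact x.2.2.2
      · intro x y hxy
        have h2 : e.permCongr x.1 = e.permCongr y.1 :=
          congrArg (fun z : Σ σ : S, Fib σ => z.2.1) hxy
        exact Subtype.ext (e.permCongr.injective h2)
    refine h1.trans ?_
    rw [Nat.card_sigma]
    have h3 : ∑ σ : S, Nat.card (Fib σ) ≤ ∑ σ : S, c (σ.1.support.card / p) := by
      apply Finset.sum_le_sum
      intro σ _
      apply sa1 A hp σ.1 (hS σ.1 σ.2) (σ.1.support.card / p)
      rw [Nat.mul_div_cancel' (dvd_support hp σ.1 (hS σ.1 σ.2))]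
    refine h3.trans ?_
    rw [Finset.sum_coe_sort S (fun σ => c (σ.support.card / p))]
    rw [← Finset.sum_fiberwise_of_maps_to (s := S) (t := Finset.range (Fintype.card Bl / p + 1))
      (g := fun σ => σ.support.card / p)]
    · apply Finset.sum_le_sum
      intro j _
      have h4 : ∀ σ ∈ S.filter (fun σ => σ.support.card / p = j), c (σ.support.card / p) = c j := by
        intro σ hσ
        rw [(Finset.mem_filter.1 hσ).2]
      rw [Finset.sum_congr rfl h4, Finset.sum_const, smul_eq_mul]
      have h5 : (S.filter (fun σ => σ.support.card / p = j)).card = nn B p j := by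
        unfold nn
        rw [Nat.card_eq_fintype_card, Fintype.card_subtype]
        congr 1
        ext σ
        simp only [S, Finset.mem_filter, Finset.mem_univ, true_and]
        constructor
        · rintro ⟨⟨h6, h7⟩, h8⟩
          refine ⟨h6, h7, ?_⟩
          rw [← h8, Nat.mul_div_cancel' (dvd_support hp σ h7)]
        · rintro ⟨h6, h7, h8⟩
          refine ⟨⟨h6, h7⟩, ?_⟩
          rw [h8, Nat.mul_div_cancel_left _ hp.pos]
      rw [h5]
    · intro σ _
      rw [Finset.mem_range, Nat.lt_succ_iff]
      exact Nat.div_le_div_right (Finset.card_le_univ _)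
  · have h1 : Nat.card A ^ (Fintype.card Bl) * Nat.card B = Nat.card ((Bl → A) × B) := by
      rw [Nat.card_prod, Nat.card_fun, Nat.card_eq_fintype_card (α := Bl)]
    rw [h1]
    refine Nat.card_le_card_of_injective (fun x : K => ((fun i => ⟨F x.1 x.2 i, hF1 x.1 x.2 i⟩,
      ⟨sg x.1 x.2, hsg x.1 x.2⟩) : (Bl → A) × B)) ?_
    intro x y hxy
    have h2 := congrArg Prod.fst hxy
    have h3 := congrArg Prod.snd hxy
    simp only [Subtype.mk.injEq] at h2 h3
    have h4 : ∀ i, F x.1 x.2 i = F y.1 y.2 i := fun i => by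
      have := congrFun h2 i
      simpa using this
    apply Subtype.ext
    apply e.permCongr.injective
    ext1 ⟨i, δ⟩
    rw [hF2 x.1 x.2, hF2 y.1 y.2, h4 i, h3]

end Pool.Agent.H77.TS
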