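import Pool.Agent.H77.TS.Base

/-!
[H77 TS SB] The embedding into a wreath product (60-90 min).

PROOF. K is transitive on Ω and not preprimitive, |Ω| ≥ 2: there is a block Δ of K on Ω which is
not trivial (MulAction.IsPreprimitive: all blocks trivial): 2 ≤ |Δ| < |Ω|, and it may be chosen
nonempty. The translates g • Δ (g ∈ K) form a partition of Ω into blocks (IsBlock lemmas); let Bl
be the set of the translates (a finite type), De = ↥Δ. |Ω| = |De| * |Bl|, |De| ≥ 2, |Bl| ≥ 2.
For every translate i choose t i ∈ K with t i • Δ = i. e : Ω ≃ Bl × De, ω ↦ (i, (t i)⁻¹ ω) where i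
is the translate containing ω. B = the image of K in Perm Bl (g ↦ (i ↦ g • i)), A = the image of
the stabiliser of Δ in K in Perm ↥Δ. Both are homomorphic images of subgroups of K, so soluble.
For g in K: e (g ω) = (g i, (t (g i))⁻¹ g ω) and with ω = t i δ: δ ↦ (t (g i))⁻¹ g (t i) δ is the
action on Δ of an element of the stabiliser of Δ. So e.permCongr g ∈ wr A B.
(Variant without sets of sets: work with coset spaces K ⧸ Q, Q = the stabiliser of the block.)
-/

namespace Pool.Agent.H77.TS

open Equiv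

open scoped Pointwise in
theorem mem_iff_SB {Ω : Type} (K : Subgroup (Perm Ω)) (D : Set Ω)
    (q : MulAction.stabilizer K D) (x : Ω) : (q.1.1 x ∈ D) ↔ x ∈ D := by
  have h1 : q.1 • D = D := q.2
  have h2 : (q.1 • x ∈ q.1 • D) ↔ x ∈ D := Set.smul_mem_smul_set_iff
  rw [h1] at h2
  exact h2

open scoped Pointwise in
/-- The action of the stabiliser of a set on the set. -/
def phi_SB {Ω : Type} (K : Subgroup (Perm Ω)) (D : Set Ω) :
    MulAction.stabilizer K D →* Perm D where
  toFun q := q.1.1.subtypePerm (fun x => mem_iff_SB K D q x)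
  map_one' := by
    ext x
    rfl
  map_mul' a b := by
    ext x
    rfl

open scoped Pointwise in
theorem sb {Ω : Type} [Fintype Ω] [DecidableEq Ω] (K : Subgroup (Perm Ω))
    (hK : Group.IsSolvable K) (h2 : 2 ≤ Fintype.card Ω) (ht : MulAction.IsPretransitive K Ω)
    (hp : ¬ MulAction.IsPreprimitive K Ω) :
    ∃ (a b : ℕ) (De Bl : Type) (_ : Fintype De) (_ : DecidableEq De) (_ : Fintype Bl)
      (_ : DecidableEq Bl) (A : Subgroup (Perm De)) (B : Subgroup (Perm Bl)) (e : Ω ≃ Bl × De),
      2 ≤ a ∧ 2 ≤ b ∧ a * b = Fintype.card Ω ∧ Fintype.card De = a ∧ Fintype.card Bl = b ∧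
      Group.IsSolvable A ∧ Group.IsSolvable B ∧ ∀ g ∈ K, e.permCongr g ∈ wr A B := by
  classical
  obtain ⟨D, hD, hD1, hD2⟩ : ∃ D : Set Ω, MulAction.IsBlock K D ∧ ¬ D.Subsingleton ∧
      D ≠ Set.univ := by
    by_contra hcon
    push Not at hcon
    apply hp
    have := ht
    exact { isTrivialBlock_of_isBlock := fun {B} hB => by
              by_cases hs : B.Subsingleton
              · exact Or.inl hs
              · exact Or.inr (hcon B hB (Set.not_subsingleton_iff.1 hs)) }
  rw [Set.not_subsingleton_iff] at hD1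
  obtain ⟨x0, hx0⟩ := hD1.nonempty
  have ht' : ∀ i : MulAction.orbit K D, ∃ g : K, g • D = i.1 := fun i => i.2
  choose t htD using ht'
  let inv : (MulAction.orbit K D) × D → Ω := fun x => (t x.1 : K) • (x.2 : Ω)
  have hcov : ∀ y : Ω, ∃ i : MulAction.orbit K D, y ∈ i.1 := by
    intro y
    obtain ⟨g, hg⟩ := ht.exists_smul_eq x0 y
    exact ⟨⟨g • D, ⟨g, rfl⟩⟩, by rw [← hg]; exact Set.smul_mem_smul_set hx0⟩
  have hbij : Function.Bijective inv := by
    constructor
    · rintro ⟨i, δ⟩ ⟨i', δ'⟩ h
      simp only [inv] at h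
      have h3 : t i • (δ : Ω) ∈ t i • D := Set.smul_mem_smul_set δ.2
      have h4 : t i • (δ : Ω) ∈ t i' • D := by
        rw [h]
        exact Set.smul_mem_smul_set δ'.2
      have h5 : t i • D = t i' • D := by
        by_contra hne
        exact Set.disjoint_left.1 (hD hne) h3 h4
      have h6 : i = i' := by
        apply Subtype.ext
        rw [← htD i, ← htD i', h5]
      subst h6
      have h7 : (δ : Ω) = δ' := by
        exact smul_left_cancel _ h
      rw [Subtype.ext h7]
    · intro y
      obtain ⟨i, hi⟩ := hcov y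
      rw [← htD i] at hi
      obtain ⟨δ, hδ, hy⟩ := hi
      exact ⟨(i, ⟨δ, hδ⟩), hy⟩
  have hfin : Finite (MulAction.orbit K D) := Set.toFinite _
  have : Fintype (MulAction.orbit K D) := Fintype.ofFinite _
  have : Fintype D := Fintype.ofFinite _
  have hsA : Group.IsSolvable (phi_SB K D).range :=
    Group.isSolvable_of_surjective (phi_SB K D).rangeRestrict_surjective
  have hsB : Group.IsSolvable (MulAction.toPermHom K (MulAction.orbit K D)).range :=
    Group.isSolvable_of_surjective
      (MulAction.toPermHom K (MulAction.orbit K D)).rangeRestrict_surjective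
  refine ⟨Fintype.card D, Fintype.card (MulAction.orbit K D), D, MulAction.orbit K D,
    inferInstance, inferInstance, inferInstance, inferInstance, (phi_SB K D).range,
    (MulAction.toPermHom K (MulAction.orbit K D)).range, (Equiv.ofBijective inv hbij).symm,
    ?_, ?_, ?_, rfl, rfl, hsA, hsB, ?_⟩
  · have : Nontrivial D := Set.nontrivial_coe_sort.2 hD1
    exact Fintype.one_lt_card
  · obtain ⟨y, hy⟩ := (Set.ne_univ_iff_exists_notMem D).1 hD2
    obtain ⟨i, hi⟩ := hcov y
    have : Nontrivial (MulAction.orbit K D) := by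
      refine ⟨i, ⟨D, MulAction.mem_orbit_self D⟩, ?_⟩
      intro h
      apply hy
      rw [h] at hi
      exact hi
    exact Fintype.one_lt_card
  · rw [Fintype.card_congr (Equiv.ofBijective inv hbij).symm, Fintype.card_prod, mul_comm]
  · intro g hg
    have hst : ∀ i : MulAction.orbit K D, (t ((⟨g, hg⟩ : K) • i))⁻¹ * (⟨g, hg⟩ : K) * t i ∈
        MulAction.stabilizer K D := by
      intro i
      rw [MulAction.mem_stabilizer_iff, mul_smul, mul_smul, htD i, inv_smul_eq_iff, htD]
      rfl
    refine ⟨MulAction.toPermHom K (MulAction.orbit K D) ⟨g, hg⟩, ⟨⟨g, hg⟩, rfl⟩,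
      fun i => phi_SB K D ⟨_, hst i⟩, fun i => ⟨_, rfl⟩, ?_⟩
    intro i δ
    rw [Equiv.permCongr_apply, Equiv.symm_symm, Equiv.symm_apply_eq]
    simp only [Equiv.ofBijective_apply, inv, MulAction.toPermHom_apply, MulAction.toPerm_apply]
    have h8 : ((phi_SB K D ⟨_, hst i⟩ δ : D) : Ω) =
        ((t ((⟨g, hg⟩ : K) • i))⁻¹ * (⟨g, hg⟩ : K) * t i) • (δ : Ω) := rfl
    rw [h8, ← mul_smul, ← mul_assoc, ← mul_assoc, mul_inv_cancel, one_mul, mul_smul]
    rfl

end Pool.Agent.H77.TS
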