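import Pool.Agent.H77.TS.Sa0

/-!
[H77 TS SC] Intransitive groups (60-75 min).

PROOF. K is not transitive on Ω (|Ω| ≥ 2): let S be the orbit of some ω; S and its complement are
nonempty and K-invariant. Ω₁ = ↥S, Ω₂ = ↥Sᶜ (subtypes), K₁, K₂ = the images of K in Perm Ω₁,
Perm Ω₂ (restriction: Equiv.Perm.subtypePerm); homomorphic images of K, so soluble. The map
g ↦ (g restricted to S, g restricted to Sᶜ) is injective, so |K| ≤ |K₁| |K₂|. For g^p = 1 both
restrictions g₁, g₂ satisfy it, and |supp g| = |supp g₁| + |supp g₂|, and these are divisible by p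
(the cycles of an element with g^p = 1, p prime, have length 1 or p). So
nn K p k ≤ ∑_{j ≤ k} nn K₁ p j * nn K₂ p (k - j), which is the coefficient of X^k in
gg K₁ p * gg K₂ p (coeff_mul, Finset.antidiagonal, coeff_gg).
-/

namespace Pool.Agent.H77.TS

open Equiv Polynomial

/-- Restriction of the elements of a group to an invariant subset. -/
def phi_SC {Ω : Type} (K : Subgroup (Perm Ω)) (P : Ω → Prop)
    (hP : ∀ g : K, ∀ x, P (g.1 x) ↔ P x) : K →* Perm {x // P x} where
  toFun g := g.1.subtypePerm (fun x => hP g x)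
  map_one' := by
    ext x
    rfl
  map_mul' a b := by
    ext x
    rfl

theorem phi_apply_SC {Ω : Type} (K : Subgroup (Perm Ω)) (P : Ω → Prop)
    (hP : ∀ g : K, ∀ x, P (g.1 x) ↔ P x) (g : K) (x : {x // P x}) :
    (phi_SC K P hP g x).1 = g.1 x.1 := rfl

theorem supp_SC {Ω : Type} [Fintype Ω] [DecidableEq Ω] (K : Subgroup (Perm Ω)) (P : Ω → Prop)
    [DecidablePred P] (hP : ∀ g : K, ∀ x, P (g.1 x) ↔ P x)
    (hP' : ∀ g : K, ∀ x, ¬ P (g.1 x) ↔ ¬ P x) (g : K) :
    g.1.support.card = (phi_SC K P hP g).support.card +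
      (phi_SC K (fun x => ¬ P x) hP' g).support.card := by
  have h1 : g.1.support.card = ∑ x : Ω, if g.1 x ≠ x then 1 else 0 := by
    rw [Finset.sum_boole]
    simp only [Perm.support, Nat.cast_id]
  have h2 : (phi_SC K P hP g).support.card =
      ∑ x : {x // P x}, if g.1 x.1 ≠ x.1 then 1 else 0 := by
    rw [Finset.sum_boole]
    simp only [Perm.support, Nat.cast_id]
    congr 1
    ext x
    simp only [Finset.mem_filter, Finset.mem_univ, true_and, ne_eq]
    rw [← phi_apply_SC K P hP g x, Subtype.ext_iff]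
  have h3 : (phi_SC K (fun x => ¬ P x) hP' g).support.card =
      ∑ x : {x // ¬ P x}, if g.1 x.1 ≠ x.1 then 1 else 0 := by
    rw [Finset.sum_boole]
    simp only [Perm.support, Nat.cast_id]
    congr 1
    ext x
    simp only [Finset.mem_filter, Finset.mem_univ, true_and, ne_eq]
    rw [← phi_apply_SC K (fun x => ¬ P x) hP' g x, Subtype.ext_iff]
  rw [h1, h2, h3]
  exact (Fintype.sum_subtype_add_sum_subtype P (fun x => if g.1 x ≠ x then 1 else 0)).symm

theorem sc {Ω : Type} [Fintype Ω] [DecidableEq Ω] (K : Subgroup (Perm Ω))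
    (hK : Group.IsSolvable K) (h2 : 2 ≤ Fintype.card Ω)
    (ht : ¬ MulAction.IsPretransitive K Ω) :
    ∃ (a b : ℕ) (Ω₁ Ω₂ : Type) (_ : Fintype Ω₁) (_ : DecidableEq Ω₁) (_ : Fintype Ω₂)
      (_ : DecidableEq Ω₂) (K₁ : Subgroup (Perm Ω₁)) (K₂ : Subgroup (Perm Ω₂)),
      1 ≤ a ∧ 1 ≤ b ∧ a + b = Fintype.card Ω ∧ Fintype.card Ω₁ = a ∧ Fintype.card Ω₂ = b ∧
      Group.IsSolvable K₁ ∧ Group.IsSolvable K₂ ∧ Nat.card K ≤ Nat.card K₁ * Nat.card K₂ ∧
      ∀ p : ℕ, p.Prime → Le (gg K p) (gg K₁ p * gg K₂ p) := by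
  classical
  obtain ⟨ω, hω⟩ : ∃ ω : Ω, MulAction.orbit K ω ≠ Set.univ := by
    by_contra hcon
    push Not at hcon
    apply ht
    constructor
    intro x y
    have h3 : y ∈ MulAction.orbit K x := by
      rw [hcon]
      trivial
    exact h3
  let P : Ω → Prop := fun x => x ∈ MulAction.orbit K ω
  have hP : ∀ g : K, ∀ x, P (g.1 x) ↔ P x := by
    intro g x
    constructor
    · rintro ⟨h, hh⟩
      refine ⟨g⁻¹ * h, ?_⟩
      have h4 : h • ω = g.1 x := hh
      change (g⁻¹ * h) • ω = x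
      rw [mul_smul, h4]
      exact inv_smul_smul g x
    · rintro ⟨h, hh⟩
      refine ⟨g * h, ?_⟩
      have h4 : h • ω = x := hh
      change (g * h) • ω = g.1 x
      rw [mul_smul, h4]
      rfl
  have hP' : ∀ g : K, ∀ x, ¬ P (g.1 x) ↔ ¬ P x := fun g x => not_congr (hP g x)
  have hs1 : Group.IsSolvable (phi_SC K P hP).range :=
    Group.isSolvable_of_surjective (phi_SC K P hP).rangeRestrict_surjective
  have hs2 : Group.IsSolvable (phi_SC K (fun x => ¬ P x) hP').range :=
    Group.isSolvable_of_surjective (phi_SC K (fun x => ¬ P x) hP').rangeRestrict_surjective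
  have hinj : ∀ x y : K, phi_SC K P hP x = phi_SC K P hP y →
      phi_SC K (fun x => ¬ P x) hP' x = phi_SC K (fun x => ¬ P x) hP' y → x = y := by
    intro x y h5 h6
    apply Subtype.ext
    ext1 z
    by_cases hz : P z
    · have := congrArg Subtype.val (Equiv.congr_fun h5 ⟨z, hz⟩)
      rwa [phi_apply_SC, phi_apply_SC] at this
    · have := congrArg Subtype.val (Equiv.congr_fun h6 ⟨z, hz⟩)
      rwa [phi_apply_SC, phi_apply_SC] at this
  refine ⟨Fintype.card {x // P x}, Fintype.card {x // ¬ P x}, {x // P x}, {x // ¬ P x},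
    inferInstance, inferInstance, inferInstance, inferInstance, (phi_SC K P hP).range,
    (phi_SC K (fun x => ¬ P x) hP').range, ?_, ?_, ?_, rfl, rfl, hs1, hs2, ?_, ?_⟩
  · have : Nonempty {x // P x} := ⟨⟨ω, MulAction.mem_orbit_self ω⟩⟩
    exact Fintype.card_pos
  · obtain ⟨y, hy⟩ := (Set.ne_univ_iff_exists_notMem _).1 hω
    have : Nonempty {x // ¬ P x} := ⟨⟨y, hy⟩⟩
    exact Fintype.card_pos
  · have h3 := Fintype.card_subtype_compl P
    have h4 := Fintype.card_subtype_le P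
    omega
  · rw [← Nat.card_prod]
    refine Nat.card_le_card_of_injective (fun x : K => ((⟨phi_SC K P hP x, ⟨x, rfl⟩⟩,
      ⟨phi_SC K (fun x => ¬ P x) hP' x, ⟨x, rfl⟩⟩) :
      (phi_SC K P hP).range × (phi_SC K (fun x => ¬ P x) hP').range)) ?_
    intro x y hxy
    have h5 := congrArg Prod.fst hxy
    have h6 := congrArg Prod.snd hxy
    exact hinj x y (congrArg Subtype.val h5) (congrArg Subtype.val h6)
  · intro p hp k
    rw [coeff_gg K hp.one_lt.le, coeff_mul]
    simp only [coeff_gg _ hp.one_lt.le]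
    set K₁ := (phi_SC K P hP).range with hK₁
    set K₂ := (phi_SC K (fun x => ¬ P x) hP').range with hK₂
    let Fib : Finset.HasAntidiagonal.antidiagonal k → Type := fun x =>
      {g : Perm {x // P x} // g ∈ K₁ ∧ g ^ p = 1 ∧ g.support.card = p * x.1.1} ×
        {g : Perm {x // ¬ P x} // g ∈ K₂ ∧ g ^ p = 1 ∧ g.support.card = p * x.1.2}
    have hfin : ∀ x, Finite (Fib x) := fun x => by
      simp only [Fib]
      infer_instance
    have h7 : nn K p k ≤ Nat.card (Σ x : Finset.HasAntidiagonal.antidiagonal k, Fib x) := by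
      unfold nn
      have ha : ∀ x : {g : Perm Ω // g ∈ K ∧ g ^ p = 1 ∧ g.support.card = p * k},
          (⟨x.1, x.2.1⟩ : K) ^ p = 1 := fun x => Subtype.ext x.2.2.1
      have hb : ∀ x : {g : Perm Ω // g ∈ K ∧ g ^ p = 1 ∧ g.support.card = p * k},
          (phi_SC K P hP ⟨x.1, x.2.1⟩) ^ p = 1 := fun x => by
        rw [← map_pow, ha, map_one]
      have hc : ∀ x : {g : Perm Ω // g ∈ K ∧ g ^ p = 1 ∧ g.support.card = p * k},
          (phi_SC K (fun x => ¬ P x) hP' ⟨x.1, x.2.1⟩) ^ p = 1 := fun x => by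
        rw [← map_pow, ha, map_one]
      refine Nat.card_le_card_of_injective (fun x =>
        (⟨⟨((phi_SC K P hP ⟨x.1, x.2.1⟩).support.card / p,
          (phi_SC K (fun x => ¬ P x) hP' ⟨x.1, x.2.1⟩).support.card / p), ?_⟩,
          (⟨phi_SC K P hP ⟨x.1, x.2.1⟩, ⟨⟨x.1, x.2.1⟩, rfl⟩, hb x,
            (Nat.mul_div_cancel' (dvd_support hp _ (hb x))).symm⟩,
          ⟨phi_SC K (fun x => ¬ P x) hP' ⟨x.1, x.2.1⟩, ⟨⟨x.1, x.2.1⟩, rfl⟩, hc x,
            (Nat.mul_div_cancel' (dvd_support hp _ (hc x))).symm⟩)⟩ :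
          Σ x : Finset.HasAntidiagonal.antidiagonal k, Fib x)) ?_
      · rw [Finset.HasAntidiagonal.mem_antidiagonal]
        have h8 := supp_SC K P hP hP' ⟨x.1, x.2.1⟩
        have h9 := Nat.mul_div_cancel' (dvd_support hp _ (hb x))
        have h10 := Nat.mul_div_cancel' (dvd_support hp _ (hc x))
        have h11 : x.1.support.card = p * k := x.2.2.2
        have h12 := h11.symm.trans h8
        rw [← h9, ← h10, ← Nat.mul_add] at h12
        exact (Nat.eq_of_mul_eq_mul_left hp.pos h12).symm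
      · intro x y hxy
        have h8 : phi_SC K P hP ⟨x.1, x.2.1⟩ = phi_SC K P hP ⟨y.1, y.2.1⟩ :=
          congrArg (fun z : Σ x : Finset.HasAntidiagonal.antidiagonal k, Fib x => z.2.1.1) hxy
        have h9 : phi_SC K (fun x => ¬ P x) hP' ⟨x.1, x.2.1⟩ =
            phi_SC K (fun x => ¬ P x) hP' ⟨y.1, y.2.1⟩ :=
          congrArg (fun z : Σ x : Finset.HasAntidiagonal.antidiagonal k, Fib x => z.2.2.1) hxy
        have h10 := hinj _ _ h8 h9
        have h11 : x.1 = y.1 := congrArg (fun z : K => z.1) h10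
        exact Subtype.ext h11
    refine h7.trans ?_
    rw [Nat.card_sigma]
    have h8 : ∀ x : Finset.HasAntidiagonal.antidiagonal k, Nat.card (Fib x) =
        (fun y : ℕ × ℕ => nn K₁ p y.1 * nn K₂ p y.2) x.1 := fun x => Nat.card_prod _ _
    rw [Finset.sum_congr rfl (fun x _ => h8 x), Finset.sum_coe_sort (Finset.HasAntidiagonal.antidiagonal k)
      (fun y : ℕ × ℕ => nn K₁ p y.1 * nn K₂ p y.2)]

end Pool.Agent.H77.TS
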