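import Pool.Agent.H77.TS.Sa2
import Pool.Agent.H77.TS.Sb
import Pool.Agent.H77.TS.Sc

/-!
[H77 TS SD] The trichotomy (20-30 min).

PROOF. If K is not transitive: sc. If K is transitive and not preprimitive: sb and sa2
(De is nonempty: its cardinality is a ≥ 2). Otherwise the third possibility.
-/

namespace Pool.Agent.H77.TS

open Equiv

theorem sd {Ω : Type} [Fintype Ω] [DecidableEq Ω] (K : Subgroup (Perm Ω))
    (hK : Group.IsSolvable K) (h2 : 2 ≤ Fintype.card Ω) : Tri K := by
  by_cases ht : MulAction.IsPretransitive K Ω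
  · by_cases hp : MulAction.IsPreprimitive K Ω
    · exact Or.inr (Or.inr hp)
    · obtain ⟨a, b, De, Bl, i1, i2, i3, i4, A, B, e, ha, hb, hab, hDe, hBl, hA, hB, hg⟩ :=
        sb K hK h2 ht hp
      have hne : Nonempty De := Fintype.card_pos_iff.1 (by omega)
      obtain ⟨h5, h6⟩ := sa2 K e A B hg
      rw [hBl] at h6
      exact Or.inr (Or.inl ⟨a, b, De, Bl, i1, i2, i3, i4, A, B, ha, hb, hab, hDe, hBl, hA, hB,
        h6, h5⟩)
  · exact Or.inl (sc K hK h2 ht)

end Pool.Agent.H77.TS
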