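import Pool.Agent.H77.TS.Base
import Pool.Agent.H77.TI.Base

/-!
[H77 TS UB0] The union bound (75-100 min).

PROOF. Let n = |Γ|, N = n^5 the number of tuples x : Fin 5 → Γ. Call x good if
∀ g, (∀ i, x i * g * (x i)⁻¹ ∈ K i) → g = 1.
(1) If x is not good there is g ≠ 1 with the property, and a power of g has prime order and also has
the property. So the number of bad x is at most ∑_g ∏_i #{y : Γ | y g y⁻¹ ∈ K i} =
N * ∑_g ∏_i yy (K i) g, g over the elements of prime order.
(2) Relation on tuples: x ~ x' iff ∃ n, ∀ i, x' i * n * (x i)⁻¹ ∈ K i (an equivalence relation). For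
fixed x the number of x' with x ~ x' is at most n ∏ |K i| (x' i = k i * x i * n⁻¹).
(3) If there are five pairwise inequivalent good tuples τ c then Five ⊤ K: from
τ c' i * n * (τ c i)⁻¹ ∈ K i for all i we get τ c ~ τ c', so c = c', and n = 1 because τ c is good.
(4) Otherwise choose a maximal family of pairwise inequivalent good tuples: at most 4 members, and
every good tuple is equivalent to one of them: at most 4 n ∏ |K i| good tuples. Then
n^5 ≤ n^5 ∑ ∏ yy + 4 n ∏ |K i|, contradicting the hypothesis (divide by n^5).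
ub0b: arithmetic-geometric mean: ∏_i y_i ≤ (1/5) ∑_i y_i^5 for y_i ≥ 0 (Real.inner_le..,
Real.geom_mean_le_arith_mean_weighted, or the elementary inequality), applied to yy (K i) g for every
g and to |K i|; the hypothesis of ub0 is at most the mean of the five hypotheses.
-/

namespace Pool.Agent.H77.TS

open Pool.Agent.H77.TI

/-- The proportion of `x` with `x g x⁻¹ ∈ K`. -/
noncomputable def yy {Γ : Type} [Group Γ] (K : Subgroup Γ) (g : Γ) : ℝ :=
  (Nat.card {x : Γ // x * g * x⁻¹ ∈ K} : ℝ) / Nat.card Γ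

/-- A tuple is good if no nontrivial element is conjugated into all the groups `K i`. -/
def ub0Good {Γ : Type} [Group Γ] (K : Fin 5 → Subgroup Γ) (x : Fin 5 → Γ) : Prop :=
  ∀ g, (∀ i, x i * g * (x i)⁻¹ ∈ K i) → g = 1

/-- The equivalence of tuples. -/
def ub0Rel {Γ : Type} [Group Γ] (K : Fin 5 → Subgroup Γ) (x x' : Fin 5 → Γ) : Prop :=
  ∃ n, ∀ i, x' i * n * (x i)⁻¹ ∈ K i

theorem ub0Rel_symm {Γ : Type} [Group Γ] (K : Fin 5 → Subgroup Γ) {x x' : Fin 5 → Γ}
    (h : ub0Rel K x x') : ub0Rel K x' x := by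
  obtain ⟨n, hn⟩ := h
  refine ⟨n⁻¹, fun i => ?_⟩
  have := (K i).inv_mem (hn i)
  simpa [mul_assoc] using this

theorem ub0Rel_refl {Γ : Type} [Group Γ] (K : Fin 5 → Subgroup Γ) (x : Fin 5 → Γ) :
    ub0Rel K x x := ⟨1, fun i => by simp [(K i).one_mem]⟩

open Classical in
/-- The number of bad tuples. -/
theorem ub0_bad {Γ : Type} [Group Γ] [Fintype Γ] (K : Fin 5 → Subgroup Γ) :
    (Finset.univ.filter (fun x : Fin 5 → Γ => ¬ ub0Good K x)).card ≤
      ∑ g ∈ Finset.univ.filter (fun g : Γ => (orderOf g).Prime),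
        ∏ i, (Finset.univ.filter (fun y : Γ => y * g * y⁻¹ ∈ K i)).card := by
  have hsub : Finset.univ.filter (fun x : Fin 5 → Γ => ¬ ub0Good K x) ⊆
      (Finset.univ.filter (fun g : Γ => (orderOf g).Prime)).biUnion fun g =>
        Fintype.piFinset fun i => Finset.univ.filter (fun y : Γ => y * g * y⁻¹ ∈ K i) := by
    intro x hx
    rw [Finset.mem_filter] at hx
    have hx2 := hx.2
    unfold ub0Good at hx2
    push Not at hx2
    obtain ⟨g, hg, hg1⟩ := hx2
    have ho : orderOf g ≠ 1 := by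
      rw [Ne, orderOf_eq_one_iff]
      exact hg1
    obtain ⟨p, hp, hpd⟩ := Nat.exists_prime_and_dvd ho
    have ho0 : orderOf g ≠ 0 := (orderOf_pos g).ne'
    rw [Finset.mem_biUnion]
    refine ⟨g ^ (orderOf g / p), ?_, ?_⟩
    · rw [Finset.mem_filter]
      refine ⟨Finset.mem_univ _, ?_⟩
      rw [orderOf_pow_orderOf_div ho0 hpd]
      exact hp
    · rw [Fintype.mem_piFinset]
      intro i
      rw [Finset.mem_filter]
      refine ⟨Finset.mem_univ _, ?_⟩
      rw [← conj_pow]
      exact (K i).pow_mem (hg i) _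
  refine (Finset.card_le_card hsub).trans (Finset.card_biUnion_le.trans ?_)
  refine Finset.sum_le_sum fun g _ => ?_
  rw [Fintype.card_piFinset]

open Classical in
/-- The size of an equivalence class. -/
theorem ub0_class {Γ : Type} [Group Γ] [Fintype Γ] (K : Fin 5 → Subgroup Γ) (x : Fin 5 → Γ) :
    (Finset.univ.filter (fun x' : Fin 5 → Γ => ub0Rel K x x')).card ≤
      Fintype.card Γ * ∏ i, Nat.card (K i) := by
  have hsub : Finset.univ.filter (fun x' : Fin 5 → Γ => ub0Rel K x x') ⊆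
      (Finset.univ : Finset (Γ × ∀ i, K i)).image fun a => fun i => (a.2 i : Γ) * x i * a.1⁻¹ := by
    intro x' hx'
    rw [Finset.mem_filter] at hx'
    obtain ⟨n, hn⟩ := hx'.2
    rw [Finset.mem_image]
    refine ⟨(n, fun i => ⟨_, hn i⟩), Finset.mem_univ _, ?_⟩
    funext i
    simp
  refine (Finset.card_le_card hsub).trans (Finset.card_image_le.trans ?_)
  rw [Finset.card_univ, Fintype.card_prod, Fintype.card_pi]
  refine le_of_eq ?_
  congr 1
  refine Finset.prod_congr rfl fun i _ => ?_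
  rw [Nat.card_eq_fintype_card]

open Classical in
/-- The greedy choice. -/
theorem ub0_greedy {Γ : Type} [Group Γ] [Fintype Γ] (K : Fin 5 → Subgroup Γ)
    (h : (Finset.univ.filter (fun x : Fin 5 → Γ => ¬ ub0Good K x)).card +
      4 * (Fintype.card Γ * ∏ i, Nat.card (K i)) < Fintype.card Γ ^ 5) (m : ℕ) (hm : m ≤ 5) :
    ∃ s : Finset (Fin 5 → Γ), s.card = m ∧ (∀ x ∈ s, ub0Good K x) ∧
      ∀ x ∈ s, ∀ x' ∈ s, x ≠ x' → ¬ ub0Rel K x x' := by
  induction m with
  | zero => exact ⟨∅, by simp⟩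
  | succ m ih =>
    obtain ⟨s, hs, hgood, hpair⟩ := ih (by omega)
    have hU : (Finset.univ.filter (fun x : Fin 5 → Γ => ¬ ub0Good K x) ∪
        s.biUnion fun x => Finset.univ.filter (fun x' : Fin 5 → Γ => ub0Rel K x x')).card
        < (Finset.univ : Finset (Fin 5 → Γ)).card := by
      have h1 : (s.biUnion fun x => Finset.univ.filter
          (fun x' : Fin 5 → Γ => ub0Rel K x x')).card ≤ 4 * (Fintype.card Γ * ∏ i, Nat.card (K i)) := by
        refine Finset.card_biUnion_le.trans ?_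
        calc ∑ x ∈ s, (Finset.univ.filter (fun x' : Fin 5 → Γ => ub0Rel K x x')).card
            ≤ ∑ _x ∈ s, Fintype.card Γ * ∏ i, Nat.card (K i) :=
              Finset.sum_le_sum fun x _ => ub0_class K x
          _ = m * (Fintype.card Γ * ∏ i, Nat.card (K i)) := by
              rw [Finset.sum_const, hs, smul_eq_mul]
          _ ≤ 4 * (Fintype.card Γ * ∏ i, Nat.card (K i)) := Nat.mul_le_mul_right _ (by omega)
      have h2 : (Finset.univ : Finset (Fin 5 → Γ)).card = Fintype.card Γ ^ 5 := by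
        rw [Finset.card_univ, Fintype.card_fun, Fintype.card_fin]
      rw [h2]
      exact (Finset.card_union_le _ _).trans_lt ((Nat.add_le_add_left h1 _).trans_lt h)
    obtain ⟨y, _, hy⟩ := Finset.exists_mem_notMem_of_card_lt_card hU
    rw [Finset.mem_union, not_or, Finset.mem_filter, Finset.mem_biUnion] at hy
    obtain ⟨hy1, hy2⟩ := hy
    have hyg : ub0Good K y := by
      by_contra hc
      exact hy1 ⟨Finset.mem_univ _, hc⟩
    have hyr : ∀ x ∈ s, ¬ ub0Rel K x y := fun x hx hr =>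
      hy2 ⟨x, hx, Finset.mem_filter.mpr ⟨Finset.mem_univ _, hr⟩⟩
    have hys : y ∉ s := fun hys => hyr y hys (ub0Rel_refl K y)
    refine ⟨insert y s, by rw [Finset.card_insert_of_notMem hys, hs], ?_, ?_⟩
    · intro x hx
      rcases Finset.mem_insert.mp hx with rfl | hx
      · exact hyg
      · exact hgood x hx
    · intro x hx x' hx' hne
      rcases Finset.mem_insert.mp hx with h1 | h1
      · rcases Finset.mem_insert.mp hx' with h2 | h2
        · exact absurd (h1.trans h2.symm) hne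
        · rw [h1]
          exact fun hr => hyr x' h2 (ub0Rel_symm K hr)
      · rcases Finset.mem_insert.mp hx' with h2 | h2
        · rw [h2]
          exact hyr x h1
        · exact hpair x h1 x' h2 hne

/-- Arithmetic-geometric mean for five numbers. -/
theorem ub0_amgm (y : Fin 5 → ℝ) (hy : ∀ i, 0 ≤ y i) : ∏ i, y i ≤ (1 / 5) * ∑ i, y i ^ 5 := by
  have h := Real.geom_mean_le_arith_mean_weighted (Finset.univ : Finset (Fin 5))
    (fun _ => (1 / 5 : ℝ)) (fun i => y i ^ 5) (fun _ _ => by norm_num) (by simp)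
    (fun i _ => pow_nonneg (hy i) 5)
  have h2 : ∀ i, ((y i ^ 5) ^ (1 / 5 : ℝ) : ℝ) = y i := by
    intro i
    have := Real.pow_rpow_inv_natCast (hy i) (show (5 : ℕ) ≠ 0 by norm_num)
    rw [one_div]
    exact_mod_cast this
  simp only [h2] at h
  rw [Finset.mul_sum]
  exact h

open Classical in
theorem ub0 {Γ : Type} [Group Γ] [Fintype Γ] (K : Fin 5 → Subgroup Γ)
    (h : (∑ g ∈ Finset.univ.filter (fun g : Γ => (orderOf g).Prime), ∏ i, yy (K i) g) +
      4 * (∏ i, (Nat.card (K i) : ℝ)) / (Nat.card Γ : ℝ) ^ 4 < 1) : Five ⊤ K := by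
  have hn : (0 : ℝ) < Fintype.card Γ := by exact_mod_cast Fintype.card_pos
  have hcard : ∀ i (g : Γ), yy (K i) g =
      ((Finset.univ.filter (fun y : Γ => y * g * y⁻¹ ∈ K i)).card : ℝ) / Fintype.card Γ := by
    intro i g
    unfold yy
    rw [Nat.card_eq_fintype_card, Nat.card_eq_fintype_card, Fintype.card_subtype]
  have hmain : (Finset.univ.filter (fun x : Fin 5 → Γ => ¬ ub0Good K x)).card +
      4 * (Fintype.card Γ * ∏ i, Nat.card (K i)) < Fintype.card Γ ^ 5 := by
    refine lt_of_le_of_lt (Nat.add_le_add_right (ub0_bad K) _) ?_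
    have h1 : ((∑ g ∈ Finset.univ.filter (fun g : Γ => (orderOf g).Prime),
        ∏ i, ((Finset.univ.filter (fun y : Γ => y * g * y⁻¹ ∈ K i)).card : ℝ)) +
        4 * ((Fintype.card Γ : ℝ) * ∏ i, (Nat.card (K i) : ℝ))) < (Fintype.card Γ : ℝ) ^ 5 := by
      have h2 := mul_lt_mul_of_pos_right h (pow_pos hn 5)
      rw [one_mul, add_mul, Finset.sum_mul, Nat.card_eq_fintype_card] at h2
      refine lt_of_eq_of_lt ?_ h2
      congr 1
      · refine Finset.sum_congr rfl fun g _ => ?_
        simp only [hcard]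
        rw [Finset.prod_div_distrib, Finset.prod_const, Finset.card_univ, Fintype.card_fin,
          div_mul_cancel₀ _ (pow_pos hn 5).ne']
      · field_simp
    exact_mod_cast h1
  obtain ⟨s, hs, hgood, hpair⟩ := ub0_greedy K hmain 5 le_rfl
  have e := s.equivFinOfCardEq hs
  refine ⟨fun c => (e.symm c).1, fun _ _ => Subgroup.mem_top _, ?_⟩
  intro c c' n hn
  have hcc : c = c' := by
    by_contra hne
    have hne2 : (e.symm c).1 ≠ (e.symm c').1 := by
      intro he
      exact hne (e.symm.injective (Subtype.ext he))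
    exact hpair _ (e.symm c).2 _ (e.symm c').2 hne2 ⟨n, hn⟩
  subst hcc
  exact ⟨rfl, hgood _ (e.symm c).2 n hn⟩

open Classical in
theorem ub0b {Γ : Type} [Group Γ] [Fintype Γ] (K : Fin 5 → Subgroup Γ)
    (h : ∀ i, (∑ g ∈ Finset.univ.filter (fun g : Γ => (orderOf g).Prime), (yy (K i) g) ^ 5) +
      4 * (Nat.card (K i) : ℝ) ^ 5 / (Nat.card Γ : ℝ) ^ 4 < 1) : Five ⊤ K := by
  apply ub0 K
  have hyy : ∀ i (g : Γ), 0 ≤ yy (K i) g := fun i g => by
    unfold yy
    positivity
  have hA : (∑ g ∈ Finset.univ.filter (fun g : Γ => (orderOf g).Prime), ∏ i, yy (K i) g) ≤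
      ∑ g ∈ Finset.univ.filter (fun g : Γ => (orderOf g).Prime),
        (1 / 5 : ℝ) * ∑ i, (yy (K i) g) ^ 5 :=
    Finset.sum_le_sum fun g _ => ub0_amgm _ fun i => hyy i g
  have hB : 4 * (∏ i, (Nat.card (K i) : ℝ)) / (Nat.card Γ : ℝ) ^ 4 ≤
      4 * ((1 / 5 : ℝ) * ∑ i, (Nat.card (K i) : ℝ) ^ 5) / (Nat.card Γ : ℝ) ^ 4 := by
    have := ub0_amgm (fun i => (Nat.card (K i) : ℝ)) (fun i => Nat.cast_nonneg _)
    gcongr
  refine lt_of_le_of_lt (add_le_add hA hB) ?_
  have hsum : ∑ i : Fin 5, ((∑ g ∈ Finset.univ.filter (fun g : Γ => (orderOf g).Prime),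
      (yy (K i) g) ^ 5) + 4 * (Nat.card (K i) : ℝ) ^ 5 / (Nat.card Γ : ℝ) ^ 4) < ∑ _i : Fin 5, (1 : ℝ) :=
    Finset.sum_lt_sum_of_nonempty Finset.univ_nonempty fun i _ => h i
  rw [Finset.sum_add_distrib, Finset.sum_comm, ← Finset.sum_div, ← Finset.mul_sum] at hsum
  simp only [Finset.sum_const, Finset.card_univ, Fintype.card_fin, nsmul_eq_mul, mul_one] at hsum
  rw [← Finset.mul_sum]
  have e : 4 * ((1 / 5 : ℝ) * ∑ i, (Nat.card (K i) : ℝ) ^ 5) / (Nat.card Γ : ℝ) ^ 4
      = (1 / 5) * (4 * (∑ i, (Nat.card (K i) : ℝ) ^ 5) / (Nat.card Γ : ℝ) ^ 4) := by ring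
  rw [e]
  push_cast at hsum
  linarith

end Pool.Agent.H77.TS
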