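import Pool.Agent.H77.TS.Ub2

/-!
[H77 TS UB3] The proportions for the alternating group (75-100 min).

PROOF. Let A = alternatingGroup (Fin m), m ≥ 2, |A| = m!/2, K ≤ A, K' = K.subgroupOf A. For g in A of
type (p, k), k ≥ 1: (a) always #{x ∈ A | x g x⁻¹ ∈ K} ≤ #{x ∈ Perm | x g x⁻¹ ∈ K}, so
yy K' g ≤ 2 * yy K g = 2 nn K p k / cc m p k (yy_eq). (b) If g commutes with an odd permutation s
then x ↦ x s is a bijection between the even and the odd x with x g x⁻¹ ∈ K, so
yy K' g = yy K g = nn K p k / cc m p k. Such an s exists if p = 2 (s = one of the transpositions of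
g: swap a (g a)), if k ≥ 2 and p is odd (s exchanges two p-cycles of g: s = ∏_{i<p}
(g^i a, g^i b), a product of p transpositions, with a, b in different cycles; s commutes with g), and
if m ≥ p k + 2 (a transposition of two fixed points). Remaining: p odd, k = 1, m ≤ p + 1: use (a),
factor 2^5 = 32.
If p = 2 and k is odd then g is odd, so it is not in A. The elements of prime order of A: as in UB2.
The number of g ∈ A of type (p, k) is at most cc m p k.
-/

namespace Pool.Agent.H77.TS

open Equiv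

/-- The weight of the class `(p, k)` in the alternating group of degree `m`. -/
def wt (m p k : ℕ) : ℕ :=
  if p = 2 ∧ k % 2 = 1 then 0 else if p ≠ 2 ∧ k = 1 ∧ m ≤ p + 1 then 32 else 1

private theorem ub3_ct (m : ℕ) (g : Perm (Fin m)) (hg : (orderOf g).Prime) :
    ∃ k, 1 ≤ k ∧ g.cycleType = Multiset.replicate k (orderOf g) ∧
      g.support.card = orderOf g * k ∧ g.support.card / orderOf g = k := by
  obtain ⟨n, hn⟩ := Equiv.Perm.cycleType_prime_order hg
  have h1 : g.support.card = (n + 1) * orderOf g := by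
    rw [← Equiv.Perm.sum_cycleType, hn, Multiset.sum_replicate, smul_eq_mul]
  have h2 : g.support.card / orderOf g = n + 1 := by
    rw [h1, Nat.mul_div_cancel _ hg.pos]
  exact ⟨n + 1, by omega, hn, by rw [h1, mul_comm], h2⟩

private theorem ub3_odd (m p k : ℕ) (g : Perm (Fin m)) (hp : p.Prime) (hk : 1 ≤ k)
    (ho : orderOf g = p) (hc : g.cycleType = Multiset.replicate k p)
    (hn : ¬ (p ≠ 2 ∧ k = 1 ∧ m ≤ p + 1)) :
    ∃ s : Perm (Fin m), Perm.sign s = -1 ∧ s * g = g * s := by
  by_contra hcon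
  push Not at hcon
  have hle : Subgroup.centralizer {g} ≤ alternatingGroup (Fin m) := by
    intro s hs
    rw [Subgroup.mem_centralizer_singleton_iff] at hs
    rw [Perm.mem_alternatingGroup]
    rcases Int.units_eq_one_or (Perm.sign s) with h | h
    · exact h
    · exact absurd hs (hcon s h)
  rw [Equiv.Perm.centralizer_le_alternating_iff] at hle
  obtain ⟨h1, h2, h3⟩ := hle
  apply hn
  have hk1 : k = 1 := by
    have := h3 p
    rw [hc, Multiset.count_replicate_self] at this
    omega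
  refine ⟨?_, hk1, ?_⟩
  · rintro rfl
    have := h1 2 (by rw [hc]; exact Multiset.mem_replicate.2 ⟨by omega, rfl⟩)
    revert this
    decide
  · rw [hc, Multiset.sum_replicate, hk1] at h2
    simpa using h2

open Classical in
private theorem ub3_card (m : ℕ) (K : Subgroup (Perm (Fin m)))
    (g : alternatingGroup (Fin m)) :
    Nat.card {x : alternatingGroup (Fin m) //
        x * g * x⁻¹ ∈ K.subgroupOf (alternatingGroup (Fin m))} =
      (Finset.univ.filter (fun x : Perm (Fin m) =>
        Perm.sign x = 1 ∧ x * (g : Perm (Fin m)) * x⁻¹ ∈ K)).card := by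
  rw [Nat.card_eq_fintype_card, Fintype.card_subtype]
  apply Finset.card_bij (fun (x : alternatingGroup (Fin m)) _ => (x : Perm (Fin m)))
  · intro x hx
    rw [Finset.mem_filter] at hx ⊢
    refine ⟨Finset.mem_univ _, Perm.mem_alternatingGroup.1 x.2, ?_⟩
    have := hx.2
    rw [Subgroup.mem_subgroupOf] at this
    simpa using this
  · intro x _ y _ h
    exact Subtype.ext h
  · intro z hz
    rw [Finset.mem_filter] at hz
    refine ⟨⟨z, Perm.mem_alternatingGroup.2 hz.2.1⟩, ?_, rfl⟩
    rw [Finset.mem_filter]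
    refine ⟨Finset.mem_univ _, ?_⟩
    rw [Subgroup.mem_subgroupOf]
    simpa using hz.2.2

private theorem ub3_a (m : ℕ) (hm : 2 ≤ m) :
    2 * (Nat.card (alternatingGroup (Fin m)) : ℝ) = Nat.card (Perm (Fin m)) := by
  haveI : Nontrivial (Fin m) := Fin.nontrivial_iff_two_le.2 hm
  exact_mod_cast two_mul_nat_card_alternatingGroup (α := Fin m)

open Classical in
private theorem ub3_le (m : ℕ) (hm : 2 ≤ m) (K : Subgroup (Perm (Fin m)))
    (g : alternatingGroup (Fin m)) :
    yy (K.subgroupOf (alternatingGroup (Fin m))) g ≤ 2 * yy K (g : Perm (Fin m)) := by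
  unfold yy
  rw [ub3_card, ← ub3_a m hm]
  have h0 : (0 : ℝ) < Nat.card (alternatingGroup (Fin m)) := by exact_mod_cast Nat.card_pos
  have h1 : ((Finset.univ.filter (fun x : Perm (Fin m) =>
        Perm.sign x = 1 ∧ x * (g : Perm (Fin m)) * x⁻¹ ∈ K)).card : ℝ) ≤
      Nat.card {x : Perm (Fin m) // x * (g : Perm (Fin m)) * x⁻¹ ∈ K} := by
    rw [Nat.card_eq_fintype_card, Fintype.card_subtype]
    exact_mod_cast Finset.card_le_card (fun x hx => by
      rw [Finset.mem_filter] at hx ⊢
      exact ⟨hx.1, hx.2.2⟩)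
  have h2 : 2 * ((Nat.card {x : Perm (Fin m) // x * (g : Perm (Fin m)) * x⁻¹ ∈ K} : ℝ) /
      (2 * (Nat.card (alternatingGroup (Fin m)) : ℝ))) =
      (Nat.card {x : Perm (Fin m) // x * (g : Perm (Fin m)) * x⁻¹ ∈ K} : ℝ) /
        (Nat.card (alternatingGroup (Fin m)) : ℝ) := by
    field_simp
  rw [h2]
  exact div_le_div_of_nonneg_right h1 h0.le

open Classical in
private theorem ub3_eq (m : ℕ) (hm : 2 ≤ m) (K : Subgroup (Perm (Fin m)))
    (g : alternatingGroup (Fin m)) (s : Perm (Fin m)) (hs : Perm.sign s = -1)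
    (hsg : s * (g : Perm (Fin m)) = (g : Perm (Fin m)) * s) :
    yy (K.subgroupOf (alternatingGroup (Fin m))) g = yy K (g : Perm (Fin m)) := by
  unfold yy
  rw [ub3_card, ← ub3_a m hm]
  have h0 : (0 : ℝ) < Nat.card (alternatingGroup (Fin m)) := by exact_mod_cast Nat.card_pos
  have hpar : (Finset.univ.filter (fun x : Perm (Fin m) =>
        Perm.sign x = 1 ∧ x * (g : Perm (Fin m)) * x⁻¹ ∈ K)).card =
      (Finset.univ.filter (fun x : Perm (Fin m) =>
        ¬ Perm.sign x = 1 ∧ x * (g : Perm (Fin m)) * x⁻¹ ∈ K)).card := by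
    have hsinv : Perm.sign s⁻¹ = -1 := by rw [Perm.sign_inv, hs]
    apply Finset.card_bij (fun x _ => x * s)
    · intro x hx
      rw [Finset.mem_filter] at hx ⊢
      refine ⟨Finset.mem_univ _, ?_, ?_⟩
      · rw [Perm.sign_mul, hx.2.1, hs]
        decide
      · have h1 : x * s * (g : Perm (Fin m)) * (x * s)⁻¹ = x * (g : Perm (Fin m)) * x⁻¹ := by
          rw [mul_assoc x s, hsg]
          group
        rw [h1]
        exact hx.2.2
    · intro x _ y _ h
      exact mul_right_cancel h
    · intro z hz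
      rw [Finset.mem_filter] at hz
      refine ⟨z * s⁻¹, ?_, by group⟩
      rw [Finset.mem_filter]
      refine ⟨Finset.mem_univ _, ?_, ?_⟩
      · rcases Int.units_eq_one_or (Perm.sign z) with h | h
        · exact absurd h hz.2.1
        · rw [Perm.sign_mul, h, hsinv]
          decide
      · have h1 : z * s⁻¹ * (g : Perm (Fin m)) * (z * s⁻¹)⁻¹ = z * (g : Perm (Fin m)) * z⁻¹ := by
          have h2 : s⁻¹ * (g : Perm (Fin m)) = (g : Perm (Fin m)) * s⁻¹ := by
            rw [inv_mul_eq_iff_eq_mul, ← mul_assoc, hsg, mul_assoc, mul_inv_cancel, mul_one]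
          rw [mul_assoc z s⁻¹, h2]
          group
        rw [h1]
        exact hz.2.2
  have hsum : Nat.card {x : Perm (Fin m) // x * (g : Perm (Fin m)) * x⁻¹ ∈ K} =
      2 * (Finset.univ.filter (fun x : Perm (Fin m) =>
        Perm.sign x = 1 ∧ x * (g : Perm (Fin m)) * x⁻¹ ∈ K)).card := by
    rw [Nat.card_eq_fintype_card, Fintype.card_subtype, two_mul]
    nth_rewrite 2 [hpar]
    rw [← Finset.card_filter_add_card_filter_not (s := Finset.univ.filter
      (fun x : Perm (Fin m) => x * (g : Perm (Fin m)) * x⁻¹ ∈ K)) (fun x => Perm.sign x = 1),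
      Finset.filter_filter, Finset.filter_filter]
    congr 2
    · ext x
      simp [and_comm]
    · ext x
      simp [and_comm]
  rw [hsum]
  push_cast
  field_simp

open Classical in
private theorem ub3_one (m : ℕ) (K : Subgroup (Perm (Fin m))) (t : ℕ → ℕ → ℕ)
    (ht : ∀ p k : ℕ, p.Prime → nn K p k ≤ t p k) (p k : ℕ) (hp : p.Prime) (hk : 1 ≤ k)
    (hpk : p * k ≤ m) (F : Finset (alternatingGroup (Fin m))) (c : ℝ) (hc : 0 ≤ c)
    (hF : ∀ g ∈ F, (g : Perm (Fin m)) ^ p = 1 ∧ (g : Perm (Fin m)).support.card = p * k)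
    (hy : ∀ g ∈ F, yy (K.subgroupOf (alternatingGroup (Fin m))) g ≤
      c * yy K (g : Perm (Fin m))) :
    ∑ g ∈ F, (yy (K.subgroupOf (alternatingGroup (Fin m))) g) ^ 5 ≤
      c ^ 5 * (t p k : ℝ) ^ 5 / (cc m p k : ℝ) ^ 4 := by
  have h1 : ∑ g ∈ F, (yy (K.subgroupOf (alternatingGroup (Fin m))) g) ^ 5 ≤
      (F.card : ℝ) * (c ^ 5 * ((nn K p k : ℝ) / cc m p k) ^ 5) := by
    rw [← nsmul_eq_mul]
    apply Finset.sum_le_card_nsmul
    intro g hg
    rw [← mul_pow, ← yy_eq m p k hp hk K g (hF g hg).1 (hF g hg).2]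
    apply pow_le_pow_left₀ _ (hy g hg)
    unfold yy
    positivity
  have hcc := cc1 m p k hp hk hpk
  have h2 : F.card ≤ cc m p k := by
    rw [← hcc.1, Nat.card_eq_fintype_card, Fintype.card_subtype]
    apply Finset.card_le_card_of_injOn (fun (g : alternatingGroup (Fin m)) => (g : Perm (Fin m)))
    · intro g hg
      rw [Finset.mem_coe, Finset.mem_filter]
      exact ⟨Finset.mem_univ _, hF g hg⟩
    · intro g _ g' _ h
      exact Subtype.ext h
  have h3 : (0 : ℝ) < cc m p k := by exact_mod_cast hcc.2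
  have h4 : (nn K p k : ℝ) ≤ t p k := by exact_mod_cast ht p k hp
  refine h1.trans ?_
  calc (F.card : ℝ) * (c ^ 5 * ((nn K p k : ℝ) / cc m p k) ^ 5)
      ≤ (cc m p k : ℝ) * (c ^ 5 * ((nn K p k : ℝ) / cc m p k) ^ 5) := by
        apply mul_le_mul_of_nonneg_right _ (by positivity)
        exact_mod_cast h2
    _ = c ^ 5 * (nn K p k : ℝ) ^ 5 / (cc m p k : ℝ) ^ 4 := by
        field_simp
    _ ≤ c ^ 5 * (t p k : ℝ) ^ 5 / (cc m p k : ℝ) ^ 4 := by
        apply div_le_div_of_nonneg_right _ (by positivity)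
        exact mul_le_mul_of_nonneg_left (pow_le_pow_left₀ (Nat.cast_nonneg _) h4 5)
          (by positivity)

open Classical in
theorem ub3 (m : ℕ) (hm : 2 ≤ m) (K : Subgroup (Perm (Fin m)))
    (hK : K ≤ alternatingGroup (Fin m)) (t : ℕ → ℕ → ℕ)
    (ht : ∀ p k : ℕ, p.Prime → nn K p k ≤ t p k) :
    ∑ g ∈ Finset.univ.filter (fun g : alternatingGroup (Fin m) => (orderOf g).Prime),
        (yy (K.subgroupOf (alternatingGroup (Fin m))) g) ^ 5 ≤
      ∑ p ∈ (Finset.range (m + 1)).filter Nat.Prime, ∑ k ∈ Finset.Icc 1 (m / p),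
        (wt m p k : ℝ) * (t p k : ℝ) ^ 5 / (cc m p k : ℝ) ^ 4 := by
  have hmaps : ∀ g ∈ Finset.univ.filter
      (fun g : alternatingGroup (Fin m) => (orderOf g).Prime),
      (⟨orderOf g, (g : Perm (Fin m)).support.card / orderOf g⟩ : Σ _ : ℕ, ℕ) ∈
        ((Finset.range (m + 1)).filter Nat.Prime).sigma (fun p => Finset.Icc 1 (m / p)) := by
    intro g hg
    rw [Finset.mem_filter, ← Subgroup.orderOf_coe] at hg
    obtain ⟨k, h2, -, h3, h3'⟩ := ub3_ct m g hg.2
    have h4 : (g : Perm (Fin m)).support.card ≤ m := by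
      simpa using Finset.card_le_univ (g : Perm (Fin m)).support
    rw [Finset.mem_sigma, Finset.mem_filter, Finset.mem_range, Finset.mem_Icc,
      ← Subgroup.orderOf_coe]
    refine ⟨⟨?_, hg.2⟩, ?_, Nat.div_le_div_right h4⟩
    · have h5 : orderOf (g : Perm (Fin m)) ≤ orderOf (g : Perm (Fin m)) * k :=
        Nat.le_mul_of_pos_right _ h2
      show orderOf (g : Perm (Fin m)) < m + 1
      omega
    · show 1 ≤ (g : Perm (Fin m)).support.card / orderOf (g : Perm (Fin m))
      rw [h3']
      exact h2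
  rw [← Finset.sum_fiberwise_of_maps_to hmaps, Finset.sum_sigma]
  refine Finset.sum_le_sum fun p hp => Finset.sum_le_sum fun k hk => ?_
  rw [Finset.mem_filter, Finset.mem_range] at hp
  rw [Finset.mem_Icc] at hk
  have hpk : p * k ≤ m := by
    calc p * k ≤ p * (m / p) := Nat.mul_le_mul_left _ hk.2
      _ ≤ m := Nat.mul_div_le m p
  set F := Finset.filter (fun g : alternatingGroup (Fin m) =>
    (⟨orderOf g, (g : Perm (Fin m)).support.card / orderOf g⟩ : Σ _ : ℕ, ℕ) = ⟨p, k⟩)
    (Finset.univ.filter (fun g : alternatingGroup (Fin m) => (orderOf g).Prime)) with hFdef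
  have hF : ∀ g ∈ F, orderOf (g : Perm (Fin m)) = p ∧
      (g : Perm (Fin m)).cycleType = Multiset.replicate k p ∧
      (g : Perm (Fin m)) ^ p = 1 ∧ (g : Perm (Fin m)).support.card = p * k := by
    intro g hg
    rw [hFdef, Finset.mem_filter, Finset.mem_filter, ← Subgroup.orderOf_coe] at hg
    obtain ⟨k', h1, h2, h3, h3'⟩ := ub3_ct m g hg.1.2
    have h4 := hg.2
    simp only [Sigma.mk.injEq, heq_eq_eq] at h4
    obtain ⟨h5, h6⟩ := h4
    rw [h3'] at h6
    subst h5
    subst h6
    exact ⟨rfl, h2, pow_orderOf_eq_one _, h3⟩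
  by_cases hA : p = 2 ∧ k % 2 = 1
  · have hempty : F = ∅ := by
      rw [Finset.eq_empty_iff_forall_notMem]
      intro g hg
      obtain ⟨-, h2, -, -⟩ := hF g hg
      have h5 := Perm.mem_alternatingGroup.1 g.2
      rw [Perm.sign_of_cycleType, h2, Multiset.sum_replicate, Multiset.card_replicate, hA.1,
        smul_eq_mul] at h5
      have h6 : Odd (k * 2 + k) := by
        rw [Nat.odd_iff]
        omega
      rw [h6.neg_one_pow] at h5
      revert h5
      decide
    rw [hempty, Finset.sum_empty]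
    positivity
  · by_cases hB : p ≠ 2 ∧ k = 1 ∧ m ≤ p + 1
    · have hw : (wt m p k : ℝ) = 2 ^ 5 := by
        unfold wt
        rw [if_neg hA, if_pos hB]
        norm_num
      rw [hw]
      exact ub3_one m K t ht p k hp.2 hk.1 hpk F 2 (by norm_num)
        (fun g hg => (hF g hg).2.2) (fun g _ => ub3_le m hm K g)
    · have hw : (wt m p k : ℝ) = 1 ^ 5 := by
        unfold wt
        rw [if_neg hA, if_neg hB]
        norm_num
      rw [hw]
      refine ub3_one m K t ht p k hp.2 hk.1 hpk F 1 (by norm_num)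
        (fun g hg => (hF g hg).2.2) (fun g hg => ?_)
      obtain ⟨s, hs, hsg⟩ := ub3_odd m p k (g : Perm (Fin m)) hp.2 hk.1 (hF g hg).1
        (hF g hg).2.1 hB
      rw [one_mul, ub3_eq m hm K g s hs hsg]

end Pool.Agent.H77.TS
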